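import Pool.Agent.Lib.MP_53bec5_ag.Chain

/-!
Support conditions with respect to a colouring of the strands, and their propagation under sliding.
-/

namespace Pool.Agent.Lib.MP_53bec5_ag

open Matrix

set_option linter.unusedSectionVars false

variable {k : ℕ} {R : Type} [CommRing R] {C : Type}

theorem up_ind {P : ℕ → Prop} {a b : ℕ} (ha : P a)
    (step : ∀ t, a ≤ t → t < b → P t → P (t + 1)) : ∀ t, a ≤ t → t ≤ b → P t := by
  intro t ht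
  induction t, ht using Nat.le_induction with
  | base => intro _; exact ha
  | succ t ht ih => intro h; exact step t ht (by omega) (ih (by omega))

theorem down_ind {P : ℕ → Prop} {a b : ℕ} (hb : P b)
    (step : ∀ t, a ≤ t → t < b → P (t + 1) → P t) : ∀ t, a ≤ t → t ≤ b → P t := by
  have : ∀ n, n ≤ b - a → P (b - n) := by
    intro n
    induction n with
    | zero => intro _; exact hb
    | succ n ih =>
      intro h
      refine step _ (by omega) (by omega) ?_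
      rw [show b - (n + 1) + 1 = b - n by omega]
      exact ih (by omega)
  intro t h1 h2
  have h := this (b - t) (by omega)
  rwa [show b - (b - t) = t by omega] at h

/-- A partial order on colours, given as a bundled relation. -/
structure Ord (C : Type) where
  r : C → C → Prop
  refl : ∀ a, r a a
  trans : ∀ a b c, r a b → r b c → r a c
  anti : ∀ a b, r a b → r b a → a = b

def Ord.op (ρ : Ord C) : Ord C :=
  ⟨fun a b => ρ.r b a, ρ.refl, fun a b c h1 h2 => ρ.trans c b a h2 h1,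
    fun a b h1 h2 => ρ.anti a b h2 h1⟩

def Ord.eq (C : Type) : Ord C :=
  ⟨Eq, fun _ => rfl, fun _ _ _ => Eq.trans, fun _ _ h _ => h⟩

def Adm (ρ : Ord C) (χ χ' : Fin k → C) (M : Matrix (Fin k) (Fin k) R) : Prop :=
  ∀ u v, M u v ≠ 0 → ρ.r (χ u) (χ' v)

def Agree (χ χ' : Fin k → C) (M N : Matrix (Fin k) (Fin k) R) : Prop :=
  ∀ u v, χ u = χ' v → M u v = N u v

def ChordOK (ρ : Ord C) (F : Frame k R) (S : St R) (t : ℕ) (χ : Fin k → C) : Prop :=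
  t ∈ S.A → S.z t ≠ 0 → ρ.r (χ (F.i t)) (χ (F.j t))

theorem Adm.mul {ρ : Ord C} {χ χ' χ'' : Fin k → C} {M N : Matrix (Fin k) (Fin k) R}
    (hM : Adm ρ χ χ' M) (hN : Adm ρ χ' χ'' N) : Adm ρ χ χ'' (M * N) := by
  intro u v h
  rw [Matrix.mul_apply] at h
  obtain ⟨w, _, hw⟩ := Finset.exists_ne_zero_of_sum_ne_zero h
  exact ρ.trans _ _ _ (hM u w (left_ne_zero_of_mul hw)) (hN w v (right_ne_zero_of_mul hw))

theorem Adm.transpose {ρ : Ord C} {χ χ' : Fin k → C} {M : Matrix (Fin k) (Fin k) R}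
    (hM : Adm ρ χ χ' M) : Adm ρ.op χ' χ Mᵀ := fun u v h => hM v u h

theorem Adm.one (ρ : Ord C) (χ : Fin k → C) : Adm ρ χ χ (1 : Matrix (Fin k) (Fin k) R) := by
  intro u v h
  have : u = v := by
    by_contra hne
    exact h (one_apply_ne hne)
  rw [this]; exact ρ.refl _

theorem Adm.blk {ρ : Ord C} {χ χ' : Fin k → C} {i j : Fin k} {a b c d : R}
    (ha : a ≠ 0 → ρ.r (χ i) (χ' i)) (hb : b ≠ 0 → ρ.r (χ i) (χ' j))
    (hc : c ≠ 0 → ρ.r (χ j) (χ' i)) (hd : d ≠ 0 → ρ.r (χ j) (χ' j))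
    (ho : ∀ u, u ≠ i → u ≠ j → χ u = χ' u) : Adm ρ χ χ' (blk i j a b c d) := by
  intro u v h
  unfold Pool.Agent.Lib.MP_53bec5_ag.blk at h
  split_ifs at h with h1 h2 h3 h4 h5 h6 h7
  · rw [h1, h2]; exact ha h
  · rw [h1, h3]; exact hb h
  · exact absurd rfl h
  · rw [h4, h5]; exact hc h
  · rw [h4, h6]; exact hd h
  · exact absurd rfl h
  · rw [← h7, ho u h1 h4]; exact ρ.refl _
  · exact absurd rfl h

theorem Agree.refl (χ χ' : Fin k → C) (M : Matrix (Fin k) (Fin k) R) : Agree χ χ' M M :=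
  fun _ _ _ => rfl

theorem Agree.symm {χ χ' : Fin k → C} {M N : Matrix (Fin k) (Fin k) R} (h : Agree χ χ' M N) :
    Agree χ χ' N M := fun u v e => (h u v e).symm

theorem Agree.trans {χ χ' : Fin k → C} {M N P : Matrix (Fin k) (Fin k) R} (h : Agree χ χ' M N)
    (h' : Agree χ χ' N P) : Agree χ χ' M P := fun u v e => (h u v e).trans (h' u v e)

theorem Agree.transpose {χ χ' : Fin k → C} {M N : Matrix (Fin k) (Fin k) R}
    (h : Agree χ χ' M N) : Agree χ' χ Mᵀ Nᵀ := fun u v e => h v u e.symm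

theorem Agree.mul {ρ : Ord C} {χ χ' χ'' : Fin k → C} {M N M' N' : Matrix (Fin k) (Fin k) R}
    (hM : Adm ρ χ χ' M) (hN : Adm ρ χ' χ'' N) (hM' : Adm ρ χ χ' M') (hN' : Adm ρ χ' χ'' N')
    (h1 : Agree χ χ' M M') (h2 : Agree χ' χ'' N N') : Agree χ χ'' (M * N) (M' * N') := by
  intro u v e
  rw [Matrix.mul_apply, Matrix.mul_apply]
  refine Finset.sum_congr rfl fun w _ => ?_
  by_cases hw : χ u = χ' w
  · rw [h1 u w hw, h2 w v (hw.symm.trans e)]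
  · have z1 : M u w * N w v = 0 := by
      by_contra hne
      exact hw (ρ.anti _ _ (hM u w (left_ne_zero_of_mul hne))
        (e ▸ hN w v (right_ne_zero_of_mul hne)))
    have z2 : M' u w * N' w v = 0 := by
      by_contra hne
      exact hw (ρ.anti _ _ (hM' u w (left_ne_zero_of_mul hne))
        (e ▸ hN' w v (right_ne_zero_of_mul hne)))
    rw [z1, z2]

theorem Agree.blk {χ χ' : Fin k → C} {i j : Fin k} {a b c d a' b' c' d' : R}
    (ha : χ i = χ' i → a = a') (hb : χ i = χ' j → b = b')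
    (hc : χ j = χ' i → c = c') (hd : χ j = χ' j → d = d') :
    Agree χ χ' (blk i j a b c d) (blk i j a' b' c' d') := by
  intro u v h
  unfold Pool.Agent.Lib.MP_53bec5_ag.blk
  split_ifs with h1 h2 h3 h4 h5 h6 h7
  · rw [h1, h2] at h; exact ha h
  · rw [h1, h3] at h; exact hb h
  · rfl
  · rw [h4, h5] at h; exact hc h
  · rw [h4, h6] at h; exact hd h
  all_goals rfl

section step

variable {F : Frame k R} {t : ℕ} {χ₀ χ₁ : Fin k → C}

theorem col_i {A : Finset ℕ} (hχ : ∀ u, χ₁ (sw F A t u) = χ₀ u) (ht : t ∈ A) :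
    χ₁ (F.i t) = χ₀ (F.j t) := by
  have := hχ (F.j t); simpa [sw, ht] using this

theorem col_j {A : Finset ℕ} (hχ : ∀ u, χ₁ (sw F A t u) = χ₀ u) (ht : t ∈ A) :
    χ₁ (F.j t) = χ₀ (F.i t) := by
  have := hχ (F.i t); simpa [sw, ht] using this

theorem col_o {A : Finset ℕ} (hχ : ∀ u, χ₁ (sw F A t u) = χ₀ u) {u : Fin k} (h1 : u ≠ F.i t)
    (h2 : u ≠ F.j t) : χ₁ u = χ₀ u := by
  have := hχ u
  unfold sw at this
  split_ifs at this
  · rwa [Equiv.swap_apply_of_ne_of_ne h1 h2] at this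
  · exact this

theorem col_dead {A : Finset ℕ} (hχ : ∀ u, χ₁ (sw F A t u) = χ₀ u) (ht : t ∉ A) (u : Fin k) :
    χ₁ u = χ₀ u := by
  have := hχ u; simpa [sw, ht] using this

theorem col_symm {A : Finset ℕ} (hχ : ∀ u, χ₁ (sw F A t u) = χ₀ u) (u : Fin k) :
    χ₀ (sw F A t u) = χ₁ u := by
  rw [← hχ, sw_sw]

theorem adm_mat {ρ : Ord C} {S : St R} (hχ : ∀ u, χ₁ (sw F S.A t u) = χ₀ u)
    (h : ChordOK ρ F S t χ₀) : Adm ρ χ₀ χ₁ (mat F S t) := by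
  unfold mat
  split_ifs with ht
  · refine Adm.blk (fun hz => ?_) (fun _ => ?_) (fun _ => ?_) (fun h0 => absurd rfl h0)
      (fun u h1 h2 => (col_o hχ h1 h2).symm)
    · rw [col_i hχ ht]; exact h ht hz
    · rw [col_j hχ ht]; exact ρ.refl _
    · rw [col_i hχ ht]; exact ρ.refl _
  · refine Adm.blk (fun _ => ?_) (fun h0 => absurd rfl h0) (fun h0 => absurd rfl h0) (fun _ => ?_)
      (fun u h1 h2 => (col_o hχ h1 h2).symm)
    · rw [col_dead hχ ht]; exact ρ.refl _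
    · rw [col_dead hχ ht]; exact ρ.refl _

theorem adm_minv {ρ : Ord C} {S : St R} (hχ : ∀ u, χ₁ (sw F S.A t u) = χ₀ u)
    (h : ChordOK ρ F S t χ₀) : Adm ρ χ₁ χ₀ (minv F S t) := by
  unfold minv
  split_ifs with ht
  · refine Adm.blk (fun h0 => absurd rfl h0) (fun _ => ?_) (fun _ => ?_) (fun hz => ?_)
      (fun u h1 h2 => col_o hχ h1 h2)
    · rw [col_i hχ ht]; exact ρ.refl _
    · rw [col_j hχ ht]; exact ρ.refl _
    · rw [col_j hχ ht]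
      refine h ht (fun h0 => hz ?_)
      rw [h0]; simp
  · refine Adm.blk (fun _ => ?_) (fun h0 => absurd rfl h0) (fun h0 => absurd rfl h0) (fun _ => ?_)
      (fun u h1 h2 => col_o hχ h1 h2)
    · rw [col_dead hχ ht]; exact ρ.refl _
    · rw [col_dead hχ ht]; exact ρ.refl _

/-- Two states have the same letter `t` up to a chord joining different colours. -/
structure SameLetter (F : Frame k R) (S S' : St R) (t : ℕ) (χ : Fin k → C) : Prop where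
  al : t ∈ S.A ↔ t ∈ S'.A
  hz : t ∈ S.A → χ (F.i t) = χ (F.j t) → S.z t = S'.z t
  hd : t ∉ S.A → S.d t = S'.d t
  he : t ∉ S.A → S.e t = S'.e t

theorem SameLetter.refl (F : Frame k R) (S : St R) (t : ℕ) (χ : Fin k → C) :
    SameLetter F S S t χ := ⟨Iff.rfl, fun _ _ => rfl, fun _ => rfl, fun _ => rfl⟩

theorem SameLetter.symm {S S' : St R} {χ : Fin k → C} (h : SameLetter F S S' t χ) :
    SameLetter F S' S t χ :=
  ⟨h.al.symm, fun h1 h2 => (h.hz (h.al.mpr h1) h2).symm,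
    fun h1 => (h.hd (fun h2 => h1 (h.al.mp h2))).symm,
    fun h1 => (h.he (fun h2 => h1 (h.al.mp h2))).symm⟩

theorem SameLetter.trans {S S' S'' : St R} {χ : Fin k → C} (h : SameLetter F S S' t χ)
    (h' : SameLetter F S' S'' t χ) : SameLetter F S S'' t χ :=
  ⟨h.al.trans h'.al, fun h1 h2 => (h.hz h1 h2).trans (h'.hz (h.al.mp h1) h2),
    fun h1 => (h.hd h1).trans (h'.hd (fun h2 => h1 (h.al.mpr h2))),
    fun h1 => (h.he h1).trans (h'.he (fun h2 => h1 (h.al.mpr h2)))⟩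

theorem agree_mat {S S' : St R} (hχ : ∀ u, χ₁ (sw F S.A t u) = χ₀ u)
    (h : SameLetter F S S' t χ₀) : Agree χ₀ χ₁ (mat F S t) (mat F S' t) := by
  unfold mat
  by_cases ht : t ∈ S.A
  · rw [if_pos ht, if_pos (h.al.mp ht)]
    refine Agree.blk (fun e => h.hz ht ?_) (fun _ => rfl) (fun _ => rfl) (fun _ => rfl)
    rw [e, col_i hχ ht]
  · rw [if_neg ht, if_neg (fun h' => ht (h.al.mpr h')), h.hd ht, h.he ht]
    exact Agree.refl _ _ _

theorem agree_minv {S S' : St R} (hχ : ∀ u, χ₁ (sw F S.A t u) = χ₀ u)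
    (h : SameLetter F S S' t χ₀) : Agree χ₁ χ₀ (minv F S t) (minv F S' t) := by
  unfold minv
  by_cases ht : t ∈ S.A
  · rw [if_pos ht, if_pos (h.al.mp ht)]
    refine Agree.blk (fun _ => rfl) (fun _ => rfl) (fun _ => rfl) (fun e => ?_)
    rw [h.hz ht (by rw [← e, col_j hχ ht])]
  · rw [if_neg ht, if_neg (fun h' => ht (h.al.mpr h')), h.hd ht, h.he ht]
    exact Agree.refl _ _ _

theorem sw_congr {A A' : Finset ℕ} (h : t ∈ A ↔ t ∈ A') : sw F A t = sw F A' t := by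
  unfold sw; simp only [h]

theorem RStep.chordOK_iff {ρ : Ord C} {S S' : St R} {U U' : Matrix (Fin k) (Fin k) R}
    (h : RStep F S S' t U U') (hU : Adm ρ χ₀ χ₀ U) :
    ChordOK ρ F S t χ₀ ↔ ChordOK ρ F S' t χ₀ := by
  constructor
  · intro hc ht' hz
    have ht := h.al.mpr ht'
    by_cases h0 : S.z t = 0
    · refine hU _ _ (fun h1 => hz ?_)
      rw [h.z_eq ht, h0, h1]; simp
    · exact hc ht h0
  · intro hc ht hz
    by_cases h0 : S'.z t = 0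
    · refine hU _ _ (fun h1 => hz ?_)
      have := h.z_eq ht
      rw [h0, h1] at this
      simpa using this.symm
    · exact hc (h.al.mp ht) h0

theorem RStep.adm {ρ : Ord C} {S S' : St R} {U U' : Matrix (Fin k) (Fin k) R}
    (h : RStep F S S' t U U') (hχ : ∀ u, χ₁ (sw F S.A t u) = χ₀ u) (hU : Adm ρ χ₀ χ₀ U)
    (hc : ChordOK ρ F S t χ₀) : Adm ρ χ₁ χ₁ U' := by
  rw [h.U_eq]
  have hχ' : ∀ u, χ₁ (sw F S'.A t u) = χ₀ u := by rw [← sw_congr h.al]; exact hχ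
  exact ((adm_minv hχ' ((h.chordOK_iff hU).mp hc)).mul hU).mul (adm_mat hχ hc)

theorem RStep.sameLetter {S₁ S₁' S₂ S₂' : St R} {U₁ U₁' U₂ U₂' : Matrix (Fin k) (Fin k) R}
    (h₁ : RStep F S₁ S₁' t U₁ U₁') (h₂ : RStep F S₂ S₂' t U₂ U₂')
    (hs : SameLetter F S₁ S₂ t χ₀) (hU : Agree χ₀ χ₀ U₁ U₂) : SameLetter F S₁' S₂' t χ₀ := by
  refine ⟨h₁.al.symm.trans (hs.al.trans h₂.al), fun ht e => ?_, fun ht => ?_, fun ht => ?_⟩
  · have ht1 := h₁.al.mpr ht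
    rw [h₁.z_eq ht1, h₂.z_eq (hs.al.mp ht1), hs.hz ht1 e, hU _ _ e]
  · rw [← h₁.hd, ← h₂.hd, hs.hd (fun h => ht (h₁.al.mp h))]
  · rw [← h₁.he, ← h₂.he, hs.he (fun h => ht (h₁.al.mp h))]

theorem RStep.agree {ρ : Ord C} {S₁ S₁' S₂ S₂' : St R}
    {U₁ U₁' U₂ U₂' : Matrix (Fin k) (Fin k) R}
    (h₁ : RStep F S₁ S₁' t U₁ U₁') (h₂ : RStep F S₂ S₂' t U₂ U₂')
    (hχ : ∀ u, χ₁ (sw F S₁.A t u) = χ₀ u)
    (hs : SameLetter F S₁ S₂ t χ₀) (hU : Agree χ₀ χ₀ U₁ U₂)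
    (a₁ : Adm ρ χ₀ χ₀ U₁) (a₂ : Adm ρ χ₀ χ₀ U₂)
    (c₁ : ChordOK ρ F S₁ t χ₀) (c₂ : ChordOK ρ F S₂ t χ₀) : Agree χ₁ χ₁ U₁' U₂' := by
  have hχ₂ : ∀ u, χ₁ (sw F S₂.A t u) = χ₀ u := by rw [← sw_congr hs.al]; exact hχ
  have hχ₁' : ∀ u, χ₁ (sw F S₁'.A t u) = χ₀ u := by rw [← sw_congr h₁.al]; exact hχ
  have hχ₂' : ∀ u, χ₁ (sw F S₂'.A t u) = χ₀ u := by rw [← sw_congr h₂.al]; exact hχ₂
  have m₁ := adm_minv hχ₁' ((h₁.chordOK_iff a₁).mp c₁)
  have m₂ := adm_minv hχ₂' ((h₂.chordOK_iff a₂).mp c₂)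
  rw [h₁.U_eq, h₂.U_eq]
  exact Agree.mul (m₁.mul a₁) (adm_mat hχ c₁) (m₂.mul a₂) (adm_mat hχ₂ c₂)
    (Agree.mul m₁ a₁ m₂ a₂ (agree_minv hχ₁' (h₁.sameLetter h₂ hs hU)) hU) (agree_mat hχ hs)

theorem RStep.refl (F : Frame k R) (S : St R) (t : ℕ) : RStep F S S t 1 1 :=
  ⟨UT.one, UT.one, by rw [one_mul, mul_one], Iff.rfl, rfl, rfl⟩

theorem chordOK_flip {ρ : Ord C} {S : St R} (hχ : ∀ u, χ₁ (sw F S.A t u) = χ₀ u) :
    ChordOK ρ.op F.flip S t χ₁ ↔ ChordOK ρ F S t χ₀ := by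
  unfold ChordOK
  refine forall_congr' fun ht => forall_congr' fun _ => ?_
  change ρ.r (χ₁ (F.j t)) (χ₁ (F.i t)) ↔ _
  rw [col_i hχ ht, col_j hχ ht]

theorem sameLetter_flip {S S' : St R} (hχ : ∀ u, χ₁ (sw F S.A t u) = χ₀ u) :
    SameLetter F.flip S S' t χ₁ ↔ SameLetter F S S' t χ₀ := by
  constructor
  · intro h
    refine ⟨h.al, fun ht e => h.hz ht ?_, h.hd, h.he⟩
    change χ₁ (F.i t) = χ₁ (F.j t)
    rw [col_i hχ ht, col_j hχ ht, e]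
  · intro h
    refine ⟨h.al, fun ht e => h.hz ht ?_, h.hd, h.he⟩
    change χ₁ (F.i t) = χ₁ (F.j t) at e
    rw [col_i hχ ht, col_j hχ ht] at e
    exact e.symm

end step

section chains

variable {F : Frame k R} {χ : ℕ → Fin k → C} {ρ : Ord C} {a b : ℕ}

/-- The colouring `χ` is carried along the strands on the time interval from `a` to `b`. -/
def Flow (F : Frame k R) (A : Finset ℕ) (χ : ℕ → Fin k → C) (a b : ℕ) : Prop :=
  ∀ t, a ≤ t → t < b → ∀ u, χ (t + 1) (sw F A t u) = χ t u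

theorem Flow.mono {A : Finset ℕ} (h : Flow F A χ a b) {a' b' : ℕ} (ha : a ≤ a') (hb : b' ≤ b) :
    Flow F A χ a' b' := fun t h1 h2 => h t (by omega) (by omega)

theorem Flow.congr {A A' : Finset ℕ} (h : Flow F A χ a b)
    (hA : ∀ t, a ≤ t → t < b → (t ∈ A ↔ t ∈ A')) : Flow F A' χ a b := fun t h1 h2 => by
  rw [← sw_congr (hA t h1 h2)]; exact h t h1 h2

theorem chainR_adm {S S' : St R} {U : ℕ → Matrix (Fin k) (Fin k) R}
    (hU : ∀ t, a ≤ t → t < b → RStep F S S' t (U t) (U (t + 1))) (hχ : Flow F S.A χ a b)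
    (h0 : Adm ρ (χ a) (χ a) (U a))
    (hc : ∀ t, a ≤ t → t < b → ChordOK ρ F S t (χ t) ∨ ChordOK ρ F S' t (χ t)) :
    (∀ t, a ≤ t → t ≤ b → Adm ρ (χ t) (χ t) (U t)) ∧
      ∀ t, a ≤ t → t < b → ChordOK ρ F S t (χ t) ∧ ChordOK ρ F S' t (χ t) := by
  have key : ∀ t, a ≤ t → t < b → Adm ρ (χ t) (χ t) (U t) →
      ChordOK ρ F S t (χ t) ∧ ChordOK ρ F S' t (χ t) := by
    intro t h1 h2 ih
    rcases hc t h1 h2 with h | h
    · exact ⟨h, ((hU t h1 h2).chordOK_iff ih).mp h⟩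
    · exact ⟨((hU t h1 h2).chordOK_iff ih).mpr h, h⟩
  have h : ∀ t, a ≤ t → t ≤ b → Adm ρ (χ t) (χ t) (U t) :=
    up_ind h0 fun t h1 h2 ih => (hU t h1 h2).adm (hχ t h1 h2) ih (key t h1 h2 ih).1
  exact ⟨h, fun t h1 h2 => key t h1 h2 (h t h1 h2.le)⟩

theorem chainL_adm {S S' : St R} {W : ℕ → Matrix (Fin k) (Fin k) R}
    (hW : ∀ t, a ≤ t → t < b → RStep F.flip S S' t (W (t + 1)) (W t)) (hχ : Flow F S.A χ a b)
    (h0 : Adm ρ.op (χ b) (χ b) (W b))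
    (hc : ∀ t, a ≤ t → t < b → ChordOK ρ F S t (χ t) ∨ ChordOK ρ F S' t (χ t)) :
    (∀ t, a ≤ t → t ≤ b → Adm ρ.op (χ t) (χ t) (W t)) ∧
      ∀ t, a ≤ t → t < b → ChordOK ρ F S t (χ t) ∧ ChordOK ρ F S' t (χ t) := by
  have key : ∀ t, a ≤ t → t < b → Adm ρ.op (χ (t + 1)) (χ (t + 1)) (W (t + 1)) →
      ChordOK ρ F S t (χ t) ∧ ChordOK ρ F S' t (χ t) := by
    intro t h1 h2 ih
    have hχ' : ∀ u, χ (t + 1) (sw F S'.A t u) = χ t u := by
      rw [← sw_congr (hW t h1 h2).al]; exact hχ t h1 h2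
    have e := (hW t h1 h2).chordOK_iff ih
    rw [chordOK_flip (hχ t h1 h2), chordOK_flip hχ'] at e
    rcases hc t h1 h2 with h | h
    · exact ⟨h, e.mp h⟩
    · exact ⟨e.mpr h, h⟩
  have h : ∀ t, a ≤ t → t ≤ b → Adm ρ.op (χ t) (χ t) (W t) :=
    down_ind h0 fun t h1 h2 ih => (hW t h1 h2).adm (col_symm (hχ t h1 h2)) ih
      ((chordOK_flip (hχ t h1 h2)).mpr (key t h1 h2 ih).1)
  exact ⟨h, fun t h1 h2 => key t h1 h2 (h (t + 1) (by omega) h2)⟩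

theorem chainR_agree {S₁ S₁' S₂ S₂' : St R} {U₁ U₂ : ℕ → Matrix (Fin k) (Fin k) R}
    (h₁ : ∀ t, a ≤ t → t < b → RStep F S₁ S₁' t (U₁ t) (U₁ (t + 1)))
    (h₂ : ∀ t, a ≤ t → t < b → RStep F S₂ S₂' t (U₂ t) (U₂ (t + 1)))
    (hχ : Flow F S₁.A χ a b) (hs : ∀ t, a ≤ t → t < b → SameLetter F S₁ S₂ t (χ t))
    (a₁ : Adm ρ (χ a) (χ a) (U₁ a)) (a₂ : Adm ρ (χ a) (χ a) (U₂ a))
    (c₁ : ∀ t, a ≤ t → t < b → ChordOK ρ F S₁ t (χ t))
    (c₂ : ∀ t, a ≤ t → t < b → ChordOK ρ F S₂ t (χ t))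
    (h0 : Agree (χ a) (χ a) (U₁ a) (U₂ a)) :
    (∀ t, a ≤ t → t ≤ b → Agree (χ t) (χ t) (U₁ t) (U₂ t)) ∧
      ∀ t, a ≤ t → t < b → SameLetter F S₁' S₂' t (χ t) := by
  have b₁ := (chainR_adm h₁ hχ a₁ (fun t x y => Or.inl (c₁ t x y))).1
  have b₂ := (chainR_adm h₂ (hχ.congr fun t x y => (hs t x y).al) a₂
    (fun t x y => Or.inl (c₂ t x y))).1
  have h : ∀ t, a ≤ t → t ≤ b → Agree (χ t) (χ t) (U₁ t) (U₂ t) :=
    up_ind h0 fun t x y ih => (h₁ t x y).agree (h₂ t x y) (hχ t x y) (hs t x y) ih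
      (b₁ t x y.le) (b₂ t x y.le) (c₁ t x y) (c₂ t x y)
  exact ⟨h, fun t x y => (h₁ t x y).sameLetter (h₂ t x y) (hs t x y) (h t x y.le)⟩

theorem chainL_agree {S₁ S₁' S₂ S₂' : St R} {W₁ W₂ : ℕ → Matrix (Fin k) (Fin k) R}
    (h₁ : ∀ t, a ≤ t → t < b → RStep F.flip S₁ S₁' t (W₁ (t + 1)) (W₁ t))
    (h₂ : ∀ t, a ≤ t → t < b → RStep F.flip S₂ S₂' t (W₂ (t + 1)) (W₂ t))
    (hχ : Flow F S₁.A χ a b) (hs : ∀ t, a ≤ t → t < b → SameLetter F S₁ S₂ t (χ t))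
    (a₁ : Adm ρ.op (χ b) (χ b) (W₁ b)) (a₂ : Adm ρ.op (χ b) (χ b) (W₂ b))
    (c₁ : ∀ t, a ≤ t → t < b → ChordOK ρ F S₁ t (χ t))
    (c₂ : ∀ t, a ≤ t → t < b → ChordOK ρ F S₂ t (χ t))
    (h0 : Agree (χ b) (χ b) (W₁ b) (W₂ b)) :
    (∀ t, a ≤ t → t ≤ b → Agree (χ t) (χ t) (W₁ t) (W₂ t)) ∧
      ∀ t, a ≤ t → t < b → SameLetter F S₁' S₂' t (χ t) := by
  have hχ₂ : Flow F S₂.A χ a b := hχ.congr fun t x y => (hs t x y).al
  have b₁ := (chainL_adm h₁ hχ a₁ (fun t x y => Or.inl (c₁ t x y))).1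
  have b₂ := (chainL_adm h₂ hχ₂ a₂ (fun t x y => Or.inl (c₂ t x y))).1
  have h : ∀ t, a ≤ t → t ≤ b → Agree (χ t) (χ t) (W₁ t) (W₂ t) :=
    down_ind h0 fun t x y ih => (h₁ t x y).agree (h₂ t x y) (col_symm (hχ t x y))
      ((sameLetter_flip (hχ t x y)).mpr (hs t x y)) ih
      (b₁ (t + 1) (by omega) y) (b₂ (t + 1) (by omega) y)
      ((chordOK_flip (hχ t x y)).mpr (c₁ t x y)) ((chordOK_flip (hχ₂ t x y)).mpr (c₂ t x y))
  refine ⟨h, fun t x y => ?_⟩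
  have hχ' : ∀ u, χ (t + 1) (sw F S₁'.A t u) = χ t u := by
    rw [← sw_congr (h₁ t x y).al]; exact hχ t x y
  exact (sameLetter_flip hχ').mp ((h₁ t x y).sameLetter (h₂ t x y)
    ((sameLetter_flip (hχ t x y)).mpr (hs t x y)) (h (t + 1) (by omega) y))

end chains

end Pool.Agent.Lib.MP_53bec5_ag
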