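import Mathlib

/-!
Elementary two-by-two block matrices, unitriangular matrices and leading principal minors.
-/

namespace Pool.Agent.Lib.MP_53bec5_ag

open Matrix

variable {k : ℕ} {R : Type} [CommRing R]

/-- Identity matrix with the block at rows and columns `i, j` replaced. -/
def blk (i j : Fin k) (a b c d : R) : Matrix (Fin k) (Fin k) R := fun u v =>
  if u = i then (if v = i then a else if v = j then b else 0)
  else if u = j then (if v = i then c else if v = j then d else 0)
  else if u = v then 1 else 0

theorem mul_blk {i j : Fin k} (hij : i ≠ j) (M : Matrix (Fin k) (Fin k) R) (a b c d : R)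
    (u v : Fin k) :
    (M * blk i j a b c d) u v =
      if v = i then M u i * a + M u j * c else if v = j then M u i * b + M u j * d else M u v := by
  have key : ∀ w, M u w * blk i j a b c d w v =
      (if w = i then M u i * (if v = i then a else if v = j then b else 0) else 0) +
      (if w = j then M u j * (if v = i then c else if v = j then d else 0) else 0) +
      (if w = v then (if v = i ∨ v = j then 0 else M u v) else 0) := by
    intro w
    unfold blk
    by_cases h1 : w = i
    · subst h1
      by_cases h3 : w = v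
      · subst h3; simp [hij]
      · simp [hij, h3]
    · by_cases h2 : w = j
      · subst h2
        by_cases h3 : w = v
        · subst h3; simp [h1]
        · simp [h1, h3]
      · by_cases h3 : w = v
        · subst h3; simp [h1, h2]
        · simp [h1, h2, h3]
  rw [Matrix.mul_apply]
  simp only [key, Finset.sum_add_distrib, Finset.sum_ite_eq', Finset.mem_univ, if_true]
  by_cases h1 : v = i
  · simp [h1]
  · by_cases h2 : v = j
    · subst h2; simp [h1]
    · simp [h1, h2]

theorem blk_transpose {i j : Fin k} (hij : i ≠ j) (a b c d : R) :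
    (blk i j a b c d)ᵀ = blk i j a c b d := by
  ext u v
  simp only [transpose_apply, blk]
  by_cases h1 : u = i <;> by_cases h2 : u = j <;> by_cases h3 : v = i <;> by_cases h4 : v = j <;>
    simp_all [eq_comm]

theorem blk_mul {i j : Fin k} (hij : i ≠ j) (M : Matrix (Fin k) (Fin k) R) (a b c d : R)
    (u v : Fin k) :
    (blk i j a b c d * M) u v =
      if u = i then a * M i v + b * M j v else if u = j then c * M i v + d * M j v else M u v := by
  have h := mul_blk hij Mᵀ a c b d v u
  rw [← blk_transpose hij, ← transpose_mul, transpose_apply] at h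
  rw [h]
  simp only [transpose_apply, mul_comm]

theorem blk_one {i j : Fin k} (hij : i ≠ j) : blk i j (1 : R) 0 0 1 = 1 := by
  ext u v
  simp only [blk, one_apply]
  by_cases h1 : u = i <;> by_cases h2 : u = j <;> by_cases h3 : v = i <;> by_cases h4 : v = j <;>
    simp_all [eq_comm]

theorem blk_mul_blk {i j : Fin k} (hij : i ≠ j) (a b c d a' b' c' d' : R) :
    blk i j a b c d * blk i j a' b' c' d' =
      blk i j (a * a' + b * c') (a * b' + b * d') (c * a' + d * c') (c * b' + d * d') := by
  ext u v
  rw [mul_blk hij]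
  simp only [blk]
  by_cases h1 : u = i <;> by_cases h2 : u = j <;> by_cases h3 : v = i <;> by_cases h4 : v = j <;>
    simp_all [eq_comm]

theorem blk_map {S : Type} [CommRing S] (f : R →+* S) (i j : Fin k) (a b c d : R) :
    (blk i j a b c d).map f = blk i j (f a) (f b) (f c) (f d) := by
  ext u v
  simp only [map_apply, blk]
  split_ifs <;> simp

/-- Upper unitriangular matrices. -/
def UT (U : Matrix (Fin k) (Fin k) R) : Prop :=
  ∀ u v : Fin k, v ≤ u → U u v = if u = v then 1 else 0

theorem UT.one : UT (1 : Matrix (Fin k) (Fin k) R) := fun u v _ => by simp [one_apply]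

theorem UT.diag {U : Matrix (Fin k) (Fin k) R} (h : UT U) (u : Fin k) : U u u = 1 := by
  simpa using h u u le_rfl

theorem UT.lower {U : Matrix (Fin k) (Fin k) R} (h : UT U) {u v : Fin k} (huv : v < u) :
    U u v = 0 := by
  have := h u v huv.le
  rwa [if_neg (ne_of_gt huv)] at this

theorem UT.mul {U V : Matrix (Fin k) (Fin k) R} (hU : UT U) (hV : UT V) : UT (U * V) := by
  intro u v huv
  rw [Matrix.mul_apply, Finset.sum_eq_single u]
  · rw [hU.diag, one_mul, hV u v huv]
  · intro w _ hw
    rcases lt_or_gt_of_ne hw with h | h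
    · rw [hU.lower h, zero_mul]
    · rw [hV.lower (lt_of_le_of_lt huv h), mul_zero]
  · simp

theorem UT.blk {i j : Fin k} (hij : i < j) (b : R) : UT (blk i j 1 b 0 1) := by
  intro u v huv
  simp only [Pool.Agent.Lib.MP_53bec5_ag.blk]
  by_cases h1 : u = i <;> by_cases h2 : u = j <;> by_cases h3 : v = i <;> by_cases h4 : v = j <;>
    simp_all [eq_comm]
  omega

theorem UT.map {S : Type} [CommRing S] (f : R →+* S) {U : Matrix (Fin k) (Fin k) R} (h : UT U) :
    UT (U.map f) := by
  intro u v huv
  rw [map_apply, h u v huv]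
  split_ifs <;> simp

/-- Leading principal minor of size `s` (and `1` for `s > k`). -/
noncomputable def pm (M : Matrix (Fin k) (Fin k) R) (s : ℕ) : R :=
  if h : s ≤ k then (M.submatrix (Fin.castLE h) (Fin.castLE h)).det else 1

theorem pm_transpose (M : Matrix (Fin k) (Fin k) R) (s : ℕ) : pm Mᵀ s = pm M s := by
  unfold pm
  split_ifs with h
  · rw [← det_transpose]; rfl
  · rfl

theorem pm_map {S : Type} [CommRing S] (f : R →+* S) (M : Matrix (Fin k) (Fin k) R) (s : ℕ) :
    pm (M.map f) s = f (pm M s) := by
  unfold pm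
  split_ifs with h
  · rw [RingHom.map_det]; rfl
  · simp

theorem pm_mul_of_block (M B : Matrix (Fin k) (Fin k) R) (s : ℕ)
    (hB : ∀ c b : Fin k, b.val < s → s ≤ c.val → B c b = 0) :
    pm (M * B) s = pm M s * pm B s := by
  unfold pm
  split_ifs with h
  · rw [← det_mul]
    congr 1
    ext a b
    simp only [submatrix_apply, Matrix.mul_apply]
    symm
    apply Finset.sum_of_injOn (Fin.castLE h)
    · intro x _ y _ hxy; exact Fin.castLE_injective h hxy
    · intro x _; simp
    · intro c _ hc
      rw [hB c, mul_zero]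
      · simp
      · by_contra hlt
        apply hc
        refine ⟨⟨c.val, by omega⟩, by simp, ?_⟩
        ext; simp
    · intro x _; rfl
  · simp

theorem pm_of_upper (M : Matrix (Fin k) (Fin k) R) (s : ℕ) (h : s ≤ k)
    (hM : ∀ u v : Fin k, v < u → u.val < s → M u v = 0) :
    pm M s = ∏ a : Fin s, M (Fin.castLE h a) (Fin.castLE h a) := by
  unfold pm
  rw [dif_pos h, det_of_isUpperTriangular]
  · rfl
  · intro a b hab
    exact hM _ _ (by simpa using hab) (by simp)

theorem pm_UT {U : Matrix (Fin k) (Fin k) R} (hU : UT U) (s : ℕ) : pm U s = 1 := by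
  by_cases h : s ≤ k
  · rw [pm_of_upper U s h (fun u v huv _ => hU.lower huv)]
    simp [hU.diag]
  · simp [pm, h]

theorem pm_mul_UT (M : Matrix (Fin k) (Fin k) R) {U : Matrix (Fin k) (Fin k) R} (hU : UT U)
    (s : ℕ) : pm (M * U) s = pm M s := by
  rw [pm_mul_of_block M U s, pm_UT hU, mul_one]
  intro c b hb hc
  exact hU.lower (by rw [Fin.lt_def]; omega)

theorem pm_LT_mul (M : Matrix (Fin k) (Fin k) R) {L : Matrix (Fin k) (Fin k) R} (hL : UT Lᵀ)
    (s : ℕ) : pm (L * M) s = pm M s := by
  rw [← pm_transpose, transpose_mul, pm_mul_UT _ hL, pm_transpose]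

theorem pm_one (s : ℕ) : pm (1 : Matrix (Fin k) (Fin k) R) s = 1 := pm_UT UT.one s

theorem pm_zero (M : Matrix (Fin k) (Fin k) R) : pm M 0 = 1 := by
  simp [pm]

end Pool.Agent.Lib.MP_53bec5_ag
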