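import Pool.Agent.Lib.MP_53bec5_ag.Blk

/-!
Braid words with matrix entries, sliding of unitriangular matrices, and pinching of a crossing.
-/

namespace Pool.Agent.Lib.MP_53bec5_ag

open Matrix

/-- The fixed data of a braid word: its length, the two adjacent positions of each letter and two
units per letter. -/
structure Frame (k : ℕ) (R : Type) [CommRing R] where
  l : ℕ
  i : ℕ → Fin k
  j : ℕ → Fin k
  hij : ∀ t, (j t).val = (i t).val + 1
  p : ℕ → Rˣ
  q : ℕ → Rˣ

/-- The varying data: the set of letters still present, their chord values, and the diagonal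
entries left at the removed letters. -/
structure St (R : Type) [CommRing R] where
  A : Finset ℕ
  z : ℕ → R
  d : ℕ → Rˣ
  e : ℕ → Rˣ

variable {k : ℕ} {R : Type} [CommRing R]

theorem Frame.lt (F : Frame k R) (t : ℕ) : F.i t < F.j t := by
  rw [Fin.lt_def, F.hij]; omega

theorem Frame.ne (F : Frame k R) (t : ℕ) : F.i t ≠ F.j t := (F.lt t).ne

def Frame.flip (F : Frame k R) : Frame k R := { F with p := F.q, q := F.p }

def mat (F : Frame k R) (S : St R) (t : ℕ) : Matrix (Fin k) (Fin k) R :=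
  if t ∈ S.A then blk (F.i t) (F.j t) (S.z t) (F.p t) (F.q t) 0
  else blk (F.i t) (F.j t) (S.d t) 0 0 (S.e t)

def minv (F : Frame k R) (S : St R) (t : ℕ) : Matrix (Fin k) (Fin k) R :=
  if t ∈ S.A then
    blk (F.i t) (F.j t) 0 ((F.q t)⁻¹ : Rˣ) ((F.p t)⁻¹ : Rˣ)
      (-(S.z t * ((F.p t)⁻¹ : Rˣ) * ((F.q t)⁻¹ : Rˣ)))
  else blk (F.i t) (F.j t) ((S.d t)⁻¹ : Rˣ) 0 0 ((S.e t)⁻¹ : Rˣ)

theorem minv_mul_mat (F : Frame k R) (S : St R) (t : ℕ) : minv F S t * mat F S t = 1 := by
  unfold minv mat
  split_ifs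
  · rw [blk_mul_blk (F.ne t), ← blk_one (F.ne t)]
    congr 1
    · simp
    · simp
    · have := (F.q t).inv_mul
      linear_combination (-(S.z t * ((F.p t)⁻¹ : Rˣ))) * this
    · simp
  · rw [blk_mul_blk (F.ne t), ← blk_one (F.ne t)]
    simp

theorem mat_mul_minv (F : Frame k R) (S : St R) (t : ℕ) : mat F S t * minv F S t = 1 :=
  mul_eq_one_comm.mp (minv_mul_mat F S t)

theorem mat_flip (F : Frame k R) (S : St R) (t : ℕ) : mat F.flip S t = (mat F S t)ᵀ := by
  unfold mat
  split_ifs
  · rw [blk_transpose (F.ne t)]; rfl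
  · rw [blk_transpose (F.ne t)]; rfl

/-- The permutation of positions effected by letter `t`. -/
def sw (F : Frame k R) (A : Finset ℕ) (t : ℕ) : Equiv.Perm (Fin k) :=
  if t ∈ A then Equiv.swap (F.i t) (F.j t) else 1

theorem sw_sw (F : Frame k R) (A : Finset ℕ) (t : ℕ) (u : Fin k) :
    sw F A t (sw F A t u) = u := by
  unfold sw; split_ifs <;> simp

@[simp] theorem sw_flip (F : Frame k R) (A : Finset ℕ) (t : ℕ) : sw F.flip A t = sw F A t := rfl

/-- One step of sliding an upper unitriangular matrix to the right through letter `t`. -/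
structure RStep (F : Frame k R) (S S' : St R) (t : ℕ) (U U' : Matrix (Fin k) (Fin k) R) :
    Prop where
  ut : UT U
  ut' : UT U'
  eq : U * mat F S t = mat F S' t * U'
  al : t ∈ S.A ↔ t ∈ S'.A
  hd : S.d t = S'.d t
  he : S.e t = S'.e t

theorem RStep.z_eq {F : Frame k R} {S S' : St R} {t : ℕ} {U U' : Matrix (Fin k) (Fin k) R}
    (h : RStep F S S' t U U') (ht : t ∈ S.A) :
    S'.z t = S.z t + U (F.i t) (F.j t) * F.q t := by
  have e := congrFun (congrFun h.eq (F.i t)) (F.i t)
  have ht' := h.al.mp ht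
  simp only [mat, if_pos ht, if_pos ht'] at e
  rw [mul_blk (F.ne t), blk_mul (F.ne t)] at e
  simp only [if_true, h.ut.diag, h.ut'.diag, h.ut'.lower (F.lt t)] at e
  linear_combination -e

theorem RStep.U_eq {F : Frame k R} {S S' : St R} {t : ℕ} {U U' : Matrix (Fin k) (Fin k) R}
    (h : RStep F S S' t U U') : U' = minv F S' t * U * mat F S t := by
  rw [mul_assoc, h.eq, ← mul_assoc, minv_mul_mat, one_mul]

theorem RStep.trans {F : Frame k R} {S S' S'' : St R} {t : ℕ}
    {U U' V V' : Matrix (Fin k) (Fin k) R}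
    (h : RStep F S S' t U U') (h' : RStep F S' S'' t V V') : RStep F S S'' t (V * U) (V' * U') :=
  ⟨h'.ut.mul h.ut, h'.ut'.mul h.ut', by rw [mul_assoc, h.eq, ← mul_assoc, h'.eq, mul_assoc],
    h.al.trans h'.al, h.hd.trans h'.hd, h.he.trans h'.he⟩

/-- The conjugated matrix is again unitriangular once the chord value is corrected. -/
theorem UT_step (F : Frame k R) (S S' : St R) (t : ℕ) (U : Matrix (Fin k) (Fin k) R) (hU : UT U)
    (al : t ∈ S.A ↔ t ∈ S'.A) (hd : S.d t = S'.d t) (he : S.e t = S'.e t)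
    (hz : t ∈ S.A → S'.z t = S.z t + U (F.i t) (F.j t) * F.q t) :
    UT (minv F S' t * U * mat F S t) := by
  have hij := F.hij t
  have hne := F.ne t
  have hlt := F.lt t
  intro u v huv
  by_cases ht : t ∈ S.A
  · have ht' := al.mp ht
    simp only [minv, mat, if_pos ht, if_pos ht']
    rw [mul_blk hne]
    simp only [blk_mul hne]
    have hp := (F.p t).inv_mul
    have hq := (F.q t).inv_mul
    by_cases h1 : u = F.i t
    · by_cases h3 : v = F.i t
      · simp [h1, h3, hU.diag, hU.lower hlt]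
      · have hv : v < F.i t := by rw [← h1]; exact lt_of_le_of_ne huv (by rw [h1]; exact h3)
        have h4 : v ≠ F.j t := (hv.trans hlt).ne
        simp [h1, h3, h4, hU.lower (hv.trans hlt), Ne.symm h3]
    · by_cases h2 : u = F.j t
      · by_cases h3 : v = F.i t
        · simp only [h2, h3, if_true, if_neg hne.symm, hU.diag, hU.lower hlt, hz ht]
          linear_combination (-(S.z t + U (F.i t) (F.j t) * F.q t) * ((F.p t)⁻¹ : Rˣ)) * hq
        · by_cases h4 : v = F.j t
          · simp [h2, h4, hne.symm, hU.diag, hU.lower hlt]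
          · have hv : v < F.i t := by
              rw [Fin.lt_def]; rw [h2, Fin.le_def] at huv
              have := Fin.val_ne_of_ne h3; have := Fin.val_ne_of_ne h4; omega
            simp [h2, h3, h4, hne.symm, hU.lower hv, hU.lower (hv.trans hlt), Ne.symm h4]
      · simp only [if_neg h1, if_neg h2]
        by_cases h3 : v = F.i t
        · have hu : F.j t < u := by
            rw [Fin.lt_def]; rw [h3, Fin.le_def] at huv
            have := Fin.val_ne_of_ne h1; have := Fin.val_ne_of_ne h2; omega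
          simp [h3, hU.lower hu, hU.lower (hlt.trans hu), h1]
        · by_cases h4 : v = F.j t
          · have hu : F.j t < u := lt_of_le_of_ne (h4 ▸ huv) (Ne.symm h2)
            simp [h4, hne.symm, hU.lower (hlt.trans hu), h2]
          · simp [h3, h4, hU u v huv]
  · have ht' : t ∉ S'.A := fun h => ht (al.mpr h)
    simp only [minv, mat, if_neg ht, if_neg ht', ← hd, ← he]
    rw [mul_blk hne]
    simp only [blk_mul hne]
    by_cases h1 : u = F.i t
    · by_cases h3 : v = F.i t
      · simp [h1, h3, hU.diag]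
      · have hv : v < F.i t := by rw [← h1]; exact lt_of_le_of_ne huv (by rw [h1]; exact h3)
        have h4 : v ≠ F.j t := (hv.trans hlt).ne
        simp [h1, h3, h4, hU.lower hv, Ne.symm h3]
    · by_cases h2 : u = F.j t
      · by_cases h3 : v = F.i t
        · simp [h2, h3, hne.symm, hU.lower hlt]
        · by_cases h4 : v = F.j t
          · simp [h2, h4, hne.symm, hU.diag]
          · have hv : v < F.j t := lt_of_le_of_ne (h2 ▸ huv) h4
            simp [h2, h3, h4, hne.symm, hU.lower hv, Ne.symm h4]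
      · simp only [if_neg h1, if_neg h2]
        by_cases h3 : v = F.i t
        · have hu : F.i t < u := lt_of_le_of_ne (h3 ▸ huv) (Ne.symm h1)
          simp [h3, hU.lower hu, h1]
        · by_cases h4 : v = F.j t
          · have hu : F.j t < u := lt_of_le_of_ne (h4 ▸ huv) (Ne.symm h2)
            simp [h4, hne.symm, hU.lower hu, h2]
          · simp [h3, h4, hU u v huv]

theorem RStep.of_formula (F : Frame k R) (S S' : St R) (t : ℕ) (U : Matrix (Fin k) (Fin k) R)
    (hU : UT U) (al : t ∈ S.A ↔ t ∈ S'.A) (hd : S.d t = S'.d t) (he : S.e t = S'.e t)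
    (hz : t ∈ S.A → S'.z t = S.z t + U (F.i t) (F.j t) * F.q t) :
    RStep F S S' t U (minv F S' t * U * mat F S t) :=
  ⟨hU, UT_step F S S' t U hU al hd he hz,
    by rw [← mul_assoc, ← mul_assoc, mat_mul_minv, one_mul], al, hd, he⟩

/-- Pinching the crossing `c`: factor its matrix as lower times diagonal times upper, and slide
the two unitriangular factors out to the two ends of the word. -/
structure Pinch (F : Frame k R) (S : St R) (c : ℕ) (S' : St R) : Prop where
  lt : c < F.l
  mem : c ∈ S.A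
  hA : S'.A = S.A.erase c
  hd : (S'.d c : R) = S.z c
  he : (S'.e c : R) * S.z c = -(F.p c * F.q c)
  right : ∃ U : ℕ → Matrix (Fin k) (Fin k) R,
    U (c + 1) = blk (F.i c) (F.j c) (1 : R) ((F.p c : R) * (((S'.d c)⁻¹ : Rˣ) : R)) 0 1 ∧
      ∀ t, c < t → t < F.l → RStep F S S' t (U t) (U (t + 1))
  left : ∃ W : ℕ → Matrix (Fin k) (Fin k) R,
    W c = blk (F.i c) (F.j c) (1 : R) ((F.q c : R) * (((S'.d c)⁻¹ : Rˣ) : R)) 0 1 ∧
      ∀ t, t < c → RStep F.flip S S' t (W (t + 1)) (W t)

theorem minv_congr (F : Frame k R) {S S' : St R} {t : ℕ} (al : t ∈ S.A ↔ t ∈ S'.A)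
    (hz : S.z t = S'.z t) (hd : S.d t = S'.d t) (he : S.e t = S'.e t) :
    minv F S t = minv F S' t := by
  unfold minv
  by_cases ht : t ∈ S.A
  · rw [if_pos ht, if_pos (al.mp ht), hz]
  · rw [if_neg ht, if_neg (fun h => ht (al.mpr h)), hd, he]

theorem mat_congr (F : Frame k R) {S S' : St R} {t : ℕ} (al : t ∈ S.A ↔ t ∈ S'.A)
    (hz : S.z t = S'.z t) (hd : S.d t = S'.d t) (he : S.e t = S'.e t) :
    mat F S t = mat F S' t := by
  unfold mat
  by_cases ht : t ∈ S.A
  · rw [if_pos ht, if_pos (al.mp ht), hz]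
  · rw [if_neg ht, if_neg (fun h => ht (al.mpr h)), hd, he]

def stepU (F : Frame k R) (S : St R) (t : ℕ) (U : Matrix (Fin k) (Fin k) R) :
    Matrix (Fin k) (Fin k) R :=
  minv F { S with z := fun _ => S.z t + U (F.i t) (F.j t) * F.q t } t * U * mat F S t

theorem RStep.stepU (F : Frame k R) (S S' : St R) (t : ℕ) (U : Matrix (Fin k) (Fin k) R)
    (hU : UT U) (al : t ∈ S.A ↔ t ∈ S'.A) (hd : S.d t = S'.d t) (he : S.e t = S'.e t)
    (hz : S'.z t = S.z t + U (F.i t) (F.j t) * F.q t) :
    RStep F S S' t U (stepU F S t U) := by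
  have h := RStep.of_formula F S S' t U hU al hd he (fun _ => hz)
  rwa [minv_congr F (S := S') (S' := { S with z := fun _ => S.z t + U (F.i t) (F.j t) * F.q t })
    al.symm hz hd.symm he.symm] at h

def seqR (F : Frame k R) (S : St R) (a : ℕ) (U₀ : Matrix (Fin k) (Fin k) R) :
    ℕ → Matrix (Fin k) (Fin k) R
  | 0 => U₀
  | n + 1 => stepU F S (a + n) (seqR F S a U₀ n)

def seqL (F : Frame k R) (S : St R) (b : ℕ) (U₀ : Matrix (Fin k) (Fin k) R) :
    ℕ → Matrix (Fin k) (Fin k) R
  | 0 => U₀
  | n + 1 => stepU F S (b - 1 - n) (seqL F S b U₀ n)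

theorem UT_stepU (F : Frame k R) (S : St R) (t : ℕ) {U : Matrix (Fin k) (Fin k) R} (hU : UT U) :
    UT (stepU F S t U) :=
  UT_step F S _ t U hU Iff.rfl rfl rfl (fun _ => rfl)

theorem UT_seqR (F : Frame k R) (S : St R) (a : ℕ) {U₀ : Matrix (Fin k) (Fin k) R} (h : UT U₀) :
    ∀ n, UT (seqR F S a U₀ n)
  | 0 => h
  | n + 1 => UT_stepU F S _ (UT_seqR F S a h n)

theorem UT_seqL (F : Frame k R) (S : St R) (a : ℕ) {U₀ : Matrix (Fin k) (Fin k) R} (h : UT U₀) :
    ∀ n, UT (seqL F S a U₀ n)
  | 0 => h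
  | n + 1 => UT_stepU F S _ (UT_seqL F S a h n)

/-- A left chain with any unitriangular start exists. -/
theorem exists_left_chain (F : Frame k R) (S : St R) (c : ℕ) {W₀ : Matrix (Fin k) (Fin k) R}
    (h : UT W₀) : ∃ (S' : St R) (W : ℕ → Matrix (Fin k) (Fin k) R), W c = W₀ ∧
      ∀ t, t < c → RStep F S S' t (W (t + 1)) (W t) := by
  refine ⟨{ S with z := fun t => S.z t + seqL F S c W₀ (c - (t + 1)) (F.i t) (F.j t) * F.q t },
    fun t => seqL F S c W₀ (c - t), by simp [seqL], fun t ht => ?_⟩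
  have e : c - t = (c - (t + 1)) + 1 := by omega
  have e2 : c - 1 - (c - (t + 1)) = t := by omega
  simp only [e, seqL, e2]
  exact RStep.stepU F S _ t _ (UT_seqL F S c h _) Iff.rfl rfl rfl rfl

theorem exists_pinch (F : Frame k R) (S : St R) (c : ℕ) (hc : c < F.l) (hA : c ∈ S.A) (u : Rˣ)
    (hu : (u : R) = S.z c) : ∃ S', Pinch F S c S' := by
  set U₀ : Matrix (Fin k) (Fin k) R :=
    blk (F.i c) (F.j c) (1 : R) ((F.p c : R) * ((u⁻¹ : Rˣ) : R)) 0 1 with hU₀
  set W₀ : Matrix (Fin k) (Fin k) R :=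
    blk (F.i c) (F.j c) (1 : R) ((F.q c : R) * ((u⁻¹ : Rˣ) : R)) 0 1 with hW₀
  have hU : UT U₀ := UT.blk (F.lt c) _
  have hW : UT W₀ := UT.blk (F.lt c) _
  let S' : St R :=
    { A := S.A.erase c
      z := fun t => if c < t then S.z t + seqR F S (c + 1) U₀ (t - (c + 1)) (F.i t) (F.j t) * F.q t
        else S.z t + seqL F.flip S c W₀ (c - (t + 1)) (F.i t) (F.j t) * F.p t
      d := fun t => if t = c then u else S.d t
      e := fun t => if t = c then -(F.p c * F.q c * u⁻¹) else S.e t }
  refine ⟨S', hc, hA, rfl, by simp [S', hu], ?_, ⟨fun t => seqR F S (c + 1) U₀ (t - (c + 1)), ?_, ?_⟩,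
    ⟨fun t => seqL F.flip S c W₀ (c - t), ?_, ?_⟩⟩
  · simp only [S', if_true, ← hu]
    simp
  · simp [seqR, S', hU₀]
  · intro t ht _
    have e : t + 1 - (c + 1) = (t - (c + 1)) + 1 := by omega
    have e2 : c + 1 + (t - (c + 1)) = t := by omega
    simp only [e, seqR, e2]
    have hne : t ≠ c := by omega
    refine RStep.stepU F S S' t _ (UT_seqR F S _ hU _) ?_ ?_ ?_ ?_
    · simp [S', hne]
    · simp [S', hne]
    · simp [S', hne]
    · simp [S', ht]
  · simp [seqL, S', hW₀]
  · intro t ht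
    have e : c - t = (c - (t + 1)) + 1 := by omega
    have e2 : c - 1 - (c - (t + 1)) = t := by omega
    simp only [e, seqL, e2]
    have hne : t ≠ c := by omega
    have hlt : ¬ c < t := by omega
    refine RStep.stepU F.flip S S' t _ (UT_seqL F.flip S _ hW _) ?_ ?_ ?_ ?_
    · simp [S', hne]
    · simp [S', hne]
    · simp [S', hne]
    · simp only [S', if_neg hlt]; rfl

/-- The factorisation of the pinched letter. -/
theorem Pinch.factor {F : Frame k R} {S S' : St R} {c : ℕ} (h : Pinch F S c S') :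
    mat F S c =
      (blk (F.i c) (F.j c) (1 : R) ((F.q c : R) * (((S'.d c)⁻¹ : Rˣ) : R)) 0 1)ᵀ * mat F S' c *
        blk (F.i c) (F.j c) (1 : R) ((F.p c : R) * (((S'.d c)⁻¹ : Rˣ) : R)) 0 1 := by
  have hc' : c ∉ S'.A := by rw [h.hA]; simp
  simp only [mat, if_pos h.mem, if_neg hc', blk_transpose (F.ne c), blk_mul_blk (F.ne c)]
  have h1 := (S'.d c).mul_inv
  have h2 := h.hd
  have h3 := h.he
  congr 1
  · rw [← h2]; ring
  · linear_combination (-(F.p c : R)) * h1
  · linear_combination (-(F.q c : R)) * h1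
  · rw [← h2] at h3
    linear_combination (-(((S'.d c)⁻¹ : Rˣ) : R)) * h3 +
      ((S'.e c : R) - (F.p c : R) * (F.q c : R) * (((S'.d c)⁻¹ : Rˣ) : R)) * h1

/-- Product of the letters `a, …, b-1`. -/
def prd (F : Frame k R) (S : St R) (a : ℕ) : ℕ → Matrix (Fin k) (Fin k) R
  | 0 => 1
  | b + 1 => if a ≤ b then prd F S a b * mat F S b else 1

theorem prd_of_le (F : Frame k R) (S : St R) {a b : ℕ} (h : b ≤ a) : prd F S a b = 1 := by
  cases b with
  | zero => rfl
  | succ b => simp only [prd]; rw [if_neg (by omega)]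

theorem prd_succ (F : Frame k R) (S : St R) {a b : ℕ} (h : a ≤ b) :
    prd F S a (b + 1) = prd F S a b * mat F S b := by
  simp only [prd, if_pos h]

theorem prd_left (F : Frame k R) (S : St R) {a b : ℕ} (h : a < b) :
    prd F S a b = mat F S a * prd F S (a + 1) b := by
  induction b with
  | zero => omega
  | succ b ih =>
    rcases Nat.lt_succ_iff_lt_or_eq.mp h with h' | h'
    · rw [prd_succ F S h'.le, ih h', prd_succ F S (by omega : a + 1 ≤ b), mul_assoc]
    · subst h'
      rw [prd_succ F S le_rfl, prd_of_le F S le_rfl, prd_of_le F S le_rfl, one_mul, mul_one]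

theorem Pinch.pm_prd {F : Frame k R} {S S' : St R} {c : ℕ} (h : Pinch F S c S') {a b : ℕ}
    (ha : a ≤ c) (hb : c < b) (hl : b ≤ F.l) (s : ℕ) :
    pm (prd F S a b) s = pm (prd F S' a b) s := by
  obtain ⟨U, hU0, hU⟩ := h.right
  obtain ⟨W, hW0, hW⟩ := h.left
  have h1 : ∀ b, c < b → b ≤ F.l →
      UT (U b) ∧ prd F S c b = (W c)ᵀ * prd F S' c b * U b := by
    intro b hb
    induction b, hb using Nat.le_induction with
    | base =>
      intro _
      refine ⟨hU0 ▸ UT.blk (F.lt c) _, ?_⟩
      rw [prd_succ F S le_rfl, prd_succ F S' le_rfl, prd_of_le F S le_rfl, prd_of_le F S' le_rfl,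
        one_mul, one_mul, hU0, hW0]
      exact h.factor
    | succ b hb ih =>
      intro hl
      have st := hU b hb (by omega)
      refine ⟨st.ut', ?_⟩
      rw [prd_succ F S (by omega), prd_succ F S' (by omega), (ih (by omega)).2, mul_assoc, st.eq]
      simp only [mul_assoc]
  have h2 : ∀ n, n ≤ c → UT (W (c - n)) ∧
      prd F S (c - n) b = (W (c - n))ᵀ * prd F S' (c - n) b * U b := by
    intro n
    induction n with
    | zero => intro _; exact ⟨hW0 ▸ UT.blk (F.lt c) _, (h1 b hb hl).2⟩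
    | succ n ih =>
      intro hn
      have e : c - n = c - (n + 1) + 1 := by omega
      have st := hW (c - (n + 1)) (by omega)
      refine ⟨st.ut', ?_⟩
      have e2 := congrArg transpose st.eq
      simp only [mat_flip, transpose_mul, transpose_transpose] at e2
      rw [prd_left F S (by omega), prd_left F S' (by omega : c - (n + 1) < b), ← e,
        (ih (by omega)).2, e, ← mul_assoc, ← mul_assoc, e2]
      simp only [mul_assoc]
  have h3 := h2 (c - a) (by omega)
  rw [show c - (c - a) = a by omega] at h3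
  rw [h3.2, pm_mul_UT _ (h1 b hb hl).1, pm_LT_mul _ (by simpa using h3.1)]

section map

variable {T : Type} [CommRing T] (f : R →+* T)

def Frame.map (F : Frame k R) : Frame k T :=
  { l := F.l, i := F.i, j := F.j, hij := F.hij,
    p := fun t => Units.map (f : R →* T) (F.p t), q := fun t => Units.map (f : R →* T) (F.q t) }

def St.map (S : St R) : St T :=
  { A := S.A, z := fun t => f (S.z t),
    d := fun t => Units.map (f : R →* T) (S.d t), e := fun t => Units.map (f : R →* T) (S.e t) }

theorem mat_map (F : Frame k R) (S : St R) (t : ℕ) :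
    mat (F.map f) (S.map f) t = (mat F S t).map f := by
  unfold mat
  by_cases ht : t ∈ S.A
  · rw [if_pos ht, if_pos (show t ∈ (S.map f).A from ht), blk_map]
    simp [Frame.map, St.map]
  · rw [if_neg ht, if_neg (show t ∉ (S.map f).A from ht), blk_map]
    simp [Frame.map, St.map]

theorem RStep.map {F : Frame k R} {S S' : St R} {t : ℕ} {U U' : Matrix (Fin k) (Fin k) R}
    (h : RStep F S S' t U U') : RStep (F.map f) (S.map f) (S'.map f) t (U.map f) (U'.map f) :=
  ⟨h.ut.map f, h.ut'.map f, by rw [mat_map, mat_map, ← Matrix.map_mul, h.eq, Matrix.map_mul],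
    h.al, by simp [St.map, h.hd], by simp [St.map, h.he]⟩

theorem Pinch.map {F : Frame k R} {S S' : St R} {c : ℕ} (h : Pinch F S c S') :
    Pinch (F.map f) (S.map f) c (S'.map f) := by
  obtain ⟨U, hU0, hU⟩ := h.right
  obtain ⟨W, hW0, hW⟩ := h.left
  refine ⟨h.lt, h.mem, h.hA, ?_, ?_, ⟨fun t => (U t).map f, ?_, fun t h1 h2 => (hU t h1 h2).map f⟩,
    ⟨fun t => (W t).map f, ?_, fun t h1 => (hW t h1).map f⟩⟩
  · simp [St.map, h.hd]
  · have := congrArg f h.he
    simpa [St.map, Frame.map] using this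
  · simp only [hU0, blk_map]
    simp [St.map, Frame.map]
  · simp only [hW0, blk_map]
    simp [St.map, Frame.map]

theorem prd_map (F : Frame k R) (S : St R) (a b : ℕ) :
    prd (F.map f) (S.map f) a b = (prd F S a b).map f := by
  induction b with
  | zero => simp [prd]
  | succ b ih =>
    simp only [prd]
    split_ifs
    · rw [ih, mat_map, Matrix.map_mul]
    · simp

end map

end Pool.Agent.Lib.MP_53bec5_ag
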