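import Pool.Agent.Lib.MP_53bec5_ag.Config

/-!
Components of the closed braid as minimal invariant classes of arcs.
-/

namespace Pool.Agent.Lib.MP_53bec5_ag

open Matrix

theorem perm_split {α : Type} [Fintype α] [DecidableEq α] (f : Equiv.Perm α) {x y : α}
    (hxy : x ≠ y) (h : f.SameCycle x y) : ¬ (f * Equiv.swap x y).SameCycle x y := by
  classical
  have hex : ∃ n : ℕ, (f ^ n) x = y := h.exists_nat_pow_eq
  have hn := Nat.find_spec hex
  have hmin : ∀ m, m < Nat.find hex → (f ^ m) x ≠ y := fun m hm => Nat.find_min hex hm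
  generalize Nat.find hex = n at hn hmin
  have hpos : 1 ≤ n := by
    rcases Nat.eq_zero_or_pos n with h0 | h0
    · subst h0; exact absurd hn hxy
    · exact h0
  have hx : ∀ m, 1 ≤ m → m ≤ n → (f ^ m) x ≠ x := by
    intro m h1 h2 e
    rcases Nat.lt_or_ge m n with h3 | h3
    · refine hmin (n - m) (by omega) ?_
      rw [← hn, ← e, ← Equiv.Perm.mul_apply, ← pow_add, e, show n - m + m = n by omega]
    · rw [show m = n by omega, hn] at e; exact hxy e.symm
  intro hs
  obtain ⟨m, hm⟩ := hs.symm.exists_nat_pow_eq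
  have key : ∀ m : ℕ, ∃ r, 1 ≤ r ∧ r ≤ n ∧ ((f * Equiv.swap x y) ^ m) y = (f ^ r) x := by
    intro m
    induction m with
    | zero => exact ⟨n, hpos, le_rfl, by simp [hn]⟩
    | succ m ih =>
      obtain ⟨r, h1, h2, e⟩ := ih
      rw [pow_succ', Equiv.Perm.mul_apply, e, Equiv.Perm.mul_apply]
      rcases Nat.lt_or_ge r n with h3 | h3
      · refine ⟨r + 1, by omega, h3, ?_⟩
        rw [Equiv.swap_apply_of_ne_of_ne (hx r h1 h2) (hmin r h3), pow_succ', Equiv.Perm.mul_apply]
      · refine ⟨1, le_rfl, hpos, ?_⟩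
        rw [show r = n by omega, hn, Equiv.swap_apply_right, pow_one]
  obtain ⟨r, h1, h2, e⟩ := key m
  exact hx r h1 h2 (e.symm.trans hm)

variable {k : ℕ} {R : Type} [CommRing R] {F : Frame k R} {A : Finset ℕ}

/-- Position at time `t` of the strand starting at a given position. -/
def tau (F : Frame k R) (A : Finset ℕ) : ℕ → Equiv.Perm (Fin k)
  | 0 => 1
  | t + 1 => sw F A t * tau F A t

theorem sw_inv (t : ℕ) : (sw F A t)⁻¹ = sw F A t := by
  unfold sw; split_ifs <;> simp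

theorem tau_inv_succ (t : ℕ) (u : Fin k) :
    (tau F A (t + 1))⁻¹ (sw F A t u) = (tau F A t)⁻¹ u := by
  simp only [tau, _root_.mul_inv_rev, Equiv.Perm.mul_apply, sw_inv, sw_sw]

theorem exists_str (F : Frame k R) (A : Finset ℕ) (t₀ : ℕ) (u₀ : Fin k) :
    ∃ σ : ℕ → Fin k, Str F A σ 0 F.l ∧ σ t₀ = u₀ :=
  ⟨fun t => tau F A t ((tau F A t₀)⁻¹ u₀), fun _ _ _ => rfl, by simp⟩

theorem Flow.str {C : Type} {χ : ℕ → Fin k → C} {σ : ℕ → Fin k} (h : Flow F A χ 0 F.l)
    (hσ : Str F A σ 0 F.l) : ∀ t, t ≤ F.l → χ t (σ t) = χ 0 (σ 0) := fun t ht =>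
  up_ind (P := fun t => χ t (σ t) = χ 0 (σ 0)) (a := 0) (b := F.l) rfl
    (fun t x y ih => by rw [hσ t x y, h t x y, ih]) t (by omega) ht

theorem Flow.tau {C : Type} {χ : ℕ → Fin k → C} (h : Flow F A χ 0 F.l) (u : Fin k) :
    ∀ t, t ≤ F.l → χ t (tau F A t u) = χ 0 u :=
  h.str (σ := fun t => Pool.Agent.Lib.MP_53bec5_ag.tau F A t u) (fun _ _ _ => rfl)

abbrev Cls (k : ℕ) : Type := ℕ → Fin k → Prop

theorem Flow.and {X Y : Cls k} {a b : ℕ} (hX : Flow F A X a b) (hY : Flow F A Y a b) :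
    Flow F A (fun t u => X t u ∧ Y t u) a b := fun t x y u => by
  simp only [hX t x y u, hY t x y u]

theorem Flow.or {X Y : Cls k} {a b : ℕ} (hX : Flow F A X a b) (hY : Flow F A Y a b) :
    Flow F A (fun t u => X t u ∨ Y t u) a b := fun t x y u => by
  simp only [hX t x y u, hY t x y u]

theorem Flow.not {X : Cls k} {a b : ℕ} (hX : Flow F A X a b) :
    Flow F A (fun t u => ¬ X t u) a b := fun t x y u => by
  simp only [hX t x y u]

theorem Flow.exists_at {X : Cls k} (hX : Flow F A X 0 F.l) {t t' : ℕ} (ht : t ≤ F.l)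
    (ht' : t' ≤ F.l) (h : ∃ u, X t u) : ∃ u, X t' u := by
  obtain ⟨u, hu⟩ := h
  obtain ⟨σ, hσ, e⟩ := exists_str F A t u
  exact ⟨σ t', by rw [hX.str hσ t' ht', ← hX.str hσ t ht, e]; exact hu⟩

theorem Flow.sub {X Y : Cls k} (hX : Flow F A X 0 F.l) (hY : Flow F A Y 0 F.l) {t : ℕ}
    (ht : t ≤ F.l) (h : ∀ u, Y t u → X t u) : ∀ t', t' ≤ F.l → ∀ u, Y t' u → X t' u := by
  intro t' ht' u hu
  by_contra hn
  obtain ⟨v, h1, h2⟩ := (hY.and hX.not).exists_at ht' ht ⟨u, hu, hn⟩
  exact h2 (h v h1)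

def Compat (F : Frame k R) (A : Finset ℕ) (X : Cls k) : Prop :=
  Flow F A X 0 F.l ∧ X F.l = X 0

theorem Compat.and {X Y : Cls k} (hX : Compat F A X) (hY : Compat F A Y) :
    Compat F A (fun t u => X t u ∧ Y t u) := ⟨hX.1.and hY.1, by simp only [hX.2, hY.2]⟩

theorem Compat.or {X Y : Cls k} (hX : Compat F A X) (hY : Compat F A Y) :
    Compat F A (fun t u => X t u ∨ Y t u) := ⟨hX.1.or hY.1, by simp only [hX.2, hY.2]⟩

theorem Compat.not {X : Cls k} (hX : Compat F A X) :
    Compat F A (fun t u => ¬ X t u) := ⟨hX.1.not, by simp only [hX.2]⟩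

theorem Compat.erase {X : Cls k} {c : ℕ} (hX : Compat F A X) (h : X c (F.i c) ↔ X c (F.j c)) :
    Compat F (A.erase c) X := ⟨hX.1.erase (propext h), hX.2⟩

theorem Compat.of_erase {X : Cls k} {c : ℕ} (hX : Compat F (A.erase c) X)
    (h : X c (F.i c) ↔ X c (F.j c)) : Compat F A X := ⟨hX.1.of_erase (propext h), hX.2⟩

/-- A single component. -/
structure Min (F : Frame k R) (A : Finset ℕ) (X : Cls k) : Prop where
  compat : Compat F A X
  ne : ∃ u, X 0 u
  min : ∀ Y : Cls k, Compat F A Y → (∀ u, Y 0 u → X 0 u) → (∃ u, Y 0 u) → ∀ u, X 0 u → Y 0 u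

theorem Min.flow {X : Cls k} (h : Min F A X) : Flow F A X 0 F.l := h.compat.1

theorem Min.sub {X Y : Cls k} (h : Min F A X) (hY : Compat F A Y) {t : ℕ} (ht : t ≤ F.l)
    {u : Fin k} (h1 : X t u) (h2 : Y t u) : ∀ t', t' ≤ F.l → ∀ v, X t' v → Y t' v := by
  refine hY.1.sub h.flow (Nat.zero_le _) (fun v hv => ?_)
  exact (h.min _ (h.compat.and hY) (fun _ g => g.1)
    ((h.flow.and hY.1).exists_at ht (Nat.zero_le _) ⟨u, h1, h2⟩) v hv).2

theorem Min.of_erase {X : Cls k} {c : ℕ} (h : Min F (A.erase c) X) (hc : c < F.l)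
    (h1 : ¬ X c (F.i c)) (h2 : ¬ X c (F.j c)) : Min F A X := by
  have hX : Compat F A X := h.compat.of_erase (by tauto)
  refine ⟨hX, h.ne, fun Y hY hsub hne => h.min Y (hY.erase ?_) hsub hne⟩
  have := hX.1.sub hY.1 (Nat.zero_le _) hsub c hc.le
  exact ⟨fun g => absurd (this _ g) h1, fun g => absurd (this _ g) h2⟩

theorem compat_cycle (F : Frame k R) (A : Finset ℕ) (x : Fin k) :
    Compat F A (fun t u => (tau F A F.l).SameCycle x ((tau F A t)⁻¹ u)) := by
  refine ⟨fun t _ _ u => by simp only [tau_inv_succ], ?_⟩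
  funext u
  simp only [tau, inv_one, Equiv.Perm.coe_one, id]
  exact propext Equiv.Perm.sameCycle_symm_apply_right

theorem Compat.cycle {X : Cls k} (h : Compat F A X) {x y : Fin k}
    (hs : (tau F A F.l).SameCycle x y) (hx : X 0 x) : X 0 y := by
  obtain ⟨n, hn⟩ := hs.exists_nat_pow_eq
  rw [← hn]
  clear hn
  induction n with
  | zero => simpa using hx
  | succ n ih =>
    rw [pow_succ', Equiv.Perm.mul_apply, ← h.2, h.1.tau _ F.l le_rfl]; exact ih

theorem min_cycle (F : Frame k R) (A : Finset ℕ) (x : Fin k) :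
    Min F A (fun t u => (tau F A F.l).SameCycle x ((tau F A t)⁻¹ u)) := by
  refine ⟨compat_cycle F A x, ⟨x, by simp [tau, Equiv.Perm.SameCycle.refl]⟩, ?_⟩
  rintro Y hY hsub ⟨w, hw⟩ u hu
  have h1 := hsub w hw
  simp only [tau, inv_one, Equiv.Perm.coe_one, id] at h1 hu
  exact hY.cycle (h1.symm.trans hu) hw

theorem tau_erase_le {c : ℕ} : ∀ t, t ≤ c → tau F A t = tau F (A.erase c) t := by
  intro t
  induction t with
  | zero => intro _; rfl
  | succ t ih =>
    intro h
    simp only [tau]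
    rw [ih (by omega), sw_congr (A' := A.erase c) (by simp [show t ≠ c by omega])]

theorem tau_erase_gt {c : ℕ} (hc : c ∈ A) : ∀ t, c < t → tau F A t = tau F (A.erase c) t *
    Equiv.swap ((tau F (A.erase c) c)⁻¹ (F.i c)) ((tau F (A.erase c) c)⁻¹ (F.j c)) := by
  intro t ht
  induction t, ht using Nat.le_induction with
  | base =>
    simp only [tau]
    rw [tau_erase_le c le_rfl]
    have e : sw F (A.erase c) c = 1 := by simp [sw]
    rw [e, one_mul, Equiv.mul_swap_eq_swap_mul]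
    simp [sw, hc]
  | succ t ht ih =>
    simp only [tau]
    rw [ih, sw_congr (A' := A.erase c) (by simp [show t ≠ c by omega]), mul_assoc]

/-- The letter `t` is present and joins two arcs of the class. -/
def XX (F : Frame k R) (A : Finset ℕ) (X : Cls k) (t : ℕ) : Prop :=
  t ∈ A ∧ X t (F.i t) ∧ X t (F.j t)

def Mix (F : Frame k R) (A : Finset ℕ) (P Q : Cls k) (t : ℕ) : Prop :=
  t ∈ A ∧ ((P t (F.i t) ∧ Q t (F.j t)) ∨ (P t (F.j t) ∧ Q t (F.i t)))

structure DisjUnion (F : Frame k R) (X P Q : Cls k) : Prop where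
  disj : ∀ t, t ≤ F.l → ∀ u, ¬ (P t u ∧ Q t u)
  union : ∀ t, t ≤ F.l → ∀ u, X t u ↔ P t u ∨ Q t u

theorem DisjUnion.symm {X P Q : Cls k} (h : DisjUnion F X P Q) : DisjUnion F X Q P :=
  ⟨fun t ht u g => h.disj t ht u g.symm, fun t ht u => (h.union t ht u).trans Or.comm⟩

structure Split (F : Frame k R) (A : Finset ℕ) (X : Cls k) (c : ℕ) (P Q : Cls k) : Prop where
  hP : Min F (A.erase c) P
  hQ : Min F (A.erase c) Q
  hi : P c (F.i c)
  hj : Q c (F.j c)
  du : DisjUnion F X P Q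

theorem exists_split {X : Cls k} (h : Min F A X) {c : ℕ} (hc : c < F.l) (hx : XX F A X c) :
    ∃ P Q, Split F A X c P Q := by
  set x := (tau F (A.erase c) c)⁻¹ (F.i c) with hxd
  set y := (tau F (A.erase c) c)⁻¹ (F.j c) with hyd
  have hP := min_cycle F (A.erase c) x
  have hQ := min_cycle F (A.erase c) y
  have hX' : Compat F (A.erase c) X := h.compat.erase ⟨fun _ => hx.2.2, fun _ => hx.2.1⟩
  have hi : (tau F (A.erase c) F.l).SameCycle x ((tau F (A.erase c) c)⁻¹ (F.i c)) :=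
    Equiv.Perm.SameCycle.rfl
  have hj : (tau F (A.erase c) F.l).SameCycle y ((tau F (A.erase c) c)⁻¹ (F.j c)) :=
    Equiv.Perm.SameCycle.rfl
  refine ⟨_, _, hP, hQ, hi, hj, ?_, ?_⟩
  · intro t _ u hu
    have h1 : (tau F (A.erase c) F.l).SameCycle x y := hu.1.trans hu.2.symm
    have hne : x ≠ y := fun e => F.ne c ((tau F (A.erase c) c)⁻¹.injective e)
    have h2 : (tau F A F.l).SameCycle x y := by
      have := h.sub (compat_cycle F A x) hc.le hx.2.1
        (by rw [tau_erase_le c le_rfl]) c hc.le _ hx.2.2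
      rwa [tau_erase_le c le_rfl] at this
    have h3 := perm_split _ hne h2
    rw [tau_erase_gt hx.1 F.l hc, mul_assoc, Equiv.swap_mul_self, mul_one] at h3
    exact h3 h1
  · intro t ht u
    constructor
    · exact h.sub ((hP.compat.or hQ.compat).of_erase ⟨fun _ => Or.inr hj, fun _ => Or.inl hi⟩)
        hc.le hx.2.1 (Or.inl hi) t ht u
    · rintro (g | g)
      · exact hP.sub hX' hc.le hi hx.2.1 t ht u g
      · exact hQ.sub hX' hc.le hj hx.2.2 t ht u g

open Classical in
noncomputable def sz (X : Cls k) (t : ℕ) : ℕ := (Finset.univ.filter (X t)).card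

open Classical in
noncomputable def Cnt (F : Frame k R) (A : Finset ℕ) (X : Cls k) : ℕ :=
  ((Finset.range F.l).filter (XX F A X)).card

open Classical in
noncomputable def CntMix (F : Frame k R) (A : Finset ℕ) (P Q : Cls k) : ℕ :=
  ((Finset.range F.l).filter (Mix F A P Q)).card

theorem Flow.sz_eq {X : Cls k} {a b : ℕ} (h : Flow F A X a b) :
    ∀ t, a ≤ t → t ≤ b → sz X t = sz X a :=
  up_ind rfl fun t x y ih => by
    rw [← ih]
    unfold sz
    symm
    refine Finset.card_equiv (sw F A t) (fun u => ?_)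
    simp [h t x y u]

theorem DisjUnion.sz_eq {X P Q : Cls k} (h : DisjUnion F X P Q) {t : ℕ} (ht : t ≤ F.l) :
    sz X t = sz P t + sz Q t := by
  classical
  unfold sz
  rw [← Finset.card_union_of_disjoint]
  · congr 1
    ext u; simp [h.union t ht u]
  · rw [Finset.disjoint_filter]
    intro u _ h1 h2; exact h.disj t ht u ⟨h1, h2⟩

theorem DisjUnion.cnt_eq {X P Q : Cls k} (h : DisjUnion F X P Q) (A : Finset ℕ) :
    Cnt F A X = Cnt F A P + Cnt F A Q + CntMix F A P Q := by
  classical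
  unfold Cnt CntMix
  rw [← Finset.card_union_of_disjoint, ← Finset.card_union_of_disjoint]
  · congr 1
    ext t
    simp only [Finset.mem_filter, Finset.mem_range, Finset.mem_union, XX, Mix]
    constructor
    · rintro ⟨ht, hA, h1, h2⟩
      rw [h.union t ht.le] at h1 h2
      tauto
    · rintro ((⟨ht, g⟩ | ⟨ht, g⟩) | ⟨ht, g⟩) <;>
      · rw [h.union t ht.le, h.union t ht.le]; tauto
  · rw [Finset.disjoint_left]
    intro t h1 h2
    simp only [Finset.mem_filter, Finset.mem_range, Finset.mem_union, XX, Mix] at h1 h2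
    have d1 := h.disj t h2.1.le (F.i t)
    have d2 := h.disj t h2.1.le (F.j t)
    tauto
  · rw [Finset.disjoint_filter]
    intro t ht h1 h2
    exact h.disj t (Finset.mem_range.mp ht).le _ ⟨h1.2.1, h2.2.1⟩

theorem cnt_erase {X : Cls k} {c : ℕ} (hc : c < F.l) (hx : XX F A X c) :
    Cnt F A X = Cnt F (A.erase c) X + 1 := by
  classical
  unfold Cnt
  have : (Finset.range F.l).filter (XX F (A.erase c) X) =
      ((Finset.range F.l).filter (XX F A X)).erase c := by
    ext t; simp only [Finset.mem_filter, Finset.mem_erase, XX]; tauto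
  rw [this, Finset.card_erase_add_one]
  simp [hc, hx]

theorem cnt_erase_of_not {X : Cls k} {c : ℕ} (hx : ¬ XX F A X c) :
    Cnt F (A.erase c) X = Cnt F A X := by
  classical
  unfold Cnt
  congr 1
  ext t
  simp only [Finset.mem_filter, Finset.mem_erase, XX] at hx ⊢
  constructor
  · tauto
  · rintro ⟨h1, h2⟩
    exact ⟨h1, ⟨fun e => hx (e ▸ h2), h2.1⟩, h2.2⟩

theorem cnt_pos {X : Cls k} : 0 < Cnt F A X ↔ ∃ t, t < F.l ∧ XX F A X t := by
  classical
  unfold Cnt
  simp [Finset.card_pos, Finset.Nonempty]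

theorem cntMix_pos {P Q : Cls k} : 0 < CntMix F A P Q ↔ ∃ t, t < F.l ∧ Mix F A P Q t := by
  classical
  unfold CntMix
  simp [Finset.card_pos, Finset.Nonempty]

theorem Split.cnt {X P Q : Cls k} {c : ℕ} (h : Split F A X c P Q) (hc : c < F.l)
    (hA : c ∈ A) : Cnt F A X = Cnt F (A.erase c) P + Cnt F (A.erase c) Q +
      CntMix F (A.erase c) P Q + 1 := by
  rw [cnt_erase hc ⟨hA, (h.du.union c hc.le _).mpr (Or.inl h.hi),
    (h.du.union c hc.le _).mpr (Or.inr h.hj)⟩, h.du.cnt_eq]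

theorem Min.sz_pos {X : Cls k} (h : Min F A X) : 0 < sz X 0 := by
  classical
  obtain ⟨u, hu⟩ := h.ne
  unfold sz
  exact Finset.card_pos.mpr ⟨u, by simp [hu]⟩

theorem sz_le_one {X : Cls k} {t : ℕ} : sz X t ≤ 1 ↔ ∀ u v, X t u → X t v → u = v := by
  classical
  unfold sz
  simp only [Finset.card_le_one, Finset.mem_filter, Finset.mem_univ, true_and]
  exact ⟨fun h u v a b => h u a v b, fun h u a v b => h u v a b⟩

theorem sw_le_iff {t : ℕ} {u v : Fin k} (h1 : ¬ (t ∈ A ∧ u = F.i t ∧ v = F.j t))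
    (h2 : ¬ (t ∈ A ∧ v = F.i t ∧ u = F.j t)) : sw F A t u ≤ sw F A t v ↔ u ≤ v := by
  constructor
  · intro h
    by_contra hn
    exact absurd (sw_lt (not_le.mp hn) h2) (not_lt.mpr h)
  · intro h
    rcases h.lt_or_eq with g | g
    · exact (sw_lt g h1).le
    · rw [g]

theorem Min.sz_le_one_of_cnt {X : Cls k} (h : Min F A X) (h0 : Cnt F A X = 0) : sz X 0 ≤ 1 := by
  have hno : ∀ t, t < F.l → ¬ XX F A X t := fun t ht g => by
    have := cnt_pos.mpr ⟨t, ht, g⟩; omega
  have hY : Compat F A (fun t u => X t u ∧ ∀ v, X t v → u ≤ v) := by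
    refine ⟨fun t x y u => ?_, by simp only [h.compat.2]⟩
    have f := h.flow t x y
    simp only [f u, eq_iff_iff, and_congr_right_iff]
    intro hu
    have g : ∀ v, X t v → (sw F A t u ≤ sw F A t v ↔ u ≤ v) := fun v hv =>
      sw_le_iff (fun e => hno t y ⟨e.1, e.2.1 ▸ hu, e.2.2 ▸ hv⟩)
        (fun e => hno t y ⟨e.1, e.2.1 ▸ hv, e.2.2 ▸ hu⟩)
    constructor
    · intro a v hv
      exact (g v hv).mp (a _ (by rw [f v]; exact hv))
    · intro a v hv
      have hv' : X t (sw F A t v) := by rw [col_symm f v]; exact hv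
      have := (g _ hv').mpr (a _ hv')
      rwa [sw_sw] at this
  classical
  obtain ⟨u, hu⟩ := h.ne
  obtain ⟨m, hm, hmin⟩ := Finset.exists_min_image (Finset.univ.filter (X 0)) id ⟨u, by simp [hu]⟩
  have := h.min _ hY (fun _ g => g.1) ⟨m, by simpa using hm, fun v hv => hmin v (by simp [hv])⟩
  rw [sz_le_one]
  intro a b ha hb
  exact le_antisymm ((this a ha).2 b hb) ((this b hb).2 a ha)

theorem Min.sz_le : ∀ (n : ℕ) (A : Finset ℕ) (X : Cls k), A.card = n → Min F A X →
    sz X 0 ≤ Cnt F A X + 1 := by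
  intro n
  induction n with
  | zero =>
    intro A X hA h
    have : Cnt F A X = 0 := by
      by_contra hn
      obtain ⟨t, _, g⟩ := cnt_pos.mp (Nat.pos_of_ne_zero hn)
      rw [Finset.card_eq_zero] at hA
      simp [XX, hA] at g
    have := h.sz_le_one_of_cnt this
    omega
  | succ n ih =>
    intro A X hA h
    rcases Nat.eq_zero_or_pos (Cnt F A X) with h0 | h0
    · have := h.sz_le_one_of_cnt h0
      omega
    · obtain ⟨c, hc, g⟩ := cnt_pos.mp h0
      obtain ⟨P, Q, s⟩ := exists_split h hc g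
      have e : (A.erase c).card = n := by rw [Finset.card_erase_of_mem g.1]; omega
      have i1 := ih _ P e s.hP
      have i2 := ih _ Q e s.hQ
      rw [s.cnt hc g.1, s.du.sz_eq (Nat.zero_le _)]
      omega

theorem Min.lb {X : Cls k} (h : Min F A X) : sz X 0 ≤ Cnt F A X + 1 := Min.sz_le _ A X rfl h

theorem Min.single {X : Cls k} (h : Min F A X) (h1 : sz X 0 ≤ 1) :
    ∃ σ : ℕ → Fin k, Str F A σ 0 F.l ∧ σ F.l = σ 0 ∧ ∀ t, t ≤ F.l → ∀ u, X t u ↔ u = σ t := by
  obtain ⟨u, hu⟩ := h.ne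
  obtain ⟨σ, hσ, e⟩ := exists_str F A 0 u
  have key : ∀ t, t ≤ F.l → ∀ u, X t u ↔ u = σ t := by
    intro t ht v
    have hm : X t (σ t) := by rw [h.flow.str hσ t ht, e]; exact hu
    have h2 : sz X t ≤ 1 := by rw [h.flow.sz_eq t (by omega) ht]; exact h1
    exact ⟨fun g => sz_le_one.mp h2 _ _ g hm, fun g => g ▸ hm⟩
  refine ⟨σ, hσ, ?_, key⟩
  rw [← key 0 (by omega), ← h.compat.2, key F.l le_rfl]

theorem min_merge {X P Q : Cls k} (hX : Compat F A X) (hP : Min F A P) (hQ : Min F A Q)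
    (du : DisjUnion F X P Q) {c : ℕ} (hc : c < F.l) (hm : Mix F A P Q c) :
    Min F (A.erase c) X := by
  classical
  obtain ⟨a, b, ha, hb, hsw, hab⟩ : ∃ a b : Fin k, P c a ∧ Q c b ∧ sw F A c = Equiv.swap a b ∧
      ((a = F.i c ∧ b = F.j c) ∨ (a = F.j c ∧ b = F.i c)) := by
    rcases hm.2 with g | g
    · exact ⟨_, _, g.1, g.2, by simp [sw, hm.1], Or.inl ⟨rfl, rfl⟩⟩
    · exact ⟨_, _, g.1, g.2, by simp [sw, hm.1, Equiv.swap_comm], Or.inr ⟨rfl, rfl⟩⟩
  have hXa := (du.union c hc.le a).mpr (Or.inl ha)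
  have hXb := (du.union c hc.le b).mpr (Or.inr hb)
  have hX' : Compat F (A.erase c) X :=
    hX.erase (by rcases hab with g | g <;> simp [← g.1, ← g.2, hXa, hXb])
  obtain ⟨u0, hu0⟩ := hP.ne
  refine ⟨hX', ⟨u0, (du.union 0 (by omega) _).mpr (Or.inl hu0)⟩, fun Y hY hsub hne => ?_⟩
  by_cases hY2 : Y c a ↔ Y c b
  · have hYA : Compat F A Y := hY.of_erase (by rcases hab with g | g <;> simp [← g.1, ← g.2, hY2])
    obtain ⟨w, hw⟩ := hne
    have hYa : Y c a := by
      rcases (du.union 0 (by omega) w).mp (hsub w hw) with g | g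
      · exact hP.sub hYA (Nat.zero_le _) g hw c hc.le a ha
      · exact hY2.mpr (hQ.sub hYA (Nat.zero_le _) g hw c hc.le b hb)
    intro u hu
    rcases (du.union 0 (by omega) u).mp hu with g | g
    · exact hP.sub hYA hc.le ha hYa 0 (by omega) u g
    · exact hQ.sub hYA hc.le hb (hY2.mp hYa) 0 (by omega) u g
  · exfalso
    have f1 : Flow F A (fun t u => Y t u ∧ P t u) 0 c :=
      ((hY.1.mono le_rfl hc.le).congr fun t _ y => by simp [show t ≠ c by omega]).and
        (hP.flow.mono le_rfl hc.le)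
    have f2 : Flow F A (fun t u => Y t u ∧ P t u) (c + 1) F.l :=
      ((hY.1.mono (by omega) le_rfl).congr fun t y _ => by simp [show t ≠ c by omega]).and
        (hP.flow.mono (by omega) le_rfl)
    have e1 := f1.sz_eq c (by omega) le_rfl
    have e2 := f2.sz_eq F.l hc le_rfl
    have e3 : sz (fun t u => Y t u ∧ P t u) F.l = sz (fun t u => Y t u ∧ P t u) 0 := by
      unfold sz; simp only [hY.2, hP.compat.2]
    have e4 : sz (fun t u => Y t u ∧ P t u) (c + 1) = sz (fun t u => Y t u ∧ P t u) c := by omega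
    have g1 : ∀ u, Y (c + 1) u = Y c u := col_dead (hY.1 c (by omega) hc) (by simp)
    have g2 : ∀ u, P (c + 1) u = P c (Equiv.swap a b u) := fun u => by
      rw [← hsw, col_symm (hP.flow c (by omega) hc)]
    have hPb : ¬ P c b := fun g => du.disj c hc.le b ⟨g, hb⟩
    have hne' : a ≠ b := fun e => hPb (e ▸ ha)
    unfold sz at e4
    simp only [g1, g2] at e4
    by_cases hYa : Y c a
    · have hYb : ¬ Y c b := fun g => hY2 ⟨fun _ => g, fun _ => hYa⟩
      refine absurd e4 (ne_of_lt (Finset.card_lt_card ⟨fun u hu => ?_, fun hs => ?_⟩))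
      · simp only [Finset.mem_filter, Finset.mem_univ, true_and] at hu ⊢
        refine ⟨hu.1, ?_⟩
        by_cases h1 : u = a
        · rw [h1]; exact ha
        · have h2 : u ≠ b := fun e => hYb (e ▸ hu.1)
          have := hu.2
          rwa [Equiv.swap_apply_of_ne_of_ne h1 h2] at this
      · have := hs (show a ∈ _ by simp [hYa, ha])
        simp [hPb] at this
    · have hYb : Y c b := by
        by_contra g; exact hY2 ⟨fun e => absurd e hYa, fun e => absurd e g⟩
      refine absurd e4 (ne_of_gt (Finset.card_lt_card ⟨fun u hu => ?_, fun hs => ?_⟩))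
      · simp only [Finset.mem_filter, Finset.mem_univ, true_and] at hu ⊢
        refine ⟨hu.1, ?_⟩
        have h1 : u ≠ a := fun e => hYa (e ▸ hu.1)
        have h2 : u ≠ b := fun e => hPb (e ▸ hu.2)
        rw [Equiv.swap_apply_of_ne_of_ne h1 h2]; exact hu.2
      · have := hs (show b ∈ _ by simp [hYb, ha])
        simp [hPb] at this

/-- All leading principal minors of the product are non-zero. -/
def LU (F : Frame k R) (S : St R) : Prop := ∀ s, pm (prd F S 0 F.l) s ≠ 0

theorem Pinch.lu {S S' : St R} {c : ℕ} (h : Pinch F S c S') (hS : LU F S) : LU F S' :=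
  fun s => by rw [← h.pm_prd (Nat.zero_le _) h.lt le_rfl]; exact hS s

theorem closed_of_sep {C : Type} {S : St R} {χ : ℕ → Fin k → C} (hχ : Flow F S.A χ 0 F.l)
    (hs : Sep F S χ) (hS : LU F S) : χ F.l = χ 0 := by
  classical
  have hadm : ∀ t, 0 ≤ t → t ≤ F.l → Adm (Ord.eq C) (χ 0) (χ t) (prd F S 0 t) :=
    up_ind (Adm.one _ _) fun t x y ih => by
      rw [prd_succ F S x]; exact ih.mul (adm_mat (hχ t x y) (hs t y))
  have hM := hadm F.l (by omega) le_rfl
  funext u
  induction u using WellFoundedLT.induction with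
  | ind u ih =>
    have hk : u.val + 1 ≤ k := u.isLt
    have hd := hS (u.val + 1)
    unfold pm at hd
    rw [dif_pos hk, det_apply] at hd
    obtain ⟨σ, _, hσ⟩ := Finset.exists_ne_zero_of_sum_ne_zero hd
    have hp : ∀ a, χ 0 (Fin.castLE hk (σ a)) = χ F.l (Fin.castLE hk a) := by
      intro a
      refine hM _ _ (fun h0 => hσ ?_)
      rw [Finset.prod_eq_zero (Finset.mem_univ a) (by simpa using h0), smul_zero]
    have hcard : (Finset.univ.filter fun a => χ F.l (Fin.castLE hk a) = χ 0 u).card =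
        (Finset.univ.filter fun a => χ 0 (Fin.castLE hk a) = χ 0 u).card :=
      Finset.card_equiv σ (fun a => by simp [hp a])
    by_contra hn
    refine absurd hcard (ne_of_lt (Finset.card_lt_card ⟨fun a ha => ?_, fun hs => ?_⟩))
    · simp only [Finset.mem_filter, Finset.mem_univ, true_and] at ha ⊢
      rcases (show Fin.castLE hk a ≤ u from Nat.lt_succ_iff.mp a.isLt).lt_or_eq with g | g
      · rw [← ih _ g]; exact ha
      · rw [g]
    · have e : Fin.castLE hk (Fin.last u.val) = u := Fin.ext rfl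
      have := hs (show Fin.last u.val ∈ _ by simp [e])
      simp only [Finset.mem_filter, Finset.mem_univ, true_and, e] at this
      exact hn this

end Pool.Agent.Lib.MP_53bec5_ag
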