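import Pool.Agent.Lib.MP_53bec5_ag.Defs

/-!
Seeds: invariants under mutation, and the seed data attached to a labelled double word.
-/

namespace Pool.Agent.Lib.MP_53bec5_ag

set_option linter.unusedSectionVars false

variable {ι K : Type} [Fintype ι] [DecidableEq ι] [Field K]

/-- The ambient data: mutable vertices, an initial seed, a group `G` of elements regarded as
invertible, and a positive cone containing the initial variables. -/
structure Ctx (ι K : Type) [Field K] where
  isM : ι → Prop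
  s₀ : Seed ι K
  G : K → Prop
  G_one : G 1
  G_mul : ∀ {a b}, G a → G b → G (a * b)
  G_inv : ∀ {a}, G a → G a⁻¹
  G_ne : ∀ {a}, G a → a ≠ 0
  Pos : K → Prop
  P_one : Pos 1
  P_add : ∀ {a b}, Pos a → Pos b → Pos (a + b)
  P_mul : ∀ {a b}, Pos a → Pos b → Pos (a * b)
  P_inv : ∀ {a}, Pos a → Pos a⁻¹
  P_ne : ∀ {a}, Pos a → a ≠ 0
  pos₀ : ∀ v, Pos (s₀.x v)
  skew₀ : ∀ u v, s₀.B u v = -s₀.B v u

def Mp (s : Seed ι K) (m : ι) : K := ∏ v, s.x v ^ (s.B v m).toNat

def Mm (s : Seed ι K) (m : ι) : K := ∏ v, s.x v ^ (-s.B v m).toNat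

def yhat (s : Seed ι K) (v : ι) : K := ∏ u, s.x u ^ s.B u v

theorem Mp_eq (s : Seed ι K) (m : ι) : Mp s m = ∏ v, s.x v ^ max (s.B v m) 0 := by
  unfold Mp
  refine Finset.prod_congr rfl fun v _ => ?_
  rw [← Int.toNat_eq_max, zpow_natCast]

theorem Mm_eq (s : Seed ι K) (m : ι) : Mm s m = ∏ v, s.x v ^ max (-s.B v m) 0 := by
  unfold Mm
  refine Finset.prod_congr rfl fun v _ => ?_
  rw [← Int.toNat_eq_max, zpow_natCast]

theorem mutate_x_self (s : Seed ι K) (m : ι) : (s.mutate m).x m = (Mp s m + Mm s m) / s.x m := by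
  simp [Seed.mutate, Mp, Mm]

theorem mutate_x_ne (s : Seed ι K) {m u : ι} (h : u ≠ m) : (s.mutate m).x u = s.x u := by
  simp [Seed.mutate, h]

theorem yhat_eq (s : Seed ι K) (hx : ∀ u, s.x u ≠ 0) (m : ι) : yhat s m = Mp s m / Mm s m := by
  rw [Mp_eq, Mm_eq, ← Finset.prod_div_distrib]
  refine Finset.prod_congr rfl fun v _ => ?_
  rw [← zpow_sub₀ (hx v)]
  congr 1
  omega

theorem yhat_mutate_self (s : Seed ι K) {m : ι} (h0 : s.B m m = 0) :
    yhat (s.mutate m) m = (yhat s m)⁻¹ := by
  unfold yhat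
  rw [← Finset.prod_inv_distrib]
  refine Finset.prod_congr rfl fun u _ => ?_
  by_cases h : u = m
  · subst h; simp [Seed.mutate, h0]
  · rw [mutate_x_ne s h]; simp [Seed.mutate]

theorem yhat_mutate_ne (s : Seed ι K) (hx : ∀ u, s.x u ≠ 0) {m v : ι} (h0 : s.B m m = 0)
    (hv : v ≠ m) : yhat (s.mutate m) v =
      yhat s v * Mp s m ^ max (s.B m v) 0 * Mm s m ^ (-max (-s.B m v) 0) *
        (Mp s m + Mm s m) ^ (-s.B m v) := by
  have e : yhat s v * Mp s m ^ max (s.B m v) 0 * Mm s m ^ (-max (-s.B m v) 0) =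
      ∏ u, s.x u ^ (s.B u v + max (s.B u m) 0 * max (s.B m v) 0 -
        max (-s.B u m) 0 * max (-s.B m v) 0) := by
    rw [Mp_eq, Mm_eq, yhat, ← Finset.prod_zpow, ← Finset.prod_zpow, ← Finset.prod_mul_distrib,
      ← Finset.prod_mul_distrib]
    refine Finset.prod_congr rfl fun u _ => ?_
    rw [← zpow_mul, ← zpow_mul, ← zpow_add₀ (hx u), ← zpow_add₀ (hx u)]
    congr 1
    ring
  rw [e, yhat, ← Finset.mul_prod_erase _ _ (Finset.mem_univ m),
    ← Finset.mul_prod_erase _ _ (Finset.mem_univ m)]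
  have e2 : ∏ u ∈ Finset.univ.erase m, (s.mutate m).x u ^ (s.mutate m).B u v =
      ∏ u ∈ Finset.univ.erase m, s.x u ^ (s.B u v + max (s.B u m) 0 * max (s.B m v) 0 -
        max (-s.B u m) 0 * max (-s.B m v) 0) := by
    refine Finset.prod_congr rfl fun u hu => ?_
    have h : u ≠ m := Finset.ne_of_mem_erase hu
    rw [mutate_x_ne s h]
    simp [Seed.mutate, h, hv]
  rw [e2, mutate_x_self]
  have e3 : (s.mutate m).B m v = -s.B m v := by simp [Seed.mutate]
  rw [e3, h0]
  simp only [max_self, neg_zero, zero_mul, add_zero, sub_zero]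
  rw [div_zpow, zpow_neg (s.x m)]
  have := zpow_ne_zero (s.B m v) (hx m)
  field_simp

namespace Ctx

variable (X : Ctx ι K)

theorem P_pow {a : K} (h : X.Pos a) (n : ℕ) : X.Pos (a ^ n) := by
  induction n with
  | zero => simpa using X.P_one
  | succ n ih => rw [pow_succ]; exact X.P_mul ih h

theorem P_prod {f : ι → K} (h : ∀ v, X.Pos (f v)) : X.Pos (∏ v, f v) :=
  Finset.prod_induction f X.Pos (fun _ _ => X.P_mul) X.P_one (fun v _ => h v)

theorem G_div {a b : K} (ha : X.G a) (hb : X.G b) : X.G (a / b) := by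
  rw [div_eq_mul_inv]; exact X.G_mul ha (X.G_inv hb)

theorem G_zpow {a : K} (h : X.G a) (n : ℤ) : X.G (a ^ n) := by
  have hn : ∀ n : ℕ, X.G (a ^ n) := by
    intro n
    induction n with
    | zero => simpa using X.G_one
    | succ n ih => rw [pow_succ]; exact X.G_mul ih h
  cases n with
  | ofNat n => simpa using hn n
  | negSucc n => rw [zpow_negSucc]; exact X.G_inv (hn _)

theorem G_prod {f : ι → K} (h : ∀ v, X.G (f v)) : X.G (∏ v, f v) :=
  Finset.prod_induction f X.G (fun _ _ => X.G_mul) X.G_one (fun v _ => h v)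

theorem reach_inv {s : Seed ι K} (h : Reach X.isM X.s₀ s) :
    (∀ v, X.Pos (s.x v)) ∧ ∀ u v, s.B u v = -s.B v u := by
  induction h with
  | refl => exact ⟨X.pos₀, X.skew₀⟩
  | tail _ st ih =>
    obtain ⟨m, -, rfl⟩ := st
    refine ⟨fun v => ?_, fun u v => ?_⟩
    · by_cases h : v = m
      · rw [h, mutate_x_self, div_eq_mul_inv]
        exact X.P_mul (X.P_add (X.P_prod fun u => X.P_pow (ih.1 u) _)
          (X.P_prod fun u => X.P_pow (ih.1 u) _)) (X.P_inv (ih.1 m))
      · rw [mutate_x_ne _ h]; exact ih.1 v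
    · simp only [Seed.mutate, or_comm (a := v = m)]
      split_ifs
      · rw [ih.2 u v]
      · rw [ih.2 u v, ih.2 u m, ih.2 v m]
        simp only [neg_neg]
        ring

theorem sum_ne {s : Seed ι K} (h : Reach X.isM X.s₀ s) (m : ι) : Mp s m + Mm s m ≠ 0 :=
  X.P_ne (X.P_add (X.P_prod fun u => X.P_pow ((X.reach_inv h).1 u) _)
    (X.P_prod fun u => X.P_pow ((X.reach_inv h).1 u) _))

end Ctx

/-- A letter of a double word: its side, its position, and the value of the new minor. -/
structure Tr (K : Type) where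
  top : Bool
  pos : ℕ
  val : K

def ind (o : Option ι) (v : ι) : ℤ := if o = some v then 1 else 0

def nb (cur : ℕ → Option ι) (i : ℕ) (v : ι) : ℤ := ind (cur i) v + ind (cur (i + 2)) v

def cC (cur : ℕ → Option ι) (e : Tr K × ι) (u v : ι) : ℤ :=
  if e.1.top then
    -(ind (cur (e.1.pos + 1)) u * ind (some e.2) v) + ind (some e.2) u * ind (cur (e.1.pos + 1)) v
      - ind (some e.2) u * nb cur e.1.pos v + ind (cur (e.1.pos + 1)) u * nb cur e.1.pos v
  else
    ind (cur (e.1.pos + 1)) u * ind (some e.2) v - ind (some e.2) u * ind (cur (e.1.pos + 1)) v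
      - nb cur e.1.pos u * ind (some e.2) v + nb cur e.1.pos u * ind (cur (e.1.pos + 1)) v

def cY (val : ℕ → K) (cur : ℕ → Option ι) (e : Tr K × ι) (v : ι) : K :=
  if e.1.top then
    (val (e.1.pos + 1))⁻¹ ^ ind (some e.2) v * e.1.val ^ ind (cur (e.1.pos + 1)) v *
      (val (e.1.pos + 1) / e.1.val) ^ nb cur e.1.pos v
  else
    (val (e.1.pos + 1) / (val e.1.pos * val (e.1.pos + 2))) ^ ind (some e.2) v *
      (val e.1.pos * val (e.1.pos + 2) / e.1.val) ^ ind (cur (e.1.pos + 1)) v

def stC (cur : ℕ → Option ι) (e : Tr K × ι) : ℕ → Option ι :=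
  Function.update cur (e.1.pos + 1) (some e.2)

def stV (val : ℕ → K) (e : Tr K) : ℕ → K := Function.update val (e.pos + 1) e.val

def Cm (cur : ℕ → Option ι) : List (Tr K × ι) → ι → ι → ℤ
  | [], _, _ => 0
  | e :: w, u, v => cC cur e u v + Cm (stC cur e) w u v

def Ym (val : ℕ → K) (cur : ℕ → Option ι) : List (Tr K × ι) → ι → K
  | [], _ => 1
  | e :: w, v => cY val cur e v * Ym (stV val e.1) (stC cur e) w v

def endC (cur : ℕ → Option ι) (w : List (Tr K × ι)) : ℕ → Option ι := w.foldl stC cur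

def endV (val : ℕ → K) (t : List (Tr K)) : ℕ → K := t.foldl stV val

def Active : List (Tr K × ι) → ι → Prop
  | [], _ => False
  | e :: w, v => (e.2 = v ∧ ∃ e' ∈ w, e'.1.pos = e.1.pos) ∨ Active w v

theorem Cm_append (cur : ℕ → Option ι) (w w' : List (Tr K × ι)) (u v : ι) :
    Cm cur (w ++ w') u v = Cm cur w u v + Cm (endC cur w) w' u v := by
  induction w generalizing cur with
  | nil => simp [Cm, endC]
  | cons e w ih => simp only [List.cons_append, Cm, ih, endC, List.foldl_cons]; ring

theorem Ym_append (val : ℕ → K) (cur : ℕ → Option ι) (w w' : List (Tr K × ι)) (v : ι) :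
    Ym val cur (w ++ w') v =
      Ym val cur w v * Ym (endV val (w.map Prod.fst)) (endC cur w) w' v := by
  induction w generalizing val cur with
  | nil => simp [Ym, endC, endV]
  | cons e w ih =>
    simp only [List.cons_append, Ym, ih, endC, endV, List.foldl_cons, List.map_cons]; ring

theorem active_append (w w' : List (Tr K × ι)) (v : ι) :
    Active (w ++ w') v ↔
      (Active w v ∨ ∃ e ∈ w, e.2 = v ∧ ∃ e' ∈ w', e'.1.pos = e.1.pos) ∨ Active w' v := by
  induction w with
  | nil => simp [Active]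
  | cons e w ih =>
    simp only [List.cons_append, Active, ih, List.mem_append, List.mem_cons,
      or_and_right, exists_or, exists_eq_left, and_or_left, or_assoc]
    refine or_congr_right ?_
    rw [or_left_comm]

theorem Active.mem {w : List (Tr K × ι)} {v : ι} (h : Active w v) : v ∈ w.map Prod.snd := by
  induction w with
  | nil => exact h.elim
  | cons e w ih =>
    rcases h with h | h
    · simp [h.1]
    · exact List.mem_cons_of_mem _ (ih h)

theorem ind_stC_congr {cur cur' : ℕ → Option ι} {v : ι} (h : ∀ j, ind (cur j) v = ind (cur' j) v)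
    (e : Tr K × ι) (j : ℕ) : ind (stC cur e j) v = ind (stC cur' e j) v := by
  unfold stC
  by_cases hj : j = e.1.pos + 1
  · simp [hj]
  · simp [Function.update_of_ne hj, h]

theorem Cm_congr {cur cur' : ℕ → Option ι} {u v : ι} (hu : ∀ j, ind (cur j) u = ind (cur' j) u)
    (hv : ∀ j, ind (cur j) v = ind (cur' j) v) (w : List (Tr K × ι)) :
    Cm cur w u v = Cm cur' w u v := by
  induction w generalizing cur cur' with
  | nil => rfl
  | cons e w ih =>
    simp only [Cm]
    rw [ih (ind_stC_congr hu e) (ind_stC_congr hv e)]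
    simp only [cC, nb, hu, hv]

theorem Ym_congr {cur cur' : ℕ → Option ι} {v : ι}
    (hv : ∀ j, ind (cur j) v = ind (cur' j) v) (val : ℕ → K) (w : List (Tr K × ι)) :
    Ym val cur w v = Ym val cur' w v := by
  induction w generalizing val cur cur' with
  | nil => rfl
  | cons e w ih =>
    simp only [Ym]
    rw [ih (ind_stC_congr hv e)]
    simp only [cY, nb, hv]

theorem absent {cur : ℕ → Option ι} {m : ι} (h : ∀ j, ind (cur j) m = 0) {w : List (Tr K × ι)}
    (hw : m ∉ w.map Prod.snd) (val : ℕ → K) :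
    (∀ v, Cm cur w m v = 0) ∧ (∀ u, Cm cur w u m = 0) ∧ Ym val cur w m = 1 := by
  induction w generalizing val cur with
  | nil => simp [Cm, Ym]
  | cons e w ih =>
    simp only [List.map_cons, List.mem_cons, not_or] at hw
    have h1 : ind (some e.2) m = 0 := by simp [ind, Ne.symm hw.1]
    have h2 : ∀ j, ind (stC cur e j) m = 0 := by
      intro j
      unfold stC
      by_cases hj : j = e.1.pos + 1
      · simp [hj, h1]
      · simp [Function.update_of_ne hj, h]
    obtain ⟨a, b, c⟩ := ih h2 hw.2 (stV val e.1)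
    simp [Cm, Ym, a, b, c, cC, cY, nb, h, h1]

/-- Chambers currently open carry distinct labels taken from a given list. -/
def CurOK (cur : ℕ → Option ι) (L : List ι) : Prop :=
  (∀ j v, cur j = some v → v ∈ L) ∧ ∀ j j' v, cur j = some v → cur j' = some v → j = j'

theorem curOK_end {cur : ℕ → Option ι} {L : List ι} (h : CurOK cur L) (w : List (Tr K × ι))
    (hn : (L ++ w.map Prod.snd).Nodup) : CurOK (endC cur w) (L ++ w.map Prod.snd) := by
  induction w generalizing cur L with
  | nil => simpa [endC] using h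
  | cons e w ih =>
    have e1 : L ++ (e :: w).map Prod.snd = (L ++ [e.2]) ++ w.map Prod.snd := by simp
    rw [e1] at hn ⊢
    refine ih (cur := stC cur e) ⟨fun j v hj => ?_, fun j j' v hj hj' => ?_⟩ hn
    · unfold stC at hj
      by_cases g : j = e.1.pos + 1
      · simp only [g, Function.update_self, Option.some.injEq] at hj
        simp [hj]
      · rw [Function.update_of_ne g] at hj
        simp [h.1 j v hj]
    · have hne : e.2 ∉ L := by
        have := (List.nodup_append.mp (List.nodup_append.mp hn).1).2.2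
        exact fun g => this _ g _ (by simp) rfl
      unfold stC at hj hj'
      by_cases g : j = e.1.pos + 1 <;> by_cases g' : j' = e.1.pos + 1
      · rw [g, g']
      · simp only [g, Function.update_self, Option.some.injEq] at hj
        rw [Function.update_of_ne g', ← hj] at hj'
        exact absurd (h.1 _ _ hj') hne
      · simp only [g', Function.update_self, Option.some.injEq] at hj'
        rw [Function.update_of_ne g, ← hj'] at hj
        exact absurd (h.1 _ _ hj) hne
      · rw [Function.update_of_ne g] at hj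
        rw [Function.update_of_ne g'] at hj'
        exact h.2 _ _ _ hj hj'

def xb (s : Seed ι K) : Option ι → K
  | none => 1
  | some v => s.x v

theorem prod_ind (s : Seed ι K) (o : Option ι) : ∏ u, s.x u ^ ind o u = xb s o := by
  cases o with
  | none => simp [ind, xb]
  | some v =>
    rw [Finset.prod_eq_single v]
    · simp [ind, xb]
    · intro u _ hu; simp [ind, Ne.symm hu]
    · simp

theorem val_end (X : Ctx ι K) (s : Seed ι K) {val : ℕ → K} {cur : ℕ → Option ι}
    (h : ∀ j, X.G (val j / xb s (cur j))) (w : List (Tr K × ι))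
    (hw : ∀ e ∈ w, X.G (e.1.val / s.x e.2)) :
    ∀ j, X.G (endV val (w.map Prod.fst) j / xb s (endC cur w j)) := by
  induction w generalizing val cur with
  | nil => simpa [endV, endC] using h
  | cons e w ih =>
    refine ih (val := stV val e.1) (cur := stC cur e) (fun j => ?_)
      (fun e' he' => hw e' (List.mem_cons_of_mem _ he'))
    unfold stV stC
    by_cases g : j = e.1.pos + 1
    · simpa [g, xb] using hw e (by simp)
    · simpa [Function.update_of_ne g] using h j

/-- The seed `s` is described by the labelled double word `w`. -/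
structure Match (X : Ctx ι K) (s : Seed ι K) (val : ℕ → K) (w : List (Tr K × ι)) : Prop where
  nodup : (w.map Prod.snd).Nodup
  isM : ∀ v, Active w v → X.isM v
  hB : ∀ u v, Active w u → Active w v → s.B u v = Cm (fun _ => none) w u v
  hY : ∀ v, Active w v → yhat s v = Ym val (fun _ => none) w v
  hX : ∀ e ∈ w, X.G (e.1.val / s.x e.2)
  hG : ∀ j, X.G (val j)
  inact : ∀ v, ¬ Active w v → X.G (s.x v)

theorem Match.mutate {X : Ctx ι K} {s : Seed ι K} (hs : Reach X.isM X.s₀ s) {val : ℕ → K}
    {w w' : List (Tr K × ι)} (h : Match X s val w) {m : ι} (hm : Active w m)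
    (hact : ∀ v, Active w' v ↔ Active w v) (hnd : (w'.map Prod.snd).Nodup)
    (p n : ι → ℤ) (hpn : ∀ v, (p v = 0 ∧ n v = 0) ∨ (p v = 1 ∧ n v = 0) ∨ (p v = 0 ∧ n v = 1))
    (c1 : ∀ u, Cm (fun _ => none) w u m = p u - n u)
    (c2 : ∀ v, Cm (fun _ => none) w m v = n v - p v)
    (c3 : ∀ u, Cm (fun _ => none) w' u m = n u - p u)
    (c4 : ∀ v, Cm (fun _ => none) w' m v = p v - n v)
    (c5 : ∀ u v, u ≠ m → v ≠ m →
      Cm (fun _ => none) w' u v = Cm (fun _ => none) w u v + p u * n v - n u * p v)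
    (Pv Nv μ : K) (hN : X.G ((∏ u, s.x u ^ n u) / Nv)) (hμ : X.G (μ / s.x m))
    (y1 : Ym val (fun _ => none) w m = Pv / Nv) (y2 : Ym val (fun _ => none) w' m = Nv / Pv)
    (y3 : Pv + Nv ≠ 0 → ∀ v, v ≠ m → Ym val (fun _ => none) w' v =
      Ym val (fun _ => none) w v * ((Pv + Nv) / Nv) ^ p v * (Pv / (Pv + Nv)) ^ n v)
    (hx : ∀ e ∈ w', (e.2 ≠ m ∧ X.G (e.1.val / s.x e.2)) ∨ (e.2 = m ∧ e.1.val * μ = Pv + Nv)) :
    Match X (s.mutate m) val w' := by
  obtain ⟨pos, skew⟩ := X.reach_inv hs
  have hx0 : ∀ u, s.x u ≠ 0 := fun u => X.P_ne (pos u)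
  have h0 : s.B m m = 0 := by have := skew m m; omega
  have hsum := X.sum_ne hs m
  have hMm : Mm s m ≠ 0 := Finset.prod_ne_zero_iff.mpr fun u _ => pow_ne_zero _ (hx0 u)
  have hNv : Nv ≠ 0 := fun e => X.G_ne hN (by simp [e])
  have hy : Mp s m / Mm s m = Pv / Nv := by rw [← yhat_eq s hx0, h.hY m hm, y1]
  have hMp : Mp s m = Pv / Nv * Mm s m := by rw [← hy]; field_simp
  have hPN : Pv + Nv ≠ 0 := by
    intro e
    apply hsum
    rw [hMp, show Pv = -Nv by linear_combination e]
    field_simp
    ring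
  have hG : X.G (Mm s m / Nv) := by
    have : X.G (Mm s m / ∏ u, s.x u ^ n u) := by
      rw [Mm_eq, ← Finset.prod_div_distrib]
      refine X.G_prod fun u => ?_
      by_cases ha : Active w u
      · have : max (-s.B u m) 0 = n u := by
          rw [h.hB u m ha hm, c1]
          rcases hpn u with g | g | g <;> simp [g.1, g.2]
        rw [this, div_self (zpow_ne_zero _ (hx0 u))]; exact X.G_one
      · exact X.G_div (X.G_zpow (h.inact u ha) _) (X.G_zpow (h.inact u ha) _)
    have e := X.G_mul this hN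
    rwa [div_mul_div_cancel₀ (Finset.prod_ne_zero_iff.mpr fun u _ => zpow_ne_zero _ (hx0 u))] at e
  refine ⟨hnd, fun v hv => h.isM v ((hact v).mp hv), fun u v hu hv => ?_, fun v hv => ?_,
    fun e he => ?_, h.hG, fun v hv => ?_⟩
  · have hu' := (hact u).mp hu
    have hv' := (hact v).mp hv
    simp only [Seed.mutate]
    by_cases g : u = m
    · subst g; rw [if_pos (Or.inl rfl), h.hB _ _ hu' hv', c2, c4]; ring
    · by_cases g' : v = m
      · subst g'; rw [if_pos (Or.inr rfl), h.hB _ _ hu' hv', c1, c3]; ring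
      · rw [if_neg (by tauto), c5 u v g g', h.hB _ _ hu' hv', h.hB _ _ hu' hm, h.hB _ _ hm hv',
          c1, c2]
        rcases hpn u with a | a | a <;> rcases hpn v with b | b | b <;> simp [a.1, a.2, b.1, b.2]
  · have hv' := (hact v).mp hv
    by_cases g : v = m
    · subst g; rw [yhat_mutate_self s h0, h.hY _ hv', y1, y2, inv_div]
    · rw [yhat_mutate_ne s hx0 h0 g, y3 hPN v g, h.hY _ hv', h.hB _ _ hm hv', c2]
      have e : Mp s m + Mm s m = (Pv + Nv) / Nv * Mm s m := by rw [hMp]; field_simp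
      rw [e]
      rcases hpn v with b | b | b
      · simp [b.1, b.2]
      · simp only [b.1, b.2]
        norm_num
        field_simp
      · simp only [b.1, b.2]
        norm_num
        rw [hMp]
        field_simp
  · rcases hx e he with g | g
    · rw [mutate_x_ne s g.1]; exact g.2
    · rw [g.1, mutate_x_self]
      have hμ0 : μ ≠ 0 := fun e => X.G_ne hμ (by simp [e])
      have e1 : e.1.val = (Pv + Nv) / μ := by rw [← g.2]; field_simp
      have e2 : Mp s m + Mm s m = (Pv + Nv) / Nv * Mm s m := by rw [hMp]; field_simp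
      have e3 : e.1.val / ((Mp s m + Mm s m) / s.x m) = (Mm s m / Nv)⁻¹ * (μ / s.x m)⁻¹ := by
        rw [e1, e2]
        have := hx0 m
        field_simp
      rw [e3]
      exact X.G_mul (X.G_inv hG) (X.G_inv hμ)
  · have hv' : ¬ Active w v := fun g => hv ((hact v).mpr g)
    rw [mutate_x_ne s (fun g : v = m => hv' (g ▸ hm))]
    exact h.inact v hv'

end Pool.Agent.Lib.MP_53bec5_ag
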