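import Pool.Agent.Lib.MP_53bec5_ag.Cluster1

/-!
The moves on double words: commutation, flip (a mutation), reflection and deletion.
-/

namespace Pool.Agent.Lib.MP_53bec5_ag

set_option linter.unusedSectionVars false

variable {ι K : Type} [Fintype ι] [DecidableEq ι] [Field K] {X : Ctx ι K}

theorem ind_cases (o : Option ι) (v : ι) : (ind o v = 0 ∧ o ≠ some v) ∨ (ind o v = 1 ∧ o = some v) := by
  unfold ind; split_ifs with h
  · exact Or.inr ⟨rfl, h⟩
  · exact Or.inl ⟨rfl, h⟩

theorem ind_none (v : ι) : ind none v = 0 := by simp [ind]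

theorem curOK_none : CurOK (fun _ => (none : Option ι)) [] := ⟨by simp, by simp⟩

theorem Match.val_end {s : Seed ι K} {val : ℕ → K} {w₁ w₂ : List (Tr K × ι)}
    (h : Match X s val (w₁ ++ w₂)) (j : ℕ) :
    X.G (endV val (w₁.map Prod.fst) j / xb s (endC (fun _ => none) w₁ j)) :=
  Pool.Agent.Lib.MP_53bec5_ag.val_end X s (fun j => by simpa [xb] using h.hG j) w₁
    (fun e he => h.hX e (List.mem_append_left _ he)) j

theorem Ctx.ne_of_G_div {a b : K} (h : X.G (a / b)) : a ≠ 0 := fun e => X.G_ne h (by simp [e])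

theorem active_swap (w₁ w₂ : List (Tr K × ι)) (e₁ e₂ : Tr K × ι) (h : e₁.1.pos ≠ e₂.1.pos)
    (v : ι) : Active (w₁ ++ e₁ :: e₂ :: w₂) v ↔ Active (w₁ ++ e₂ :: e₁ :: w₂) v := by
  simp only [active_append, Active, List.mem_cons, exists_eq_or_imp, h, h.symm, false_or]
  refine or_congr (or_congr_right (exists_congr fun e => and_congr_right fun _ =>
    and_congr_right fun _ => ?_)) ?_
  · rw [or_left_comm]
  · rw [or_left_comm]

theorem Match.swap {s : Seed ι K} {val : ℕ → K} {w₁ w₂ : List (Tr K × ι)} {e₁ e₂ : Tr K × ι}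
    (hp : e₁.1.pos ≠ e₂.1.pos) (ht : e₁.1.top = !e₂.1.top)
    (h : Match X s val (w₁ ++ e₁ :: e₂ :: w₂)) : Match X s val (w₁ ++ e₂ :: e₁ :: w₂) := by
  have hv := fun j => Ctx.ne_of_G_div (h.val_end j)
  have h1 := Ctx.ne_of_G_div (h.hX e₁ (by simp))
  have h2 := Ctx.ne_of_G_div (h.hX e₂ (by simp))
  have hcur : ∀ cur : ℕ → Option ι, stC (stC cur e₂) e₁ = stC (stC cur e₁) e₂ := fun cur =>
    Function.update_comm (by omega) _ _ _
  have hval : ∀ val : ℕ → K, stV (stV val e₂.1) e₁.1 = stV (stV val e₁.1) e₂.1 := fun val =>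
    Function.update_comm (by omega) _ _ _
  have hC : ∀ u v, Cm (fun _ => none) (w₁ ++ e₂ :: e₁ :: w₂) u v =
      Cm (fun _ => none) (w₁ ++ e₁ :: e₂ :: w₂) u v := by
    intro u v
    simp only [Cm_append, Cm, hcur]
    generalize endC (fun _ => none) w₁ = cur
    obtain ⟨⟨t₁, i, a⟩, l₁⟩ := e₁
    obtain ⟨⟨t₂, j, b⟩, l₂⟩ := e₂
    simp only at hp ht
    subst ht
    have : j = i + 1 ∨ i = j + 1 ∨ (j ≠ i + 1 ∧ i ≠ j + 1) := by omega
    rcases this with g | g | g
    · subst g
      cases t₂ <;> simp [cC, nb, stC, show i ≠ i + 1 + 1 by omega] <;> ring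
    · subst g
      cases t₂ <;> simp [cC, nb, stC, show j ≠ j + 1 + 1 by omega] <;> ring
    · cases t₂ <;> simp [cC, nb, stC, hp, hp.symm, g.1, g.2,
        show i + 1 ≠ j by omega, show j + 1 ≠ i by omega] <;> ring
  have hY : ∀ v, Ym val (fun _ => none) (w₁ ++ e₂ :: e₁ :: w₂) v =
      Ym val (fun _ => none) (w₁ ++ e₁ :: e₂ :: w₂) v := by
    intro v
    simp only [Ym_append, Ym, hcur, hval]
    generalize endC (fun _ => none) w₁ = cur
    generalize endV val (w₁.map Prod.fst) = vl at hv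
    congr 1
    rw [← mul_assoc, ← mul_assoc]
    congr 1
    obtain ⟨⟨t₁, i, a⟩, l₁⟩ := e₁
    obtain ⟨⟨t₂, j, b⟩, l₂⟩ := e₂
    simp only at hp ht h1 h2
    subst ht
    have : j = i + 1 ∨ i = j + 1 ∨ (j ≠ i + 1 ∧ i ≠ j + 1) := by omega
    have z := fun j n => zpow_ne_zero n (hv j)
    have z1 := fun n => zpow_ne_zero n h1
    have z2 := fun n => zpow_ne_zero n h2
    rcases this with g | g | g
    · subst g
      cases t₂ <;>
      · simp [cY, nb, stC, stV, zpow_add₀, div_zpow, mul_zpow, hv, h1, h2,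
          show i ≠ i + 1 + 1 by omega]
        field_simp [z, z1, z2]
    · subst g
      cases t₂ <;>
      · simp [cY, nb, stC, stV, zpow_add₀, div_zpow, mul_zpow, hv, h1, h2,
          show j ≠ j + 1 + 1 by omega]
        field_simp [z, z1, z2]
    · cases t₂ <;>
      · simp [cY, nb, stC, stV, hp, hp.symm, g.1, g.2,
          show i + 1 ≠ j by omega, show j + 1 ≠ i by omega]
        ring
  have ha := active_swap w₁ w₂ e₁ e₂ hp
  refine ⟨?_, fun v g => h.isM v ((ha v).mpr g),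
    fun u v g g' => by rw [hC, h.hB u v ((ha u).mpr g) ((ha v).mpr g')],
    fun v g => by rw [hY, h.hY v ((ha v).mpr g)], fun e he => h.hX e ?_, h.hG,
    fun v g => h.inact v (fun g' => g ((ha v).mp g'))⟩
  · refine (List.Perm.nodup_iff ?_).mp h.nodup
    exact (List.Perm.append_left _ (List.Perm.swap _ _ _)).map _
  · exact (List.Perm.append_left _ (List.Perm.swap _ _ _)).mem_iff.mp he

theorem flip_both {val : ℕ → K} (w₁ w₂ : List (Tr K × ι)) (i : ℕ) (μ μ' β : K) (m b : ι)
    (hrel : endV val (w₁.map Prod.fst) i ≠ 0 → μ * μ' =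
      endV val (w₁.map Prod.fst) (i + 1) * β +
        endV val (w₁.map Prod.fst) i * endV val (w₁.map Prod.fst) (i + 2))
    {s : Seed ι K} (hs : Reach X.isM X.s₀ s) :
    (Match X s val (w₁ ++ (⟨false, i, μ⟩, m) :: (⟨true, i, β⟩, b) :: w₂) →
      X.isM m ∧ Match X (s.mutate m) val (w₁ ++ (⟨true, i, μ'⟩, m) :: (⟨false, i, β⟩, b) :: w₂)) ∧
    (Match X s val (w₁ ++ (⟨true, i, μ'⟩, m) :: (⟨false, i, β⟩, b) :: w₂) →
      X.isM m ∧ Match X (s.mutate m) val (w₁ ++ (⟨false, i, μ⟩, m) :: (⟨true, i, β⟩, b) :: w₂)) := by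
  set cur := endC (fun _ => (none : Option ι)) w₁ with hcur
  set vl := endV val (w₁.map Prod.fst) with hvl
  set w : List (Tr K × ι) := w₁ ++ (⟨false, i, μ⟩, m) :: (⟨true, i, β⟩, b) :: w₂ with hw
  set w' : List (Tr K × ι) := w₁ ++ (⟨true, i, μ'⟩, m) :: (⟨false, i, β⟩, b) :: w₂ with hw'
  have hlab : w'.map Prod.snd = w.map Prod.snd := by simp [hw, hw']
  have hact : ∀ v, Active w' v ↔ Active w v := by
    intro v; simp [hw, hw', active_append, Active]
  have hm : Active w m := by simp [hw, active_append, Active]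
  have common : (w.map Prod.snd).Nodup → ∃ p n : ι → ℤ,
      (∀ v, (p v = 0 ∧ n v = 0) ∨ (p v = 1 ∧ n v = 0) ∨ (p v = 0 ∧ n v = 1)) ∧
      (∀ u, Cm (fun _ => none) w u m = p u - n u) ∧ (∀ v, Cm (fun _ => none) w m v = n v - p v) ∧
      (∀ u, Cm (fun _ => none) w' u m = n u - p u) ∧
      (∀ v, Cm (fun _ => none) w' m v = p v - n v) ∧
      (∀ u v, u ≠ m → v ≠ m →
        Cm (fun _ => none) w' u v = Cm (fun _ => none) w u v + p u * n v - n u * p v) ∧
      (∀ s : Seed ι K, ∏ u, s.x u ^ p u = (∏ u, s.x u ^ ind (cur (i + 1)) u) *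
        ∏ u, s.x u ^ ind (some b) u) ∧
      (∀ s : Seed ι K, ∏ u, s.x u ^ n u = (∏ u, s.x u ^ ind (cur i) u) *
        ∏ u, s.x u ^ ind (cur (i + 2)) u) ∧
      Ym val (fun _ => none) w m = vl (i + 1) * β / (vl i * vl (i + 2)) ∧
      Ym val (fun _ => none) w' m = vl i * vl (i + 2) / (vl (i + 1) * β) ∧
      ((∀ j, vl j ≠ 0) → β ≠ 0 → μ ≠ 0 → μ' ≠ 0 → ∀ v, v ≠ m →
        Ym val (fun _ => none) w' v = Ym val (fun _ => none) w v *
          (μ * μ' / (vl i * vl (i + 2))) ^ p v * (vl (i + 1) * β / (μ * μ')) ^ n v) ∧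
      (∀ e ∈ w₁, e.2 ≠ m) ∧ b ≠ m ∧ (∀ e ∈ w₂, e.2 ≠ m) := by
    intro hn
    simp only [hw, List.map_append, List.map_cons] at hn
    obtain ⟨n1, n2, n3⟩ := List.nodup_append.mp hn
    have m1 : m ∉ w₁.map Prod.snd := fun g => n3 _ g _ (by simp) rfl
    have b1 : b ∉ w₁.map Prod.snd := fun g => n3 _ g _ (by simp) rfl
    have bm : b ≠ m := by
      rintro rfl; simp at n2
    have m2 : m ∉ w₂.map Prod.snd := by
      intro g; simp only [List.nodup_cons, List.mem_cons, not_or] at n2; exact n2.1.2 g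
    have ok : CurOK cur (w₁.map Prod.snd) := by
      simpa using curOK_end curOK_none w₁ (by simpa using n1)
    have cm : ∀ j, ind (cur j) m = 0 := fun j => by
      rcases ind_cases (cur j) m with g | g
      · exact g.1
      · exact absurd (ok.1 _ _ g.2) m1
    have bmi : ind (some b) m = 0 := by simp [ind, bm]
    have mmi : ind (some m) m = 1 := by simp [ind]
    have mo : ∀ u, u ≠ m → ind (some m) u = 0 := fun u hu => by simp [ind, Ne.symm hu]
    have a1 := absent (cur := fun _ => none) (fun _ => ind_none m) m1 val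
    have c2m : ∀ j, ind (Function.update cur (i + 1) (some b) j) m = 0 := fun j => by
      by_cases g : j = i + 1
      · simp [g, bmi]
      · simp [Function.update_of_ne g, cm]
    have a2 := absent c2m m2 (Function.update vl (i + 1) β)
    have cases : ∀ v, (ind (cur (i + 1)) v = 0 ∧ ind (some b) v = 0 ∧ nb cur i v = 0) ∨
        (ind (cur (i + 1)) v = 1 ∧ ind (some b) v = 0 ∧ nb cur i v = 0) ∨
        (ind (cur (i + 1)) v = 0 ∧ ind (some b) v = 1 ∧ nb cur i v = 0) ∨
        (ind (cur (i + 1)) v = 0 ∧ ind (some b) v = 0 ∧ nb cur i v = 1) := by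
      intro v
      unfold nb
      have hb : ∀ j, cur j = some v → some b ≠ some v := fun j g e =>
        b1 (ok.1 j b (by rw [g, e]))
      have hi : ∀ j j', cur j = some v → cur j' = some v → j = j' := fun j j' => ok.2 j j' v
      rcases ind_cases (cur (i + 1)) v with g1 | g1 <;> rcases ind_cases (some b) v with g2 | g2 <;>
        rcases ind_cases (cur i) v with g3 | g3 <;> rcases ind_cases (cur (i + 2)) v with g4 | g4 <;>
        first
          | exact absurd g2.2 (hb _ g1.2)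
          | exact absurd g2.2 (hb _ g3.2)
          | exact absurd g2.2 (hb _ g4.2)
          | exact absurd (hi _ _ g1.2 g3.2) (by omega)
          | exact absurd (hi _ _ g1.2 g4.2) (by omega)
          | exact absurd (hi _ _ g3.2 g4.2) (by omega)
          | simp [g1.1, g2.1, g3.1, g4.1]
    have nbm : nb cur i m = 0 := by simp [nb, cm]
    have eC : ∀ u v, Cm (fun _ => none) w u v = Cm (fun _ => none) w₁ u v +
        ((ind (cur (i + 1)) u * ind (some m) v - ind (some m) u * ind (cur (i + 1)) v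
          - nb cur i u * ind (some m) v + nb cur i u * ind (cur (i + 1)) v) +
        ((-(ind (some m) u * ind (some b) v) + ind (some b) u * ind (some m) v
          - ind (some b) u * nb cur i v + ind (some m) u * nb cur i v) +
        Cm (Function.update cur (i + 1) (some b)) w₂ u v)) := by
      intro u v
      simp [hw, Cm_append, Cm, cC, stC, nb, ← hcur]
    have eC' : ∀ u v, Cm (fun _ => none) w' u v = Cm (fun _ => none) w₁ u v +
        ((-(ind (cur (i + 1)) u * ind (some m) v) + ind (some m) u * ind (cur (i + 1)) v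
          - ind (some m) u * nb cur i v + ind (cur (i + 1)) u * nb cur i v) +
        ((ind (some m) u * ind (some b) v - ind (some b) u * ind (some m) v
          - nb cur i u * ind (some b) v + nb cur i u * ind (some m) v) +
        Cm (Function.update cur (i + 1) (some b)) w₂ u v)) := by
      intro u v
      simp [hw', Cm_append, Cm, cC, stC, nb, ← hcur]
    have eY : ∀ v, Ym val (fun _ => none) w v = Ym val (fun _ => none) w₁ v *
        (((vl (i + 1) / (vl i * vl (i + 2))) ^ ind (some m) v *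
          (vl i * vl (i + 2) / μ) ^ ind (cur (i + 1)) v) *
        ((μ⁻¹ ^ ind (some b) v * β ^ ind (some m) v * (μ / β) ^ nb cur i v) *
        Ym (Function.update vl (i + 1) β) (Function.update cur (i + 1) (some b)) w₂ v)) := by
      intro v
      simp [hw, Ym_append, Ym, cY, stC, stV, nb, ← hcur, ← hvl]
    have eY' : ∀ v, Ym val (fun _ => none) w' v = Ym val (fun _ => none) w₁ v *
        (((vl (i + 1))⁻¹ ^ ind (some m) v * μ' ^ ind (cur (i + 1)) v *
          (vl (i + 1) / μ') ^ nb cur i v) *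
        (((μ' / (vl i * vl (i + 2))) ^ ind (some b) v *
          (vl i * vl (i + 2) / β) ^ ind (some m) v) *
        Ym (Function.update vl (i + 1) β) (Function.update cur (i + 1) (some b)) w₂ v)) := by
      intro v
      simp [hw', Ym_append, Ym, cY, stC, stV, nb, ← hcur, ← hvl]
    refine ⟨fun v => ind (cur (i + 1)) v + ind (some b) v, nb cur i, fun v => ?_, fun u => ?_,
      fun v => ?_, fun u => ?_, fun v => ?_, fun u v hu hv => ?_, fun s => ?_, fun s => ?_,
      ?_, ?_, fun z1 z2 z3 z4 v hv => ?_, fun e he g => m1 (g ▸ List.mem_map_of_mem he), bm,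
      fun e he g => m2 (g ▸ List.mem_map_of_mem he)⟩
    · rcases cases v with g | g | g | g <;> simp [g.1, g.2.1, g.2.2]
    · rw [eC, a1.2.1, a2.2.1, cm, bmi, mmi, nbm]; ring
    · rw [eC, a1.1, a2.1, cm, bmi, mmi, nbm]; ring
    · rw [eC', a1.2.1, a2.2.1, cm, bmi, mmi, nbm]; ring
    · rw [eC', a1.1, a2.1, cm, bmi, mmi, nbm]; ring
    · rw [eC, eC', mo u hu, mo v hv]; ring
    · rw [← Finset.prod_mul_distrib]
      refine Finset.prod_congr rfl fun u _ => ?_
      rcases cases u with g | g | g | g <;> simp [g.1, g.2.1]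
    · rw [← Finset.prod_mul_distrib]
      refine Finset.prod_congr rfl fun u _ => ?_
      have := cases u
      unfold nb at this ⊢
      rcases ind_cases (cur i) u with g | g <;> rcases ind_cases (cur (i + 2)) u with g' | g' <;>
        simp [g.1, g'.1] at this ⊢
    · rw [eY, a1.2.2, a2.2.2, cm, bmi, mmi, nbm]; simp; ring
    · rw [eY', a1.2.2, a2.2.2, cm, bmi, mmi, nbm]; simp; ring
    · rw [eY, eY', mo v hv]
      have := z1 i
      have := z1 (i + 1)
      have := z1 (i + 2)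
      rcases cases v with g | g | g | g <;> simp only [g.1, g.2.1, g.2.2] <;> simp <;> field_simp
  constructor
  · intro h
    obtain ⟨p, n, hpn, c1, c2, c3, c4, c5, -, pn, y1, y2, y3, d1, d2, d3⟩ := common h.nodup
    have hv := h.val_end
    have hz := fun j => Ctx.ne_of_G_div (hv j)
    have hβ := Ctx.ne_of_G_div (h.hX (⟨true, i, β⟩, b) (by simp [hw]))
    have hμ := h.hX (⟨false, i, μ⟩, m) (by simp [hw])
    have rel := hrel (hz i)
    refine ⟨h.isM m hm, h.mutate hs hm hact (hlab ▸ h.nodup) p n hpn c1 c2 c3 c4 c5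
      (vl (i + 1) * β) (vl i * vl (i + 2)) μ ?_ hμ y1 y2 (fun g v hv' => ?_) (fun e he => ?_)⟩
    · rw [pn, prod_ind, prod_ind, ← inv_div, ← div_mul_div_comm]
      exact X.G_inv (X.G_mul (hv i) (hv (i + 2)))
    · rw [← rel] at g ⊢
      exact y3 hz hβ (left_ne_zero_of_mul g) (right_ne_zero_of_mul g) v hv'
    · simp only [hw', List.mem_append, List.mem_cons] at he
      rcases he with g | g | g | g
      · exact Or.inl ⟨d1 e g, h.hX e (by simp [hw, g])⟩
      · exact Or.inr ⟨by rw [g], by rw [g, ← rel, mul_comm]⟩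
      · exact Or.inl ⟨by rw [g]; exact d2, by rw [g]; exact h.hX (⟨true, i, β⟩, b) (by simp [hw])⟩
      · exact Or.inl ⟨d3 e g, h.hX e (by simp [hw, g])⟩
  · intro h
    obtain ⟨p, n, hpn, c1, c2, c3, c4, c5, pp, -, y1, y2, y3, d1, d2, d3⟩ :=
      common (hlab ▸ h.nodup)
    have hv := h.val_end
    have hz := fun j => Ctx.ne_of_G_div (hv j)
    have hb := h.hX (⟨false, i, β⟩, b) (by simp [hw'])
    have hβ := Ctx.ne_of_G_div hb
    have hμ := h.hX (⟨true, i, μ'⟩, m) (by simp [hw'])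
    have rel := hrel (hz i)
    have hm' := (hact m).mpr hm
    refine ⟨h.isM m hm', h.mutate hs hm' (fun v => (hact v).symm) (hlab ▸ h.nodup) n p
      (fun v => by have := hpn v; omega) c3 c4 c1 c2
      (fun u v a b => by rw [c5 u v a b]; ring)
      (vl i * vl (i + 2)) (vl (i + 1) * β) μ' ?_ hμ y2 y1 (fun g v hv' => ?_) (fun e he => ?_)⟩
    · rw [pp, prod_ind, prod_ind, ← inv_div, ← div_mul_div_comm]
      exact X.G_inv (X.G_mul (hv (i + 1)) hb)
    · rw [add_comm, ← rel] at g ⊢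
      have g1 := left_ne_zero_of_mul g
      have g2 := right_ne_zero_of_mul g
      rw [y3 hz hβ g1 g2 v hv']
      have z1 : vl i ≠ 0 := hz i
      have z2 : vl (i + 1) ≠ 0 := hz (i + 1)
      have z3 : vl (i + 2) ≠ 0 := hz (i + 2)
      have z4 : β ≠ 0 := hβ
      rcases hpn v with a | a | a <;> simp only [a.1, a.2] <;> simp <;> field_simp
    · simp only [hw, List.mem_append, List.mem_cons] at he
      rcases he with g | g | g | g
      · exact Or.inl ⟨d1 e g, h.hX e (by simp [hw', g])⟩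
      · exact Or.inr ⟨by rw [g], by rw [g, add_comm, ← rel]⟩
      · exact Or.inl ⟨by rw [g]; exact d2, by rw [g]; exact hb⟩
      · exact Or.inl ⟨d3 e g, h.hX e (by simp [hw', g])⟩

theorem Match.reflect {s : Seed ι K} {val val' : ℕ → K} {w : List (Tr K × ι)} {i : ℕ} {β : K}
    {b : ι} (hG : ∀ j, X.G (val j)) (hG' : ∀ j, X.G (val' j))
    (h1 : ∀ j, j ≠ i + 1 → val' j = val j) (h2 : val' (i + 1) * val (i + 1) = val i * val (i + 2)) :
    Match X s val ((⟨false, i, β⟩, b) :: w) ↔ Match X s val' ((⟨true, i, β⟩, b) :: w) := by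
  have hact : ∀ v, Active ((⟨false, i, β⟩, b) :: w) v ↔ Active ((⟨true, i, β⟩, b) :: w) v :=
    fun v => Iff.rfl
  have hC : ∀ u v, Cm (fun _ => none) ((⟨false, i, β⟩, b) :: w) u v =
      Cm (fun _ => none) ((⟨true, i, β⟩, b) :: w) u v := by
    intro u v; simp [Cm, cC, nb, ind_none, stC]
  have hY : ∀ v, Ym val (fun _ => none) ((⟨false, i, β⟩, b) :: w) v =
      Ym val' (fun _ => none) ((⟨true, i, β⟩, b) :: w) v := by
    intro v
    have e : stV val ⟨false, i, β⟩ = stV val' ⟨true, i, β⟩ := by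
      funext j
      by_cases g : j = i + 1
      · simp [stV, g]
      · simp [stV, g, h1 j g]
    have e2 : val (i + 1) / (val i * val (i + 2)) = (val' (i + 1))⁻¹ := by
      rw [← h2]
      have := X.G_ne (hG (i + 1))
      have := X.G_ne (hG' (i + 1))
      field_simp
    simp [Ym, cY, nb, ind_none, stC, e, e2]
  constructor
  · intro h
    exact ⟨h.nodup, h.isM, fun u v a c => by rw [← hC]; exact h.hB u v a c,
      fun v a => by rw [← hY]; exact h.hY v a,
      fun e he => by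
        rcases List.mem_cons.mp he with g | g
        · rw [g]; exact h.hX (⟨false, i, β⟩, b) (by simp)
        · exact h.hX e (by simp [g]), hG', h.inact⟩
  · intro h
    exact ⟨h.nodup, h.isM, fun u v a c => by rw [hC]; exact h.hB u v a c,
      fun v a => by rw [hY]; exact h.hY v a,
      fun e he => by
        rcases List.mem_cons.mp he with g | g
        · rw [g]; exact h.hX (⟨true, i, β⟩, b) (by simp)
        · exact h.hX e (by simp [g]), hG, h.inact⟩

theorem Match.delete {s : Seed ι K} {val : ℕ → K} {w : List (Tr K × ι)} {e : Tr K × ι}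
    (h : Match X s val (e :: w)) (hβ : X.G e.1.val) : Match X s (stV val e.1) w := by
  have hn := h.nodup
  simp only [List.map_cons, List.nodup_cons] at hn
  have hne : ∀ v, Active w v → e.2 ≠ v := fun v g a => hn.1 (a ▸ g.mem)
  have i0 : ∀ v, Active w v → ind (some e.2) v = 0 := fun v g => by simp [ind, hne v g]
  have i1 : ∀ v, Active w v → ∀ j, ind (stC (fun _ => none) e j) v = ind ((fun _ => none) j) v := by
    intro v g j
    unfold stC
    by_cases a : j = e.1.pos + 1
    · simp [a, i0 v g, ind_none]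
    · simp [Function.update_of_ne a]
  refine ⟨hn.2, fun v g => h.isM v (Or.inr g), fun u v a b => ?_, fun v a => ?_,
    fun e' he => h.hX e' (by simp [he]), fun j => ?_, fun v g => ?_⟩
  · rw [h.hB u v (Or.inr a) (Or.inr b), Cm, Cm_congr (i1 u a) (i1 v b)]
    simp [cC, nb, ind_none, i0 u a, i0 v b]
  · rw [h.hY v (Or.inr a), Ym, Ym_congr (i1 v a)]
    simp [cY, nb, ind_none, i0 v a]
  · unfold stV
    by_cases a : j = e.1.pos + 1
    · simp [a, hβ]
    · simp [Function.update_of_ne a, h.hG]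
  · by_cases a : e.2 = v
    · have := X.G_div hβ (h.hX e (by simp))
      rwa [div_div_cancel₀ (X.G_ne hβ), a] at this
    · exact h.inact v (fun g' => g'.elim (fun g'' => a g''.1) g)

/-- Some reachable seed is described by a labelling of the double word `t`. -/
def AGood (X : Ctx ι K) (val : ℕ → K) (t : List (Tr K)) : Prop :=
  ∃ w : List (Tr K × ι), w.map Prod.fst = t ∧ ∃ s, Reach X.isM X.s₀ s ∧ Match X s val w

theorem split_two {w : List (Tr K × ι)} {t₁ t₂ : List (Tr K)} {a b : Tr K}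
    (h : w.map Prod.fst = t₁ ++ a :: b :: t₂) :
    ∃ w₁ w₂ l₁ l₂, w = w₁ ++ (a, l₁) :: (b, l₂) :: w₂ ∧ w₁.map Prod.fst = t₁ ∧
      w₂.map Prod.fst = t₂ := by
  obtain ⟨w₁, w', rfl, h1, h2⟩ := List.map_eq_append_iff.mp h
  obtain ⟨⟨a', l₁⟩, w'', rfl, h3, h4⟩ := List.map_eq_cons_iff.mp h2
  obtain ⟨⟨b', l₂⟩, w₂, rfl, h5, h6⟩ := List.map_eq_cons_iff.mp h4
  simp only at h3 h5
  subst h3 h5
  exact ⟨w₁, w₂, l₁, l₂, rfl, h1, h6⟩

theorem AGood.swap {val : ℕ → K} {t₁ t₂ : List (Tr K)} {a b : Tr K} (hp : a.pos ≠ b.pos)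
    (ht : a.top = !b.top) (h : AGood X val (t₁ ++ a :: b :: t₂)) :
    AGood X val (t₁ ++ b :: a :: t₂) := by
  obtain ⟨w, e, s, hs, h⟩ := h
  obtain ⟨w₁, w₂, l₁, l₂, rfl, rfl, rfl⟩ := split_two e
  exact ⟨_, by simp, s, hs, h.swap hp ht⟩

theorem agood_flip {val : ℕ → K} (t₁ t₂ : List (Tr K)) (i : ℕ) (μ μ' β : K)
    (hrel : endV val t₁ i ≠ 0 →
      μ * μ' = endV val t₁ (i + 1) * β + endV val t₁ i * endV val t₁ (i + 2)) :
    AGood X val (t₁ ++ ⟨false, i, μ⟩ :: ⟨true, i, β⟩ :: t₂) ↔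
      AGood X val (t₁ ++ ⟨true, i, μ'⟩ :: ⟨false, i, β⟩ :: t₂) := by
  constructor
  · rintro ⟨w, e, s, hs, h⟩
    obtain ⟨w₁, w₂, l₁, l₂, rfl, rfl, rfl⟩ := split_two e
    obtain ⟨a, b⟩ := (flip_both w₁ w₂ i μ μ' β l₁ l₂ hrel hs).1 h
    exact ⟨_, by simp, _, hs.tail ⟨l₁, a, rfl⟩, b⟩
  · rintro ⟨w, e, s, hs, h⟩
    obtain ⟨w₁, w₂, l₁, l₂, rfl, rfl, rfl⟩ := split_two e
    obtain ⟨a, b⟩ := (flip_both w₁ w₂ i μ μ' β l₁ l₂ hrel hs).2 h
    exact ⟨_, by simp, _, hs.tail ⟨l₁, a, rfl⟩, b⟩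

theorem agood_reflect {val val' : ℕ → K} (t : List (Tr K)) {i : ℕ} (β : K)
    (hG : ∀ j, X.G (val j)) (hG' : ∀ j, X.G (val' j))
    (h1 : ∀ j, j ≠ i + 1 → val' j = val j) (h2 : val' (i + 1) * val (i + 1) = val i * val (i + 2)) :
    AGood X val (⟨false, i, β⟩ :: t) ↔ AGood X val' (⟨true, i, β⟩ :: t) := by
  constructor
  · rintro ⟨w, e, s, hs, h⟩
    obtain ⟨⟨a, l⟩, w', rfl, h3, rfl⟩ := List.map_eq_cons_iff.mp e
    simp only at h3
    subst h3
    exact ⟨_, by simp, s, hs, (Match.reflect hG hG' h1 h2).mp h⟩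
  · rintro ⟨w, e, s, hs, h⟩
    obtain ⟨⟨a, l⟩, w', rfl, h3, rfl⟩ := List.map_eq_cons_iff.mp e
    simp only at h3
    subst h3
    exact ⟨_, by simp, s, hs, (Match.reflect hG hG' h1 h2).mpr h⟩

theorem AGood.delete {val : ℕ → K} {a : Tr K} {t : List (Tr K)} (h : AGood X val (a :: t))
    (hβ : X.G a.val) : AGood X (stV val a) t := by
  obtain ⟨w, e, s, hs, h⟩ := h
  obtain ⟨e', w', rfl, rfl, rfl⟩ := List.map_eq_cons_iff.mp e
  exact ⟨_, rfl, s, hs, h.delete hβ⟩

theorem AGood.final {val : ℕ → K} (h : AGood X val []) :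
    ∃ s, Reach X.isM X.s₀ s ∧ ∀ v, X.G (s.x v) := by
  obtain ⟨w, e, s, hs, h⟩ := h
  rw [List.map_eq_nil_iff] at e
  subst e
  exact ⟨s, hs, fun v => h.inact v (fun g => g)⟩

end Pool.Agent.Lib.MP_53bec5_ag
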