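import Pool.Agent.Lib.MP_53bec5_ag.Classes

/-!
Good pinches: basic lemmas.
-/

namespace Pool.Agent.Lib.MP_53bec5_ag

open Matrix

variable {k : ℕ} {K : Type} [Field K] {F : Frame k K}

theorem Sep.iff {S : St K} {X : Cls k} (h : Sep F S X) {t : ℕ} (ht : t < F.l) (hA : t ∈ S.A)
    (hz : S.z t ≠ 0) : X t (F.i t) ↔ X t (F.j t) := Iff.of_eq (h t ht hA hz)

theorem Sep.mk' {S : St K} {X : Cls k}
    (h : ∀ t, t < F.l → t ∈ S.A → S.z t ≠ 0 → (X t (F.i t) ↔ X t (F.j t))) : Sep F S X :=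
  fun t ht hA hz => propext (h t ht hA hz)

theorem Sep.congr {S : St K} {X Y : Cls k} (h : Sep F S X)
    (e : ∀ t, t ≤ F.l → ∀ u, X t u ↔ Y t u) : Sep F S Y :=
  Sep.mk' fun t ht hA hz => by rw [← e t ht.le, ← e t ht.le]; exact h.iff ht hA hz

theorem Sep.other {S : St K} {X P Q : Cls k} (hX : Sep F S X) (hP : Sep F S P)
    (du : DisjUnion F X P Q) : Sep F S Q :=
  Sep.mk' fun t ht hA hz => by
    have a := hX.iff ht hA hz
    have b := hP.iff ht hA hz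
    rw [du.union t ht.le, du.union t ht.le] at a
    have c := du.disj t ht.le (F.i t)
    have d := du.disj t ht.le (F.j t)
    tauto

theorem Sep.of_no_mix {S : St K} {X P Q : Cls k} (hX : Sep F S X) (du : DisjUnion F X P Q)
    (h : CntMix F S.A P Q = 0) : Sep F S P :=
  Sep.mk' fun t ht hA hz => by
    have a := hX.iff ht hA hz
    rw [du.union t ht.le, du.union t ht.le] at a
    have b : ¬ Mix F S.A P Q t := fun g => by have := cntMix_pos.mpr ⟨t, ht, g⟩; omega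
    unfold Mix at b
    tauto

theorem cnt_mono {A : Finset ℕ} {X Y : Cls k} (e : ∀ t, t ≤ F.l → ∀ u, X t u → Y t u) :
    Cnt F A X ≤ Cnt F A Y := by
  classical
  unfold Cnt
  refine Finset.card_le_card fun t ht => ?_
  simp only [Finset.mem_filter, Finset.mem_range] at ht ⊢
  exact ⟨ht.1, ht.2.1, e t ht.1.le _ ht.2.2.1, e t ht.1.le _ ht.2.2.2⟩

theorem sz_congr {X Y : Cls k} {t : ℕ} (e : ∀ u, X t u ↔ Y t u) : sz X t = sz Y t := by
  unfold sz
  congr 1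
  ext u; simp [e u]

theorem exists_pinch' (S : St K) {c : ℕ} (hc : c < F.l) (hA : c ∈ S.A) (hz : S.z c ≠ 0) :
    ∃ S', Pinch F S c S' := exists_pinch F S c hc hA (Units.mk0 _ hz) rfl

theorem flow_str {A : Finset ℕ} {σ : ℕ → Fin k} (hσ : Str F A σ 0 F.l) :
    Flow F A (fun t u => u = σ t) 0 F.l := fun t x y u => by
  simp only [hσ t x y, EmbeddingLike.apply_eq_iff_eq]

theorem two_le_sz {A : Finset ℕ} {X : Cls k} (h : Flow F A X 0 F.l) {t : ℕ} (ht : t < F.l)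
    (hx : XX F A X t) : 2 ≤ sz X 0 := by
  rw [← h.sz_eq t (by omega) ht.le]
  by_contra hn
  exact F.ne t (sz_le_one.mp (by omega) _ _ hx.2.1 hx.2.2)

theorem exists_chord {S : St K} {W : Cls k} (h : Min F S.A W) (hs : Sep F S W) (hS : LU F S)
    (h2 : 2 ≤ sz W 0) : ∃ c, c < F.l ∧ XX F S.A W c ∧ S.z c ≠ 0 := by
  by_contra hn
  push Not at hn
  obtain ⟨u, hu⟩ := h.ne
  obtain ⟨σ, hσ, e⟩ := exists_str F S.A 0 u
  have hf := flow_str hσ
  have hsep : Sep F S (fun t u => u = σ t) := Sep.mk' fun t ht hA hz => by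
    have a := hs.iff ht hA hz
    have b : W t (σ t) := by rw [h.flow.str hσ t ht.le, e]; exact hu
    have c : ¬ (W t (F.i t) ∧ W t (F.j t)) := fun g => hz (hn t ht ⟨hA, g⟩)
    constructor
    · intro g; rw [← g] at b; tauto
    · intro g; rw [← g] at b; tauto
  have := h.min _ ⟨hf, closed_of_sep hf hsep hS⟩ (fun v g => by rw [g, e]; exact hu) ⟨_, rfl⟩
  have : sz W 0 ≤ 1 := sz_le_one.mpr fun a b ha hb => (this a ha).trans (this b hb).symm
  omega

theorem Split.not_j {A : Finset ℕ} {X P Q : Cls k} {c : ℕ} (s : Split F A X c P Q)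
    (hc : c < F.l) : ¬ P c (F.j c) := fun g => s.du.disj c hc.le _ ⟨g, s.hj⟩

theorem Split.not_i {A : Finset ℕ} {X P Q : Cls k} {c : ℕ} (s : Split F A X c P Q)
    (hc : c < F.l) : ¬ Q c (F.i c) := fun g => s.du.disj c hc.le _ ⟨s.hi, g⟩

theorem Split.ne {A : Finset ℕ} {X P Q : Cls k} {c : ℕ} (s : Split F A X c P Q)
    (hc : c < F.l) : P c (F.i c) ≠ P c (F.j c) := fun e => s.not_j hc (e ▸ s.hi)

theorem DisjUnion.eq_of_xx {A : Finset ℕ} {X P Q : Cls k} (du : DisjUnion F X P Q) {t : ℕ}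
    (ht : t < F.l) (h : XX F A P t ∨ XX F A Q t) : P t (F.i t) = P t (F.j t) := by
  have c := du.disj t ht.le (F.i t)
  have d := du.disj t ht.le (F.j t)
  unfold XX at h
  apply propext
  tauto

theorem Pinch.z_same {S Sc : St K} {c : ℕ} (p : Pinch F S c Sc) {X P Q : Cls k}
    (s : Split F S.A X c P Q) (hs : Sep F Sc P) {y : ℕ} (hy : y < F.l)
    (h : XX F (S.A.erase c) P y ∨ XX F (S.A.erase c) Q y) : S.z y = Sc.z y := by
  have hm : y ∈ S.A.erase c := h.elim And.left And.left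
  exact (p.same (p.hA ▸ s.hP.flow) (s.ne p.lt) hs y hy (Finset.ne_of_mem_erase hm)).hz
    (Finset.mem_of_mem_erase hm) (s.du.eq_of_xx hy h)

theorem Pinch.sep_cls {S Sc : St K} {c : ℕ} (p : Pinch F S c Sc) {X : Cls k}
    (hX : Flow F S.A X 0 F.l) (hs : Sep F S X) (h : X c (F.i c) ↔ X c (F.j c)) : Sep F Sc X :=
  p.sep hX hs (propext h)

theorem coxeter : ∀ (n : ℕ) (S : St K) (W : Cls k), S.A.card = n → Min F S.A W → Sep F S W →
    LU F S → Cnt F S.A W < sz W 0 → ∀ y, y < F.l → XX F S.A W y → S.z y ≠ 0 := by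
  intro n
  induction n with
  | zero =>
    intro S W hA _ _ _ _ y _ hy
    rw [Finset.card_eq_zero] at hA
    simp [XX, hA] at hy
  | succ n ih =>
    intro S W hA h hs hS hc y hy hx
    obtain ⟨c, c1, c2, c3⟩ := exists_chord h hs hS (two_le_sz h.flow hy hx)
    by_cases hyc : y = c
    · rw [hyc]; exact c3
    obtain ⟨Sc, p⟩ := exists_pinch' S c1 c2.1 c3
    obtain ⟨P, Q, s⟩ := exists_split h c1 c2
    have e1 := s.cnt c1 c2.1
    have e2 := s.du.sz_eq (Nat.zero_le F.l)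
    have e3 := s.hP.lb
    have e4 := s.hQ.lb
    have hsX : Sep F Sc W := p.sep_cls h.flow hs ⟨fun _ => c2.2.2, fun _ => c2.2.1⟩
    have hsP : Sep F Sc P := hsX.of_no_mix s.du (by rw [p.hA]; omega)
    have hsQ : Sep F Sc Q := hsX.other hsP s.du
    have hcard : Sc.A.card = n := by rw [p.hA, Finset.card_erase_of_mem c2.1]; omega
    have hym : y ∈ S.A.erase c := Finset.mem_erase.mpr ⟨hyc, hx.1⟩
    have hxx : XX F (S.A.erase c) P y ∨ XX F (S.A.erase c) Q y := by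
      have b : ¬ Mix F (S.A.erase c) P Q y := fun g => by
        have := cntMix_pos.mpr ⟨y, hy, g⟩; omega
      have a1 := (s.du.union y hy.le _).mp hx.2.1
      have a2 := (s.du.union y hy.le _).mp hx.2.2
      unfold Mix at b
      unfold XX
      clear * - a1 a2 b hym
      tauto
    rw [p.z_same s hsP hy hxx]
    rcases hxx with g | g
    · exact ih Sc P hcard (p.hA ▸ s.hP) hsP (p.lu hS) (by rw [p.hA]; omega) y hy (p.hA ▸ g)
    · exact ih Sc Q hcard (p.hA ▸ s.hQ) hsQ (p.lu hS) (by rw [p.hA]; omega) y hy (p.hA ▸ g)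

/-- Some non-zero chord of the component can be pinched so that the two new components are
joined by a non-zero chord. -/
def NGood (F : Frame k K) (S : St K) (X : Cls k) : Prop :=
  ∃ c, c < F.l ∧ XX F S.A X c ∧ S.z c ≠ 0 ∧
    ∀ Sc P Q, Pinch F S c Sc → Split F S.A X c P Q → ¬ Sep F Sc P

theorem far_part {W W1 W2 : Cls k} (du : DisjUnion F W W1 W2) {c : ℕ} (hc : c < F.l)
    (h : ¬ (W c (F.i c) ∧ W c (F.j c))) :
    (¬ W1 c (F.i c) ∧ ¬ W1 c (F.j c)) ∨ (¬ W2 c (F.i c) ∧ ¬ W2 c (F.j c)) := by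
  rw [du.union c hc.le, du.union c hc.le] at h
  have c1 := du.disj c hc.le (F.i c)
  have c2 := du.disj c hc.le (F.j c)
  tauto

theorem Min.eq {A : Finset ℕ} {X Y : Cls k} (h : Min F A X) (h' : Min F A Y) {t : ℕ}
    (ht : t ≤ F.l) {u : Fin k} (h1 : X t u) (h2 : Y t u) : ∀ t', t' ≤ F.l → ∀ v, X t' v ↔ Y t' v :=
  fun t' ht' v => ⟨h.sub h'.compat ht h1 h2 t' ht' v, h'.sub h.compat ht h2 h1 t' ht' v⟩

theorem NGood.lift {S Sc : St K} {X P Q W : Cls k} {c : ℕ} (hX : Min F S.A X) (hs : Sep F S X)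
    (hz : S.z c ≠ 0) (p : Pinch F S c Sc) (s : Split F S.A X c P Q) (hsP : Sep F Sc P)
    (hW : W = P ∨ W = Q) (h : NGood F Sc W) : NGood F S X := by
  obtain ⟨y, y1, y2, y3, y4⟩ := h
  have hc := p.lt
  have hxc : X c (F.i c) ↔ X c (F.j c) :=
    ⟨fun _ => (s.du.union c hc.le _).mpr (Or.inr s.hj),
      fun _ => (s.du.union c hc.le _).mpr (Or.inl s.hi)⟩
  have hsQ : Sep F Sc Q := (p.sep_cls hX.flow hs hxc).other hsP s.du
  have hsW : Sep F Sc W := by rcases hW with e | e <;> rw [e] <;> assumption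
  have hWm : Min F Sc.A W := by
    rw [p.hA]; rcases hW with e | e <;> rw [e]
    · exact s.hP
    · exact s.hQ
  have hWX : ∀ t, t ≤ F.l → ∀ u, W t u → X t u := fun t ht u g =>
    (s.du.union t ht u).mpr (hW.imp (fun e : W = P => e ▸ g) (fun e : W = Q => e ▸ g))
  have hWc : ¬ (W c (F.i c) ∧ W c (F.j c)) := by
    rcases hW with e | e <;> rw [e]
    · exact fun g => s.not_j hc g.2
    · exact fun g => s.not_i hc g.1
  have xx : ∀ (B : Finset ℕ) t, XX F B W t → XX F B P t ∨ XX F B Q t :=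
    fun B t g => hW.imp (fun e : W = P => e ▸ g) (fun e : W = Q => e ▸ g)
  have y2' : XX F (S.A.erase c) W y := p.hA ▸ y2
  have hyc : c ≠ y := (Finset.ne_of_mem_erase y2'.1).symm
  have hyX : XX F S.A X y :=
    ⟨Finset.mem_of_mem_erase y2'.1, hWX y y1.le _ y2.2.1, hWX y y1.le _ y2.2.2⟩
  refine ⟨y, y1, hyX, by rw [p.z_same s hsP y1 (xx _ y y2')]; exact y3,
    fun Sy P' Q' py s' hsP' => ?_⟩
  obtain ⟨Scy, pcy⟩ := exists_pinch' Sc y1 y2.1 y3
  obtain ⟨W1, W2, sW⟩ := exists_split hWm y1 y2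
  obtain ⟨l1, l2⟩ := levi_commute' hyc p py pcy (p.hA ▸ s.hP.flow) (s.ne hc) hsP
    (s.du.eq_of_xx y1 (xx _ y y2))
  obtain ⟨Syc, pyc⟩ := exists_pinch' Sy hc ((py.mem_iff hyc).mp p.mem) (by rw [l1]; exact hz)
  have hsQ' : Sep F Sy Q' :=
    (py.sep_cls hX.flow hs ⟨fun _ => hyX.2.2, fun _ => hyX.2.1⟩).other hsP' s'.du
  have hcomm : Sc.A.erase y = (S.A.erase y).erase c := by rw [p.hA, Finset.erase_right_comm]
  have far : Sep F Syc W1 ∨ Sep F Syc W2 := by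
    rcases far_part sW.du hc hWc with g | g
    · left
      have m := (hcomm ▸ sW.hP).of_erase hc g.1 g.2
      exact pyc.sep_cls (py.hA ▸ m.flow) (hsP'.congr (s'.hP.eq m y1.le s'.hi sW.hi))
        (iff_of_false g.1 g.2)
    · right
      have m := (hcomm ▸ sW.hQ).of_erase hc g.1 g.2
      exact pyc.sep_cls (py.hA ▸ m.flow) (hsQ'.congr (s'.hQ.eq m y1.le s'.hj sW.hj))
        (iff_of_false g.1 g.2)
  have hsW' : Sep F Scy W := pcy.sep_cls hWm.flow hsW ⟨fun _ => y2.2.2, fun _ => y2.2.1⟩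
  refine y4 Scy W1 W2 pcy sW (Sep.mk' fun t ht hA hzt => ?_)
  have a := hsW'.iff ht hA hzt
  have u1 := sW.du.union t ht.le (F.i t)
  have u2 := sW.du.union t ht.le (F.j t)
  by_cases hw : W t (F.i t)
  · have hm : t ∈ (S.A.erase c).erase y := by rw [← p.hA, ← pcy.hA]; exact hA
    have hty : t ≠ y := Finset.ne_of_mem_erase hm
    have htc : t ≠ c := Finset.ne_of_mem_erase (Finset.mem_of_mem_erase hm)
    have sl := l2 Syc pyc t ht htc hty
    have hA' : t ∈ Syc.A := sl.al.mpr hA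
    have hz' : Syc.z t ≠ 0 := by
      rw [sl.hz hA' (s.du.eq_of_xx ht (xx Scy.A t ⟨hA, hw, a.mp hw⟩))]; exact hzt
    have d1 := sW.du.disj t ht.le (F.i t)
    have d2 := sW.du.disj t ht.le (F.j t)
    rcases far with g | g
    · exact g.iff ht hA' hz'
    · have := g.iff ht hA' hz'
      clear * - this a u1 u2 d1 d2 hw
      tauto
  · exact iff_of_false (fun g => hw (u1.mpr (Or.inl g))) (fun g => hw (a.mpr (u2.mpr (Or.inl g))))

theorem single_far_aux {B : Finset ℕ} {V : Cls k} {c : ℕ} : ∀ (n : ℕ) (y : ℕ) (W : Cls k),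
    y < F.l → XX F B V y → Min F (B.erase y) W → (∀ t, t ≤ F.l → ∀ u, W t u → V t u) →
    (W y (F.i y) ∨ W y (F.j y)) → ¬ (W y (F.i y) ∧ W y (F.j y)) → ¬ W c (F.i c) →
    ¬ W c (F.j c) → c < F.l → sz W 0 ≤ n →
    ∃ y W, y < F.l ∧ XX F B V y ∧ Min F (B.erase y) W ∧ sz W 0 ≤ 1 ∧
      (∀ t, t ≤ F.l → ∀ u, W t u → V t u) ∧ (W y (F.i y) ∨ W y (F.j y)) ∧ ¬ W c (F.i c) ∧
      ¬ W c (F.j c) := by
  intro n
  induction n with
  | zero =>
    intro y W h1 h2 h3 h4 h5 _ h7 h8 _ h9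
    exact ⟨y, W, h1, h2, h3, by omega, h4, h5, h7, h8⟩
  | succ n ih =>
    intro y W h1 h2 h3 h4 h5 h6 h7 h8 hc h9
    by_cases h : sz W 0 ≤ 1
    · exact ⟨y, W, h1, h2, h3, h, h4, h5, h7, h8⟩
    obtain ⟨y', a, b⟩ := cnt_pos.mp (show 0 < Cnt F (B.erase y) W by have := h3.lb; omega)
    obtain ⟨W1, W2, s⟩ := exists_split h3 a b
    have hV : XX F B V y' :=
      ⟨Finset.mem_of_mem_erase b.1, h4 y' a.le _ b.2.1, h4 y' a.le _ b.2.2⟩
    have e := s.du.sz_eq (Nat.zero_le F.l)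
    have p1 := s.hP.sz_pos
    have p2 := s.hQ.sz_pos
    have hcomm : (B.erase y).erase y' = (B.erase y').erase y := Finset.erase_right_comm
    have s1 : ∀ t, t ≤ F.l → ∀ u, W1 t u → W t u :=
      fun t ht u g => (s.du.union t ht u).mpr (Or.inl g)
    have s2 : ∀ t, t ≤ F.l → ∀ u, W2 t u → W t u :=
      fun t ht u g => (s.du.union t ht u).mpr (Or.inr g)
    rcases far_part s.du h1 h6 with g | g
    · exact ih y' W1 a hV ((hcomm ▸ s.hP).of_erase h1 g.1 g.2)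
        (fun t ht u g => h4 t ht u (s1 t ht u g)) (Or.inl s.hi) (fun g => s.not_j a g.2)
        (fun g => h7 (s1 c hc.le _ g)) (fun g => h8 (s1 c hc.le _ g)) hc (by omega)
    · exact ih y' W2 a hV ((hcomm ▸ s.hQ).of_erase h1 g.1 g.2)
        (fun t ht u g => h4 t ht u (s2 t ht u g)) (Or.inr s.hj) (fun g => s.not_i a g.1)
        (fun g => h7 (s2 c hc.le _ g)) (fun g => h8 (s2 c hc.le _ g)) hc (by omega)

theorem single_far {B : Finset ℕ} {V : Cls k} {c : ℕ} (h : Min F B V) (h2 : 2 ≤ sz V 0)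
    (hc : c < F.l) (hV : ¬ (V c (F.i c) ∧ V c (F.j c))) :
    ∃ y W, y < F.l ∧ XX F B V y ∧ Min F (B.erase y) W ∧ sz W 0 ≤ 1 ∧
      (∀ t, t ≤ F.l → ∀ u, W t u → V t u) ∧ (W y (F.i y) ∨ W y (F.j y)) ∧ ¬ W c (F.i c) ∧
      ¬ W c (F.j c) := by
  obtain ⟨y, a, b⟩ := cnt_pos.mp (show 0 < Cnt F B V by have := h.lb; omega)
  obtain ⟨W1, W2, s⟩ := exists_split h a b
  rcases far_part s.du hc hV with g | g
  · exact single_far_aux _ y W1 a b s.hP (fun t ht u g => (s.du.union t ht u).mpr (Or.inl g))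
      (Or.inl s.hi) (fun g => s.not_j a g.2) g.1 g.2 hc le_rfl
  · exact single_far_aux _ y W2 a b s.hQ (fun t ht u g => (s.du.union t ht u).mpr (Or.inr g))
      (Or.inr s.hj) (fun g => s.not_i a g.1) g.1 g.2 hc le_rfl

theorem one_side {B : Finset ℕ} {Q : Cls k} {σ : ℕ → Fin k} (hQ : Min F B Q)
    (hσ : Str F B σ 0 F.l) (hcl : σ F.l = σ 0) (hd : ∀ t, t ≤ F.l → ¬ Q t (σ t))
    (hn : ∀ t, t < F.l → t ∈ B →
      ¬ (Q t (F.i t) ∧ σ t = F.j t) ∧ ¬ (Q t (F.j t) ∧ σ t = F.i t)) :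
    (∀ t, t ≤ F.l → ∀ u, Q t u → u < σ t) ∨ (∀ t, t ≤ F.l → ∀ u, Q t u → σ t < u) := by
  have hY : Compat F B (fun t u => Q t u ∧ u < σ t) := by
    refine ⟨fun t x y u => ?_, by simp only [hQ.compat.2, hcl]⟩
    simp only [hQ.flow t x y u, hσ t x y, eq_iff_iff, and_congr_right_iff]
    intro hu
    rw [← not_le, ← not_le, sw_le_iff]
    · rintro ⟨a, b, c⟩; exact (hn t y a).2 ⟨c ▸ hu, b⟩
    · rintro ⟨a, b, c⟩; exact (hn t y a).1 ⟨b ▸ hu, c⟩
  by_cases h : ∃ t, t ≤ F.l ∧ ∃ u, Q t u ∧ u < σ t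
  · obtain ⟨t, ht, u, h1, h2⟩ := h
    exact Or.inl fun t' ht' v hv => (hQ.sub hY ht h1 ⟨h1, h2⟩ t' ht' v hv).2
  · push Not at h
    exact Or.inr fun t ht u hu => lt_of_le_of_ne (h t ht u hu) (fun e => hd t ht (e ▸ hu))

end Pool.Agent.Lib.MP_53bec5_ag
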