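import Pool.Agent.Lib.MP_53bec5_ag.Comb1

/-!
Every component with enough crossings has a good pinch.
-/

namespace Pool.Agent.Lib.MP_53bec5_ag

open Matrix

variable {k : ℕ} {K : Type} [Field K] {F : Frame k K}

structure Pair (F : Frame k K) (S : St K) (X : Cls k) (c : ℕ) (Sc : St K) (W W' : Cls k) :
    Prop where
  pinch : Pinch F S c Sc
  hW : Min F (S.A.erase c) W
  hW' : Min F (S.A.erase c) W'
  du : DisjUnion F X W W'
  arcs : (W c (F.i c) ∧ W' c (F.j c)) ∨ (W c (F.j c) ∧ W' c (F.i c))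
  sW : Sep F Sc W
  sW' : Sep F Sc W'
  cW : Cnt F (S.A.erase c) W < sz W 0
  cW' : Cnt F (S.A.erase c) W' < sz W' 0
  nz : ∀ y, y < F.l → XX F (S.A.erase c) W y ∨ XX F (S.A.erase c) W' y → S.z y ≠ 0

variable {S Sc Sy : St K} {X W W' : Cls k} {c y : ℕ}

theorem Pair.symm (h : Pair F S X c Sc W W') : Pair F S X c Sc W' W :=
  ⟨h.pinch, h.hW', h.hW, h.du.symm, h.arcs.symm.imp And.symm And.symm, h.sW', h.sW, h.cW', h.cW,
    fun y hy g => h.nz y hy g.symm⟩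

theorem Pair.congr (h : Pair F S X c Sc W W') {V : Cls k} (hV : Min F (S.A.erase c) V)
    (e : ∀ t, t ≤ F.l → ∀ u, W t u ↔ V t u) : Pair F S X c Sc V W' := by
  have hc := h.pinch.lt
  refine ⟨h.pinch, hV, h.hW', ⟨fun t ht u => ?_, fun t ht u => ?_⟩, ?_, h.sW.congr e, h.sW', ?_,
    h.cW', fun y hy g => h.nz y hy (g.imp (fun g => ?_) id)⟩
  · rw [← e t ht]; exact h.du.disj t ht u
  · rw [← e t ht]; exact h.du.union t ht u
  · rw [← e c hc.le, ← e c hc.le]; exact h.arcs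
  · rw [← sz_congr (e 0 (by omega))]
    exact lt_of_le_of_lt (cnt_mono fun t ht u g => (e t ht u).mpr g) h.cW
  · exact ⟨g.1, (e y hy.le _).mpr g.2.1, (e y hy.le _).mpr g.2.2⟩

theorem Pair.not_both (h : Pair F S X c Sc W W') : ¬ (W c (F.i c) ∧ W c (F.j c)) := by
  have d1 := h.du.disj c h.pinch.lt.le (F.i c)
  have d2 := h.du.disj c h.pinch.lt.le (F.j c)
  have := h.arcs
  clear * - d1 d2 this
  tauto

theorem Pair.chord (h : Pair F S X c Sc W W') {t : ℕ} (ht : t < F.l) (hA : t ∈ S.A) (hc : t ≠ c)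
    (hz : Sc.z t ≠ 0) {w : Fin k} (hw : X t w) (hw' : w = F.i t ∨ w = F.j t) :
    XX F (S.A.erase c) W t ∨ XX F (S.A.erase c) W' t := by
  have hA' : t ∈ Sc.A := (h.pinch.mem_iff hc).mp hA
  have a := h.sW.iff ht hA' hz
  have b := h.sW'.iff ht hA' hz
  have hm : t ∈ S.A.erase c := Finset.mem_erase.mpr ⟨hc, hA⟩
  rw [h.du.union t ht.le] at hw
  rcases hw' with e | e <;> rw [e] at hw <;> rcases hw with g | g
  · exact Or.inl ⟨hm, g, a.mp g⟩
  · exact Or.inr ⟨hm, g, b.mp g⟩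
  · exact Or.inl ⟨hm, a.mpr g, g⟩
  · exact Or.inr ⟨hm, b.mpr g, g⟩

def Hyp (F : Frame k K) (S : St K) (X : Cls k) : Prop :=
  ∀ c, c < F.l → XX F S.A X c → S.z c ≠ 0 → ∃ Sc W W', Pair F S X c Sc W W'

theorem Hyp.at (h : Hyp F S X) (hc : c < F.l) (hx : XX F S.A X c) (hz : S.z c ≠ 0) {V : Cls k}
    (hV : Min F (S.A.erase c) V) (ha : V c (F.i c) ∨ V c (F.j c)) :
    ∃ Sc W', Pair F S X c Sc V W' := by
  obtain ⟨Sc, W, W', p⟩ := h c hc hx hz
  rcases ha with a | a <;> rcases p.arcs with b | b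
  · exact ⟨Sc, W', p.congr hV (p.hW.eq hV hc.le b.1 a)⟩
  · exact ⟨Sc, W, p.symm.congr hV (p.hW'.eq hV hc.le b.2 a)⟩
  · exact ⟨Sc, W, p.symm.congr hV (p.hW'.eq hV hc.le b.2 a)⟩
  · exact ⟨Sc, W', p.congr hV (p.hW.eq hV hc.le b.1 a)⟩

theorem not_xx_of_cnt {A : Finset ℕ} {V : Cls k} (h : Cnt F A V = 0) {t : ℕ} (ht : t < F.l) :
    ¬ XX F A V t := fun g => by have := cnt_pos.mpr ⟨t, ht, g⟩; omega

theorem not_mix_of_cnt {A : Finset ℕ} {P Q : Cls k} (h : CntMix F A P Q = 0) {t : ℕ}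
    (ht : t < F.l) : ¬ Mix F A P Q t := fun g => by have := cntMix_pos.mpr ⟨t, ht, g⟩; omega

theorem case_two (hX : Min F S.A X) (hcnt : sz X 0 ≤ Cnt F S.A X) (H : Hyp F S X)
    (hz : S.z c ≠ 0) (p : Pair F S X c Sc W W') (h1 : sz W 0 ≤ 1) (h2 : sz W' 0 ≤ 1) : False := by
  classical
  have hc := p.pinch.lt
  obtain ⟨σ, -, -, hσ⟩ := p.hW.single h1
  obtain ⟨σ', -, -, hσ'⟩ := p.hW'.single h2
  obtain ⟨a, ha, ea⟩ := exists_str F S.A 0 (σ 0)
  obtain ⟨b, hb, eb⟩ := exists_str F S.A 0 (σ' 0)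
  have hab0 : a 0 ≠ b 0 := by
    rw [ea, eb]
    intro e
    exact p.du.disj 0 (by omega) (σ 0) ⟨(hσ 0 (by omega) _).mpr rfl, (hσ' 0 (by omega) _).mpr e⟩
  have hab : ∀ t, t ≤ F.l → a t ≠ b t := fun t ht => ha.ne hb hab0 t (by omega) ht
  have h0 : ∀ u, X 0 u ↔ u = a 0 ∨ u = b 0 := fun u => by
    rw [p.du.union 0 (by omega), hσ 0 (by omega), hσ' 0 (by omega), ea, eb]
  have fY := (flow_str ha).or (flow_str hb)
  have hXab : ∀ t, t ≤ F.l → ∀ u, X t u ↔ u = a t ∨ u = b t := fun t ht u =>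
    ⟨fY.sub hX.flow (Nat.zero_le _) (fun u g => (h0 u).mp g) t ht u,
      hX.flow.sub fY (Nat.zero_le _) (fun u g => (h0 u).mpr g) t ht u⟩
  have cross : ∀ t, t < F.l → (Cross F S.A a b t ↔ XX F S.A X t) := by
    intro t ht
    unfold Cross XX
    rw [hXab t ht.le, hXab t ht.le]
    refine and_congr_right fun _ => ⟨fun g => ?_, fun g => ?_⟩
    · rcases g with g | g
      · exact ⟨Or.inl g.1.symm, Or.inr g.2.symm⟩
      · exact ⟨Or.inr g.2.symm, Or.inl g.1.symm⟩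
    · rcases g with ⟨g1 | g1, g2 | g2⟩
      · exact absurd (g1.trans g2.symm) (F.ne t)
      · exact Or.inl ⟨g1.symm, g2.symm⟩
      · exact Or.inr ⟨g2.symm, g1.symm⟩
      · exact absurd (g1.trans g2.symm) (F.ne t)
  have closed : ∀ a b : ℕ → Fin k, Str F S.A a 0 F.l → a 0 ≠ b 0 →
      (∀ t, t ≤ F.l → ∀ u, X t u ↔ u = a t ∨ u = b t) → a F.l = b 0 := by
    intro a b ha hab hX2
    have : X 0 (a F.l) := by rw [← hX.compat.2]; exact (hX2 _ le_rfl _).mpr (Or.inl rfl)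
    rcases (hX2 0 (by omega) _).mp this with g | g
    · exfalso
      refine hab (hX.min (fun t u => u = a t) ⟨flow_str ha, by simp only [g]⟩
        (fun u e => (hX2 0 (by omega) u).mpr (Or.inl e)) ⟨_, rfl⟩ (b 0)
        ((hX2 0 (by omega) _).mpr (Or.inr rfl))).symm
    · exact g
  have hsz : sz X 0 = 2 := by
    have := p.du.sz_eq (Nat.zero_le F.l)
    have := p.hW.sz_pos
    have := p.hW'.sz_pos
    omega
  have hxc : XX F S.A X c := by
    refine ⟨p.pinch.mem, ?_, ?_⟩ <;> rw [p.du.union c hc.le]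
    · exact p.arcs.imp And.left And.right
    · exact p.arcs.symm.imp And.left And.right
  refine Two.false (F := F) (S := S) (a := a) (b := b) ⟨ha, hb, hab, fun c' d e f => ?_⟩
    (closed a b ha hab0 hXab) (closed b a hb hab0.symm fun t ht u => (hXab t ht u).trans Or.comm)
    ⟨c, hc, (cross c hc).mpr hxc, hz⟩ ?_
  · obtain ⟨S', P, Q, q⟩ := H c' d ((cross c' d).mp e) f
    refine ⟨S', q.pinch, fun t ht hA hne w hw hw' => ?_⟩
    by_contra hn
    have e1 := q.du.sz_eq (Nat.zero_le F.l)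
    have e2 := q.hW.sz_pos
    have e3 := q.hW'.sz_pos
    have e4 := q.cW
    have e5 := q.cW'
    rcases q.chord ht hA hne hn ((hXab t ht.le w).mpr hw) hw' with g | g
    · exact not_xx_of_cnt (by omega) ht g
    · exact not_xx_of_cnt (by omega) ht g
  · have : 1 < Cnt F S.A X := by omega
    unfold Cnt at this
    obtain ⟨t, ht, t', ht', hne⟩ := Finset.one_lt_card.mp this
    simp only [Finset.mem_filter, Finset.mem_range] at ht ht'
    exact ⟨t, t', hne, ht.1, ht'.1, (cross t ht.1).mpr ht.2, (cross t' ht'.1).mpr ht'.2⟩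

/-- The data obtained from two pinches that each cut off a single strand. -/
structure TwoEnds (F : Frame k K) (S Sc Sy : St K) (X : Cls k) (c y : ℕ) (σ σ' : ℕ → Fin k)
    (Q : Cls k) : Prop where
  pc : Pinch F S c Sc
  py : Pinch F S y Sy
  ne : c ≠ y
  hσ : Str F ((S.A.erase c).erase y) σ 0 F.l
  hσ' : Str F ((S.A.erase c).erase y) σ' 0 F.l
  cσ : σ F.l = σ 0
  cσ' : σ' F.l = σ' 0
  hQ : Min F ((S.A.erase c).erase y) Q
  union : ∀ t, t ≤ F.l → ∀ u, X t u ↔ u = σ t ∨ u = σ' t ∨ Q t u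
  hss : ∀ t, t ≤ F.l → σ t ≠ σ' t
  d1 : ∀ t, t ≤ F.l → ¬ Q t (σ t)
  d2 : ∀ t, t ≤ F.l → ¬ Q t (σ' t)
  ac : (Q c (F.i c) ∧ σ c = F.j c) ∨ (Q c (F.j c) ∧ σ c = F.i c)
  ay : (Q y (F.i y) ∧ σ' y = F.j y) ∨ (Q y (F.j y) ∧ σ' y = F.i y)
  cQ : Cnt F ((S.A.erase c).erase y) Q < sz Q 0
  cross : ∃ τ, τ < F.l ∧ Cross F ((S.A.erase c).erase y) σ σ' τ
  side : (∀ t, t ≤ F.l → ∀ u, Q t u → u < σ t ∧ u < σ' t) ∨
    (∀ t, t ≤ F.l → ∀ u, Q t u → σ t < u ∧ σ' t < u)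
  nz : ∀ t, t < F.l → XX F ((S.A.erase c).erase y) Q t → S.z t ≠ 0
  hz : ∀ t, t < F.l → t ∈ S.A → t ≠ c → t ≠ y → ∀ w, X t w → (w = F.i t ∨ w = F.j t) →
    (Sc.z t ≠ 0 ∨ Sy.z t ≠ 0) → XX F ((S.A.erase c).erase y) Q t

theorem two_ends (hcnt : sz X 0 ≤ Cnt F S.A X) (H : Hyp F S X)
    {s Q : Cls k} (p : Pair F S X c Sc s Q) (h1 : sz s 0 ≤ 1) (h2 : 2 ≤ sz Q 0) :
    ∃ Sy y σ σ' Q₁, TwoEnds F S Sc Sy X c y σ σ' Q₁ := by
  have hc := p.pinch.lt
  obtain ⟨y, s', y1, y2, y3, y4, y5, y6, y7, y8⟩ := single_far p.hW' h2 hc p.symm.not_both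
  have hyc : y ≠ c := Finset.ne_of_mem_erase y2.1
  have hyA : y ∈ S.A := Finset.mem_of_mem_erase y2.1
  have hQX : ∀ t, t ≤ F.l → ∀ u, Q t u → X t u :=
    fun t ht u g => (p.du.union t ht u).mpr (Or.inr g)
  have hcomm : (S.A.erase c).erase y = (S.A.erase y).erase c := Finset.erase_right_comm
  obtain ⟨Sy, N, q⟩ := H.at y1 ⟨hyA, hQX y y1.le _ y2.2.1, hQX y y1.le _ y2.2.2⟩
    (p.nz y y1 (Or.inr y2)) ((hcomm ▸ y3).of_erase hc y7 y8) y6
  obtain ⟨Q₁, m1, du1, ay⟩ : ∃ Q₁, Min F ((S.A.erase c).erase y) Q₁ ∧ DisjUnion F Q s' Q₁ ∧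
      ((Q₁ y (F.i y) ∧ s' y (F.j y)) ∨ (Q₁ y (F.j y) ∧ s' y (F.i y))) := by
    obtain ⟨Qa, Qb, r⟩ := exists_split p.hW' y1 y2
    rcases y6 with g | g
    · have e := r.hP.eq y3 y1.le r.hi g
      exact ⟨Qb, r.hQ, ⟨fun t ht u => by rw [← e t ht]; exact r.du.disj t ht u,
        fun t ht u => by rw [← e t ht]; exact r.du.union t ht u⟩, Or.inr ⟨r.hj, g⟩⟩
    · have e := r.hQ.eq y3 y1.le r.hj g
      exact ⟨Qa, r.hP, ⟨fun t ht u => by rw [← e t ht]; exact r.du.symm.disj t ht u,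
        fun t ht u => by rw [← e t ht]; exact r.du.symm.union t ht u⟩, Or.inl ⟨r.hi, g⟩⟩
  obtain ⟨σ, hσ, cσ, eσ⟩ := p.hW.single h1
  obtain ⟨σ', hσ', cσ', eσ'⟩ := y3.single y4
  have sσ : ∀ t, t ≤ F.l → s t (σ t) := fun t ht => (eσ t ht _).mpr rfl
  have sσ' : ∀ t, t ≤ F.l → s' t (σ' t) := fun t ht => (eσ' t ht _).mpr rfl
  have Q1Q : ∀ t, t ≤ F.l → ∀ u, Q₁ t u → Q t u :=
    fun t ht u g => (du1.union t ht u).mpr (Or.inr g)
  have hσB : Str F ((S.A.erase c).erase y) σ 0 F.l := by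
    intro t a b
    rw [hσ t a b]
    by_cases e : t = y
    · subst e
      rw [sw_dead (show t ∉ (S.A.erase c).erase t by simp), sw_o]
      · exact fun g => p.du.disj t b.le _ ⟨sσ t b.le, g ▸ y2.2.1⟩
      · exact fun g => p.du.disj t b.le _ ⟨sσ t b.le, g ▸ y2.2.2⟩
    · rw [sw_congr (A' := (S.A.erase c).erase y) (by simp [e])]
  have duN : DisjUnion F N s Q₁ := by
    refine ⟨fun t ht u g => p.du.disj t ht u ⟨g.1, Q1Q t ht u g.2⟩, fun t ht u => ?_⟩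
    have a1 := q.du.union t ht u
    have a2 := q.du.disj t ht u
    have a3 := p.du.union t ht u
    have a4 := p.du.disj t ht u
    have a5 := du1.union t ht u
    have a6 := du1.disj t ht u
    clear * - a1 a2 a3 a4 a5 a6
    tauto
  have ac : (Q₁ c (F.i c) ∧ s c (F.j c)) ∨ (Q₁ c (F.j c) ∧ s c (F.i c)) := by
    rcases p.arcs with g | g
    · exact Or.inr ⟨((du1.union c hc.le _).mp g.2).resolve_left y8, g.1⟩
    · exact Or.inl ⟨((du1.union c hc.le _).mp g.2).resolve_left y7, g.1⟩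
  have xN : XX F (S.A.erase y) N c := by
    refine ⟨Finset.mem_erase.mpr ⟨hyc.symm, p.pinch.mem⟩, ?_, ?_⟩ <;> rw [duN.union c hc.le]
    · exact ac.symm.imp And.right And.left
    · exact ac.imp And.right And.left
  have n1 := q.cW'
  rw [cnt_erase hc xN, ← hcomm, duN.cnt_eq, duN.sz_eq (Nat.zero_le _)] at n1
  have n2 := p.cW'
  rw [cnt_erase y1 y2, du1.cnt_eq, du1.sz_eq (Nat.zero_le _)] at n2
  have n3 := m1.lb
  have xX : XX F S.A X c := by
    refine ⟨p.pinch.mem, ?_, ?_⟩ <;> rw [p.du.union c hc.le]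
    · exact p.arcs.imp And.left And.right
    · exact p.arcs.symm.imp And.left And.right
  rw [cnt_erase hc xX, p.du.cnt_eq, p.du.sz_eq (Nat.zero_le _)] at hcnt
  have n4 := p.cW
  have n5 := p.cW'
  have n6 := p.hW.sz_pos
  have mx1 : CntMix F ((S.A.erase c).erase y) s Q₁ = 0 := by omega
  have mx2 : CntMix F ((S.A.erase c).erase y) s' Q₁ = 0 := by omega
  have hss : ∀ t, t ≤ F.l → σ t ≠ σ' t := fun t ht e =>
    p.du.disj t ht _ ⟨sσ t ht, y5 t ht _ (e ▸ sσ' t ht)⟩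
  have d1 : ∀ t, t ≤ F.l → ¬ Q₁ t (σ t) := fun t ht g => duN.disj t ht _ ⟨sσ t ht, g⟩
  have d2 : ∀ t, t ≤ F.l → ¬ Q₁ t (σ' t) := fun t ht g => du1.disj t ht _ ⟨sσ' t ht, g⟩
  obtain ⟨τ, τ1, τ2⟩ := cntMix_pos.mp (show 0 < CntMix F (S.A.erase c) s Q by omega)
  have τy : τ ≠ y := by
    rintro rfl
    rcases τ2.2 with g | g
    · exact p.du.disj τ τ1.le _ ⟨g.1, y2.2.1⟩
    · exact p.du.disj τ τ1.le _ ⟨g.1, y2.2.2⟩
  have τB : τ ∈ (S.A.erase c).erase y := Finset.mem_erase.mpr ⟨τy, τ2.1⟩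
  have τ3 : Cross F ((S.A.erase c).erase y) σ σ' τ := by
    refine ⟨τB, τ2.2.imp (fun g => ⟨((eσ τ τ1.le _).mp g.1).symm, ((eσ' τ τ1.le _).mp ?_).symm⟩)
      (fun g => ⟨((eσ τ τ1.le _).mp g.1).symm, ((eσ' τ τ1.le _).mp ?_).symm⟩)⟩
    · exact ((du1.union τ τ1.le _).mp g.2).resolve_right
        fun g' => not_mix_of_cnt mx1 τ1 ⟨τB, Or.inl ⟨g.1, g'⟩⟩
    · exact ((du1.union τ τ1.le _).mp g.2).resolve_right
        fun g' => not_mix_of_cnt mx1 τ1 ⟨τB, Or.inr ⟨g.1, g'⟩⟩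
  have o1 := one_side m1 hσB cσ d1 fun t ht hB =>
    ⟨fun g => not_mix_of_cnt mx1 ht ⟨hB, Or.inr ⟨g.2 ▸ sσ t ht.le, g.1⟩⟩,
      fun g => not_mix_of_cnt mx1 ht ⟨hB, Or.inl ⟨g.2 ▸ sσ t ht.le, g.1⟩⟩⟩
  have o2 := one_side m1 hσ' cσ' d2 fun t ht hB =>
    ⟨fun g => not_mix_of_cnt mx2 ht ⟨hB, Or.inr ⟨g.2 ▸ sσ' t ht.le, g.1⟩⟩,
      fun g => not_mix_of_cnt mx2 ht ⟨hB, Or.inl ⟨g.2 ▸ sσ' t ht.le, g.1⟩⟩⟩
  refine ⟨Sy, y, σ, σ', Q₁, p.pinch, q.pinch, hyc.symm, hσB, hσ', cσ, cσ', m1, fun t ht u => ?_,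
    hss, d1, d2, ?_, ?_, by omega, ⟨τ, τ1, τ3⟩, ?_, fun t ht g => ?_, fun t ht hA a b w hw hw' g => ?_⟩
  · rw [p.du.union t ht, du1.union t ht, eσ t ht, eσ' t ht]
  · exact ac.imp (fun g => ⟨g.1, ((eσ c hc.le _).mp g.2).symm⟩)
      (fun g => ⟨g.1, ((eσ c hc.le _).mp g.2).symm⟩)
  · exact ay.imp (fun g => ⟨g.1, ((eσ' y y1.le _).mp g.2).symm⟩)
      (fun g => ⟨g.1, ((eσ' y y1.le _).mp g.2).symm⟩)
  · obtain ⟨w, hw⟩ := m1.flow.exists_at (Nat.zero_le _) τ1.le m1.ne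
    have e := F.hij τ
    have e' := τ3.2
    simp only [Fin.ext_iff] at e'
    rcases o1 with o1 | o1 <;> rcases o2 with o2 | o2
    · exact Or.inl fun t ht u g => ⟨o1 t ht u g, o2 t ht u g⟩
    · have a1 := o1 τ τ1.le w hw
      have a2 := o2 τ τ1.le w hw
      rw [Fin.lt_def] at a1 a2
      omega
    · have a1 := o1 τ τ1.le w hw
      have a2 := o2 τ τ1.le w hw
      rw [Fin.lt_def] at a1 a2
      omega
    · exact Or.inr fun t ht u g => ⟨o1 t ht u g, o2 t ht u g⟩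
  · exact p.nz t ht (Or.inr ⟨Finset.mem_of_mem_erase g.1, Q1Q t ht.le _ g.2.1, Q1Q t ht.le _ g.2.2⟩)
  · have hB : t ∈ (S.A.erase c).erase y := by simp [a, b, hA]
    have nss : ∀ {V : Cls k} {ρ : ℕ → Fin k}, (∀ u, V t u ↔ u = ρ t) →
        ¬ (V t (F.i t) ∧ V t (F.j t)) :=
      fun e g => F.ne t (((e _).mp g.1).trans ((e _).mp g.2).symm)
    rcases g with g | g
    · rcases p.chord ht hA a g hw hw' with r | r
      · exact absurd r.2 (nss (eσ t ht.le))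
      · have a1 := (du1.union t ht.le _).mp r.2.1
        have a2 := (du1.union t ht.le _).mp r.2.2
        rcases a1 with a1 | a1 <;> rcases a2 with a2 | a2
        · exact absurd ⟨a1, a2⟩ (nss (eσ' t ht.le))
        · exact absurd ⟨hB, Or.inl ⟨a1, a2⟩⟩ (not_mix_of_cnt mx2 ht)
        · exact absurd ⟨hB, Or.inr ⟨a2, a1⟩⟩ (not_mix_of_cnt mx2 ht)
        · exact ⟨hB, a1, a2⟩
    · rcases q.chord ht hA b g hw hw' with r | r
      · exact absurd r.2 (nss (eσ' t ht.le))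
      · have a1 := (duN.union t ht.le _).mp r.2.1
        have a2 := (duN.union t ht.le _).mp r.2.2
        rcases a1 with a1 | a1 <;> rcases a2 with a2 | a2
        · exact absurd ⟨a1, a2⟩ (nss (eσ t ht.le))
        · exact absurd ⟨hB, Or.inl ⟨a1, a2⟩⟩ (not_mix_of_cnt mx1 ht)
        · exact absurd ⟨hB, Or.inr ⟨a2, a1⟩⟩ (not_mix_of_cnt mx1 ht)
        · exact ⟨hB, a1, a2⟩

variable {σ σ' : ℕ → Fin k} {Q : Cls k}

theorem TwoEnds.small (h : TwoEnds F S Sc Sy X c y σ σ' Q) (h1 : sz Q 0 ≤ 1) : False := by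
  obtain ⟨u, hu, -, eu⟩ := h.hQ.single h1
  have hc := h.pc.lt
  have hy := h.py.lt
  have Qu : ∀ t, t ≤ F.l → Q t (u t) := fun t ht => (eu t ht _).mpr rfl
  refine Three.false (F := F) (S := S) (Sc := Sc) (Sy := Sy) (u := u) (s := σ) (s' := σ')
    ⟨h.pc, h.py, hu, h.hσ, h.hσ', h.cσ, h.cσ', ?_, ?_, ?_, h.hss, fun t ht hA a b w hw hw' => ?_⟩
    h.ne
  · exact h.ac.imp (fun g => ⟨((eu c hc.le _).mp g.1).symm, g.2⟩)
      (fun g => ⟨((eu c hc.le _).mp g.1).symm, g.2⟩)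
  · exact h.ay.imp (fun g => ⟨((eu y hy.le _).mp g.1).symm, g.2⟩)
      (fun g => ⟨((eu y hy.le _).mp g.1).symm, g.2⟩)
  · exact h.side.imp (fun g t ht => g t ht _ (Qu t ht)) (fun g t ht => g t ht _ (Qu t ht))
  · by_contra hn
    have hX : X t w := by
      rw [h.union t ht.le]
      rcases hw with e | e | e
      · exact Or.inr (Or.inr (e ▸ Qu t ht.le))
      · exact Or.inl e
      · exact Or.inr (Or.inl e)
    have := h.cQ
    exact not_xx_of_cnt (by omega) ht (h.hz t ht hA a b w hX hw' (not_and_or.mp hn))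

theorem TwoEnds.big (h : TwoEnds F S Sc Sy X c y σ σ' Q) (H : Hyp F S X) (h2 : 2 ≤ sz Q 0) :
    False := by
  have hc := h.pc.lt
  have hy := h.py.lt
  obtain ⟨x, x1, x2⟩ := cnt_pos.mp (show 0 < Cnt F ((S.A.erase c).erase y) Q by
    have := h.hQ.lb; omega)
  obtain ⟨Qa, Qb, r⟩ := exists_split h.hQ x1 x2
  have n1 := r.cnt x1 x2.1
  have n2 := r.du.sz_eq (Nat.zero_le F.l)
  have n3 := r.hP.lb
  have n4 := r.hQ.lb
  have n5 := h.cQ
  have mx : CntMix F (((S.A.erase c).erase y).erase x) Qa Qb = 0 := by omega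
  obtain ⟨uc, c1, c2⟩ : ∃ uc, Q c uc ∧ ((uc = F.i c ∧ σ c = F.j c) ∨ (uc = F.j c ∧ σ c = F.i c)) :=
    h.ac.elim (fun g => ⟨_, g.1, Or.inl ⟨rfl, g.2⟩⟩) (fun g => ⟨_, g.1, Or.inr ⟨rfl, g.2⟩⟩)
  obtain ⟨uy, y1, y2⟩ : ∃ uy, Q y uy ∧
      ((uy = F.i y ∧ σ' y = F.j y) ∨ (uy = F.j y ∧ σ' y = F.i y)) :=
    h.ay.elim (fun g => ⟨_, g.1, Or.inl ⟨rfl, g.2⟩⟩) (fun g => ⟨_, g.1, Or.inr ⟨rfl, g.2⟩⟩)
  -- the two marked arcs lie in the same part
  have geom : ∀ P P' : Cls k, Min F (((S.A.erase c).erase y).erase x) P →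
      Min F (((S.A.erase c).erase y).erase x) P' → DisjUnion F Q P P' →
      (∀ t, t < F.l → ¬ Mix F (((S.A.erase c).erase y).erase x) P P' t) → P c uc → P' y uy →
      False := by
    intro P P' m m' du nm a b
    obtain ⟨α, hα, eα⟩ := exists_str F (((S.A.erase c).erase y).erase x) c uc
    obtain ⟨β, hβ, eβ⟩ := exists_str F (((S.A.erase c).erase y).erase x) y uy
    have Pα : ∀ t, t ≤ F.l → P t (α t) := fun t ht => by
      rw [m.flow.str hα t ht, ← m.flow.str hα c hc.le, eα]; exact a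
    have Pβ : ∀ t, t ≤ F.l → P' t (β t) := fun t ht => by
      rw [m'.flow.str hβ t ht, ← m'.flow.str hβ y hy.le, eβ]; exact b
    have ne : ∀ t, t ≤ F.l → α t ≠ β t := fun t ht e => du.disj t ht _ ⟨Pα t ht, e ▸ Pβ t ht⟩
    have o := Str.lt_iff hα hβ
      (fun t _ ht g => nm t ht ⟨g.1, Or.inl ⟨g.2.1 ▸ Pα t ht.le, g.2.2 ▸ Pβ t ht.le⟩⟩)
      (fun t _ ht g => nm t ht ⟨g.1, Or.inr ⟨g.2.2 ▸ Pα t ht.le, g.2.1 ▸ Pβ t ht.le⟩⟩)
      (ne 0 (by omega))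
    have o1 := (o c (by omega) hc.le).trans (o y (by omega) hy.le).symm
    have q1 : Q c (β c) := (du.union c hc.le _).mpr (Or.inr (Pβ c hc.le))
    have q2 : Q y (α y) := (du.union y hy.le _).mpr (Or.inl (Pα y hy.le))
    have w1 := Fin.val_ne_of_ne (ne c hc.le)
    have w2 := Fin.val_ne_of_ne (ne y hy.le)
    rw [eα] at o1 w1
    rw [eβ] at o1 w2
    have e1 := F.hij c
    have e2 := F.hij y
    simp only [Fin.ext_iff] at c2 y2
    simp only [Fin.lt_def] at o1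
    rcases h.side with g | g
    · have g1 := (g c hc.le _ q1).1
      have g2 := (g y hy.le _ q2).2
      have g3 := (g c hc.le _ c1).1
      have g4 := (g y hy.le _ y1).2
      simp only [Fin.lt_def] at g1 g2 g3 g4
      omega
    · have g1 := (g c hc.le _ q1).1
      have g2 := (g y hy.le _ q2).2
      have g3 := (g c hc.le _ c1).1
      have g4 := (g y hy.le _ y1).2
      simp only [Fin.lt_def] at g1 g2 g3 g4
      omega
  have xy : x ≠ y := Finset.ne_of_mem_erase x2.1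
  have xc : x ≠ c := Finset.ne_of_mem_erase (Finset.mem_of_mem_erase x2.1)
  have xA : x ∈ S.A := Finset.mem_of_mem_erase (Finset.mem_of_mem_erase x2.1)
  have QX : ∀ t, t ≤ F.l → ∀ u, Q t u → X t u :=
    fun t ht u g => (h.union t ht u).mpr (Or.inr (Or.inr g))
  -- counting
  have count : ∀ V V' : Cls k, Min F (((S.A.erase c).erase y).erase x) V →
      Min F (((S.A.erase c).erase y).erase x) V' → DisjUnion F Q V V' →
      (V' x (F.i x) ∨ V' x (F.j x)) → V c uc → V y uy → False := by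
    intro V V' m m' du ax a b
    have V'Q : ∀ t, t ≤ F.l → ∀ u, V' t u → Q t u :=
      fun t ht u g => (du.union t ht u).mpr (Or.inr g)
    have VQ : ∀ t, t ≤ F.l → ∀ u, V t u → Q t u :=
      fun t ht u g => (du.union t ht u).mpr (Or.inl g)
    have nc : ¬ V' c (F.i c) ∧ ¬ V' c (F.j c) := by
      rcases c2 with g | g
      · exact ⟨fun e => du.disj c hc.le _ ⟨g.1 ▸ a, e⟩,
          fun e => h.d1 c hc.le (g.2 ▸ V'Q c hc.le _ e)⟩
      · exact ⟨fun e => h.d1 c hc.le (g.2 ▸ V'Q c hc.le _ e),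
          fun e => du.disj c hc.le _ ⟨g.1 ▸ a, e⟩⟩
    have ny : ¬ V' y (F.i y) ∧ ¬ V' y (F.j y) := by
      rcases y2 with g | g
      · exact ⟨fun e => du.disj y hy.le _ ⟨g.1 ▸ b, e⟩,
          fun e => h.d2 y hy.le (g.2 ▸ V'Q y hy.le _ e)⟩
      · exact ⟨fun e => h.d2 y hy.le (g.2 ▸ V'Q y hy.le _ e),
          fun e => du.disj y hy.le _ ⟨g.1 ▸ b, e⟩⟩
    have e1 : ((S.A.erase c).erase y).erase x = ((S.A.erase x).erase c).erase y := by
      rw [Finset.erase_right_comm (a := y), Finset.erase_right_comm (a := c)]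
    have m'' : Min F (S.A.erase x) V' := ((e1 ▸ m').of_erase hy ny.1 ny.2).of_erase hc nc.1 nc.2
    obtain ⟨Sx, N, q⟩ := H.at x1 ⟨xA, QX x x1.le _ x2.2.1, QX x x1.le _ x2.2.2⟩ (h.nz x x1 x2)
      m'' ax
    have inN : ∀ t, t ≤ F.l → ∀ u, X t u → ¬ V' t u → N t u :=
      fun t ht u g g' => ((q.du.union t ht u).mp g).resolve_left g'
    have σN : ∀ t, t ≤ F.l → N t (σ t) := fun t ht =>
      inN t ht _ ((h.union t ht _).mpr (Or.inl rfl)) (fun g => h.d1 t ht (V'Q t ht _ g))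
    have σ'N : ∀ t, t ≤ F.l → N t (σ' t) := fun t ht =>
      inN t ht _ ((h.union t ht _).mpr (Or.inr (Or.inl rfl))) (fun g => h.d2 t ht (V'Q t ht _ g))
    have VN : ∀ t, t ≤ F.l → ∀ u, V t u → N t u := fun t ht u g =>
      inN t ht u (QX t ht u (VQ t ht u g)) (fun g' => du.disj t ht u ⟨g, g'⟩)
    obtain ⟨τ, τ1, τ2⟩ := h.cross
    have τx : τ ≠ x := by
      rintro rfl
      rcases τ2.2 with g | g
      · exact h.d1 τ τ1.le (g.1 ▸ x2.2.1)
      · exact h.d1 τ τ1.le (g.1 ▸ x2.2.2)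
    have k1 : XX F (S.A.erase x) N c := by
      refine ⟨Finset.mem_erase.mpr ⟨xc.symm, h.pc.mem⟩, ?_⟩
      rcases c2 with g | g
      · exact ⟨g.1 ▸ VN c hc.le _ a, g.2 ▸ σN c hc.le⟩
      · exact ⟨g.2 ▸ σN c hc.le, g.1 ▸ VN c hc.le _ a⟩
    have k2 : XX F ((S.A.erase x).erase c) N y := by
      refine ⟨Finset.mem_erase.mpr ⟨h.ne.symm, Finset.mem_erase.mpr ⟨xy.symm, h.py.mem⟩⟩, ?_⟩
      rcases y2 with g | g
      · exact ⟨g.1 ▸ VN y hy.le _ b, g.2 ▸ σ'N y hy.le⟩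
      · exact ⟨g.2 ▸ σ'N y hy.le, g.1 ▸ VN y hy.le _ b⟩
    have k3 : XX F (((S.A.erase c).erase y).erase x) N τ := by
      refine ⟨Finset.mem_erase.mpr ⟨τx, τ2.1⟩, ?_⟩
      rcases τ2.2 with g | g
      · exact ⟨g.1 ▸ σN τ τ1.le, g.2 ▸ σ'N τ τ1.le⟩
      · exact ⟨g.2 ▸ σ'N τ τ1.le, g.1 ▸ σN τ τ1.le⟩
    have k4 : ¬ XX F (((S.A.erase c).erase y).erase x) V τ := by
      intro g'
      rcases τ2.2 with g | g
      · exact h.d1 τ τ1.le (g.1 ▸ VQ τ τ1.le _ g'.2.1)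
      · exact h.d1 τ τ1.le (g.1 ▸ VQ τ τ1.le _ g'.2.2)
    have j1 := q.cW'
    rw [cnt_erase hc k1, cnt_erase hy k2, ← e1, cnt_erase τ1 k3] at j1
    have j2 := cnt_mono (F := F) (A := (((S.A.erase c).erase y).erase x).erase τ) VN
    rw [cnt_erase_of_not k4] at j2
    have j3 := m.lb
    have j4 : sz N 0 ≤ sz V 0 + 2 := by
      classical
      unfold sz
      calc _ ≤ (insert (σ 0) (insert (σ' 0) (Finset.univ.filter (V 0)))).card := by
            refine Finset.card_le_card fun u hu => ?_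
            simp only [Finset.mem_filter, Finset.mem_univ, true_and, Finset.mem_insert] at hu ⊢
            have a1 := (h.union 0 (by omega) u).mp ((q.du.union 0 (by omega) u).mpr (Or.inr hu))
            rcases a1 with a1 | a1 | a1
            · exact Or.inl a1
            · exact Or.inr (Or.inl a1)
            · exact Or.inr (Or.inr (((du.union 0 (by omega) u).mp a1).resolve_right
                fun g => q.du.disj 0 (by omega) u ⟨g, hu⟩))
        _ ≤ _ := (Finset.card_insert_le _ _).trans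
            (Nat.add_le_add_right (Finset.card_insert_le _ _) 1)
    omega
  have nm : ∀ t, t < F.l → ¬ Mix F (((S.A.erase c).erase y).erase x) Qa Qb t :=
    fun t ht => not_mix_of_cnt mx ht
  rcases (r.du.union c hc.le _).mp c1 with a | a <;> rcases (r.du.union y hy.le _).mp y1 with b | b
  · exact count Qa Qb r.hP r.hQ r.du (Or.inr r.hj) a b
  · exact geom Qa Qb r.hP r.hQ r.du nm a b
  · exact geom Qb Qa r.hQ r.hP r.du.symm
      (fun t ht g => nm t ht ⟨g.1, g.2.symm.imp And.symm And.symm⟩) a b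
  · exact count Qb Qa r.hQ r.hP r.du.symm (Or.inl r.hi) a b

theorem hyp_false (hX : Min F S.A X) (hs : Sep F S X) (hS : LU F S)
    (hcnt : sz X 0 ≤ Cnt F S.A X) (H : Hyp F S X) : False := by
  obtain ⟨t, t1, t2⟩ := cnt_pos.mp (lt_of_lt_of_le hX.sz_pos hcnt)
  obtain ⟨c₀, c1, c2, c3⟩ := exists_chord hX hs hS (two_le_sz hX.flow t1 t2)
  obtain ⟨c, Sc, s, Q, hz, p, h1⟩ : ∃ c Sc s Q, S.z c ≠ 0 ∧ Pair F S X c Sc s Q ∧ sz s 0 ≤ 1 := by
    obtain ⟨Sc, P, Q, p⟩ := H c₀ c1 c2 c3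
    by_cases h : sz P 0 ≤ 1
    · exact ⟨c₀, Sc, P, Q, c3, p, h⟩
    obtain ⟨y, W, y1, y2, y3, y4, -, y6, y7, y8⟩ := single_far p.hW (by omega) c1 p.not_both
    have hz := p.nz y y1 (Or.inl y2)
    have hcomm : (S.A.erase c₀).erase y = (S.A.erase y).erase c₀ := Finset.erase_right_comm
    obtain ⟨Sy, N, q⟩ := H.at y1 ⟨Finset.mem_of_mem_erase y2.1,
      (p.du.union y y1.le _).mpr (Or.inl y2.2.1), (p.du.union y y1.le _).mpr (Or.inl y2.2.2)⟩ hz
      ((hcomm ▸ y3).of_erase c1 y7 y8) y6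
    exact ⟨y, Sy, W, N, hz, q, y4⟩
  by_cases h2 : sz Q 0 ≤ 1
  · exact case_two hX hcnt H hz p h1 h2
  obtain ⟨Sy, y, σ, σ', Q₁, e⟩ := two_ends hcnt H p h1 (by omega)
  by_cases h3 : sz Q₁ 0 ≤ 1
  · exact e.small h3
  · exact e.big H (by omega)

theorem ngood : ∀ (n : ℕ) (S : St K) (X : Cls k), S.A.card = n → Min F S.A X → Sep F S X →
    LU F S → sz X 0 ≤ Cnt F S.A X → NGood F S X := by
  intro n
  induction n with
  | zero =>
    intro S X hA hX _ _ hcnt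
    obtain ⟨t, _, t2⟩ := cnt_pos.mp (lt_of_lt_of_le hX.sz_pos hcnt)
    rw [Finset.card_eq_zero] at hA
    simp [XX, hA] at t2
  | succ n ih =>
    intro S X hA hX hs hS hcnt
    by_contra hN
    refine hyp_false hX hs hS hcnt fun c c1 c2 c3 => ?_
    have hN' := hN
    unfold NGood at hN'
    push Not at hN'
    obtain ⟨Sc, P, Q, p, s, hsP⟩ := hN' c c1 c2 c3
    have hsQ : Sep F Sc Q :=
      (p.sep_cls hX.flow hs ⟨fun _ => c2.2.2, fun _ => c2.2.1⟩).other hsP s.du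
    have hcard : Sc.A.card = n := by rw [p.hA, Finset.card_erase_of_mem c2.1]; omega
    have cP : Cnt F Sc.A P < sz P 0 := by
      by_contra hn
      exact hN (NGood.lift hX hs c3 p s hsP (Or.inl rfl)
        (ih Sc P hcard (p.hA ▸ s.hP) hsP (p.lu hS) (by omega)))
    have cQ : Cnt F Sc.A Q < sz Q 0 := by
      by_contra hn
      exact hN (NGood.lift hX hs c3 p s hsP (Or.inr rfl)
        (ih Sc Q hcard (p.hA ▸ s.hQ) hsQ (p.lu hS) (by omega)))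
    refine ⟨Sc, P, Q, p, s.hP, s.hQ, s.du, Or.inl ⟨s.hi, s.hj⟩, hsP, hsQ, p.hA ▸ cP, p.hA ▸ cQ,
      fun y hy g => ?_⟩
    rw [p.z_same s hsP hy g]
    rcases g with g | g
    · exact coxeter _ Sc P rfl (p.hA ▸ s.hP) hsP (p.lu hS) cP y hy (p.hA ▸ g)
    · exact coxeter _ Sc Q rfl (p.hA ▸ s.hQ) hsQ (p.lu hS) cQ y hy (p.hA ▸ g)

end Pool.Agent.Lib.MP_53bec5_ag
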