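import Pool.Agent.Lib.MP_53bec5_ag.Single

/-!
The configurations of three and of two closed strands cannot occur.
-/

namespace Pool.Agent.Lib.MP_53bec5_ag

open Matrix

variable {k : ℕ} {K : Type} [Field K]

theorem Str.mir {R : Type} [CommRing R] {F : Frame k R} {A : Finset ℕ} {w : ℕ → Fin k}
    (h : Str F A w 0 F.l) : Str F.mir (mirA F.l A) (fun t => w (F.l - t)) 0 F.mir.l := by
  intro t _ h2
  change t < F.l at h2
  rw [sw_mir F A h2]
  have := h (F.l - 1 - t) (by omega) (by omega)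
  rw [show F.l - 1 - t + 1 = F.l - t by omega] at this
  simp only
  rw [this, sw_sw, show F.l - (t + 1) = F.l - 1 - t by omega]

theorem sw_touch {R : Type} [CommRing R] {F : Frame k R} {A : Finset ℕ} {t : ℕ} {u : Fin k}
    (h : sw F A t u = F.i t ∨ sw F A t u = F.j t) : u = F.i t ∨ u = F.j t := by
  by_contra hn
  push Not at hn
  rw [sw_o hn.1 hn.2] at h
  tauto

structure Three (F : Frame k K) (S Sc Sy : St K) (c y : ℕ) (u s s' : ℕ → Fin k) : Prop where
  pc : Pinch F S c Sc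
  py : Pinch F S y Sy
  hu : Str F ((S.A.erase c).erase y) u 0 F.l
  hs : Str F ((S.A.erase c).erase y) s 0 F.l
  hs' : Str F ((S.A.erase c).erase y) s' 0 F.l
  cs : s F.l = s 0
  cs' : s' F.l = s' 0
  hc : (u c = F.i c ∧ s c = F.j c) ∨ (u c = F.j c ∧ s c = F.i c)
  hy : (u y = F.i y ∧ s' y = F.j y) ∨ (u y = F.j y ∧ s' y = F.i y)
  side : (∀ t, t ≤ F.l → u t < s t ∧ u t < s' t) ∨ (∀ t, t ≤ F.l → s t < u t ∧ s' t < u t)
  hss : ∀ t, t ≤ F.l → s t ≠ s' t
  hz : ∀ t, t < F.l → t ∈ S.A → t ≠ c → t ≠ y → ∀ w, (w = u t ∨ w = s t ∨ w = s' t) →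
    (w = F.i t ∨ w = F.j t) → Sc.z t = 0 ∧ Sy.z t = 0

variable {F : Frame k K} {S Sc Sy : St K} {c y : ℕ} {u s s' : ℕ → Fin k}

theorem Three.swap (h : Three F S Sc Sy c y u s s') : Three F S Sy Sc y c u s' s := by
  have e : (S.A.erase y).erase c = (S.A.erase c).erase y := Finset.erase_right_comm
  refine ⟨h.py, h.pc, e ▸ h.hu, e ▸ h.hs', e ▸ h.hs, h.cs', h.cs, h.hy, h.hc, ?_,
    fun t ht => (h.hss t ht).symm, fun t a b d f w hw hw' => (h.hz t a b f d w ?_ hw').symm⟩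
  · exact h.side.imp (fun g t ht => (g t ht).symm) (fun g t ht => (g t ht).symm)
  · tauto

theorem Three.mir (h : Three F S Sc Sy c y u s s') :
    Three F.mir (S.mir F.l) (Sc.mir F.l) (Sy.mir F.l) (F.l - 1 - c) (F.l - 1 - y)
      (fun t => u (F.l - t)) (fun t => s (F.l - t)) (fun t => s' (F.l - t)) := by
  have hcl := h.pc.lt
  have hyl := h.py.lt
  have e : (((S.mir F.l).A.erase (F.l - 1 - c)).erase (F.l - 1 - y)) =
      mirA F.l ((S.A.erase c).erase y) := by
    rw [mirA_erase hyl, mirA_erase hcl]; rfl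
  have ec : F.l - 1 - (F.l - 1 - c) = c := by omega
  have ey : F.l - 1 - (F.l - 1 - y) = y := by omega
  have dc : ∀ w : ℕ → Fin k, Str F ((S.A.erase c).erase y) w 0 F.l →
      w (F.l - (F.l - 1 - c)) = w c := fun w hw => by
    rw [show F.l - (F.l - 1 - c) = c + 1 by omega, hw c (by omega) hcl, sw_dead (by simp)]
  have dy : ∀ w : ℕ → Fin k, Str F ((S.A.erase c).erase y) w 0 F.l →
      w (F.l - (F.l - 1 - y)) = w y := fun w hw => by
    rw [show F.l - (F.l - 1 - y) = y + 1 by omega, hw y (by omega) hyl, sw_dead (by simp)]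
  refine ⟨h.pc.mir, h.py.mir, e ▸ h.hu.mir, e ▸ h.hs.mir, e ▸ h.hs'.mir, ?_, ?_, ?_, ?_, ?_,
    fun t _ => h.hss _ (by omega), ?_⟩
  · simpa [Frame.mir] using h.cs.symm
  · simpa [Frame.mir] using h.cs'.symm
  · simp only [Frame.mir, ec, dc u h.hu, dc s h.hs]; exact h.hc
  · simp only [Frame.mir, ey, dy u h.hu, dy s' h.hs']; exact h.hy
  · exact h.side.imp (fun g t _ => g _ (by omega)) (fun g t _ => g _ (by omega))
  · intro t a b d f w hw hw'
    change t < F.l at a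
    have b' : F.l - 1 - t ∈ S.A := (mem_mirA a).mp b
    have g : F.l - t = F.l - 1 - t + 1 := by omega
    simp only [g, h.hu (F.l - 1 - t) (by omega) (by omega), h.hs (F.l - 1 - t) (by omega) (by omega),
      h.hs' (F.l - 1 - t) (by omega) (by omega)] at hw
    change w = F.i (F.l - 1 - t) ∨ w = F.j (F.l - 1 - t) at hw'
    rcases hw with hw | hw | hw
    · exact h.hz _ (by omega) b' (by omega) (by omega) _ (Or.inl rfl) (sw_touch (hw ▸ hw'))
    · exact h.hz _ (by omega) b' (by omega) (by omega) _ (Or.inr (Or.inl rfl))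
        (sw_touch (hw ▸ hw'))
    · exact h.hz _ (by omega) b' (by omega) (by omega) _ (Or.inr (Or.inr rfl))
        (sw_touch (hw ▸ hw'))

theorem Three.after (h : Three F S Sc Sy c y u s s') (hcy : c < y)
    (hx : ∃ x, y < x ∧ x < F.l ∧ x ∈ S.A ∧
      ((s x = F.i x ∧ s' x = F.j x) ∨ (s x = F.j x ∧ s' x = F.i x))) : False := by
  classical
  obtain ⟨h1, h2, h3, h4⟩ := Nat.find_spec hx
  refine config_three h.pc h.py hcy h1 h2 h3 h.hu h.hs h.hs' h.hc h.hy h.side
    (h.hss y h.py.lt.le) h4 (fun t a b d => ?_) (fun t a b d f g => ?_)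
  · have := Nat.find_min hx b
    exact ⟨fun e => this ⟨a, by omega, d, Or.inl e⟩, fun e => this ⟨a, by omega, d, Or.inr e.symm⟩⟩
  · rcases g with g | g | g | g | g | g
    · exact h.hz t a b d f _ (Or.inl rfl) (Or.inl g)
    · exact h.hz t a b d f _ (Or.inl rfl) (Or.inr g)
    · exact h.hz t a b d f _ (Or.inr (Or.inl rfl)) (Or.inl g)
    · exact h.hz t a b d f _ (Or.inr (Or.inl rfl)) (Or.inr g)
    · exact h.hz t a b d f _ (Or.inr (Or.inr rfl)) (Or.inl g)
    · exact h.hz t a b d f _ (Or.inr (Or.inr rfl)) (Or.inr g)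

theorem Three.false_of_lt (h : Three F S Sc Sy c y u s s') (hcy : c < y) : False := by
  have hcl := h.pc.lt
  have hyl := h.py.lt
  by_cases h1 : ∃ x, y < x ∧ x < F.l ∧ x ∈ S.A ∧
      ((s x = F.i x ∧ s' x = F.j x) ∨ (s x = F.j x ∧ s' x = F.i x))
  · exact h.after hcy h1
  by_cases h2 : ∃ x, x < c ∧ x ∈ S.A ∧
      ((s x = F.i x ∧ s' x = F.j x) ∨ (s x = F.j x ∧ s' x = F.i x))
  · obtain ⟨x, a, b, d⟩ := h2
    refine h.mir.swap.after (by omega) ⟨F.l - 1 - x, by omega, by change _ < F.l; omega, ?_, ?_⟩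
    · simp only [St.mir]; rw [mem_mirA (by omega), show F.l - 1 - (F.l - 1 - x) = x by omega]
      exact b
    · have hB : x ∈ (S.A.erase c).erase y := by
        simp only [Finset.mem_erase]; exact ⟨by omega, by omega, b⟩
      simp only [Frame.mir, show F.l - 1 - (F.l - 1 - x) = x by omega,
        show F.l - (F.l - 1 - x) = x + 1 by omega, h.hs x (by omega) (by omega),
        h.hs' x (by omega) (by omega)]
      rcases d with d | d
      · left; rw [d.1, d.2, sw_i hB, sw_j hB]; exact ⟨rfl, rfl⟩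
      · right; rw [d.1, d.2, sw_i hB, sw_j hB]; exact ⟨rfl, rfl⟩
  have o1 := (Str.lt_iff (h.hs.mono le_rfl hcl.le) (h.hs'.mono le_rfl hcl.le)
    (fun t _ b e => h2 ⟨t, b, Finset.mem_of_mem_erase (Finset.mem_of_mem_erase e.1), Or.inl e.2⟩)
    (fun t _ b e => h2 ⟨t, b, Finset.mem_of_mem_erase (Finset.mem_of_mem_erase e.1),
      Or.inr e.2.symm⟩) (h.hss 0 (by omega))) c (by omega) le_rfl
  have o2 := (Str.lt_iff (h.hs.mono (Nat.zero_le y) le_rfl) (h.hs'.mono (Nat.zero_le y) le_rfl)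
    (fun t a b e => h1 ⟨t, lt_of_le_of_ne a (Finset.ne_of_mem_erase e.1).symm, b,
      Finset.mem_of_mem_erase (Finset.mem_of_mem_erase e.1), Or.inl e.2⟩)
    (fun t a b e => h1 ⟨t, lt_of_le_of_ne a (Finset.ne_of_mem_erase e.1).symm, b,
      Finset.mem_of_mem_erase (Finset.mem_of_mem_erase e.1), Or.inr e.2.symm⟩)
    (h.hss y hyl.le)) F.l hyl.le le_rfl
  rw [h.cs, h.cs', ← o1] at o2
  have n1 := Fin.val_ne_of_ne (h.hss c hcl.le)
  have n2 := Fin.val_ne_of_ne (h.hss y hyl.le)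
  have e1 := F.hij c
  have e2 := F.hij y
  have hc := h.hc
  have hy := h.hy
  simp only [Fin.ext_iff] at hc hy
  simp only [Fin.lt_def] at o2
  rcases h.side with g | g
  · have g1 := g c hcl.le
    have g2 := g y hyl.le
    simp only [Fin.lt_def] at g1 g2
    omega
  · have g1 := g c hcl.le
    have g2 := g y hyl.le
    simp only [Fin.lt_def] at g1 g2
    omega

theorem Three.false (h : Three F S Sc Sy c y u s s') (hcy : c ≠ y) : False := by
  rcases lt_or_gt_of_ne hcy with g | g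
  · exact h.false_of_lt g
  · exact h.swap.false_of_lt g

/-- Both strands are at the two positions of the letter `t`. -/
def Cross {R : Type} [CommRing R] (F : Frame k R) (A : Finset ℕ) (a b : ℕ → Fin k) (t : ℕ) : Prop :=
  t ∈ A ∧ ((a t = F.i t ∧ b t = F.j t) ∨ (a t = F.j t ∧ b t = F.i t))

structure Two (F : Frame k K) (S : St K) (a b : ℕ → Fin k) : Prop where
  ha : Str F S.A a 0 F.l
  hb : Str F S.A b 0 F.l
  hab : ∀ t, t ≤ F.l → a t ≠ b t
  hz : ∀ c, c < F.l → Cross F S.A a b c → S.z c ≠ 0 → ∃ Sc, Pinch F S c Sc ∧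
    ∀ t, t < F.l → t ∈ S.A → t ≠ c → ∀ w, (w = a t ∨ w = b t) → (w = F.i t ∨ w = F.j t) →
      Sc.z t = 0

variable {a b : ℕ → Fin k}

theorem Cross.succ {A : Finset ℕ} (ha : Str F A a 0 F.l) (hb : Str F A b 0 F.l) {t : ℕ}
    (ht : t < F.l) (h : Cross F A a b t) :
    (a (t + 1) = F.i t ∧ b (t + 1) = F.j t) ∨ (a (t + 1) = F.j t ∧ b (t + 1) = F.i t) := by
  rw [ha t (by omega) ht, hb t (by omega) ht]
  rcases h.2 with d | d
  · right; rw [d.1, d.2, sw_i h.1, sw_j h.1]; exact ⟨rfl, rfl⟩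
  · left; rw [d.1, d.2, sw_i h.1, sw_j h.1]; exact ⟨rfl, rfl⟩

theorem cross_mir {A : Finset ℕ} (ha : Str F A a 0 F.l) (hb : Str F A b 0 F.l) {t : ℕ}
    (ht : t < F.l) :
    Cross F.mir (mirA F.l A) (fun t => a (F.l - t)) (fun t => b (F.l - t)) t ↔
      Cross F A a b (F.l - 1 - t) := by
  have g : F.l - t = F.l - 1 - t + 1 := by omega
  constructor
  · intro h
    have h1 : F.l - 1 - t ∈ A := (mem_mirA ht).mp h.1
    have := Cross.succ ha.mir hb.mir ht h
    simp only [Frame.mir, show F.l - (t + 1) = F.l - 1 - t by omega] at this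
    exact ⟨h1, this⟩
  · intro h
    refine ⟨(mem_mirA ht).mpr h.1, ?_⟩
    simp only [Frame.mir, g]
    exact Cross.succ ha hb (by omega) h

theorem Two.mir (h : Two F S a b) :
    Two F.mir (S.mir F.l) (fun t => a (F.l - t)) (fun t => b (F.l - t)) := by
  refine ⟨h.ha.mir, h.hb.mir, fun t _ => h.hab _ (by omega), fun c hc h1 h2 => ?_⟩
  change c < F.l at hc
  obtain ⟨Sc, p, hz⟩ := h.hz (F.l - 1 - c) (by omega) ((cross_mir h.ha h.hb hc).mp h1) h2
  have p' := p.mir
  rw [show F.l - 1 - (F.l - 1 - c) = c by omega] at p'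
  refine ⟨_, p', fun t x y d w hw hw' => ?_⟩
  change t < F.l at x
  have y' : F.l - 1 - t ∈ S.A := (mem_mirA x).mp y
  have g : F.l - t = F.l - 1 - t + 1 := by omega
  simp only [g, h.ha (F.l - 1 - t) (by omega) (by omega),
    h.hb (F.l - 1 - t) (by omega) (by omega)] at hw
  change w = F.i (F.l - 1 - t) ∨ w = F.j (F.l - 1 - t) at hw'
  rcases hw with hw | hw
  · exact hz _ (by omega) y' (by omega) _ (Or.inl rfl) (sw_touch (hw ▸ hw'))
  · exact hz _ (by omega) y' (by omega) _ (Or.inr rfl) (sw_touch (hw ▸ hw'))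

theorem Two.next (h : Two F S a b) {c : ℕ} (hc : c < F.l) (h1 : Cross F S.A a b c)
    (h2 : S.z c ≠ 0) (hx : ∃ x, c < x ∧ x < F.l ∧ Cross F S.A a b x) :
    ∃ x, c < x ∧ x < F.l ∧ Cross F S.A a b x ∧ S.z x ≠ 0 ∧
      (∀ t, c < t → t < x → ¬ Cross F S.A a b t) ∧
      ∀ t, x < t → t < F.l → Cross F S.A a b t → S.z t = 0 := by
  classical
  obtain ⟨Sc, p, hz⟩ := h.hz c hc h1 h2
  obtain ⟨U, h0, hU⟩ := p.start
  obtain ⟨x1, x2, x3⟩ := Nat.find_spec hx
  have xm : ∀ t, c < t → t < Nat.find hx → ¬ Cross F S.A a b t :=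
    fun t d e g => Nat.find_min hx e ⟨d, by omega, g⟩
  generalize Nat.find hx = x at x1 x2 x3 xm
  have main : ∀ α β : ℕ → Fin k, Str F S.A α 0 F.l → Str F S.A β 0 F.l →
      (∀ t, Cross F S.A a b t ↔ Cross F S.A α β t) →
      (∀ t w, (w = α t ∨ w = β t) → (w = a t ∨ w = b t)) →
      α (c + 1) = F.i c → β (c + 1) = F.j c → Sc.z x ≠ S.z x ∧ U (x + 1) = 1 := by
    intro α β hα hβ e1 e2 e3 e4
    obtain ⟨ν, hν, e⟩ := (chain_single (a := c + 1) (b := x) (fun t d f => hU t d (by omega))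
      (hα.mono (by omega) x2.le) (hβ.mono (by omega) x2.le) (by rw [e3, e4]; exact h0)
      (fun t d f ht g => xm t d f ((e1 t).mpr ⟨ht, Or.inl g⟩))
      (fun t d f ht => by
        by_contra hcon
        push Not at hcon
        by_cases h3 : α t = F.j t
        · exact hcon.1 (hz t (by omega) ht (by omega) _ (e2 t _ (Or.inl rfl)) (Or.inr h3))
        · exact hcon.1 (hz t (by omega) ht (by omega) _ (e2 t _ (Or.inr rfl))
            (Or.inl (hcon.2 h3))))).1 x x1 le_rfl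
    exact (hU x x1 x2).absorb x3.1 hν e ((e1 x).mp x3).2
  have key : Sc.z x ≠ S.z x ∧ U (x + 1) = 1 := by
    rcases Cross.succ h.ha h.hb hc h1 with d | d
    · exact main a b h.ha h.hb (fun _ => Iff.rfl) (fun _ _ g => g) d.1 d.2
    · exact main b a h.hb h.ha (fun t => by unfold Cross; tauto) (fun _ _ g => g.symm) d.2 d.1
  have touch : ∀ t, Cross F S.A a b t → a t = F.i t ∨ a t = F.j t :=
    fun t g => g.2.imp And.left And.left
  refine ⟨x, x1, x2, x3, ?_, xm, fun t d f g => ?_⟩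
  · rw [hz x x2 x3.1 (by omega) _ (Or.inl rfl) (touch x x3)] at key
    exact key.1.symm
  · rw [← chain_trivial (a := x + 1) (b := F.l) (fun t d f => hU t (by omega) f) key.2 t d f g.1]
    exact hz t f g.1 (by omega) _ (Or.inl rfl) (touch t g)

theorem Two.last (h : Two F S a b) {e : ℕ} (he : e < F.l) (h1 : Cross F S.A a b e)
    (h2 : S.z e ≠ 0) (hmax : ∀ t, e < t → t < F.l → Cross F S.A a b t → S.z t = 0) :
    ∀ t, e < t → t < F.l → ¬ Cross F S.A a b t := by
  intro t d f g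
  obtain ⟨x, x1, x2, x3, x4, -⟩ := h.next he h1 h2 ⟨t, d, f, g⟩
  exact x4 (hmax x x1 x2 x3)

theorem Two.first (h : Two F S a b) {c : ℕ} (hc : c < F.l) (h1 : Cross F S.A a b c)
    (h2 : S.z c ≠ 0) (hmin : ∀ t, t < c → Cross F S.A a b t → S.z t = 0) :
    ∀ t, t < c → ¬ Cross F S.A a b t := by
  intro t d g
  have ec : F.l - 1 - (F.l - 1 - c) = c := by omega
  refine h.mir.last (e := F.l - 1 - c) (by change _ < F.l; omega)
    ((cross_mir h.ha h.hb (by omega)).mpr (by rw [ec]; exact h1))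
    (by simp only [St.mir, ec]; exact h2) (fun t x y g => ?_) (F.l - 1 - t) (by omega)
    (by change _ < F.l; omega)
    ((cross_mir h.ha h.hb (by omega)).mpr
      (by rw [show F.l - 1 - (F.l - 1 - t) = t by omega]; exact g))
  change t < F.l at y
  exact hmin _ (by omega) ((cross_mir h.ha h.hb y).mp g)

theorem Two.false (h : Two F S a b) (ca : a F.l = b 0) (cb : b F.l = a 0)
    (hZ : ∃ c, c < F.l ∧ Cross F S.A a b c ∧ S.z c ≠ 0)
    (h2 : ∃ t t', t ≠ t' ∧ t < F.l ∧ t' < F.l ∧ Cross F S.A a b t ∧ Cross F S.A a b t') :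
    False := by
  classical
  obtain ⟨c1, c2, c3⟩ := Nat.find_spec hZ
  have cm : ∀ t, t < Nat.find hZ → Cross F S.A a b t → S.z t = 0 := fun t d g => by
    by_contra hn; exact Nat.find_min hZ d ⟨by omega, g, hn⟩
  generalize Nat.find hZ = c at c1 c2 c3 cm
  have f1 := h.first c1 c2 c3 cm
  have hx : ∃ x, c < x ∧ x < F.l ∧ Cross F S.A a b x := by
    obtain ⟨t, t', d, e, f, g, g'⟩ := h2
    by_cases htc : t = c
    · refine ⟨t', ?_, f, g'⟩
      by_contra hn
      exact f1 t' (by omega) g'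
    · refine ⟨t, ?_, e, g⟩
      by_contra hn
      exact f1 t (by omega) g
  obtain ⟨x, x1, x2, x3, x4, x5, x6⟩ := h.next c1 c2 c3 hx
  have f2 := h.last x2 x3 x4 x6
  have seg : ∀ p q, p ≤ q → q ≤ F.l → (∀ t, p ≤ t → t < q → ¬ Cross F S.A a b t) →
      (a q < b q ↔ a p < b p) := fun p q d e g =>
    Str.lt_iff (h.ha.mono (Nat.zero_le p) e) (h.hb.mono (Nat.zero_le p) e)
      (fun t y z w => g t y z ⟨w.1, Or.inl w.2⟩) (fun t y z w => g t y z ⟨w.1, Or.inr w.2.symm⟩)
      (h.hab p (by omega)) q d le_rfl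
  have flip : ∀ t, t < F.l → Cross F S.A a b t → (a (t + 1) < b (t + 1) ↔ ¬ a t < b t) := by
    intro t d g
    have hl := F.lt t
    rw [h.ha t (by omega) d, h.hb t (by omega) d]
    rcases g.2 with w | w
    · rw [w.1, w.2, sw_i g.1, sw_j g.1]; simp [hl, hl.le]
    · rw [w.1, w.2, sw_i g.1, sw_j g.1]; simp [hl, hl.le]
  have s1 := seg 0 c (by omega) c1.le (fun t _ z => f1 t z)
  have s2 := seg (c + 1) x x1 x2.le (fun t y z => x5 t y z)
  have s3 := seg (x + 1) F.l x2 le_rfl (fun t y z => f2 t y z)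
  rw [flip x x2 x3, s2, flip c c1 c2, s1, ca, cb, not_not] at s3
  have := h.hab 0 (by omega)
  rcases lt_or_gt_of_ne this with w | w
  · exact absurd (s3.mpr w) (not_lt.mpr w.le)
  · exact absurd (s3.mp w) (not_lt.mpr w.le)

end Pool.Agent.Lib.MP_53bec5_ag
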