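import Pool.Agent.Lib.MP_53bec5_ag.Reduce

/-!
A braid word whose closure is connected through non-zero chords can be emptied by successive
pinches of non-zero chords.
-/

namespace Pool.Agent.Lib.MP_53bec5_ag

open Matrix

variable {k : ℕ} {K : Type} [Field K] {F : Frame k K}

/-- A colouring separated after a pinch inside one colour was separated before. -/
theorem Pinch.sep_rev {C : Type} {S S' : St K} {c : ℕ} (h : Pinch F S c S')
    {χ : ℕ → Fin k → C} (hχ : Flow F S.A χ 0 F.l) (hs : Sep F S' χ)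
    (hc : χ c (F.i c) = χ c (F.j c)) : Sep F S χ := by
  obtain ⟨U, hU0, hU⟩ := h.right
  obtain ⟨W, hW0, hW⟩ := h.left
  have hcl := h.lt
  intro t ht
  rcases lt_trichotomy t c with h1 | h1 | h1
  · refine ((chainL_adm (ρ := Ord.eq C) (a := 0) (b := c) (fun t _ y => hW t y)
      (hχ.mono le_rfl hcl.le) ?_ (fun t _ y => Or.inr (hs t (by omega)))).2 t (by omega) h1).1
    rw [hW0]; exact adm_upper _ hc.symm
  · subst h1; exact fun _ _ => hc
  · refine ((chainR_adm (ρ := Ord.eq C) (a := c + 1) (b := F.l) (fun t x y => hU t x y)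
      (hχ.mono (by omega) le_rfl) ?_ (fun t _ y => Or.inr (hs t y))).2 t (by omega) ht).1
    rw [hU0]
    refine adm_upper _ ?_
    change χ (c + 1) _ = χ (c + 1) _
    rw [col_i (hχ c (by omega) hcl) h.mem, col_j (hχ c (by omega) hcl) h.mem, hc]

/-- No proper union of components is separated from the rest. -/
def Conn (F : Frame k K) (S : St K) : Prop :=
  ∀ X : Cls k, Compat F S.A X → Sep F S X → ∀ u v, X 0 u → X 0 v

theorem merge_iff {A : Finset ℕ} {P Y : Cls k} {c : ℕ} (hP : Compat F A P) (hc : c < F.l)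
    (hA : c ∈ A) (hne : ¬ (P c (F.i c) ↔ P c (F.j c))) (hY : Compat F (A.erase c) Y) :
    Y c (F.i c) ↔ Y c (F.j c) := by
  have h1 := min_cycle F A ((tau F A c)⁻¹ (F.i c))
  have h2 := min_cycle F A ((tau F A c)⁻¹ (F.j c))
  have hi : (tau F A F.l).SameCycle ((tau F A c)⁻¹ (F.i c)) ((tau F A c)⁻¹ (F.i c)) :=
    Equiv.Perm.SameCycle.rfl
  have hj : (tau F A F.l).SameCycle ((tau F A c)⁻¹ (F.j c)) ((tau F A c)⁻¹ (F.j c)) :=
    Equiv.Perm.SameCycle.rfl
  have m := min_merge (h1.compat.or h2.compat) h1 h2 ⟨fun t ht u g => hne ?_, fun _ _ _ => Iff.rfl⟩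
    hc ⟨hA, Or.inl ⟨hi, hj⟩⟩
  · exact ⟨fun g => m.sub hY hc.le (Or.inl hi) g c hc.le _ (Or.inr hj),
      fun g => m.sub hY hc.le (Or.inr hj) g c hc.le _ (Or.inl hi)⟩
  · by_cases hu : P t u
    · exact iff_of_true (h1.sub hP ht g.1 hu c hc.le _ hi) (h2.sub hP ht g.2 hu c hc.le _ hj)
    · exact iff_of_false (h1.sub hP.not ht g.1 hu c hc.le _ hi)
        (h2.sub hP.not ht g.2 hu c hc.le _ hj)

theorem red_conn : ∀ (n : ℕ) (S : St K), S.A.card ≤ n → LU F S → Conn F S → Red F n S := by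
  intro n
  induction n with
  | zero =>
    intro S hA _ _ t _
    rw [Nat.le_zero, Finset.card_eq_zero] at hA
    simp [hA]
  | succ n ih =>
    intro S hA hS hC
    by_cases h : ∀ X : Cls k, Compat F S.A X → ∀ u v, X 0 u → X 0 v
    · exact red_knot _ S hA hS ⟨⟨fun _ _ _ _ => rfl, rfl⟩, ⟨F.i 0, trivial⟩,
        fun Y hY _ hw u _ => hw.elim fun w g => h Y hY w u g⟩
    push Not at h
    obtain ⟨P, hP, u, v, h1, h2⟩ := h
    have : ∃ t, t < F.l ∧ t ∈ S.A ∧ S.z t ≠ 0 ∧ ¬ (P t (F.i t) ↔ P t (F.j t)) := by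
      by_contra hn
      push Not at hn
      exact h2 (hC P hP (Sep.mk' hn) u v h1)
    obtain ⟨c, c1, c2, c3, c4⟩ := this
    refine Or.inr ⟨c, c1, c2, c3, fun S' p => ih S' ?_ (p.lu hS) fun Y hY hs => ?_⟩
    · rw [p.hA, Finset.card_erase_of_mem c2]; omega
    · rw [p.hA] at hY
      have e := merge_iff hP c1 c2 c4 hY
      have hY' := hY.of_erase e
      exact hC Y hY' (p.sep_rev hY'.1 hs (propext e))

end Pool.Agent.Lib.MP_53bec5_ag
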