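import Pool.Agent.Lib.MP_53bec5_ag.Main
import Pool.Agent.Lib.MP_53bec5_ag.Conn

/-!
A point whose columns do not split along residue classes lies in a cluster torus.
-/

namespace Pool.Agent.Lib.MP_53bec5_ag

open Matrix

section torus

variable {R : Type} [CommRing R] {m N : ℕ}

theorem exists_torus' (hm : 0 < m) (v : ℕ → Fin (m + 1) → R)
    (hv : ∀ s, s ≤ N → IsUnit (Pl v fun c => c.val + s)) :
    ∃ (y co : ℕ → Fin (m + 1) → R) (W : ℕ → Rˣ),
      (∀ s, s ≤ N → ∀ row, ∑ c, co s c * v (s + m - c.val) row = v (s + (m + 1)) row) ∧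
      (∀ s c, ∃ u : R, co s c = u * y s c) ∧ ∀ i s, i ≤ m + 1 → s ≤ N →
      pm (prd (tF m N hm R) (tS m N y) 0 (m * s)) i * Pl v (fun c => c.val) * W (m + 1 + s - i) =
        Pl v (fun c => if c.val + i < m + 1 then c.val else c.val + s) * W (m + 1 + s) := by
  classical
  let Gm : ℕ → Matrix (Fin (m + 1)) (Fin (m + 1)) R := fun s =>
    Matrix.of fun row c => v (s + m - c.val) row
  have hG : ∀ s, s ≤ N → IsUnit (Gm s).det := by
    intro s hs
    have := det_rev v (fun c => c.val + s) (fun _ => 1)
    simp only [one_mul, Finset.prod_const_one] at this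
    have e : Gm s = Matrix.of fun row c => v (c.rev.val + s) row := by
      ext row c
      simp only [Gm, of_apply, Fin.val_rev]
      congr 1
      omega
    rw [e, this]
    exact (isUnit_sign _).mul (hv s hs)
  let co : ℕ → Fin (m + 1) → R := fun s => (Gm s)⁻¹ *ᵥ v (s + (m + 1))
  have hco : ∀ s, s ≤ N → ∀ row, ∑ c, co s c * v (s + m - c.val) row = v (s + (m + 1)) row := by
    intro s hs row
    have : Gm s *ᵥ co s = v (s + (m + 1)) := by
      simp only [co, mulVec_mulVec, mul_nonsing_inv _ (hG s hs), one_mulVec]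
    rw [← this]
    simp [mulVec, dotProduct, Gm, mul_comm]
  have hlast : ∀ s, ∃ u : Rˣ, s < N → (u : R) = co s (Fin.last m) := by
    intro s
    by_cases hs : s < N
    · have h1 := det_updateCol_sum (Gm s) (Fin.last m) (co s)
      have h2 : (Gm s).updateCol (Fin.last m) (fun k => ∑ i, co s i • Gm s k i) =
          (Gm (s + 1)).submatrix id (finRotate (m + 1)) := by
        ext row c
        by_cases hc : c = Fin.last m
        · subst hc
          rw [updateCol_self, submatrix_apply, finRotate_last]
          exact (hco s hs.le row).trans (by simp [Gm, add_assoc, add_comm 1])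
        · rw [updateCol_ne hc, submatrix_apply]
          simp only [Gm, of_apply, coe_finRotate_of_ne_last hc, id]
          congr 1
          omega
      rw [h2, det_permute', smul_eq_mul] at h1
      have h3 := (isUnit_sign (finRotate (m + 1))).mul (hG (s + 1) hs)
      rw [h1] at h3
      obtain ⟨u, hu⟩ := isUnit_of_mul_isUnit_left h3
      exact ⟨u, fun _ => hu⟩
    · exact ⟨1, fun h => absurd h hs⟩
  choose cu hcu using hlast
  obtain ⟨lam, l1, l2⟩ := exists_lam m (fun s => (-1) ^ m * (cu s)⁻¹)
  let ep : ℕ → Fin (m + 1) → Rˣ := fun s c => (-1) ^ c.val * lam (s + m - c.val)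
  let y : ℕ → Fin (m + 1) → R := fun s c => lam (s + (m + 1)) * co s c * ((ep s c)⁻¹ : Rˣ)
  let E : ℕ → Matrix (Fin (m + 1)) (Fin (m + 1)) R := fun s =>
    Matrix.of fun row c => ep s c * v (s + m - c.val) row
  have hy : ∀ s, s < N → y s (Fin.last m) = 1 := by
    intro s hs
    simp only [y, ep, ← hcu s hs, l2, ← Units.val_mul, Fin.val_last, Nat.add_sub_cancel,
      Units.val_eq_one]
    rw [mul_assoc (lam s), inv_mul_cancel_right, mul_comm (lam s), mul_inv_cancel]
  have main : ∀ s, s ≤ N → E 0 * prd (tF m N hm R) (tS m N y) 0 (m * s) = E s := by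
    intro s
    induction s with
    | zero => intro _; simp [prd]
    | succ s ih =>
      intro hs
      ext row c
      rw [mul_add, mul_one, block_prod hm y (E 0) (E s) hs (hy s hs) (ih (by omega)) m le_rfl,
        if_neg (by omega)]
      split_ifs with h
      · have e : c = 0 := Fin.ext (by simpa using h)
        simp only [Nat.le_add_left, if_true, e, E, of_apply, y]
        have : ∀ x, (lam (s + (m + 1)) : R) * co s x * ((ep s x)⁻¹ : Rˣ) *
            (ep s x * v (s + m - x.val) row) =
              lam (s + (m + 1)) * (co s x * v (s + m - x.val) row) := by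
          intro x
          linear_combination (lam (s + (m + 1)) * co s x * v (s + m - x.val) row) *
            (ep s x).inv_mul
        simp only [this, ← Finset.mul_sum, hco s (by omega)]
        simp [ep, add_assoc, add_comm 1]
      · obtain ⟨d, hd⟩ : ∃ d, c.val = d + 1 := ⟨c.val - 1, by omega⟩
        simp only [E, ep, of_apply, hd, Nat.add_sub_cancel,
          show s + 1 + m - (d + 1) = s + m - d by omega, pow_succ]
        simp
  refine ⟨y, co, fun j => ∏ a ∈ Finset.range j, lam a, hco, fun s c =>
    ⟨((lam (s + (m + 1)))⁻¹ : Rˣ) * ep s c, ?_⟩, fun i s hi hs => ?_⟩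
  · simp only [y]
    linear_combination (-(co s c) * ep s c * ((ep s c)⁻¹ : Rˣ)) * (lam (s + (m + 1))).inv_mul -
      co s c * (ep s c).mul_inv
  set P := prd (tF m N hm R) (tS m N y) 0 (m * s) with hP
  have h1 : (E 0).det * pm P i = (Matrix.of fun row c =>
      (((-1) ^ c.val * (if c.val < i then lam (s + m - c.val) else 1) : Rˣ) : R) *
        v ((fun c : Fin (m + 1) => if c.val + i < m + 1 then c.val else c.val + s) c.rev) row).det := by
    rw [← det_mix P i hi, ← det_mul]
    congr 1
    ext row c
    have := c.isLt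
    by_cases h : c.val < i
    · have e := congrFun (congrFun (main s hs) row) c
      simp only [Matrix.mul_apply, of_apply, if_pos h] at e ⊢
      rw [e, if_neg (by rw [Fin.val_rev]; omega)]
      simp only [E, ep, of_apply, Fin.val_rev]
      congr 2
      omega
    · have e := congrFun (congrFun (Matrix.mul_one (E 0)) row) c
      simp only [Matrix.mul_apply, of_apply, if_neg h] at e ⊢
      rw [e, if_pos (by rw [Fin.val_rev]; omega)]
      simp only [E, ep, of_apply, Fin.val_rev, l1 (0 + m - c.val) (by omega)]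
      congr 2
      omega
  have h2 : (E 0).det = (Matrix.of fun row c =>
      (((-1) ^ c.val : Rˣ) : R) * v ((fun c : Fin (m + 1) => c.val) c.rev) row).det := by
    congr 1
    ext row c
    simp only [E, ep, of_apply, Fin.val_rev, l1 (0 + m - c.val) (by omega), mul_one]
    congr 2
    omega
  have h3 : ∀ i, i ≤ m + 1 → (∏ a ∈ Finset.range i, lam (s + m - a)) *
      ∏ a ∈ Finset.range (m + 1 + s - i), lam a = ∏ a ∈ Finset.range (m + 1 + s), lam a := by
    intro i
    induction i with
    | zero => simp
    | succ i ih =>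
      intro h
      rw [← ih (by omega), show m + 1 + s - i = (m + 1 + s - (i + 1)) + 1 by omega,
        Finset.prod_range_succ, Finset.prod_range_succ,
        show m + 1 + s - (i + 1) = s + m - i by omega]
      ac_rfl
  have h4 : ∏ c : Fin (m + 1), (if c.val < i then lam (s + m - c.val) else 1) =
      ∏ a ∈ Finset.range i, lam (s + m - a) := by
    rw [Fin.prod_univ_eq_prod_range (fun a => if a < i then lam (s + m - a) else 1),
      ← Finset.prod_filter]
    congr 1
    ext a
    simp only [Finset.mem_filter, Finset.mem_range]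
    omega
  rw [h2, det_rev v (fun c => c.val),
    det_rev v (fun c => if c.val + i < m + 1 then c.val else c.val + s), ← Units.coe_prod,
    ← Units.coe_prod, Finset.prod_mul_distrib, h4] at h1
  simp only []
  rw [← h3 i hi]
  refine (isUnit_sign (R := R) (m := m) Fin.revPerm).mul_left_cancel
    ((Units.isUnit (∏ c : Fin (m + 1), (-1 : Rˣ) ^ c.val)).mul_left_cancel ?_)
  simp only [Units.val_mul] at h1 ⊢
  linear_combination (↑(∏ a ∈ Finset.range (m + 1 + s - i), lam a) : R) * h1

theorem torus_colour (hm : 0 < m) {F : Frame (m + 1) R} (hl : F.l = m * N)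
    (hi : ∀ t, (F.i t).val = tpos m t) {S : St R} (hA : S.A = Finset.range (m * N))
    {y : ℕ → Fin (m + 1) → R} (hz : ∀ t, S.z t = y (t / m) (F.i t)) {Y : Cls (m + 1)}
    (hYc : Compat F S.A Y) (hsep : Sep F S Y) :
    ∃ cl : ℕ → Prop, Function.Periodic cl (m + 1) ∧ Function.Periodic cl N ∧
      (∀ u : Fin (m + 1), Y 0 u = cl (m - u.val)) ∧
      ∀ s, s < N → ∀ c : Fin (m + 1), y s c ≠ 0 → cl (s + m - c.val) = cl s := by
  obtain ⟨hY, hc2⟩ := hYc
  rw [hA] at hY
  have b1 : ∀ s, s < N → ∀ r (hr : r ≤ m) (u : Fin (m + 1)),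
      Y (m * s + r) ⟨if u.val = m then m - r else if m ≤ u.val + r then u.val + 1 else u.val,
        by split_ifs <;> omega⟩ = Y (m * s) u := by
    intro s hs r
    induction r with
    | zero =>
      intro _ u
      congr 1
      ext
      simp only
      split_ifs <;> omega
    | succ r ih =>
      intro hr u
      have h1 := Nat.mul_le_mul_left m (show s + 1 ≤ N by omega)
      rw [mul_add] at h1
      rw [← ih (by omega) u, ← hY (m * s + r) (Nat.zero_le _) (by omega), ← add_assoc]
      congr 1
      have e1 := hi (m * s + r)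
      have e2 := F.hij (m * s + r)
      unfold tpos at e1
      rw [(dm_of (b := s) (show r < m by omega)).2] at e1
      rw [sw, if_pos (Finset.mem_range.mpr (by omega)), Equiv.swap_apply_def]
      simp only [Fin.ext_iff]
      split_ifs <;> first | omega | simp only []
  have b2 : ∀ s, s ≤ N → ∀ x : ℕ, Y (m * s) ⟨(x + s) % (m + 1), Nat.mod_lt _ (by omega)⟩ =
      Y 0 ⟨x % (m + 1), Nat.mod_lt _ (by omega)⟩ := by
    intro s
    induction s with
    | zero => intro _ _; rfl
    | succ s ih =>
      intro hs x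
      rw [← ih (by omega) x, ← b1 s hs m le_rfl, mul_add, mul_one]
      congr 1
      ext
      simp only [← add_assoc]
      rcases succ_dm (show 0 < m + 1 by omega) (x + s) with ⟨h1, -, h3⟩ | ⟨h1, -, h3⟩ <;> rw [h3] <;>
        split_ifs <;> omega
  have b3 : ∀ (c x : ℕ), Y 0 ⟨(x + N * c) % (m + 1), Nat.mod_lt _ (by omega)⟩ =
      Y 0 ⟨x % (m + 1), Nat.mod_lt _ (by omega)⟩ := by
    intro c
    induction c with
    | zero => intro _; rfl
    | succ c ih =>
      intro x
      rw [← ih x, ← b2 N le_rfl (x + N * c), ← hl, hc2]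
      simp only [mul_add, mul_one, add_assoc]
  have b4 : ∀ s, s ≤ N → ∀ c : Fin (m + 1), Y (m * s) c =
      Y 0 ⟨(m * (s + m - c.val + 1)) % (m + 1), Nat.mod_lt _ (by omega)⟩ := by
    intro s hs c
    rw [← b2 s hs]
    congr 1
    ext
    obtain ⟨d, hd⟩ : ∃ d, m = c.val + d := ⟨m - c.val, by omega⟩
    have e : m * (s + m - c.val + 1) + s = c.val + (m + 1) * (s + d) := by
      rw [show s + m - c.val = s + d by omega]
      generalize c.val = x at hd
      subst hd
      ring
    simp only [e, Nat.add_mul_mod_self_left, Nat.mod_eq_of_lt c.isLt]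
  refine ⟨fun j => Y 0 ⟨(m * (j + 1)) % (m + 1), Nat.mod_lt _ (by omega)⟩, fun j => ?_,
    fun j => ?_, fun u => ?_, fun s hs c hc => ?_⟩
  · simp only [show m * (j + (m + 1) + 1) = m * (j + 1) + (m + 1) * m by ring,
      Nat.add_mul_mod_self_left]
  · simp only [show m * (j + N + 1) = m * (j + 1) + N * m by ring]
    exact b3 m _
  · simpa using b4 0 (Nat.zero_le _) u
  · by_cases hcm : c.val = m
    · simp only [hcm, Nat.add_sub_cancel]
    have hcl := c.isLt
    have h1 := Nat.mul_le_mul_left m (show s + 1 ≤ N by omega)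
    rw [mul_add] at h1
    have hd := dm_of (b := s) (show m - 1 - c.val < m by omega)
    have e1 := hi (m * s + (m - 1 - c.val))
    have e2 := F.hij (m * s + (m - 1 - c.val))
    unfold tpos at e1
    rw [hd.2] at e1
    have ei : F.i (m * s + (m - 1 - c.val)) = c := Fin.ext (by omega)
    have e3 : Y _ _ = Y _ _ := hsep (m * s + (m - 1 - c.val)) (by omega)
      (by rw [hA, Finset.mem_range]; omega) (by rw [hz, hd.1, ei]; exact hc)
    have e4 := b1 s hs (m - 1 - c.val) (by omega) c
    have e5 := b1 s hs (m - 1 - c.val) (by omega) (Fin.last m)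
    have e6 := b4 s hs.le (Fin.last m)
    simp only [Fin.val_last, Nat.add_sub_cancel] at e6
    beta_reduce
    rw [← e6, ← b4 s hs.le c, ← e4, ← e5]
    convert e3 using 2
    · ext
      simp only []
      split_ifs <;> omega
    · ext
      simp only [Fin.val_last, if_true]
      omega

theorem disjoint_colour {K : Type} [Field K] (w : ℕ → Fin (m + 1) → K) {cl : ℕ → Prop}
    (hp : Function.Periodic cl (m + 1)) (co : ℕ → Fin (m + 1) → K)
    (hco : ∀ s, s < N → ∀ row, ∑ c, co s c * w (s + m - c.val) row = w (s + (m + 1)) row)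
    (hc : ∀ s, s < N → ∀ c, co s c ≠ 0 → cl (s + m - c.val) = cl s)
    (h0 : Pl w (fun c => c.val) ≠ 0) :
    Disjoint (Submodule.span K (w '' {j | j < N + (m + 1) ∧ cl j}))
      (Submodule.span K (w '' {j | j < N + (m + 1) ∧ ¬ cl j})) := by
  have key : ∀ (b : Prop) (j : ℕ), j < N + (m + 1) → cl j = b →
      w j ∈ Submodule.span K ((fun c : Fin (m + 1) => w c.val) '' {c | cl c.val = b}) := by
    intro b j
    induction j using Nat.strong_induction_on with
    | _ j ih =>
      intro hj hb
      by_cases h : j < m + 1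
      · exact Submodule.subset_span ⟨⟨j, h⟩, hb, rfl⟩
      obtain ⟨s, rfl⟩ : ∃ s, j = s + (m + 1) := ⟨j - (m + 1), by omega⟩
      have e : w (s + (m + 1)) = ∑ c, co s c • w (s + m - c.val) := by
        funext row
        rw [← hco s (by omega) row]
        simp
      rw [e]
      refine Submodule.sum_mem _ fun c _ => ?_
      by_cases hz : co s c = 0
      · rw [hz, zero_smul]; exact Submodule.zero_mem _
      · exact Submodule.smul_mem _ _ (ih _ (by omega) (by omega)
          (by rw [hc s (by omega) c hz, ← hp s, hb]))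
  have li : LinearIndependent K (fun c : Fin (m + 1) => w c.val) :=
    linearIndependent_cols_of_det_ne_zero h0
  refine (li.disjoint_span_image (s := {c | cl c.val = True}) (t := {c | cl c.val = False})
    ?_).mono (Submodule.span_le.mpr ?_) (Submodule.span_le.mpr ?_)
  · rw [Set.disjoint_left]
    intro c h1 h2
    exact (h1.symm.trans h2).mp trivial
  · rintro _ ⟨j, hj, rfl⟩
    exact key _ j hj.1 (eq_true hj.2)
  · rintro _ ⟨j, hj, rfl⟩
    exact key _ j hj.1 (eq_false hj.2)

theorem periodic_gcd {α : Type} {f : ℕ → α} (a b : ℕ) (ha : Function.Periodic f a)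
    (hb : Function.Periodic f b) : Function.Periodic f (Nat.gcd a b) := by
  induction a, b using Nat.gcd.induction with
  | H0 b => simpa using hb
  | H1 a b _ ih =>
    rw [Nat.gcd_rec]
    refine ih (fun x => ?_) ha
    rw [← (ha.nat_mul (b / a)) (x + b % a), ← hb x, add_assoc, Nat.cast_id, mul_comm,
      Nat.mod_add_div]

end torus

/-- The columns of `M` do not split along a proper set of residue classes mod `gcd(k,n)`. -/
def NoSplit {k n : ℕ} (M : Matrix (Fin k) (Fin n) ℂ) : Prop :=
  ∀ S : Set (ZMod (Nat.gcd k n)),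
    Disjoint (Submodule.span ℂ (M.col '' {j | (j.val : ZMod (Nat.gcd k n)) ∈ S}))
      (Submodule.span ℂ (M.col '' {j | (j.val : ZMod (Nat.gcd k n)) ∉ S})) →
    S = ∅ ∨ S = Set.univ

theorem deep_succ {m n : ℕ} (hm : 0 < m) (hkn : m + 1 < n)
    (M : Matrix (Fin (m + 1)) (Fin n) ℂ) (hM : InTopPositroid hkn M) (hN : NoSplit M) :
    ∃ s, Reach IsMutable (rectSeed hkn) s ∧ ∀ v, NonvanishingAt M (s.x v) := by
  obtain ⟨R, _, α, ψ, φ, h1, h2, h3, h4⟩ := exists_local M
  let v : ℕ → Fin (m + 1) → R := fun j row =>
    if h : j < n then α (MvPolynomial.X (row, ⟨j, h⟩)) else 0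
  have hPl : ∀ c : Fin (m + 1) → Fin n, Pl v (fun x => (c x).val) = α (plucker c) := by
    intro c
    unfold Pl plucker
    rw [RingHom.map_det]
    congr 1
    ext r j
    simp [v]
  have hw : ∀ i s, i ≤ m + 1 → s ≤ n - (m + 1) →
      Pl v (fun c => if c.val + i < m + 1 then c.val else c.val + s) =
        α (plucker (columns hkn (wv m n i s))) := by
    intro i s hi hs
    rw [← hPl]
    simp only [columns_wv hkn hi hs]
  have h0 : Pl v (fun c => c.val) = α (plucker (columns hkn none)) :=
    hPl (columns hkn none)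
  have hfr : ∀ u, ¬ IsMutable u → IsUnit (α (plucker (columns hkn u))) :=
    fun u hu => h3 _ (by rw [h2]; exact frozen_ne hkn hM u hu)
  have fr : ∀ i s, i = m + 1 ∨ s = n - (m + 1) → ¬ IsMutable (wv m n i s) := by
    intro i s h
    unfold wv
    split_ifs with g
    · simp only [IsMutable]; omega
    · exact fun h => h
  obtain ⟨y, co, W, hco, hcy, hy⟩ := exists_torus' (N := n - (m + 1)) hm v (fun s hs => by
    have := hw (m + 1) s le_rfl hs
    simp only [show ∀ c : Fin (m + 1), ¬ (c.val + (m + 1) < m + 1) from fun c => by omega,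
      if_false] at this
    rw [this]
    exact hfr _ (fr _ _ (Or.inl rfl)))
  have hG : ∀ u : Rˣ, (ctx hkn M).G (ψ u) := h4
  have one := isG_one (N := n - (m + 1)) hm y
  refine red_seed (ctx hkn M) ψ hG φ h3 (tF m (n - (m + 1)) hm R) (m * (n - (m + 1)))
    (tS m (n - (m + 1)) y) _ _ one one ?_ ?_
  · refine red_conn _ _ (by simp [St.map, tS]) (fun s => ?_) ?_
    · rw [prd_map, pm_map]
      by_cases hs : s ≤ m + 1
      · have e := hy s _ hs le_rfl
        rw [hw s _ hs le_rfl] at e
        have u := (hfr _ (fr s _ (Or.inr rfl))).mul (W (m + 1 + (n - (m + 1)))).isUnit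
        rw [← e, mul_assoc] at u
        exact ((isUnit_of_mul_isUnit_left u).map φ).ne_zero
      · rw [pm_big _ (by omega), map_one]; exact one_ne_zero
    · intro Y hY hs
      obtain ⟨cl, p1, p2, p3, p4⟩ := torus_colour (N := n - (m + 1)) hm rfl (fun _ => rfl) rfl
        (y := fun s c => φ (y s c)) (fun _ => rfl) hY hs
      have hd := disjoint_colour (N := n - (m + 1)) (fun j row => φ (v j row)) p1
        (fun s c => φ (co s c)) (fun s hs row => by
          rw [← hco s hs.le row, map_sum]; simp only [map_mul])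
        (fun s hs c hc => p4 s hs c fun h0 => hc (by
          obtain ⟨u, hu⟩ := hcy s c
          rw [hu, map_mul, h0, mul_zero]))
        (by
          have := ((hfr none fun h => h).map φ).ne_zero
          rw [← h0, Pl, RingHom.map_det] at this
          exact this)
      have p5 := periodic_gcd _ _ p1 p2
      rw [Nat.gcd_sub_self_right hkn.le] at p5
      have hmem : ∀ j : ℕ, (j : ZMod (Nat.gcd (m + 1) n)) ∈
          {a : ZMod (Nat.gcd (m + 1) n) | cl a.val} ↔ cl j := fun j => by
        rw [Set.mem_ofPred_eq, ZMod.val_natCast, p5.map_mod_nat]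
      have hcol : ∀ j : Fin n, M.col j = fun row => φ (v j.val row) := fun j => by
        funext row
        simp [v, h2, evM]
      have hS := hN {a | cl a.val} (hd.mono (Submodule.span_mono ?_) (Submodule.span_mono ?_))
      · intro a b ha
        rw [p3] at ha ⊢
        rcases hS with g | g
        · rw [← hmem, g] at ha; exact ha.elim
        · rw [← hmem, g]; trivial
      · rintro _ ⟨j, hj, rfl⟩
        exact ⟨j.val, ⟨by omega, (hmem _).mp hj⟩, (hcol j).symm⟩
      · rintro _ ⟨j, hj, rfl⟩
        exact ⟨j.val, ⟨by omega, fun g => hj ((hmem _).mpr g)⟩, (hcol j).symm⟩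
  · refine sg_init hm hkn (ctx hkn M) rfl rfl (grid_Vf (ctx hkn M) ψ hG one one)
      (fun j => ψ (W j)) (fun j => hG _) (fun s β hs hb => ?_) (frozen_G hkn hM)
    have e := congrArg ψ (hy s β hs hb)
    rw [hw s β hs hb, h0] at e
    simp only [map_mul, h1] at e
    have n1 := (ctx hkn M).G_ne (hG (W (m + 1 + β - s)))
    have n2 := (ctx hkn M).G_ne (frozen_G hkn hM none fun h => h)
    refine (eq_div_iff (mul_ne_zero n1 n2)).mpr ?_
    simp only [Vf, Hm, dg, ctx, rectSeed, inv_one, Pi.one_apply, Units.val_one, diagonal_one,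
      one_mul, mul_one]
    rw [← e]
    ring

theorem torus_of_noSplit {k n : ℕ} (hk : 1 ≤ k) (hkn : k < n)
    (M : Matrix (Fin k) (Fin n) ℂ) (hM : InTopPositroid hkn M) (hN : NoSplit M) :
    ∃ s, Reach IsMutable (rectSeed hkn) s ∧ ∀ v, NonvanishingAt M (s.x v) := by
  obtain ⟨m, rfl⟩ : ∃ m, k = m + 1 := ⟨k - 1, by omega⟩
  rcases Nat.eq_zero_or_pos m with h | h
  · refine ⟨_, Relation.ReflTransGen.refl, fun v => frozen_G hkn hM v ?_⟩
    rcases v with _ | ⟨a, b⟩
    · exact fun h => h
    · simp only [IsMutable]; omega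
  · exact deep_succ h hkn M hM hN

end Pool.Agent.Lib.MP_53bec5_ag
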