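import Mathlib

/-!
Seeds of geometric type, mutation, and the rectangles seed of the Grassmannian Gr(k,n).
-/

namespace Pool.Agent.Lib.MP_53bec5_ag

/-- A labelled seed of geometric type in a field `K`: the extended cluster `x` (cluster and
frozen variables) and the signed adjacency matrix `B` of the quiver
(`B u v` = number of arrows `u → v` minus number of arrows `v → u`). -/
structure Seed (ι : Type) (K : Type) where
  x : ι → K
  B : ι → ι → ℤ

/-- Fomin-Zelevinsky mutation of a seed in direction `j`. -/
noncomputable def Seed.mutate {ι K : Type} [Fintype ι] [DecidableEq ι] [Field K]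
    (s : Seed ι K) (j : ι) : Seed ι K where
  x u := if u = j then
      ((∏ v, s.x v ^ (s.B v j).toNat) + ∏ v, s.x v ^ (-s.B v j).toNat) / s.x j
    else s.x u
  B u v := if u = j ∨ v = j then -s.B u v
    else s.B u v + max (s.B u j) 0 * max (s.B j v) 0 - max (-s.B u j) 0 * max (-s.B j v) 0

/-- `s` is obtained from `s₀` by a finite sequence of mutations at mutable vertices. -/
def Reach {ι K : Type} [Fintype ι] [DecidableEq ι] [Field K]
    (isMutable : ι → Prop) (s₀ s : Seed ι K) : Prop :=
  Relation.ReflTransGen (fun a b : Seed ι K => ∃ j, isMutable j ∧ b = a.mutate j) s₀ s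

/-- Polynomial functions on complex `k × n` matrices. -/
abbrev Coord (k n : ℕ) : Type := MvPolynomial (Fin k × Fin n) ℂ

/-- Rational functions on complex `k × n` matrices. -/
abbrev RatFn (k n : ℕ) : Type := FractionRing (Coord k n)

/-- The Plücker coordinate of the columns `c 0, …, c (k-1)` of the generic `k × n` matrix. -/
noncomputable def plucker {k n : ℕ} (c : Fin k → Fin n) : Coord k n :=
  (Matrix.of fun r j : Fin k => (MvPolynomial.X (r, c j) : Coord k n)).det

/-- Vertices of the rectangles quiver: `none` is the empty rectangle and `some (a, b)` is the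
`(a+1) × (b+1)` rectangle. -/
abbrev Vertex (k n : ℕ) : Type := Option (Fin k × Fin (n - k))

/-- The columns (numbered from `0`) of the Plücker coordinate attached to a vertex: the first `k`
columns for the empty rectangle, and `{0, …, k-a-2} ∪ {k-a+b, …, k+b}` for the
`(a+1) × (b+1)` rectangle. -/
def columns {k n : ℕ} (hkn : k < n) : Vertex k n → Fin k → Fin n
  | none, j => ⟨j, by omega⟩
  | some (a, b), j =>
      if j.val + a.val + 1 < k then ⟨j, by omega⟩ else ⟨j.val + b.val + 1, by omega⟩

/-- Arrows of the rectangles quiver. -/
def Arrow {k n : ℕ} : Vertex k n → Vertex k n → Prop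
  | none, some (a, b) => a.val = 0 ∧ b.val = 0
  | some (a, b), some (a', b') =>
      (a'.val = a.val ∧ b'.val = b.val + 1) ∨ (a'.val = a.val + 1 ∧ b'.val = b.val) ∨
        (a.val = a'.val + 1 ∧ b.val = b'.val + 1)
  | _, none => False

/-- Mutable vertices: all but the `n` vertices carrying the cyclic-interval Plücker
coordinates. -/
def IsMutable {k n : ℕ} : Vertex k n → Prop
  | none => False
  | some (a, b) => a.val + 1 < k ∧ b.val + 1 < n - k

open Classical in
/-- The rectangles seed of Scott's cluster structure on the Grassmannian `Gr(k,n)`. -/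
noncomputable def rectSeed {k n : ℕ} (hkn : k < n) : Seed (Vertex k n) (RatFn k n) where
  x v := algebraMap (Coord k n) (RatFn k n) (plucker (columns hkn v))
  B u v := (if Arrow u v then 1 else 0) - (if Arrow v u then 1 else 0)

/-- The rational function `x` is regular and non-zero at the matrix `M`. -/
def NonvanishingAt {k n : ℕ} (M : Matrix (Fin k) (Fin n) ℂ) (x : RatFn k n) : Prop :=
  ∃ f g : Coord k n,
    MvPolynomial.eval (fun p => M p.1 p.2) f ≠ 0 ∧ MvPolynomial.eval (fun p => M p.1 p.2) g ≠ 0 ∧
      x = algebraMap (Coord k n) (RatFn k n) f / algebraMap (Coord k n) (RatFn k n) g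

/-- The row span of `M` lies in the open top positroid variety: the `n` cyclically consecutive
maximal minors of `M` are non-zero. -/
def InTopPositroid {k n : ℕ} (hkn : k < n) (M : Matrix (Fin k) (Fin n) ℂ) : Prop :=
  ∀ i : Fin n,
    (M.submatrix id (fun j : Fin k => (⟨(i.val + j.val) % n, Nat.mod_lt _ (by omega)⟩ : Fin n))).det
      ≠ 0

end Pool.Agent.Lib.MP_53bec5_ag
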