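import Pool.Agent.Lib.MP_53bec5_ag.Blk

/-!
Identities between leading principal minors.
-/

namespace Pool.Agent.Lib.MP_53bec5_ag

open Matrix

variable {k : ℕ} {R : Type} [CommRing R]

theorem pm_mul_lower {i j : Fin k} (hij : j.val = i.val + 1) (M : Matrix (Fin k) (Fin k) R)
    (c : R) {s : ℕ} (hs : s ≠ i.val + 1) : pm (M * blk i j 1 0 c 1) s = pm M s := by
  have hlt : i < j := by rw [Fin.lt_def]; omega
  rw [pm_mul_of_block, ← pm_transpose (blk i j 1 0 c 1), blk_transpose hlt.ne,
    pm_UT (UT.blk hlt c), mul_one]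
  intro u v h1 h2
  have huv : u ≠ v := fun e => by rw [e] at h2; omega
  unfold blk
  by_cases a1 : u = i
  · have : v ≠ i := fun e => huv (a1.trans e.symm)
    simp [a1, this]
  · by_cases a2 : u = j
    · have b1 : v ≠ i := fun e => by rw [e] at h1; rw [a2] at h2; omega
      have b2 : v ≠ j := fun e => huv (a2.trans e.symm)
      simp [a2, b1, b2]
    · simp [a1, a2, huv]

theorem pm_mul_B {i j : Fin k} (hij : j.val = i.val + 1) (M : Matrix (Fin k) (Fin k) R)
    (z : R) {s : ℕ} (hs : s ≠ i.val + 1) : pm (M * blk i j z (-1) 1 0) s = pm M s := by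
  have hlt : i < j := by rw [Fin.lt_def]; omega
  have e : blk i j z (-1) 1 0 = blk i j 1 (z - 1) 0 1 * blk i j 1 0 1 1 * blk i j 1 (-1) 0 1 := by
    rw [blk_mul_blk hlt.ne, blk_mul_blk hlt.ne]
    congr 1 <;> ring
  rw [e, ← mul_assoc, ← mul_assoc, pm_mul_UT _ (UT.blk hlt _), pm_mul_lower hij _ _ hs,
    pm_mul_UT _ (UT.blk hlt _)]

theorem pm_B_mul {i j : Fin k} (hij : j.val = i.val + 1) (M : Matrix (Fin k) (Fin k) R)
    (z : R) {s : ℕ} (hs : s ≠ i.val + 1) : pm (blk i j z (-1) 1 0 * M) s = pm M s := by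
  have hlt : i < j := by rw [Fin.lt_def]; omega
  have e : blk i j z 1 (-1) 0 =
      blk i j 1 (1 - z) 0 1 * blk i j 1 0 (-1) 1 * blk i j 1 1 0 1 := by
    rw [blk_mul_blk hlt.ne, blk_mul_blk hlt.ne]
    congr 1 <;> ring
  rw [← pm_transpose, transpose_mul, blk_transpose hlt.ne, e, ← mul_assoc, ← mul_assoc,
    pm_mul_UT _ (UT.blk hlt _), pm_mul_lower hij _ _ hs, pm_mul_UT _ (UT.blk hlt _), pm_transpose]

theorem pm_succ_of_col (M : Matrix (Fin k) (Fin k) R) (u : Fin k)
    (h : ∀ v, v < u → M v u = 0) : pm M (u.val + 1) = pm M u.val * M u u := by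
  have h1 : u.val + 1 ≤ k := u.isLt
  unfold pm
  rw [dif_pos h1, dif_pos u.isLt.le, det_succ_column _ (Fin.last u.val), Finset.sum_eq_single
    (Fin.last u.val)]
  · have e : Fin.castLE h1 (Fin.last u.val) = u := Fin.ext rfl
    simp only [submatrix_apply, e, Fin.succAbove_last, submatrix_submatrix]
    rw [← two_mul, pow_mul]
    simp only [even_two, Even.neg_pow, one_pow, one_mul]
    rw [mul_comm]
    rfl
  · intro b _ hb
    have e : Fin.castLE h1 (Fin.last u.val) = u := Fin.ext rfl
    rw [submatrix_apply, e, h, mul_zero, zero_mul]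
    rw [Fin.lt_def]
    have := Fin.val_ne_of_ne hb
    have := b.isLt
    simp only [Fin.val_last, Fin.val_castLE] at *
    omega
  · simp

theorem pm_full (M : Matrix (Fin k) (Fin k) R) : pm M k = M.det := by
  unfold pm
  rw [dif_pos le_rfl]
  rfl

theorem pm_big (M : Matrix (Fin k) (Fin k) R) {s : ℕ} (h : k < s) : pm M s = 1 := by
  unfold pm
  rw [dif_neg (by omega)]

theorem pm_congr {M N : Matrix (Fin k) (Fin k) R} {s : ℕ}
    (h : ∀ u v : Fin k, u.val < s → v.val < s → M u v = N u v) : pm M s = pm N s := by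
  unfold pm
  split_ifs with hs
  · congr 1
    ext a b
    exact h _ _ a.isLt b.isLt
  · rfl

theorem pm_mul_diag (M : Matrix (Fin k) (Fin k) R) (d : Fin k → R) (s : ℕ) :
    pm (M * diagonal d) s = pm M s * pm (diagonal d) s :=
  pm_mul_of_block _ _ _ fun c b h1 h2 => diagonal_apply_ne _ (fun e => by rw [e] at h2; omega)

theorem pm_diag_mul (M : Matrix (Fin k) (Fin k) R) (d : Fin k → R) (s : ℕ) :
    pm (diagonal d * M) s = pm (diagonal d) s * pm M s := by
  rw [← pm_transpose, transpose_mul, diagonal_transpose, pm_mul_diag, pm_transpose, mul_comm]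

theorem pm_diag_succ (d : Fin k → R) (u : Fin k) :
    pm (diagonal d) (u.val + 1) = pm (diagonal d) u.val * d u := by
  rw [pm_succ_of_col _ _ fun v hv => diagonal_apply_ne _ hv.ne, diagonal_apply_eq]

theorem isUnit_pm_diag {d : Fin k → R} (h : ∀ u, IsUnit (d u)) (s : ℕ) :
    IsUnit (pm (diagonal d) s) := by
  induction s with
  | zero => rw [pm_zero]; exact isUnit_one
  | succ s ih =>
    by_cases hs : s < k
    · rw [pm_diag_succ d ⟨s, hs⟩]; exact ih.mul (h _)
    · rw [pm_big _ (by omega)]; exact isUnit_one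

/-- Determinant of a matrix whose last columns are those of the identity matrix. -/
theorem det_mix (P : Matrix (Fin k) (Fin k) R) (s : ℕ) (hs : s ≤ k) :
    (Matrix.of fun u v : Fin k => if v.val < s then P u v else (1 : Matrix (Fin k) (Fin k) R) u v).det
      = pm P s := by
  set Q : Matrix (Fin k) (Fin k) R :=
    Matrix.of fun u v : Fin k => if v.val < s then P u v else (1 : Matrix (Fin k) (Fin k) R) u v
    with hQ
  have key : ∀ n, s + n ≤ k → pm Q (s + n) = pm P s := by
    intro n
    induction n with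
    | zero => intro _; exact pm_congr fun u v _ hv => by simp [hQ, show v.val < s from hv]
    | succ n ih =>
      intro h
      have := pm_succ_of_col Q ⟨s + n, by omega⟩ (fun v hv => by
        simp [hQ, one_apply_ne hv.ne])
      simp only at this
      rw [← add_assoc, this, ih (by omega)]
      simp [hQ]
  have := key (k - s) (by omega)
  rwa [show s + (k - s) = k by omega, pm_full] at this

section schur

variable {K : Type} [Field K]

/-- Entry of the Schur complement of the leading block of size `s`. -/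
noncomputable def sch {s : ℕ} (h : s ≤ k) (Ai : Matrix (Fin s) (Fin s) K)
    (M : Matrix (Fin k) (Fin k) K) (u v : Fin k) : K :=
  M u v - ∑ y, (∑ x, M u (Fin.castLE h x) * Ai x y) * M (Fin.castLE h y) v

theorem pm_add {s n : ℕ} (h : s + n ≤ k) (M : Matrix (Fin k) (Fin k) K) (h0 : pm M s ≠ 0) :
    pm M (s + n) = pm M s * (Matrix.of fun a b : Fin n =>
      sch (by omega : s ≤ k) (M.submatrix (Fin.castLE (by omega)) (Fin.castLE (by omega)))⁻¹ M
        ⟨s + a.val, by omega⟩ ⟨s + b.val, by omega⟩).det := by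
  have hs : s ≤ k := by omega
  unfold pm at h0 ⊢
  rw [dif_pos hs] at h0 ⊢
  rw [dif_pos h, ← det_submatrix_equiv_self finSumFinEquiv]
  let _ := invertibleOfIsUnitDet _ (Ne.isUnit h0)
  have e : (M.submatrix (Fin.castLE h) (Fin.castLE h)).submatrix finSumFinEquiv finSumFinEquiv =
      fromBlocks (M.submatrix (Fin.castLE hs) (Fin.castLE hs))
        (M.submatrix (Fin.castLE hs) (fun b : Fin n => ⟨s + b.val, by omega⟩))
        (M.submatrix (fun b : Fin n => ⟨s + b.val, by omega⟩) (Fin.castLE hs))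
        (M.submatrix (fun b : Fin n => ⟨s + b.val, by omega⟩)
          (fun b : Fin n => ⟨s + b.val, by omega⟩)) := by
    ext (a | a) (b | b) <;> rfl
  rw [e, det_fromBlocks₁₁, invOf_eq_nonsing_inv]
  congr 2

/-- The exchange relation between the minors of `M`, `M B`, `T M` and `T M B`. -/
theorem exchange {i j : Fin k} (hij : j.val = i.val + 1) (M : Matrix (Fin k) (Fin k) K)
    (w z : K) (h0 : pm M i.val ≠ 0) :
    pm (M * blk i j z (-1) 1 0) (i.val + 1) * pm (blk i j w (-1) 1 0 * M) (i.val + 1) =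
      pm M (i.val + 1) * pm (blk i j w (-1) 1 0 * M * blk i j z (-1) 1 0) (i.val + 1) +
        pm M i.val * pm M (i.val + 2) := by
  have hlt : i < j := by rw [Fin.lt_def]; omega
  have hne := hlt.ne
  have hi : i.val ≤ k := i.isLt.le
  have c1 : ∀ x : Fin i.val, Fin.castLE hi x ≠ i := fun x e => by
    have := congrArg Fin.val e; have := x.isLt; simp at *; omega
  have c2 : ∀ x : Fin i.val, Fin.castLE hi x ≠ j := fun x e => by
    have := congrArg Fin.val e; have := x.isLt; simp at *; omega
  have sR : ∀ N : Matrix (Fin k) (Fin k) K,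
      (N * blk i j z (-1) 1 0).submatrix (Fin.castLE hi) (Fin.castLE hi) =
        N.submatrix (Fin.castLE hi) (Fin.castLE hi) := fun N => by
    ext a b; simp [mul_blk hne, c1, c2]
  have sL : ∀ N : Matrix (Fin k) (Fin k) K,
      (blk i j w (-1) 1 0 * N).submatrix (Fin.castLE hi) (Fin.castLE hi) =
        N.submatrix (Fin.castLE hi) (Fin.castLE hi) := fun N => by
    ext a b; simp [blk_mul hne, c1, c2]
  have tR : ∀ (Ai : Matrix (Fin i.val) (Fin i.val) K) (N : Matrix (Fin k) (Fin k) K) (u : Fin k),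
      sch hi Ai (N * blk i j z (-1) 1 0) u i = sch hi Ai N u i * z + sch hi Ai N u j := by
    intro Ai N u
    simp only [sch, mul_blk hne, c1, c2, if_true, if_false, mul_one, mul_add,
      Finset.sum_add_distrib, sub_mul, ← mul_assoc, ← Finset.sum_mul]
    ring
  have tL : ∀ (Ai : Matrix (Fin i.val) (Fin i.val) K) (N : Matrix (Fin k) (Fin k) K) (v : Fin k),
      sch hi Ai (blk i j w (-1) 1 0 * N) i v = w * sch hi Ai N i v - sch hi Ai N j v := by
    intro Ai N v
    simp only [sch, blk_mul hne, c1, c2, if_true, if_false, add_mul, mul_assoc,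
      Finset.sum_add_distrib, mul_sub, ← Finset.mul_sum]
    ring
  have one : ∀ N : Matrix (Fin k) (Fin k) K, pm N i.val ≠ 0 → pm N (i.val + 1) =
      pm N i.val * sch hi (N.submatrix (Fin.castLE hi) (Fin.castLE hi))⁻¹ N i i := by
    intro N hN
    rw [pm_add i.isLt N hN, det_unique]
    rfl
  have two := pm_add (show i.val + 2 ≤ k by have := j.isLt; omega) M h0
  rw [det_fin_two] at two
  have ej : (⟨i.val + 1, by omega⟩ : Fin k) = j := Fin.ext hij.symm
  simp only [of_apply, Fin.val_zero, Fin.val_one, add_zero, Fin.eta, ej] at two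
  have n1 : i.val ≠ i.val + 1 := by omega
  have p1 := pm_mul_B hij M z n1
  have p2 := pm_B_mul hij M w n1
  have p3 := (pm_mul_B hij (blk i j w (-1) 1 0 * M) z n1).trans p2
  rw [one _ (p1.trans_ne h0), one _ (p2.trans_ne h0), one _ (p3.trans_ne h0), one _ h0, two, p1, p2, p3, sR, sR, sL,
    tR, tR, tL, tL]
  ring

end schur

end Pool.Agent.Lib.MP_53bec5_ag
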