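import Pool.Agent.Lib.MP_53bec5_ag.Comb2

/-!
A knot braid word can be emptied by successive pinches of non-zero chords.
-/

namespace Pool.Agent.Lib.MP_53bec5_ag

open Matrix

variable {k : ℕ} {K : Type} [Field K] {F : Frame k K}

/-- The word can be emptied by at most `n` pinches of non-zero chords. -/
def Red (F : Frame k K) : ℕ → St K → Prop
  | 0, S => ∀ t, t < F.l → t ∉ S.A
  | n + 1, S => (∀ t, t < F.l → t ∉ S.A) ∨
      ∃ c, c < F.l ∧ c ∈ S.A ∧ S.z c ≠ 0 ∧ ∀ S', Pinch F S c S' → Red F n S'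

theorem Min.erase {A : Finset ℕ} {X : Cls k} {c : ℕ} (h : Min F A X) (hc : c < F.l)
    (h1 : ¬ X c (F.i c)) (h2 : ¬ X c (F.j c)) : Min F (A.erase c) X := by
  have hX : Compat F (A.erase c) X := h.compat.erase (iff_of_false h1 h2)
  refine ⟨hX, h.ne, fun Y hY hsub hne => h.min Y (hY.of_erase ?_) hsub hne⟩
  have := hX.1.sub hY.1 (Nat.zero_le _) hsub c hc.le
  exact iff_of_false (fun g => h1 (this _ g)) (fun g => h2 (this _ g))

def Cox (F : Frame k K) (A : Finset ℕ) : Prop :=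
  ∀ t, t < F.l → t ∈ A → ∃ W, Min F A W ∧ XX F A W t ∧ Cnt F A W < sz W 0

theorem Cox.iff {A : Finset ℕ} (h : Cox F A) {W : Cls k} (hW : Min F A W) {t : ℕ} (ht : t < F.l)
    (hA : t ∈ A) : W t (F.i t) ↔ W t (F.j t) := by
  obtain ⟨V, m, x, -⟩ := h t ht hA
  exact ⟨fun g => m.sub hW.compat ht.le x.2.1 g t ht.le _ x.2.2,
    fun g => m.sub hW.compat ht.le x.2.2 g t ht.le _ x.2.1⟩

theorem Cox.erase {A : Finset ℕ} (h : Cox F A) {c : ℕ} (hc : c < F.l) (hA : c ∈ A) :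
    Cox F (A.erase c) := by
  intro t ht hm
  obtain ⟨W, m, x, n⟩ := h t ht (Finset.mem_of_mem_erase hm)
  have e := h.iff m hc hA
  by_cases hW : W c (F.i c)
  · obtain ⟨P, Q, s⟩ := exists_split m hc ⟨hA, hW, e.mp hW⟩
    have e1 := s.cnt hc hA
    have e2 := s.du.sz_eq (Nat.zero_le F.l)
    have e3 := s.hP.lb
    have e4 := s.hQ.lb
    have b := not_mix_of_cnt (show CntMix F (A.erase c) P Q = 0 by omega) ht
    rcases (s.du.union t ht.le _).mp x.2.1 with a1 | a1 <;>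
      rcases (s.du.union t ht.le _).mp x.2.2 with a2 | a2
    · exact ⟨P, s.hP, ⟨hm, a1, a2⟩, by omega⟩
    · exact absurd ⟨hm, Or.inl ⟨a1, a2⟩⟩ b
    · exact absurd ⟨hm, Or.inr ⟨a2, a1⟩⟩ b
    · exact ⟨Q, s.hQ, ⟨hm, a1, a2⟩, by omega⟩
  · refine ⟨W, m.erase hc hW (fun g => hW (e.mpr g)), ⟨hm, x.2⟩, ?_⟩
    rw [cnt_erase_of_not (fun g => hW g.2.1)]; exact n

theorem red_cox : ∀ (n : ℕ) (S : St K), S.A.card ≤ n → LU F S → Cox F S.A → Red F n S := by
  intro n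
  induction n with
  | zero =>
    intro S hA _ _ t _
    rw [Nat.le_zero, Finset.card_eq_zero] at hA
    simp [hA]
  | succ n ih =>
    intro S hA hS hC
    by_cases h : ∀ t, t < F.l → t ∉ S.A
    · exact Or.inl h
    push Not at h
    obtain ⟨c, c1, c2⟩ := h
    obtain ⟨W, m, x, cn⟩ := hC c c1 c2
    refine Or.inr ⟨c, c1, c2, coxeter _ S W rfl m (Sep.mk' fun t ht hA _ => hC.iff m ht hA) hS cn
      c c1 x, fun S' p => ih S' ?_ (p.lu hS) (p.hA ▸ hC.erase c1 c2)⟩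
    rw [p.hA, Finset.card_erase_of_mem c2]; omega

theorem red_knot : ∀ (n : ℕ) (S : St K), S.A.card ≤ n → LU F S →
    Min F S.A (fun _ _ => True) → Red F n S := by
  intro n
  induction n using Nat.strong_induction_on with
  | _ n ih =>
    intro S hA hS hM
    by_cases h : Cnt F S.A (fun _ _ => True) < sz (fun _ _ => True : Cls k) 0
    · exact red_cox n S hA hS fun t ht hm => ⟨_, hM, ⟨hm, trivial, trivial⟩, h⟩
    obtain ⟨c, c1, c2, c3, c4⟩ := ngood _ S _ rfl hM (Sep.mk' fun _ _ _ _ => Iff.rfl) hS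
      (not_lt.mp h)
    obtain ⟨P, Q, s⟩ := exists_split hM c1 c2
    have hpos := Finset.card_pos.mpr ⟨c, c2.1⟩
    obtain ⟨n, rfl⟩ : ∃ m, n = m + 1 := ⟨n - 1, by omega⟩
    refine Or.inr ⟨c, c1, c2.1, c3, fun Sc p => ?_⟩
    have hns := c4 Sc P Q p s
    have : ∃ t, t < F.l ∧ t ∈ Sc.A ∧ Sc.z t ≠ 0 ∧ ¬ (P t (F.i t) ↔ P t (F.j t)) := by
      by_contra hn
      push Not at hn
      exact hns (Sep.mk' hn)
    obtain ⟨y, y1, y2, y3, y4⟩ := this
    have hcard : Sc.A.card + 1 = S.A.card := by rw [p.hA, Finset.card_erase_add_one c2.1]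
    have hpos' := Finset.card_pos.mpr ⟨y, y2⟩
    obtain ⟨n, rfl⟩ : ∃ m, n = m + 1 := ⟨n - 1, by omega⟩
    refine Or.inr ⟨y, y1, y2, y3, fun S' p' => ih n (by omega) S' ?_ (p'.lu (p.lu hS)) ?_⟩
    · rw [p'.hA, Finset.card_erase_of_mem y2]; omega
    · rw [p'.hA, p.hA]
      refine min_merge ⟨fun _ _ _ _ => rfl, rfl⟩ s.hP s.hQ s.du y1 ⟨p.hA ▸ y2, ?_⟩
      have a1 := (s.du.union y y1.le (F.i y)).mp trivial
      have a2 := (s.du.union y y1.le (F.j y)).mp trivial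
      clear * - a1 a2 y4
      tauto

end Pool.Agent.Lib.MP_53bec5_ag
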