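import Pool.Agent.Lib.MP_53bec5_ag.Grid
import Pool.Agent.Lib.MP_53bec5_ag.Minor
import Pool.Agent.Lib.MP_53bec5_ag.Reduce

/-!
Normalised minors of partial products, and the passage from pinches to seeds.
-/

namespace Pool.Agent.Lib.MP_53bec5_ag

open Matrix

set_option linter.unusedSectionVars false

variable {k : ℕ} {R : Type} [CommRing R]

def stepT (F : Frame k R) (S : St R) (t : ℕ) (T : Fin k → Rˣ) : Fin k → Rˣ := fun u =>
  if t ∈ S.A then
    (if u = F.i t then T (F.j t) * F.q t else if u = F.j t then -(T (F.i t) * F.p t) else T u)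
  else (if u = F.i t then T (F.i t) * S.d t else if u = F.j t then T (F.j t) * S.e t else T u)

def Nm (F : Frame k R) (S : St R) (t : ℕ) (T : Fin k → Rˣ) : Matrix (Fin k) (Fin k) R :=
  if t ∈ S.A then
    blk (F.i t) (F.j t) (T (F.i t) * S.z t * ((T (F.j t) * F.q t)⁻¹ : Rˣ)) (-1) 1 0
  else 1

def dg (T : Fin k → Rˣ) : Matrix (Fin k) (Fin k) R := diagonal fun u => (T u : R)

theorem dg_mul_inv (T : Fin k → Rˣ) : dg T * dg T⁻¹ = 1 := by
  simp [dg, diagonal_mul_diagonal]

theorem dg_inv_mul (T : Fin k → Rˣ) : dg T⁻¹ * dg T = 1 := by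
  simp [dg, diagonal_mul_diagonal]

theorem dg_mat (F : Frame k R) (S : St R) (t : ℕ) (T : Fin k → Rˣ) :
    dg T * mat F S t = Nm F S t T * dg (stepT F S t T) := by
  have hne := F.ne t
  ext u v
  unfold dg mat Nm stepT
  rw [diagonal_mul, mul_diagonal]
  by_cases ht : t ∈ S.A
  · simp only [if_pos ht, blk]
    by_cases h1 : u = F.i t <;> by_cases h2 : u = F.j t <;> by_cases h3 : v = F.i t <;>
      by_cases h4 : v = F.j t <;> simp_all [eq_comm]
    simp [mul_assoc]
  · simp only [if_neg ht, blk, one_apply]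
    by_cases h1 : u = F.i t <;> by_cases h2 : u = F.j t <;> by_cases h3 : v = F.i t <;>
      by_cases h4 : v = F.j t <;> simp_all [eq_comm]

theorem stepT_surj (F : Frame k R) (S : St R) (t : ℕ) (T' : Fin k → Rˣ) :
    ∃ T, stepT F S t T = T' := by
  have hne := F.ne t
  by_cases ht : t ∈ S.A
  · refine ⟨fun u => if u = F.i t then -(T' (F.j t) * (F.p t)⁻¹) else
      if u = F.j t then T' (F.i t) * (F.q t)⁻¹ else T' u, ?_⟩
    funext u
    simp only [stepT, if_pos ht]
    by_cases h1 : u = F.i t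
    · simp [h1, hne.symm]
    · by_cases h2 : u = F.j t
      · simp [h2, hne.symm]
      · simp [h1, h2]
  · refine ⟨fun u => if u = F.i t then T' (F.i t) * (S.d t)⁻¹ else
      if u = F.j t then T' (F.j t) * (S.e t)⁻¹ else T' u, ?_⟩
    funext u
    simp only [stepT, if_neg ht]
    by_cases h1 : u = F.i t
    · simp [h1]
    · by_cases h2 : u = F.j t
      · simp [h2, hne.symm]
      · simp [h1, h2]

def IsG (F : Frame k R) (S : St R) (T : ℕ → Fin k → Rˣ) : Prop :=
  ∀ t, T (t + 1) = stepT F S t (T t)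

theorem exists_gauge (F : Frame k R) (S : St R) : ∀ (c : ℕ) (T₀ : Fin k → Rˣ),
    ∃ T, IsG F S T ∧ T c = T₀
  | 0, T₀ => ⟨fun t => Nat.rec T₀ (fun t T => stepT F S t T) t, fun _ => rfl, rfl⟩
  | c + 1, T₀ => by
    obtain ⟨T₁, h⟩ := stepT_surj F S c T₀
    obtain ⟨T, h1, h2⟩ := exists_gauge F S c T₁
    exact ⟨T, h1, by rw [h1 c, h2, h]⟩

def Hm (F : Frame k R) (S : St R) (L T : ℕ → Fin k → Rˣ) (a b : ℕ) : Matrix (Fin k) (Fin k) R :=
  dg (L a) * prd F S a b * dg (T b)⁻¹

variable {F : Frame k R} {S : St R} {L T : ℕ → Fin k → Rˣ}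

theorem Hm_left (hL : IsG F S L) {t b : ℕ} (h : t < b) :
    Hm F S L T t b = Nm F S t (L t) * Hm F S L T (t + 1) b := by
  unfold Hm
  rw [prd_left F S h, ← mul_assoc, dg_mat, hL t]
  simp only [mul_assoc]

theorem Hm_right (hT : IsG F S T) {a t : ℕ} (h : a ≤ t) :
    Hm F S L T a (t + 1) = Hm F S L T a t * Nm F S t (T t) := by
  unfold Hm
  have e : mat F S t * dg (T (t + 1))⁻¹ = dg (T t)⁻¹ * Nm F S t (T t) := by
    have := dg_mat F S t (T t)
    rw [← hT t] at this
    calc mat F S t * dg (T (t + 1))⁻¹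
        = dg (T t)⁻¹ * (dg (T t) * mat F S t) * dg (T (t + 1))⁻¹ := by
          rw [← mul_assoc, dg_inv_mul, one_mul]
      _ = _ := by rw [this, mul_assoc, mul_assoc, dg_mul_inv, mul_one]
  rw [prd_succ F S h, mul_assoc, mul_assoc, e]
  simp only [mul_assoc]

theorem Hm_self (c : ℕ) : Hm F S L T c c = dg (L c * (T c)⁻¹) := by
  simp [Hm, prd_of_le F S le_rfl, dg, diagonal_mul_diagonal]

variable {ι K : Type} [Fintype ι] [DecidableEq ι] [Field K]

noncomputable def Vf (ψ : R →+* K) (F : Frame k R) (S : St R) (L T : ℕ → Fin k → Rˣ)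
    (a b s : ℕ) : K := ψ (pm (Hm F S L T a b) s)

theorem grid_Vf (X : Ctx ι K) (ψ : R →+* K) (hG : ∀ u : Rˣ, X.G (ψ u)) (hL : IsG F S L)
    (hT : IsG F S T) : Grid X (fun t => (F.i t).val) S.A (Vf ψ F S L T) := by
  have v1 : ∀ t b s, t < b → (t ∈ S.A → s ≠ (F.i t).val + 1) →
      pm (Hm F S L T t b) s = pm (Hm F S L T (t + 1) b) s := by
    intro t b s h hs
    rw [Hm_left hL h, Nm]
    split_ifs with ht
    · exact pm_B_mul (F.hij t) _ _ (hs ht)
    · rw [one_mul]
  have v2 : ∀ a t s, a ≤ t → (t ∈ S.A → s ≠ (F.i t).val + 1) →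
      pm (Hm F S L T a (t + 1)) s = pm (Hm F S L T a t) s := by
    intro a t s h hs
    rw [Hm_right hT h, Nm]
    split_ifs with ht
    · exact pm_mul_B (F.hij t) _ _ (hs ht)
    · rw [mul_one]
  refine ⟨fun t b s h hs => congrArg ψ (v1 t b s h hs),
    fun a t s h hs => congrArg ψ (v2 a t s h hs), fun r c h hr hc hp h0 => ?_, fun c s => ?_,
    fun c hc => ?_⟩
  · have ei : F.i r = F.i c := Fin.ext hp
    have ej : F.j r = F.j c := Fin.ext (by rw [F.hij, F.hij, ei])
    simp only [Vf, ← pm_map] at h0 ⊢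
    rw [Hm_right hT (show r + 1 ≤ c from h), Hm_right hT h.le, Hm_left hL h]
    simp only [Nm, if_pos hr, if_pos hc, Matrix.map_mul, blk_map, ei, ej, map_neg, map_one,
      map_zero]
    exact exchange (F.hij c) _ _ _ h0
  · obtain ⟨u, hu⟩ := isUnit_pm_diag (d := fun u => (((L c * (T c)⁻¹) u : Rˣ) : R))
      (fun u => Units.isUnit _) s
    have := hG u
    rwa [hu, ← dg, ← Hm_self (F := F) (S := S)] at this
  · simp only [Vf, ← map_mul]
    congr 1
    have e0 : pm (Hm F S L T (c + 1) (c + 1)) (F.i c).val = pm (Hm F S L T c c) (F.i c).val := by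
      rw [← v1 c (c + 1) _ (by omega) (fun _ => by omega), v2 c c _ le_rfl (fun _ => by omega)]
    have e1 : (L (c + 1) * (T (c + 1))⁻¹) (F.i c) = (L c * (T c)⁻¹) (F.j c) := by
      simp [hL c, hT c, stepT, hc, mul_assoc]
    simp only [Hm_self, dg] at e0 ⊢
    rw [show (F.i c).val + 2 = (F.j c).val + 1 by rw [F.hij], pm_diag_succ _ (F.j c), F.hij,
      pm_diag_succ, pm_diag_succ, e0, e1]
    ring

theorem stepT_congr {S' : St R} {t : ℕ} (al : t ∈ S.A ↔ t ∈ S'.A) (hd : S.d t = S'.d t)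
    (he : S.e t = S'.e t) : stepT F S t = stepT F S' t := by
  funext T u
  simp only [stepT, al, hd, he]

theorem Pinch.stepT_eq {S' : St R} {c : ℕ} (h : Pinch F S c S') {t : ℕ} (ht : t < F.l)
    (hc : t ≠ c) : stepT F S t = stepT F S' t := by
  rcases lt_or_gt_of_ne hc with g | g
  · obtain ⟨W, -, hW⟩ := h.left
    exact stepT_congr (hW t g).al (hW t g).hd (hW t g).he
  · obtain ⟨W, -, hW⟩ := h.right
    exact stepT_congr (hW t g ht).al (hW t g ht).hd (hW t g ht).he

theorem red_seed (X : Ctx ι K) (ψ : R →+* K) (hG : ∀ u : Rˣ, X.G (ψ u)) {κ : Type} [Field κ]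
    (φ : R →+* κ) (hφ : ∀ r, φ r ≠ 0 → IsUnit r) (F : Frame k R) :
    ∀ (n : ℕ) (S : St R) (L T : ℕ → Fin k → Rˣ), IsG F S L → IsG F S T →
      Red (F.map φ) n (S.map φ) → SG X (fun t => (F.i t).val) S.A (Vf ψ F S L T) F.l 0 →
      ∃ s, Reach X.isM X.s₀ s ∧ ∀ v, X.G (s.x v) := by
  intro n
  induction n with
  | zero => intro S L T _ _ h g; exact g.final h
  | succ n ih =>
    intro S L T hL hT h g
    rcases h with h | ⟨c, c1, c2, c3, c4⟩
    · exact g.final h
    obtain ⟨u, hu⟩ := hφ _ c3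
    obtain ⟨S', p⟩ := exists_pinch F S c c1 c2 u hu
    obtain ⟨L', hL', e1⟩ := exists_gauge F S' 0 (L 0)
    obtain ⟨T', hT', e2⟩ := exists_gauge F S' (c + 1) (T (c + 1))
    have a1 : ∀ a, a ≤ c → L' a = L a := by
      intro a
      induction a with
      | zero => intro _; exact e1
      | succ a ih =>
        intro h
        rw [hL a, hL' a, ih (by omega), p.stepT_eq (by have := p.lt; omega) (by omega)]
    have a2 : ∀ b, c + 1 ≤ b → b ≤ F.l → T' b = T b := by
      intro b hb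
      induction b, hb using Nat.le_induction with
      | base => intro _; exact e2
      | succ b hb ih =>
        intro h
        rw [hT b, hT' b, ih (by omega), p.stepT_eq (by omega) (by omega)]
    refine ih S' L' T' hL' hT' (c4 _ (p.map φ)) ?_
    have g' := grid_Vf X ψ hG hL' hT'
    rw [p.hA] at g' ⊢
    refine (grid_Vf X ψ hG hL hT).pinch g' c1 c2 (fun a b h1 h2 h3 => ?_) g
    funext s
    simp only [Vf, Hm, dg, pm_mul_diag, pm_diag_mul, a1 a h1, a2 b h2 h3, p.pm_prd h1 h2 h3]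

end Pool.Agent.Lib.MP_53bec5_ag
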