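import Pool.Agent.Lib.MP_53bec5_ag.Cluster2

/-!
The family of double words attached to a cyclically rotated braid word.
-/

namespace Pool.Agent.Lib.MP_53bec5_ag

set_option linter.unusedSectionVars false

variable {ι K : Type} [Fintype ι] [DecidableEq ι] [Field K]

/-- A two-parameter family of minors. -/
structure Grid (X : Ctx ι K) (pos : ℕ → ℕ) (A : Finset ℕ) (V : ℕ → ℕ → ℕ → K) : Prop where
  v1 : ∀ t b s, t < b → (t ∈ A → s ≠ pos t + 1) → V t b s = V (t + 1) b s
  v2 : ∀ a t s, a ≤ t → (t ∈ A → s ≠ pos t + 1) → V a (t + 1) s = V a t s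
  v3 : ∀ r c, r < c → r ∈ A → c ∈ A → pos r = pos c → V (r + 1) c (pos c) ≠ 0 →
    V (r + 1) (c + 1) (pos c + 1) * V r c (pos c + 1) =
      V (r + 1) c (pos c + 1) * V r (c + 1) (pos c + 1) +
        V (r + 1) c (pos c) * V (r + 1) c (pos c + 2)
  v4 : ∀ c s, X.G (V c c s)
  v5 : ∀ c, c ∈ A →
    V (c + 1) (c + 1) (pos c + 1) * V c c (pos c + 1) = V c c (pos c) * V c c (pos c + 2)

section words

variable (pos : ℕ → ℕ) (A : Finset ℕ) (V : ℕ → ℕ → ℕ → K)

def lt (top : Bool) (t : ℕ) (x : K) : List (Tr K) := if t ∈ A then [⟨top, pos t, x⟩] else []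

def tl (b t : ℕ) : List (Tr K) := lt pos A true t (V t b (pos t + 1))

/-- The top letters `c-1, …, r` evaluated in column `b`. -/
def tops (b r : ℕ) : ℕ → List (Tr K)
  | 0 => []
  | c + 1 => if r ≤ c then tl pos A V b c ++ tops b r c else []

/-- The bottom letters `c, …, c+n-1`. -/
def bots : ℕ → ℕ → List (Tr K)
  | 0, _ => []
  | n + 1, c => lt pos A false c (V 0 (c + 1) (pos c + 1)) ++ bots n (c + 1)

theorem tops_le {b r c : ℕ} (h : c ≤ r) : tops pos A V b r c = [] := by
  cases c with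
  | zero => rfl
  | succ c => simp only [tops]; rw [if_neg (by omega)]

theorem tops_succ {b r c : ℕ} (h : r ≤ c) :
    tops pos A V b r (c + 1) = tl pos A V b c ++ tops pos A V b r c := by
  simp only [tops, if_pos h]

theorem tops_left {b r c : ℕ} (h : r < c) :
    tops pos A V b r c = tops pos A V b (r + 1) c ++ tl pos A V b r := by
  induction c with
  | zero => omega
  | succ c ih =>
    rcases Nat.lt_succ_iff_lt_or_eq.mp h with h' | h'
    · rw [tops_succ pos A V h'.le, ih h', tops_succ pos A V (by omega : r + 1 ≤ c),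
        List.append_assoc]
    · subst h'
      rw [tops_succ pos A V le_rfl, tops_le pos A V le_rfl, tops_le pos A V le_rfl]
      simp

variable {pos A V}

theorem tops_congr {A' : Finset ℕ} {V' : ℕ → ℕ → ℕ → K} {b b' r : ℕ} : ∀ c,
    (∀ t, t < c → tl pos A V b t = tl pos A' V' b' t) →
      tops pos A V b r c = tops pos A' V' b' r c
  | 0, _ => rfl
  | c + 1, h => by
    simp only [tops]
    rw [h c (by omega), tops_congr c fun t ht => h t (by omega)]

theorem bots_congr {A' : Finset ℕ} {V' : ℕ → ℕ → ℕ → K} : ∀ n c,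
    (∀ t, c ≤ t → t < c + n → (t ∈ A ↔ t ∈ A') ∧ V 0 (t + 1) = V' 0 (t + 1)) →
      bots pos A V n c = bots pos A' V' n c
  | 0, _, _ => rfl
  | n + 1, c, h => by
    simp only [bots]
    rw [bots_congr n (c + 1) fun t h1 h2 => h t (by omega) (by omega)]
    have := h c le_rfl (by omega)
    simp only [lt, this.1, this.2]

theorem bots_nil : ∀ n c, (∀ t, t < c + n → t ∉ A) → bots pos A V n c = []
  | 0, _, _ => rfl
  | n + 1, c, h => by
    simp only [bots]
    rw [bots_nil n (c + 1) fun t h1 => h t (by omega)]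
    simp [lt, h c (by omega)]

end words

variable {X : Ctx ι K} {pos : ℕ → ℕ} {A : Finset ℕ} {V : ℕ → ℕ → ℕ → K}

theorem endV_append (val : ℕ → K) (t t' : List (Tr K)) :
    endV val (t ++ t') = endV (endV val t) t' := by
  simp [endV]

theorem Grid.endV_tl (g : Grid X pos A V) {b t : ℕ} (h : t < b) :
    endV (V (t + 1) b) (tl pos A V b t) = V t b := by
  funext s
  unfold tl lt
  by_cases ht : t ∈ A
  · rw [if_pos ht]
    by_cases hs : s = pos t + 1
    · simp [endV, stV, hs]
    · simp [endV, stV, hs, g.v1 t b s h (fun _ => hs)]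
  · rw [if_neg ht, g.v1 t b s h (fun a => absurd a ht)]
    rfl

theorem Grid.endV_tops (g : Grid X pos A V) {b r : ℕ} : ∀ c, r ≤ c → c ≤ b →
    endV (V c b) (tops pos A V b r c) = V r b := by
  intro c hc
  induction c, hc using Nat.le_induction with
  | base => intro _; rw [tops_le pos A V le_rfl]; rfl
  | succ c hc ih =>
    intro h
    rw [tops_succ pos A V hc, endV_append, g.endV_tl (by omega), ih (by omega)]

/-- The word at stage `c`. -/
def SG (X : Ctx ι K) (pos : ℕ → ℕ) (A : Finset ℕ) (V : ℕ → ℕ → ℕ → K) (l c : ℕ) : Prop :=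
  AGood X (V c c) (tops pos A V c 0 c ++ bots pos A V (l - c) c)

/-- The intermediate words between the stages `c` and `c+1`. -/
def TR (X : Ctx ι K) (pos : ℕ → ℕ) (A : Finset ℕ) (V : ℕ → ℕ → ℕ → K) (l c r : ℕ) : Prop :=
  AGood X (V c c) (tops pos A V c r c ++ ⟨false, pos c, V r (c + 1) (pos c + 1)⟩ ::
    (tops pos A V (c + 1) 0 r ++ bots pos A V (l - (c + 1)) (c + 1)))

theorem tr_zero {l c : ℕ} (hc : c < l) (hA : c ∈ A) : TR X pos A V l c 0 ↔ SG X pos A V l c := by
  unfold TR SG
  rw [show l - c = (l - (c + 1)) + 1 by omega]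
  simp [bots, lt, hA, tops]

theorem Grid.tr_succ (g : Grid X pos A V) {l c r : ℕ} (hA : c ∈ A) (hr : r < c) :
    TR X pos A V l c r ↔ TR X pos A V l c (r + 1) := by
  unfold TR
  rw [tops_left pos A V hr, tops_succ pos A V (Nat.zero_le r)]
  by_cases ht : r ∈ A
  · simp only [tl, lt, if_pos ht, List.append_assoc, List.cons_append, List.nil_append]
    by_cases hp : pos r = pos c
    · rw [hp]
      refine (agood_flip _ _ _ _ _ _ ?_).symm
      rw [g.endV_tops c hr le_rfl]
      exact g.v3 r c hr ht hA hp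
    · rw [g.v1 r (c + 1) (pos c + 1) (by omega) (fun _ e => hp (by omega)),
        g.v2 r c (pos r + 1) hr.le (fun _ e => hp (by omega))]
      exact ⟨AGood.swap hp rfl, AGood.swap (Ne.symm hp) rfl⟩
  · simp only [tl, lt, if_neg ht, List.append_nil, List.nil_append]
    rw [g.v1 r (c + 1) (pos c + 1) (by omega) (fun a => absurd a ht)]

theorem Grid.tr_iff (g : Grid X pos A V) {l c : ℕ} (hc : c < l) (hA : c ∈ A) :
    ∀ r, r ≤ c → (TR X pos A V l c r ↔ SG X pos A V l c) := by
  intro r
  induction r with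
  | zero => intro _; exact tr_zero hc hA
  | succ r ih => intro h; rw [← g.tr_succ hA (by omega), ih (by omega)]

theorem Grid.sg_succ (g : Grid X pos A V) {l c : ℕ} (hc : c < l) :
    SG X pos A V l c ↔ SG X pos A V l (c + 1) := by
  by_cases hA : c ∈ A
  · rw [← g.tr_iff hc hA c le_rfl]
    unfold TR SG
    rw [tops_le pos A V le_rfl, tops_succ pos A V (Nat.zero_le c)]
    simp only [tl, lt, if_pos hA, List.cons_append, List.nil_append]
    refine agood_reflect _ _ (g.v4 c) (g.v4 (c + 1)) (fun j hj => ?_) (g.v5 c hA)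
    rw [← g.v1 c (c + 1) j (by omega) (fun _ => hj), g.v2 c c j le_rfl (fun _ => hj)]
  · unfold SG
    have e : V (c + 1) (c + 1) = V c c := by
      funext j
      rw [← g.v1 c (c + 1) j (by omega) (fun a => absurd a hA),
        g.v2 c c j le_rfl (fun a => absurd a hA)]
    rw [show l - c = (l - (c + 1)) + 1 by omega, tops_succ pos A V (Nat.zero_le c), e,
      tops_congr (A' := A) (V' := V) (b := c + 1) (b' := c) c fun t ht => by
        unfold tl; rw [g.v2 t c _ ht.le (fun a => absurd a hA)]]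
    simp [bots, tl, lt, hA]

theorem Grid.sg_iff (g : Grid X pos A V) {l : ℕ} :
    ∀ c, c ≤ l → (SG X pos A V l c ↔ SG X pos A V l 0) := by
  intro c
  induction c with
  | zero => intro _; rfl
  | succ c ih => intro h; rw [← g.sg_succ (by omega), ih (by omega)]

theorem Grid.pinch (g : Grid X pos A V) {V' : ℕ → ℕ → ℕ → K} {l c : ℕ}
    (g' : Grid X pos (A.erase c) V') (hc : c < l) (hA : c ∈ A)
    (hV : ∀ a b, a ≤ c → c < b → b ≤ l → V' a b = V a b) (h : SG X pos A V l 0) :
    SG X pos (A.erase c) V' l 0 := by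
  rw [← g'.sg_iff (c + 1) hc]
  rw [← g.sg_iff c hc.le, ← g.tr_iff hc hA c le_rfl] at h
  unfold TR at h
  rw [tops_le pos A V le_rfl, List.nil_append] at h
  have e : V' (c + 1) (c + 1) = V c (c + 1) := by
    rw [← hV c (c + 1) le_rfl (by omega) hc]
    funext j
    rw [g'.v1 c (c + 1) j (by omega) (fun a => by simp at a)]
  have h2 := h.delete (by rw [← e]; exact g'.v4 _ _)
  have e2 : stV (V c c) ⟨false, pos c, V c (c + 1) (pos c + 1)⟩ = V c (c + 1) := by
    funext s
    by_cases hs : s = pos c + 1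
    · simp [stV, hs]
    · simp [stV, hs, g.v2 c c s le_rfl (fun _ => hs)]
  unfold SG
  rw [e, ← e2, tops_succ pos _ V' (Nat.zero_le c),
    tops_congr (A' := A) (V' := V) (b := c + 1) (b' := c + 1) c fun t ht => by
      simp [tl, lt, hV t (c + 1) ht.le (by omega) hc, ht.ne],
    bots_congr (A' := A) (V' := V) _ _ fun t h1 h2 =>
      ⟨by simp [show t ≠ c by omega], hV 0 (t + 1) (by omega) (by omega) (by omega)⟩]
  simpa [tl, lt] using h2

theorem SG.final {l : ℕ} (h : SG X pos A V l 0) (hA : ∀ t, t < l → t ∉ A) :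
    ∃ s, Reach X.isM X.s₀ s ∧ ∀ v, X.G (s.x v) := by
  unfold SG at h
  rw [bots_nil _ _ (fun t ht => hA t (by omega))] at h
  exact AGood.final (val := V 0 0) (by simpa [tops] using h)

end Pool.Agent.Lib.MP_53bec5_ag
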