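import Pool.Agent.Lib.MP_53bec5_ag.Adm

/-!
How pinching interacts with a colouring of the strands.
-/

namespace Pool.Agent.Lib.MP_53bec5_ag

open Matrix

variable {k : ℕ} {R : Type} [CommRing R] {C : Type}

/-- All chords joining different colours vanish. -/
def Sep (F : Frame k R) (S : St R) (χ : ℕ → Fin k → C) : Prop :=
  ∀ t, t < F.l → ChordOK (Ord.eq C) F S t (χ t)

def Ord.two {α β : C} (h : α ≠ β) : Ord C :=
  ⟨fun a b => a = b ∨ (a = α ∧ b = β), fun _ => Or.inl rfl,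
    fun a b c h1 h2 => by
      rcases h1 with h1 | ⟨h1, h1'⟩
      · rw [h1]; exact h2
      · rcases h2 with h2 | ⟨h2, _⟩
        · exact Or.inr ⟨h1, h2 ▸ h1'⟩
        · exact absurd (h2.symm.trans h1') h,
    fun a b h1 h2 => by
      rcases h1 with h1 | ⟨h1, h1'⟩
      · exact h1
      · rcases h2 with h2 | ⟨h2, _⟩
        · exact h2.symm
        · exact absurd (h2.symm.trans h1') h⟩

theorem ChordOK.of_eq {ρ : Ord C} {F : Frame k R} {S : St R} {t : ℕ} {χ : Fin k → C}
    (h : ChordOK (Ord.eq C) F S t χ) : ChordOK ρ F S t χ := fun h1 h2 => by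
  have : χ (F.i t) = χ (F.j t) := h h1 h2
  rw [this]; exact ρ.refl _

theorem Flow.erase {F : Frame k R} {A : Finset ℕ} {χ : ℕ → Fin k → C} {a b y : ℕ}
    (h : Flow F A χ a b) (hy : χ y (F.i y) = χ y (F.j y)) : Flow F (A.erase y) χ a b := by
  intro t h1 h2 u
  by_cases ht : t = y
  · subst ht
    have e : sw F (A.erase t) t u = u := by simp [sw]
    rw [e]
    by_cases hA : t ∈ A
    · by_cases hu : u = F.i t
      · rw [hu, col_i (h t h1 h2) hA, hy]
      · by_cases hu' : u = F.j t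
        · rw [hu', col_j (h t h1 h2) hA, hy]
        · exact col_o (h t h1 h2) hu hu'
    · exact col_dead (h t h1 h2) hA u
  · rw [sw_congr (A' := A) (by simp [ht])]; exact h t h1 h2 u

theorem Flow.of_erase {F : Frame k R} {A : Finset ℕ} {χ : ℕ → Fin k → C} {a b y : ℕ}
    (h : Flow F (A.erase y) χ a b) (hy : χ y (F.i y) = χ y (F.j y)) : Flow F A χ a b := by
  intro t h1 h2 u
  by_cases ht : t = y
  · subst ht
    have e := col_dead (h t h1 h2) (by simp)
    rw [e]
    unfold sw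
    split_ifs
    · by_cases hu : u = F.i t
      · rw [hu, Equiv.swap_apply_left, hy]
      · by_cases hu' : u = F.j t
        · rw [hu', Equiv.swap_apply_right, hy]
        · rw [Equiv.swap_apply_of_ne_of_ne hu hu']
    · rfl
  · rw [sw_congr (A' := A.erase y) (by simp [ht])]; exact h t h1 h2 u

theorem adm_upper {ρ : Ord C} {χ : Fin k → C} {i j : Fin k} (b : R) (h : ρ.r (χ i) (χ j)) :
    Adm ρ χ χ (blk i j (1 : R) b 0 1) :=
  Adm.blk (fun _ => ρ.refl _) (fun _ => h) (fun h0 => absurd rfl h0) (fun _ => ρ.refl _)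
    (fun _ _ _ => rfl)

theorem adm_lower {ρ : Ord C} {χ : Fin k → C} {i j : Fin k} (b : R) (h : ρ.r (χ j) (χ i)) :
    Adm ρ χ χ (blk i j (1 : R) 0 b 1) :=
  Adm.blk (fun _ => ρ.refl _) (fun h0 => absurd rfl h0) (fun _ => h) (fun _ => ρ.refl _)
    (fun _ _ _ => rfl)

theorem agree_upper {χ : Fin k → C} {i j : Fin k} (hij : i ≠ j) (b : R) (h : χ i ≠ χ j) :
    Agree χ χ (blk i j (1 : R) b 0 1) 1 := by
  rw [← blk_one hij]
  exact Agree.blk (fun _ => rfl) (fun e => absurd e h) (fun _ => rfl) (fun _ => rfl)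

theorem agree_lower {χ : Fin k → C} {i j : Fin k} (hij : i ≠ j) (b : R) (h : χ i ≠ χ j) :
    Agree χ χ (blk i j (1 : R) 0 b 1) 1 := by
  rw [← blk_one hij]
  exact Agree.blk (fun _ => rfl) (fun _ => rfl) (fun e => absurd e.symm h) (fun _ => rfl)

theorem Pinch.mem_iff {F : Frame k R} {S S' : St R} {c : ℕ} (h : Pinch F S c S') {t : ℕ}
    (ht : t ≠ c) : t ∈ S.A ↔ t ∈ S'.A := by rw [h.hA]; simp [ht]

theorem Pinch.not_mem {F : Frame k R} {S S' : St R} {c : ℕ} (h : Pinch F S c S') :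
    c ∉ S'.A := by rw [h.hA]; simp

/-- Pinching a chord inside one colour keeps the colours separated. -/
theorem Pinch.sep {F : Frame k R} {S S' : St R} {c : ℕ} (h : Pinch F S c S')
    {χ : ℕ → Fin k → C} (hχ : Flow F S.A χ 0 F.l) (hs : Sep F S χ)
    (hc : χ c (F.i c) = χ c (F.j c)) : Sep F S' χ := by
  obtain ⟨U, hU0, hU⟩ := h.right
  obtain ⟨W, hW0, hW⟩ := h.left
  have hcl := h.lt
  intro t ht
  rcases lt_trichotomy t c with h1 | h1 | h1
  · refine ((chainL_adm (ρ := Ord.eq C) (a := 0) (b := c) (fun t _ y => hW t y)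
      (hχ.mono le_rfl hcl.le) ?_ (fun t _ y => Or.inl (hs t (by omega)))).2 t (by omega) h1).2
    rw [hW0]; exact adm_upper _ hc.symm
  · subst h1; exact fun hm => absurd hm h.not_mem
  · refine ((chainR_adm (ρ := Ord.eq C) (a := c + 1) (b := F.l) (fun t x y => hU t x y)
      (hχ.mono (by omega) le_rfl) ?_ (fun t _ y => Or.inl (hs t y))).2 t (by omega) ht).2
    rw [hU0]
    refine adm_upper _ ?_
    change χ (c + 1) _ = χ (c + 1) _
    rw [col_i (hχ c (by omega) hcl) h.mem, col_j (hχ c (by omega) hcl) h.mem, hc]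

/-- A pinch whose two strands receive different colours, seen on the right of the crossing. -/
theorem Pinch.right_two {F : Frame k R} {S S' : St R} {c : ℕ} (h : Pinch F S c S')
    {χ : ℕ → Fin k → C} (hχ : Flow F S'.A χ 0 F.l) {α β : C} (hne : α ≠ β)
    (hi : χ c (F.i c) = α) (hj : χ c (F.j c) = β)
    (hs : ∀ t, c < t → t < F.l →
      ChordOK (Ord.two hne) F S t (χ t) ∨ ChordOK (Ord.two hne) F S' t (χ t)) :
    ∀ t, c < t → t < F.l → ChordOK (Ord.two hne) F S t (χ t) ∧ SameLetter F S S' t (χ t) := by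
  obtain ⟨U, hU0, hU⟩ := h.right
  have hcl := h.lt
  have hχ' : Flow F S.A χ (c + 1) F.l :=
    (hχ.mono (by omega) le_rfl).congr fun t x _ => (h.mem_iff (by omega)).symm
  have hd := col_dead (hχ c (by omega) hcl) h.not_mem
  have a0 : Adm (Ord.two hne) (χ (c + 1)) (χ (c + 1)) (U (c + 1)) := by
    rw [hU0]; exact adm_upper _ (Or.inr ⟨by rw [hd, hi], by rw [hd, hj]⟩)
  have h1 := (chainR_adm (a := c + 1) (b := F.l) (fun t x y => hU t x y) hχ' a0
    (fun t x y => hs t x y)).2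
  have h2 := (chainR_agree (a := c + 1) (b := F.l) (U₂ := fun _ => 1) (fun t x y => hU t x y)
    (fun t _ _ => RStep.refl F S t) hχ' (fun t _ _ => SameLetter.refl F S t _) a0 (Adm.one _ _)
    (fun t x y => (h1 t x y).1) (fun t x y => (h1 t x y).1)
    (by rw [hU0]; exact agree_upper (F.ne c) _ (by rw [hd, hd, hi, hj]; exact hne))).2
  exact fun t x y => ⟨(h1 t x y).1, (h2 t x y).symm⟩

theorem Pinch.left_two {F : Frame k R} {S S' : St R} {c : ℕ} (h : Pinch F S c S')
    {χ : ℕ → Fin k → C} (hχ : Flow F S'.A χ 0 F.l) {α β : C} (hne : α ≠ β)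
    (hi : χ c (F.i c) = α) (hj : χ c (F.j c) = β) (hs : Sep F S' χ) :
    ∀ t, t < c → SameLetter F S S' t (χ t) := by
  obtain ⟨W, hW0, hW⟩ := h.left
  have hcl := h.lt
  have hχ' : Flow F S.A χ 0 c :=
    (hχ.mono le_rfl hcl.le).congr fun t _ y => (h.mem_iff (by omega)).symm
  have a0 : Adm (Ord.two hne.symm).op (χ c) (χ c) (W c) := by
    rw [hW0]; exact adm_upper _ (Or.inr ⟨hj, hi⟩)
  have h1 := (chainL_adm (a := 0) (b := c) (fun t _ y => hW t y) hχ' a0
    (fun t _ y => Or.inr (hs t (by omega)).of_eq)).2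
  have h2 := (chainL_agree (a := 0) (b := c) (W₂ := fun _ => 1) (fun t _ y => hW t y)
    (fun t _ _ => RStep.refl F.flip S t) hχ' (fun t _ _ => SameLetter.refl F S t _) a0
    (Adm.one _ _) (fun t x y => (h1 t x y).1) (fun t x y => (h1 t x y).1)
    (by rw [hW0]; exact agree_upper (F.ne c) _ (by rw [hi, hj]; exact hne))).2
  exact fun t y => (h2 t (by omega) y).symm

/-- If the pinched state is separated, chords inside one colour have not changed. -/
theorem Pinch.same {F : Frame k R} {S S' : St R} {c : ℕ} (h : Pinch F S c S')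
    {χ : ℕ → Fin k → C} (hχ : Flow F S'.A χ 0 F.l)
    (hne : χ c (F.i c) ≠ χ c (F.j c)) (hs : Sep F S' χ) :
    ∀ t, t < F.l → t ≠ c → SameLetter F S S' t (χ t) := by
  intro t ht hne'
  rcases lt_or_gt_of_ne hne' with h1 | h1
  · exact h.left_two hχ hne rfl rfl hs t h1
  · exact (h.right_two hχ hne rfl rfl (fun t _ y => Or.inr (hs t y).of_eq) t h1 ht).2

theorem SameLetter.of_unit {F : Frame k R} {S S' : St R} {t : ℕ}
    (h : SameLetter F S S' t (fun _ => ())) (χ : Fin k → C) : SameLetter F S S' t χ :=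
  ⟨h.al, fun ht _ => h.hz ht rfl, h.hd, h.he⟩

theorem Pinch.d_eq {F : Frame k R} {S S' T T' : St R} {c : ℕ} (h : Pinch F S c S')
    (h' : Pinch F T c T') (e : S.z c = T.z c) : S'.d c = T'.d c ∧ S'.e c = T'.e c := by
  have e1 : S'.d c = T'.d c := Units.ext (by rw [h.hd, h'.hd, e])
  refine ⟨e1, Units.ext ?_⟩
  have a := h.he
  have b := h'.he
  rw [← h.hd] at a
  rw [← h'.hd, ← e1] at b
  exact (S'.d c).mul_left_inj.mp (a.trans b.symm)

/-- Two pinches almost commute: they give the same chords inside each colour. -/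
theorem levi_commute {F : Frame k R} {S Sc Sy Scy : St R} {c y : ℕ} (hcy : c < y)
    (pc : Pinch F S c Sc) (py : Pinch F S y Sy) (pcy : Pinch F Sc y Scy)
    {χ : ℕ → Fin k → C} (hχ : Flow F Sc.A χ 0 F.l)
    (hne : χ c (F.i c) ≠ χ c (F.j c)) (hs : Sep F Sc χ) (hy : χ y (F.i y) = χ y (F.j y)) :
    Sy.z c = S.z c ∧ ∀ Syc, Pinch F Sy c Syc →
      ∀ t, t < F.l → t ≠ c → t ≠ y → SameLetter F Syc Scy t (χ t) := by
  have hyl := py.lt
  have hcl := pc.lt
  set ρ := Ord.two hne with hρ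
  have hR := pc.right_two hχ hne rfl rfl (fun t _ y => Or.inr (hs t y).of_eq)
  have hzy : S.z y = Sc.z y := (hR y hcy hyl).2.hz py.mem hy
  obtain ⟨hdy, hey⟩ := py.d_eq pcy hzy
  obtain ⟨U2, hU20, hU2⟩ := py.right
  obtain ⟨W2, hW20, hW2⟩ := py.left
  obtain ⟨U4, hU40, hU4⟩ := pcy.right
  obtain ⟨W4, hW40, hW4⟩ := pcy.left
  obtain ⟨W1, hW10, hW1⟩ := pc.left
  have hχS : Flow F S.A χ (c + 1) F.l :=
    (hχ.mono (by omega) le_rfl).congr fun t x _ => (pc.mem_iff (by omega)).symm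
  have hdc := col_dead (hχ c (by omega) hcl) pc.not_mem
  have hdc' : χ (c + 1) = χ c := funext hdc
  -- the region between the two crossings
  have aW2 : Adm ρ.op (χ y) (χ y) (W2 y) := by
    rw [hW20]; exact adm_upper _ (by rw [hy]; exact ρ.refl _)
  have aW4 : Adm ρ.op (χ y) (χ y) (W4 y) := by
    rw [hW40]; exact adm_upper _ (by rw [hy]; exact ρ.refl _)
  have m1 := chainL_adm (ρ := ρ) (a := c + 1) (b := y) (fun t _ h => hW2 t h)
    (hχS.mono le_rfl hyl.le) aW2 (fun t x h => Or.inl (hR t x (by omega)).1)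
  have m4 := chainL_adm (ρ := ρ) (a := 0) (b := y) (fun t _ h => hW4 t h)
    (hχ.mono le_rfl hyl.le) aW4 (fun t x h => Or.inl (hs t (by omega)).of_eq)
  have m2 := chainL_agree (ρ := ρ) (a := c + 1) (b := y) (fun t _ h => hW2 t h)
    (fun t _ h => hW4 t h) (hχS.mono le_rfl hyl.le) (fun t x h => (hR t x (by omega)).2) aW2 aW4
    (fun t x h => (hR t x (by omega)).1) (fun t x h => (hs t (by omega)).of_eq)
    (by rw [hW20, hW40, hdy]; exact Agree.refl _ _ _)
  -- the region to the right of both crossings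
  have hy1 : χ (y + 1) (F.i y) = χ (y + 1) (F.j y) := by
    rw [col_i (hχS y (by omega) hyl) py.mem, col_j (hχS y (by omega) hyl) py.mem, hy]
  have aU2 : Adm ρ (χ (y + 1)) (χ (y + 1)) (U2 (y + 1)) := by
    rw [hU20]; exact adm_upper _ (by rw [hy1]; exact ρ.refl _)
  have aU4 : Adm ρ (χ (y + 1)) (χ (y + 1)) (U4 (y + 1)) := by
    rw [hU40]; exact adm_upper _ (by rw [hy1]; exact ρ.refl _)
  have r1 := chainR_adm (ρ := ρ) (a := y + 1) (b := F.l) (fun t x h => hU2 t x h)
    (hχS.mono (by omega) le_rfl) aU2 (fun t x h => Or.inl (hR t (by omega) h).1)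
  have r2 := chainR_agree (ρ := ρ) (a := y + 1) (b := F.l) (fun t x h => hU2 t x h)
    (fun t x h => hU4 t x h) (hχS.mono (by omega) le_rfl) (fun t x h => (hR t (by omega) h).2)
    aU2 aU4 (fun t x h => (hR t (by omega) h).1) (fun t x h => (hs t h).of_eq)
    (by rw [hU20, hU40, hdy]; exact Agree.refl _ _ _)
  -- the crossing c itself
  have stc := hW2 c hcy
  have aW2c : Adm ρ.op (χ c) (χ c) (W2 (c + 1)) := hdc' ▸ m1.1 (c + 1) le_rfl hcy
  have hzc : Sy.z c = S.z c := by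
    have e := stc.z_eq pc.mem
    have z0 : W2 (c + 1) (F.i c) (F.j c) = 0 := by
      by_contra h0
      rcases aW2c _ _ h0 with h1 | ⟨h1, _⟩
      · exact hne h1.symm
      · exact hne h1.symm
    change Sy.z c = S.z c + W2 (c + 1) (F.i c) (F.j c) * _ at e
    rw [e, z0]; simp
  refine ⟨hzc, fun Syc pyc t htl htc hty => ?_⟩
  have hχy : Flow F Syc.A χ 0 F.l := by
    have : Syc.A = Sc.A.erase y := by rw [pyc.hA, py.hA, pc.hA, Finset.erase_right_comm]
    rw [this]; exact hχ.erase hy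
  rcases lt_or_gt_of_ne htc with h1 | h1
  · obtain ⟨W3, hW30, hW3⟩ := pyc.left
    obtain ⟨hdc1, -⟩ := pyc.d_eq pc hzc
    set ν : R := (F.q c : R) * (((Sc.d c)⁻¹ : Rˣ) : R) with hν
    set μ : R := (F.p c : R) * (((Sc.d c)⁻¹ : Rˣ) : R) with hμ
    have hW31 : W3 c = W1 c := by rw [hW30, hW10, hdc1]
    have hinv : blk (F.i c) (F.j c) (1 : R) (-ν) 0 1 * W1 c = 1 := by
      rw [hW10, blk_mul_blk (F.ne c), ← blk_one (F.ne c)]; simp
    have hinv' : W1 c * blk (F.i c) (F.j c) (1 : R) (-ν) 0 1 = 1 := mul_eq_one_comm.mp hinv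
    have hV : blk (F.i c) (F.j c) (1 : R) 0 (-μ) 1 * blk (F.i c) (F.j c) (1 : R) 0 μ 1 = 1 := by
      rw [blk_mul_blk (F.ne c), ← blk_one (F.ne c)]; simp
    have hUT1 : UT (W1 c) := hW10 ▸ UT.blk (F.lt c) _
    obtain ⟨T, X, hX0, hX⟩ := exists_left_chain F.flip Sc c
      (W₀ := W1 c * W2 c * blk (F.i c) (F.j c) (1 : R) (-ν) 0 1)
      ((hUT1.mul stc.ut').mul (UT.blk (F.lt c) _))
    -- uniqueness of the chain
    have u1 := (chainL_agree (ρ := Ord.eq Unit) (χ := fun _ _ => ()) (a := 0) (b := c)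
      (W₁ := fun t => X t * W1 t) (W₂ := fun t => W3 t * W2 t)
      (fun t _ h => (hW1 t h).trans (hX t h))
      (fun t _ h => (hW2 t (by omega)).trans (hW3 t h)) (fun _ _ _ _ => rfl)
      (fun t _ _ => SameLetter.refl F S t _) (fun _ _ _ => rfl) (fun _ _ _ => rfl)
      (fun _ _ _ _ _ => rfl) (fun _ _ _ _ _ => rfl)
      (by
        simp only [hX0, hW31, mul_assoc, hinv, mul_one]
        exact Agree.refl _ _ _)).2 t (by omega) h1
    -- the start of the chain
    have hA : mat F.flip S c = blk (F.i c) (F.j c) (1 : R) 0 μ 1 * mat F.flip Sc c * W1 c := by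
      rw [mat_flip, mat_flip, pc.factor, hW10]
      simp only [transpose_mul, blk_transpose (F.ne c), mul_assoc]
      rfl
    have hAy : mat F.flip Sy c = mat F.flip S c :=
      mat_congr _ stc.al.symm hzc stc.hd.symm stc.he.symm
    have hXc : X c = minv F.flip Sc c * (blk (F.i c) (F.j c) (1 : R) 0 (-μ) 1 *
        (W2 (c + 1) * blk (F.i c) (F.j c) (1 : R) 0 μ 1)) * mat F.flip Sc c := by
      have e := stc.eq
      rw [hAy, hA] at e
      calc X c = minv F.flip Sc c * mat F.flip Sc c * X c := by rw [minv_mul_mat, one_mul]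
        _ = minv F.flip Sc c * (blk (F.i c) (F.j c) (1 : R) 0 (-μ) 1 *
              blk (F.i c) (F.j c) (1 : R) 0 μ 1) * mat F.flip Sc c * X c := by rw [hV, mul_one]
        _ = minv F.flip Sc c * blk (F.i c) (F.j c) (1 : R) 0 (-μ) 1 *
              (blk (F.i c) (F.j c) (1 : R) 0 μ 1 * mat F.flip Sc c * W1 c * W2 c) *
              blk (F.i c) (F.j c) (1 : R) (-ν) 0 1 := by rw [hX0]; simp only [mul_assoc]
        _ = _ := by rw [← e]; simp only [mul_assoc, hinv', mul_one]
    have st4 := hW4 c hcy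
    have hW4c : W4 c = minv F.flip Sc c * (1 * (W4 (c + 1) * 1)) * mat F.flip Sc c := by
      rw [st4.U_eq, one_mul, mul_one]
      have hn : c ∉ Scy.A := fun h => pc.not_mem (st4.al.mpr h)
      simp only [minv, if_neg hn, if_neg pc.not_mem, st4.hd, st4.he]
    have hcc : ∀ u, χ c (sw F.flip Sc.A c u) = χ c u := by
      intro u; simp [sw, pc.not_mem]
    have cok : ChordOK ρ.op F.flip Sc c (χ c) := fun h => absurd h pc.not_mem
    have aV : ∀ b : R, Adm ρ.op (χ c) (χ c) (blk (F.i c) (F.j c) (1 : R) 0 b 1) :=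
      fun b => adm_lower b (Or.inr ⟨rfl, rfl⟩)
    have aW4c : Adm ρ.op (χ c) (χ c) (W4 (c + 1)) := hdc' ▸ m4.1 (c + 1) (by omega) hcy
    have ag : Agree (χ c) (χ c) (W2 (c + 1)) (W4 (c + 1)) := hdc' ▸ m2.1 (c + 1) le_rfl hcy
    have i1 := (aV (-μ)).mul (aW2c.mul (aV μ))
    have i2 := (Adm.one ρ.op (χ c)).mul (aW4c.mul (Adm.one ρ.op (χ c)))
    have aX : Adm ρ.op (χ c) (χ c) (X c) := by
      rw [hXc]; exact ((adm_minv hcc cok).mul i1).mul (adm_mat hcc cok)
    have agX : Agree (χ c) (χ c) (X c) (W4 c) := by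
      rw [hXc, hW4c]
      refine Agree.mul ((adm_minv hcc cok).mul i1) (adm_mat hcc cok) ((adm_minv hcc cok).mul i2)
        (adm_mat hcc cok) (Agree.mul (adm_minv hcc cok) i1 (adm_minv hcc cok) i2
          (Agree.refl _ _ _) ?_) (Agree.refl _ _ _)
      exact Agree.mul (aV _) (aW2c.mul (aV μ)) (Adm.one _ _) (aW4c.mul (Adm.one _ _))
        (agree_lower (F.ne c) _ hne)
        (Agree.mul aW2c (aV _) aW4c (Adm.one _ _) ag (agree_lower (F.ne c) _ hne))
    have u2 := (chainL_agree (ρ := ρ) (a := 0) (b := c) (fun t _ h => hX t h)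
      (fun t _ h => hW4 t (by omega)) (hχ.mono le_rfl hcl.le)
      (fun t _ _ => SameLetter.refl F Sc t _) aX (m4.1 c (by omega) hcy.le)
      (fun t _ h => (hs t (by omega)).of_eq) (fun t _ h => (hs t (by omega)).of_eq) agX).2 t
      (by omega) h1
    exact (u1.of_unit _).symm.trans u2
  · have hall : ∀ t, c < t → t < F.l → ChordOK ρ F Sy t (χ t) := by
      intro t x h
      rcases lt_trichotomy t y with h2 | h2 | h2
      · exact (m1.2 t x h2).2
      · subst h2; exact fun hm => absurd hm py.not_mem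
      · exact (r1.2 t h2 h).2
    have v := (pyc.right_two hχy hne rfl rfl (fun t x h => Or.inl (hall t x h)) t h1 htl).2
    rcases lt_or_gt_of_ne hty with h2 | h2
    · exact v.symm.trans (m2.2 t h1 h2)
    · exact v.symm.trans (r2.2 t h2 htl)

end Pool.Agent.Lib.MP_53bec5_ag
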