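import Pool.Agent.Lib.MP_53bec5_ag.Torus

/-!
Assembly: every point of the top positroid variety lies in a cluster torus.
-/

namespace Pool.Agent.Lib.MP_53bec5_ag

open Matrix ComplexOrder

variable {k n : ℕ}

noncomputable def evM (M : Matrix (Fin k) (Fin n) ℂ) : Coord k n →+* ℂ :=
  MvPolynomial.eval (fun p => M p.1 p.2)

theorem evM_plucker (M : Matrix (Fin k) (Fin n) ℂ) (c : Fin k → Fin n) :
    evM M (plucker c) = (M.submatrix id c).det := by
  unfold plucker
  rw [RingHom.map_det]
  congr 1
  ext r j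
  simp [evM]

theorem alg_ne {M : Matrix (Fin k) (Fin n) ℂ} {f : Coord k n} (h : evM M f ≠ 0) :
    algebraMap (Coord k n) (RatFn k n) f ≠ 0 := by
  rw [Ne, IsFractionRing.to_map_eq_zero_iff]
  rintro rfl
  exact h (map_zero _)

theorem frozen_ne (hkn : k < n) {M : Matrix (Fin k) (Fin n) ℂ} (hM : InTopPositroid hkn M)
    (v : Vertex k n) (hv : ¬ IsMutable v) : evM M (plucker (columns hkn v)) ≠ 0 := by
  rw [evM_plucker]
  rcases v with _ | ⟨a, b⟩
  · convert hM ⟨0, by omega⟩ using 3
    funext j
    ext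
    simp only [columns, zero_add]
    rw [Nat.mod_eq_of_lt (by omega)]
  · have ha := a.isLt
    have hb := b.isLt
    simp only [IsMutable, not_and_or, not_lt] at hv
    rcases hv with h | h
    · convert hM ⟨b.val + 1, by omega⟩ using 3
      funext j
      ext
      simp only [columns]
      rw [if_neg (by omega), Nat.mod_eq_of_lt (by omega)]
      simp only []
      omega
    · let f : Fin k → Fin k := fun j =>
        ⟨if j.val + a.val + 1 < k then j.val + a.val + 1 else j.val + a.val + 1 - k,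
          by split_ifs <;> omega⟩
      have hf : Function.Injective f := by
        intro x y e
        simp only [f, Fin.mk.injEq] at e
        ext
        split_ifs at e <;> omega
      have h1 := det_permute' (Equiv.ofBijective f (Finite.injective_iff_bijective.mp hf))
        (M.submatrix id (fun j : Fin k =>
          (⟨(n - a.val - 1 + j.val) % n, Nat.mod_lt _ (by omega)⟩ : Fin n)))
      have h2 : M.submatrix id (columns hkn (some (a, b))) =
          (M.submatrix id (fun j : Fin k =>
            (⟨(n - a.val - 1 + j.val) % n, Nat.mod_lt _ (by omega)⟩ : Fin n))).submatrix id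
            (Equiv.ofBijective f (Finite.injective_iff_bijective.mp hf)) := by
        ext r j
        simp only [submatrix_apply, id, Equiv.ofBijective_apply, f, columns]
        congr 1
        ext
        split_ifs with g
        · simp only []
          rw [show n - a.val - 1 + (j.val + a.val + 1) = j.val + n by omega, Nat.add_mod_right,
            Nat.mod_eq_of_lt (by omega)]
        · simp only []
          rw [Nat.mod_eq_of_lt (by omega)]
          omega
      rw [h2, h1]
      exact mul_ne_zero (by simp) (hM ⟨n - a.val - 1, by omega⟩)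

/-- A totally positive matrix. -/
def vdm (k n : ℕ) : Matrix (Fin k) (Fin n) ℂ := fun r j => (j.val : ℂ) ^ r.val

theorem vdm_pos (hkn : k < n) (v : Vertex k n) : 0 < evM (vdm k n) (plucker (columns hkn v)) := by
  have mono : ∀ i j : Fin k, i < j → (columns hkn v i).val < (columns hkn v j).val := by
    intro i j h
    rw [Fin.lt_def] at h
    rcases v with _ | ⟨a, b⟩
    · exact h
    · simp only [columns]
      split_ifs <;> simp only [] <;> omega
  have e : (vdm k n).submatrix id (columns hkn v) =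
      (vandermonde fun j => ((columns hkn v j).val : ℂ))ᵀ := by
    ext r j; simp [vdm]
  rw [evM_plucker, e, det_transpose, det_vandermonde]
  refine Finset.prod_pos fun i _ => Finset.prod_pos fun j hj => ?_
  rw [sub_pos]
  exact_mod_cast mono i j (Finset.mem_Ioi.mp hj)

noncomputable def ctx (hkn : k < n) (M : Matrix (Fin k) (Fin n) ℂ) :
    Ctx (Vertex k n) (RatFn k n) where
  isM := IsMutable
  s₀ := rectSeed hkn
  G := NonvanishingAt M
  G_one := ⟨1, 1, by simp, by simp, by simp⟩
  G_mul := by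
    rintro _ _ ⟨f, g, h1, h2, rfl⟩ ⟨f', g', h1', h2', rfl⟩
    exact ⟨f * f', g * g', by simp [h1, h1'], by simp [h2, h2'], by simp [div_mul_div_comm]⟩
  G_inv := by
    rintro _ ⟨f, g, h1, h2, rfl⟩
    exact ⟨g, f, h2, h1, by simp⟩
  G_ne := by
    rintro _ ⟨f, g, h1, h2, rfl⟩
    exact div_ne_zero (alg_ne (M := M) h1) (alg_ne (M := M) h2)
  Pos x := ∃ f g : Coord k n, 0 < evM (vdm k n) f ∧ 0 < evM (vdm k n) g ∧
    x = algebraMap (Coord k n) (RatFn k n) f / algebraMap (Coord k n) (RatFn k n) g
  P_one := ⟨1, 1, by simp, by simp, by simp⟩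
  P_add := by
    rintro _ _ ⟨f, g, h1, h2, rfl⟩ ⟨f', g', h1', h2', rfl⟩
    refine ⟨f * g' + g * f', g * g', ?_, ?_, ?_⟩
    · rw [map_add, map_mul, map_mul]; exact add_pos (mul_pos h1 h2') (mul_pos h2 h1')
    · rw [map_mul]; exact mul_pos h2 h2'
    · rw [div_add_div _ _ (alg_ne h2.ne') (alg_ne h2'.ne')]; simp
  P_mul := by
    rintro _ _ ⟨f, g, h1, h2, rfl⟩ ⟨f', g', h1', h2', rfl⟩
    refine ⟨f * f', g * g', ?_, ?_, by simp [div_mul_div_comm]⟩
    · rw [map_mul]; exact mul_pos h1 h1'
    · rw [map_mul]; exact mul_pos h2 h2'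
  P_inv := by
    rintro _ ⟨f, g, h1, h2, rfl⟩
    exact ⟨g, f, h2, h1, by simp⟩
  P_ne := by
    rintro _ ⟨f, g, h1, h2, rfl⟩
    exact div_ne_zero (alg_ne h1.ne') (alg_ne h2.ne')
  pos₀ v := ⟨_, 1, vdm_pos hkn v, by simp, by simp [rectSeed]⟩
  skew₀ u v := by simp [rectSeed]

theorem frozen_G (hkn : k < n) {M : Matrix (Fin k) (Fin n) ℂ} (hM : InTopPositroid hkn M)
    (v : Vertex k n) (hv : ¬ IsMutable v) : NonvanishingAt M ((rectSeed hkn).x v) :=
  ⟨_, 1, frozen_ne hkn hM v hv, by simp, by simp [rectSeed]⟩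

/-- Polynomials that do not vanish at `M`. -/
def nzS (M : Matrix (Fin k) (Fin n) ℂ) : Submonoid (Coord k n) where
  carrier := {f | evM M f ≠ 0}
  one_mem' := by simp
  mul_mem' := fun {a b} ha hb => by
    simp only [Set.mem_ofPred_eq, map_mul] at *
    exact mul_ne_zero ha hb

theorem exists_local (M : Matrix (Fin k) (Fin n) ℂ) :
    ∃ (R : Type) (_ : CommRing R) (α : Coord k n →+* R) (ψ : R →+* RatFn k n) (φ : R →+* ℂ),
      (∀ f, ψ (α f) = algebraMap (Coord k n) (RatFn k n) f) ∧ (∀ f, φ (α f) = evM M f) ∧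
      (∀ r, φ r ≠ 0 → IsUnit r) ∧ ∀ u : Rˣ, NonvanishingAt M (ψ u) := by
  let R := Localization (nzS M)
  let ψ : R →+* RatFn k n := IsLocalization.lift (M := nzS M)
    (g := algebraMap (Coord k n) (RatFn k n)) fun y => (alg_ne (M := M) y.2).isUnit
  let φ : R →+* ℂ := IsLocalization.lift (M := nzS M) (g := evM M) fun y => Ne.isUnit y.2
  have h1 : ∀ f, ψ (algebraMap _ R f) = algebraMap (Coord k n) (RatFn k n) f :=
    fun f => IsLocalization.lift_eq _ f
  have h2 : ∀ f, φ (algebraMap _ R f) = evM M f := fun f => IsLocalization.lift_eq _ f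
  have key : ∀ r : R, φ r ≠ 0 → ∃ f g : nzS M, r * algebraMap _ R g.1 = algebraMap _ R f.1 := by
    intro r hr
    obtain ⟨⟨f, g⟩, h⟩ := IsLocalization.surj (nzS M) r
    refine ⟨⟨f, ?_⟩, g, h⟩
    have := congrArg φ h
    rw [map_mul, h2, h2] at this
    change evM M f ≠ 0
    rw [← this]
    exact mul_ne_zero hr g.2
  refine ⟨R, inferInstance, algebraMap _ R, ψ, φ, h1, h2, fun r hr => ?_, fun u => ?_⟩
  · obtain ⟨f, g, h⟩ := key r hr
    exact isUnit_of_mul_isUnit_left (h ▸ IsLocalization.map_units R f)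
  · obtain ⟨f, g, h⟩ := key u ((Units.isUnit u).map φ).ne_zero
    refine ⟨f, g, f.2, g.2, ?_⟩
    have := congrArg ψ h
    rw [map_mul, h1, h1] at this
    rw [eq_div_iff (alg_ne (M := M) g.2), this]

theorem columns_wv {m : ℕ} (hkn : m + 1 < n) {i s : ℕ} (hi : i ≤ m + 1) (hs : s ≤ n - (m + 1))
    (c : Fin (m + 1)) :
    (columns hkn (wv m n i s) c).val = if c.val + i < m + 1 then c.val else c.val + s := by
  have := c.isLt
  unfold wv
  split_ifs with h1 h2 h2 <;> simp only [columns]
  · rw [if_pos (by omega)]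
  · rw [if_neg (by omega)]; simp only []; omega
  · omega

theorem main_succ {m : ℕ} (hm : 0 < m) (hkn : m + 1 < n) (hcop : Nat.Coprime (m + 1) n)
    (M : Matrix (Fin (m + 1)) (Fin n) ℂ) (hM : InTopPositroid hkn M) :
    ∃ s, Reach IsMutable (rectSeed hkn) s ∧ ∀ v, NonvanishingAt M (s.x v) := by
  obtain ⟨R, _, α, ψ, φ, h1, h2, h3, h4⟩ := exists_local M
  let v : ℕ → Fin (m + 1) → R := fun j row =>
    if h : j < n then α (MvPolynomial.X (row, ⟨j, h⟩)) else 0
  have hPl : ∀ c : Fin (m + 1) → Fin n, Pl v (fun x => (c x).val) = α (plucker c) := by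
    intro c
    unfold Pl plucker
    rw [RingHom.map_det]
    congr 1
    ext r j
    simp [v]
  have hw : ∀ i s, i ≤ m + 1 → s ≤ n - (m + 1) →
      Pl v (fun c => if c.val + i < m + 1 then c.val else c.val + s) =
        α (plucker (columns hkn (wv m n i s))) := by
    intro i s hi hs
    rw [← hPl]
    simp only [columns_wv hkn hi hs]
  have h0 : Pl v (fun c => c.val) = α (plucker (columns hkn none)) :=
    hPl (columns hkn none)
  have hfr : ∀ u, ¬ IsMutable u → IsUnit (α (plucker (columns hkn u))) :=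
    fun u hu => h3 _ (by rw [h2]; exact frozen_ne hkn hM u hu)
  have fr : ∀ i s, i = m + 1 ∨ s = n - (m + 1) → ¬ IsMutable (wv m n i s) := by
    intro i s h
    unfold wv
    split_ifs with g
    · simp only [IsMutable]; omega
    · exact fun h => h
  obtain ⟨y, W, hy⟩ := exists_torus (N := n - (m + 1)) hm v (fun s hs => by
    have := hw (m + 1) s le_rfl hs
    simp only [show ∀ c : Fin (m + 1), ¬ (c.val + (m + 1) < m + 1) from fun c => by omega,
      if_false] at this
    rw [this]
    exact hfr _ (fr _ _ (Or.inl rfl)))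
  have hG : ∀ u : Rˣ, (ctx hkn M).G (ψ u) := h4
  have one := isG_one (N := n - (m + 1)) hm y
  refine red_seed (ctx hkn M) ψ hG φ h3 (tF m (n - (m + 1)) hm R) (m * (n - (m + 1)))
    (tS m (n - (m + 1)) y) _ _ one one ?_ ?_
  · refine red_knot _ _ (by simp [St.map, tS]) (fun s => ?_) ?_
    · rw [prd_map, pm_map]
      by_cases hs : s ≤ m + 1
      · have e := hy s _ hs le_rfl
        rw [hw s _ hs le_rfl] at e
        have u := (hfr _ (fr s _ (Or.inr rfl))).mul (W (m + 1 + (n - (m + 1)))).isUnit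
        rw [← e, mul_assoc] at u
        exact ((isUnit_of_mul_isUnit_left u).map φ).ne_zero
      · rw [pm_big _ (by omega), map_one]; exact one_ne_zero
    · refine min_torus hm ?_ rfl (fun _ => rfl)
      rw [Nat.coprime_sub_self_left hkn.le]
      exact hcop.symm
  · refine sg_init hm hkn (ctx hkn M) rfl rfl (grid_Vf (ctx hkn M) ψ hG one one)
      (fun j => ψ (W j)) (fun j => hG _) (fun s β hs hb => ?_) (frozen_G hkn hM)
    have e := congrArg ψ (hy s β hs hb)
    rw [hw s β hs hb, h0] at e
    simp only [map_mul, h1] at e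
    have n1 := (ctx hkn M).G_ne (hG (W (m + 1 + β - s)))
    have n2 := (ctx hkn M).G_ne (frozen_G hkn hM none fun h => h)
    refine (eq_div_iff (mul_ne_zero n1 n2)).mpr ?_
    simp only [Vf, Hm, dg, ctx, rectSeed, inv_one, Pi.one_apply, Units.val_one, diagonal_one,
      one_mul, mul_one]
    rw [← e]
    ring

theorem main (hk : 1 ≤ k) (hkn : k < n) (hcop : Nat.Coprime k n)
    (M : Matrix (Fin k) (Fin n) ℂ) (hM : InTopPositroid hkn M) :
    ∃ s, Reach IsMutable (rectSeed hkn) s ∧ ∀ v, NonvanishingAt M (s.x v) := by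
  obtain ⟨m, rfl⟩ : ∃ m, k = m + 1 := ⟨k - 1, by omega⟩
  rcases Nat.eq_zero_or_pos m with h | h
  · refine ⟨_, Relation.ReflTransGen.refl, fun v => frozen_G hkn hM v ?_⟩
    rcases v with _ | ⟨a, b⟩
    · exact fun h => h
    · simp only [IsMutable]; omega
  · exact main_succ h hkn hcop M hM

end Pool.Agent.Lib.MP_53bec5_ag
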