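import Pool.Agent.Lib.MP_53bec5_ag.Levi

/-!
The left-right symmetry: reverse the word and transpose every matrix.
-/

namespace Pool.Agent.Lib.MP_53bec5_ag

open Matrix

variable {k : ℕ} {R : Type} [CommRing R] {C : Type}

def Frame.mir (F : Frame k R) : Frame k R :=
  { l := F.l, i := fun t => F.i (F.l - 1 - t), j := fun t => F.j (F.l - 1 - t),
    hij := fun _ => F.hij _, p := fun t => F.q (F.l - 1 - t), q := fun t => F.p (F.l - 1 - t) }

def mirA (l : ℕ) (A : Finset ℕ) : Finset ℕ := (Finset.range l).filter fun t => l - 1 - t ∈ A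

def St.mir (S : St R) (l : ℕ) : St R :=
  { A := mirA l S.A, z := fun t => S.z (l - 1 - t), d := fun t => S.d (l - 1 - t),
    e := fun t => S.e (l - 1 - t) }

theorem mem_mirA {l t : ℕ} {A : Finset ℕ} (h : t < l) : t ∈ mirA l A ↔ l - 1 - t ∈ A := by
  simp [mirA, h]

theorem mat_mir (F : Frame k R) (S : St R) {t : ℕ} (h : t < F.l) :
    mat F.mir (S.mir F.l) t = mat F.flip S (F.l - 1 - t) := by
  unfold mat
  simp only [St.mir, mem_mirA h]
  rfl

theorem mat_mir_flip (F : Frame k R) (S : St R) {t : ℕ} (h : t < F.l) :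
    mat F.mir.flip (S.mir F.l) t = mat F S (F.l - 1 - t) := by
  unfold mat
  simp only [St.mir, mem_mirA h]
  rfl

theorem sw_mir (F : Frame k R) (A : Finset ℕ) {t : ℕ} (h : t < F.l) :
    sw F.mir (mirA F.l A) t = sw F A (F.l - 1 - t) := by
  unfold sw
  simp only [mem_mirA h]
  rfl

theorem RStep.mir {F : Frame k R} {S S' : St R} {t : ℕ} (h : t < F.l)
    {U U' : Matrix (Fin k) (Fin k) R} (st : RStep F.flip S S' (F.l - 1 - t) U U') :
    RStep F.mir (S.mir F.l) (S'.mir F.l) t U U' :=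
  ⟨st.ut, st.ut', by rw [mat_mir F S h, mat_mir F S' h]; exact st.eq,
    by simp only [St.mir, mem_mirA h]; exact st.al, st.hd, st.he⟩

theorem RStep.mir_flip {F : Frame k R} {S S' : St R} {t : ℕ} (h : t < F.l)
    {U U' : Matrix (Fin k) (Fin k) R} (st : RStep F S S' (F.l - 1 - t) U U') :
    RStep F.mir.flip (S.mir F.l) (S'.mir F.l) t U U' :=
  ⟨st.ut, st.ut', by rw [mat_mir_flip F S h, mat_mir_flip F S' h]; exact st.eq,
    by simp only [St.mir, mem_mirA h]; exact st.al, st.hd, st.he⟩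

theorem mirA_erase {l c : ℕ} (hc : c < l) (A : Finset ℕ) :
    mirA l (A.erase c) = (mirA l A).erase (l - 1 - c) := by
  ext t
  simp only [mirA, Finset.mem_filter, Finset.mem_range, Finset.mem_erase]
  constructor
  · rintro ⟨h1, h2, h3⟩; exact ⟨by omega, h1, h3⟩
  · rintro ⟨h1, h2, h3⟩; exact ⟨h2, by omega, h3⟩

theorem Pinch.mir {F : Frame k R} {S S' : St R} {c : ℕ} (h : Pinch F S c S') :
    Pinch F.mir (S.mir F.l) (F.l - 1 - c) (S'.mir F.l) := by
  obtain ⟨U, hU0, hU⟩ := h.right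
  obtain ⟨W, hW0, hW⟩ := h.left
  have hc := h.lt
  have e : F.l - 1 - (F.l - 1 - c) = c := by omega
  refine ⟨by change _ < F.l; omega, ?_, ?_, ?_, ?_, ⟨fun t => W (F.l - t), ?_, ?_⟩,
    ⟨fun t => U (F.l - t), ?_, ?_⟩⟩
  · simp only [St.mir]; rw [mem_mirA (by omega), e]; exact h.mem
  · simp only [St.mir]; rw [h.hA, mirA_erase hc]
  · simp only [St.mir, e]; exact h.hd
  · simp only [St.mir, Frame.mir, e]; rw [h.he, mul_comm]
  · simp only [St.mir, Frame.mir, e]
    rw [show F.l - (F.l - 1 - c + 1) = c by omega]; exact hW0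
  · intro t h1 h2
    change t < F.l at h2
    refine RStep.mir h2 ?_
    have := hW (F.l - 1 - t) (by omega)
    rwa [show F.l - 1 - t + 1 = F.l - t by omega, show W (F.l - 1 - t) = W (F.l - (t + 1)) by
      congr 1; omega] at this
  · simp only [St.mir, Frame.mir, e]
    rw [show F.l - (F.l - 1 - c) = c + 1 by omega]; exact hU0
  · intro t h1
    refine RStep.mir_flip (by omega) ?_
    have := hU (F.l - 1 - t) (by omega) (by omega)
    rwa [show F.l - 1 - t + 1 = F.l - t by omega, show U (F.l - 1 - t) = U (F.l - (t + 1)) by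
      congr 1; omega] at this

theorem Flow.mir {F : Frame k R} {A : Finset ℕ} {χ : ℕ → Fin k → C} (h : Flow F A χ 0 F.l) :
    Flow F.mir (mirA F.l A) (fun t => χ (F.l - t)) 0 F.mir.l := by
  intro t _ h2 u
  change t < F.l at h2
  rw [sw_mir F A h2]
  have := col_symm (h (F.l - 1 - t) (by omega) (by omega)) u
  rw [show F.l - 1 - t + 1 = F.l - t by omega] at this
  simp only
  rw [← this, show F.l - (t + 1) = F.l - 1 - t by omega]

theorem Sep.mir {F : Frame k R} {S : St R} {χ : ℕ → Fin k → C} (hχ : Flow F S.A χ 0 F.l)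
    (h : Sep F S χ) : Sep F.mir (S.mir F.l) (fun t => χ (F.l - t)) := by
  intro t h2 hm hz
  change t < F.l at h2
  have hm' : F.l - 1 - t ∈ S.A := (mem_mirA h2).mp hm
  have e : χ (F.l - 1 - t) _ = χ (F.l - 1 - t) _ := h (F.l - 1 - t) (by omega) hm' hz
  have f := hχ (F.l - 1 - t) (by omega) (by omega)
  change χ (F.l - t) (F.i (F.l - 1 - t)) = χ (F.l - t) (F.j (F.l - 1 - t))
  rw [show F.l - t = F.l - 1 - t + 1 by omega, col_i f hm', col_j f hm', e]

theorem SameLetter.of_mir {F : Frame k R} {S S' : St R} {χ : ℕ → Fin k → C} {t : ℕ}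
    (ht : t < F.l) (hχ : ∀ u, χ (t + 1) (sw F S.A t u) = χ t u)
    (h : SameLetter F.mir (S.mir F.l) (S'.mir F.l) (F.l - 1 - t) (χ (F.l - (F.l - 1 - t)))) :
    SameLetter F S S' t (χ t) := by
  have e : F.l - 1 - (F.l - 1 - t) = t := by omega
  have hl : F.l - 1 - t < F.l := by omega
  have m : ∀ T : St R, F.l - 1 - t ∈ (T.mir F.l).A ↔ t ∈ T.A := by
    intro T; simp only [St.mir]; rw [mem_mirA hl, e]
  refine ⟨by rw [← m, ← m]; exact h.al, fun hm ec => ?_, fun hm => ?_, fun hm => ?_⟩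
  · have := h.hz ((m S).mpr hm) (by
      simp only [Frame.mir, e]
      rw [show F.l - (F.l - 1 - t) = t + 1 by omega, col_i hχ hm, col_j hχ hm, ec])
    simpa only [St.mir, e] using this
  · have := h.hd (fun h' => hm ((m S).mp h'))
    simpa only [St.mir, e] using this
  · have := h.he (fun h' => hm ((m S).mp h'))
    simpa only [St.mir, e] using this

theorem levi_commute' {F : Frame k R} {S Sc Sy Scy : St R} {c y : ℕ} (hcy : c ≠ y)
    (pc : Pinch F S c Sc) (py : Pinch F S y Sy) (pcy : Pinch F Sc y Scy)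
    {χ : ℕ → Fin k → C} (hχ : Flow F Sc.A χ 0 F.l)
    (hne : χ c (F.i c) ≠ χ c (F.j c)) (hs : Sep F Sc χ) (hy : χ y (F.i y) = χ y (F.j y)) :
    Sy.z c = S.z c ∧ ∀ Syc, Pinch F Sy c Syc →
      ∀ t, t < F.l → t ≠ c → t ≠ y → SameLetter F Syc Scy t (χ t) := by
  rcases lt_or_gt_of_ne hcy with h | h
  · exact levi_commute h pc py pcy hχ hne hs hy
  · have hcl := pc.lt
    have hyl := py.lt
    have ec : F.l - 1 - (F.l - 1 - c) = c := by omega
    have ey : F.l - 1 - (F.l - 1 - y) = y := by omega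
    have key := levi_commute (c := F.l - 1 - c) (y := F.l - 1 - y) (by omega) pc.mir py.mir
      pcy.mir (χ := fun t => χ (F.l - t)) hχ.mir
      (by
        simp only [Frame.mir, ec]
        rw [show F.l - (F.l - 1 - c) = c + 1 by omega,
          col_dead (hχ c (by omega) hcl) pc.not_mem, col_dead (hχ c (by omega) hcl) pc.not_mem]
        exact hne)
      (hs.mir hχ)
      (by
        simp only [Frame.mir, ey]
        rw [show F.l - (F.l - 1 - y) = y + 1 by omega,
          col_i (hχ y (by omega) hyl) pcy.mem, col_j (hχ y (by omega) hyl) pcy.mem, hy])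
    refine ⟨by simpa only [St.mir, ec] using key.1, fun Syc pyc t ht h1 h2 => ?_⟩
    have := key.2 _ pyc.mir (F.l - 1 - t) (by change _ < F.l; omega) (by omega) (by omega)
    refine SameLetter.of_mir ht ?_ this
    rw [sw_congr (A' := Sc.A) ((pyc.mem_iff h1).symm.trans
      ((py.mem_iff h2).symm.trans (pc.mem_iff h1)))]
    exact hχ t (by omega) ht

end Pool.Agent.Lib.MP_53bec5_ag
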