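import Pool.Agent.Lib.MP_53bec5_ag.Mirror

/-!
Sliding an elementary matrix along two strands, and the two small configurations.
-/

namespace Pool.Agent.Lib.MP_53bec5_ag

open Matrix

variable {k : ℕ} {K : Type} [Field K]

/-- `s` follows a strand on the time interval from `a` to `b`. -/
def Str {R : Type} [CommRing R] (F : Frame k R) (A : Finset ℕ) (s : ℕ → Fin k) (a b : ℕ) : Prop :=
  ∀ t, a ≤ t → t < b → s (t + 1) = sw F A t (s t)

theorem blk_eq_single {i j : Fin k} (hij : i ≠ j) (b : K) :
    blk i j (1 : K) b 0 1 = 1 + Matrix.single i j b := by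
  ext u v
  simp only [blk, Matrix.add_apply, one_apply, Matrix.single_apply]
  by_cases h1 : u = i <;> by_cases h2 : u = j <;> by_cases h3 : v = i <;> by_cases h4 : v = j <;>
    simp_all [eq_comm]

theorem col_minv (F : Frame k K) (S : St K) (t : ℕ) (α : Fin k)
    (h : t ∈ S.A → S.z t = 0 ∨ α ≠ F.j t) :
    ∃ a : K, a ≠ 0 ∧ ∀ u, minv F S t u α = if u = sw F S.A t α then a else 0 := by
  have hne := F.ne t
  unfold minv sw
  by_cases ht : t ∈ S.A
  · simp only [if_pos ht]
    by_cases h1 : α = F.i t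
    · refine ⟨((F.p t)⁻¹ : Kˣ), Units.ne_zero _, fun u => ?_⟩
      simp only [blk, h1, Equiv.swap_apply_left]
      by_cases h2 : u = F.i t <;> by_cases h3 : u = F.j t <;> simp_all
    · by_cases h2 : α = F.j t
      · have hz : S.z t = 0 := (h ht).resolve_right (fun h' => h' h2)
        refine ⟨((F.q t)⁻¹ : Kˣ), Units.ne_zero _, fun u => ?_⟩
        simp only [blk, h2, Equiv.swap_apply_right, hz]
        clear hz h
        by_cases h2 : u = F.i t <;> by_cases h3 : u = F.j t <;> simp_all [eq_comm]
      · refine ⟨1, one_ne_zero, fun u => ?_⟩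
        simp only [blk, Equiv.swap_apply_of_ne_of_ne h1 h2]
        by_cases h3 : u = F.i t <;> by_cases h4 : u = F.j t <;> simp_all [eq_comm]
  · simp only [if_neg ht, Equiv.Perm.coe_one, id]
    by_cases h1 : α = F.i t
    · refine ⟨((S.d t)⁻¹ : Kˣ), Units.ne_zero _, fun u => ?_⟩
      simp only [blk, h1]
      by_cases h2 : u = F.i t <;> by_cases h3 : u = F.j t <;> simp_all
    · by_cases h2 : α = F.j t
      · refine ⟨((S.e t)⁻¹ : Kˣ), Units.ne_zero _, fun u => ?_⟩
        simp only [blk, h2]
        by_cases h2 : u = F.i t <;> by_cases h3 : u = F.j t <;> simp_all [eq_comm]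
      · refine ⟨1, one_ne_zero, fun u => ?_⟩
        simp only [blk]
        by_cases h3 : u = F.i t <;> by_cases h4 : u = F.j t <;> simp_all [eq_comm]

theorem row_mat (F : Frame k K) (S : St K) (t : ℕ) (β : Fin k)
    (h : t ∈ S.A → S.z t = 0 ∨ β ≠ F.i t) :
    ∃ b : K, b ≠ 0 ∧ ∀ v, mat F S t β v = if v = sw F S.A t β then b else 0 := by
  have hne := F.ne t
  unfold mat sw
  by_cases ht : t ∈ S.A
  · simp only [if_pos ht]
    by_cases h1 : β = F.i t
    · have hz : S.z t = 0 := (h ht).resolve_right (fun h' => h' h1)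
      refine ⟨F.p t, Units.ne_zero _, fun u => ?_⟩
      simp only [blk, h1, Equiv.swap_apply_left, hz]
      by_cases h2 : u = F.i t <;> by_cases h3 : u = F.j t <;> simp_all
    · by_cases h2 : β = F.j t
      · refine ⟨F.q t, Units.ne_zero _, fun u => ?_⟩
        simp only [blk, h2, Equiv.swap_apply_right]
        by_cases h2 : u = F.i t <;> by_cases h3 : u = F.j t <;> simp_all [eq_comm]
      · refine ⟨1, one_ne_zero, fun u => ?_⟩
        simp only [blk, Equiv.swap_apply_of_ne_of_ne h1 h2]
        simp_all [eq_comm]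
  · simp only [if_neg ht, Equiv.Perm.coe_one, id]
    by_cases h1 : β = F.i t
    · refine ⟨S.d t, Units.ne_zero _, fun u => ?_⟩
      simp only [blk, h1]
      by_cases h2 : u = F.i t <;> by_cases h3 : u = F.j t <;> simp_all
    · by_cases h2 : β = F.j t
      · refine ⟨S.e t, Units.ne_zero _, fun u => ?_⟩
        simp only [blk, h2]
        by_cases h2 : u = F.i t <;> by_cases h3 : u = F.j t <;> simp_all [eq_comm]
      · refine ⟨1, one_ne_zero, fun u => ?_⟩
        simp only [blk]
        simp_all [eq_comm]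

theorem RStep.mat_eq {F : Frame k K} {S S' : St K} {t : ℕ} {U U' : Matrix (Fin k) (Fin k) K}
    (h : RStep F S S' t U U') (hz : t ∈ S.A → S'.z t = S.z t) : minv F S' t = minv F S t := by
  unfold minv
  by_cases ht : t ∈ S.A
  · rw [if_pos ht, if_pos (h.al.mp ht), hz ht]
  · rw [if_neg ht, if_neg (fun h' => ht (h.al.mpr h')), h.hd, h.he]

theorem RStep.single {F : Frame k K} {S S' : St K} {t : ℕ} {U U' : Matrix (Fin k) (Fin k) K}
    (h : RStep F S S' t U U') {α β : Fin k} {ν : K} (hν : ν ≠ 0)
    (hU : U = 1 + Matrix.single α β ν) (h1 : t ∈ S.A → ¬ (α = F.i t ∧ β = F.j t))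
    (h2 : t ∈ S.A → S'.z t = 0 ∨ (α ≠ F.j t ∧ β ≠ F.i t)) :
    (t ∈ S.A → S'.z t = S.z t) ∧
      ∃ ν' : K, ν' ≠ 0 ∧ U' = 1 + Matrix.single (sw F S.A t α) (sw F S.A t β) ν' := by
  have hz : t ∈ S.A → S'.z t = S.z t := by
    intro ht
    rw [h.z_eq ht, hU, Matrix.add_apply, one_apply_ne (F.ne t), Matrix.single_apply, if_neg (h1 ht)]
    simp
  refine ⟨hz, ?_⟩
  obtain ⟨a, ha, hca⟩ := col_minv F S t α
    (fun ht => (h2 ht).imp (fun e => by rw [← hz ht, e]) And.left)
  obtain ⟨b, hb, hrb⟩ := row_mat F S t β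
    (fun ht => (h2 ht).imp (fun e => by rw [← hz ht, e]) And.right)
  refine ⟨a * ν * b, mul_ne_zero (mul_ne_zero ha hν) hb, ?_⟩
  rw [h.U_eq, h.mat_eq hz, hU, mul_add, mul_one, add_mul, minv_mul_mat]
  congr 1
  ext u v
  rw [Matrix.mul_apply, Finset.sum_eq_single β]
  · rw [Matrix.mul_single_apply_same, hca, hrb, Matrix.single_apply]
    by_cases e1 : u = sw F S.A t α <;> by_cases e2 : v = sw F S.A t β <;> simp [e1, e2, eq_comm]
  · intro w _ hw
    rw [Matrix.mul_single_apply_of_ne _ _ _ _ _ hw, zero_mul]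
  · simp

theorem chain_single {F : Frame k K} {S S' : St K} {U : ℕ → Matrix (Fin k) (Fin k) K} {a b : ℕ}
    (hU : ∀ t, a ≤ t → t < b → RStep F S S' t (U t) (U (t + 1))) {α β : ℕ → Fin k}
    (hα : Str F S.A α a b) (hβ : Str F S.A β a b)
    (h0 : ∃ ν : K, ν ≠ 0 ∧ U a = 1 + Matrix.single (α a) (β a) ν)
    (h1 : ∀ t, a ≤ t → t < b → t ∈ S.A → ¬ (α t = F.i t ∧ β t = F.j t))
    (h2 : ∀ t, a ≤ t → t < b → t ∈ S.A → S'.z t = 0 ∨ (α t ≠ F.j t ∧ β t ≠ F.i t)) :
    (∀ t, a ≤ t → t ≤ b → ∃ ν : K, ν ≠ 0 ∧ U t = 1 + Matrix.single (α t) (β t) ν) ∧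
      ∀ t, a ≤ t → t < b → t ∈ S.A → S'.z t = S.z t := by
  have h : ∀ t, a ≤ t → t ≤ b → ∃ ν : K, ν ≠ 0 ∧ U t = 1 + Matrix.single (α t) (β t) ν :=
    up_ind h0 fun t x y ⟨ν, hν, e⟩ => by
      rw [hα t x y, hβ t x y]
      exact ((hU t x y).single hν e (h1 t x y) (h2 t x y)).2
  refine ⟨h, fun t x y => ?_⟩
  obtain ⟨ν, hν, e⟩ := h t x y.le
  exact ((hU t x y).single hν e (h1 t x y) (h2 t x y)).1

theorem RStep.absorb {F : Frame k K} {S S' : St K} {t : ℕ} {U U' : Matrix (Fin k) (Fin k) K}
    (h : RStep F S S' t U U') (ht : t ∈ S.A) {α β : Fin k} {ν : K} (hν : ν ≠ 0)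
    (hU : U = 1 + Matrix.single α β ν)
    (hx : (α = F.i t ∧ β = F.j t) ∨ (α = F.j t ∧ β = F.i t)) : S'.z t ≠ S.z t ∧ U' = 1 := by
  have hne := F.ne t
  rcases hx with ⟨h1, h2⟩ | ⟨h1, h2⟩
  · have hz : S'.z t = S.z t + ν * F.q t := by
      rw [h.z_eq ht, hU, h1, h2, Matrix.add_apply, one_apply_ne hne, Matrix.single_apply_same,
        zero_add]
    refine ⟨?_, ?_⟩
    · rw [hz]; simp [hν]
    · have e : U * mat F S t = mat F S' t := by
        rw [hU, h1, h2, ← blk_eq_single hne]
        simp only [mat, if_pos ht, if_pos (h.al.mp ht), blk_mul_blk hne, hz]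
        simp
      rw [h.U_eq, mul_assoc, e, minv_mul_mat]
  · exfalso
    have := h.ut.lower (F.lt t)
    rw [hU, h1, h2, Matrix.add_apply, one_apply_ne hne.symm, Matrix.single_apply_same,
      zero_add] at this
    exact hν this

theorem chain_trivial {F : Frame k K} {S S' : St K} {U : ℕ → Matrix (Fin k) (Fin k) K} {a b : ℕ}
    (hU : ∀ t, a ≤ t → t < b → RStep F S S' t (U t) (U (t + 1))) (h0 : U a = 1) :
    ∀ t, a ≤ t → t < b → t ∈ S.A → S'.z t = S.z t := by
  have key : ∀ t, a ≤ t → t < b → U t = 1 → t ∈ S.A → S'.z t = S.z t := by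
    intro t x y e ht
    rw [(hU t x y).z_eq ht, e, one_apply_ne (F.ne t)]; simp
  have h : ∀ t, a ≤ t → t ≤ b → U t = 1 := up_ind h0 fun t x y e => by
    rw [(hU t x y).U_eq, (hU t x y).mat_eq (key t x y e), e, mul_one, minv_mul_mat]
  exact fun t x y => key t x y (h t x y.le)

theorem Pinch.start {F : Frame k K} {S S' : St K} {c : ℕ} (h : Pinch F S c S') :
    ∃ U : ℕ → Matrix (Fin k) (Fin k) K,
      (∃ ν : K, ν ≠ 0 ∧ U (c + 1) = 1 + Matrix.single (F.i c) (F.j c) ν) ∧
        ∀ t, c + 1 ≤ t → t < F.l → RStep F S S' t (U t) (U (t + 1)) := by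
  obtain ⟨U, hU0, hU⟩ := h.right
  exact ⟨U, ⟨_, mul_ne_zero (Units.ne_zero _) (Units.ne_zero _), by
    rw [hU0, blk_eq_single (F.ne c)]⟩, fun t x y => hU t x y⟩

section order

variable {R : Type} [CommRing R] {F : Frame k R} {A : Finset ℕ}

theorem sw_lt {t : ℕ} {u v : Fin k} (h : u < v) (hn : ¬ (t ∈ A ∧ u = F.i t ∧ v = F.j t)) :
    sw F A t u < sw F A t v := by
  unfold sw
  split_ifs with ht
  · have hij := F.hij t
    simp only [ht, true_and] at hn
    simp only [Equiv.swap_apply_def]
    rw [Fin.lt_def] at h ⊢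
    simp only [Fin.ext_iff] at hn ⊢
    split_ifs <;> omega
  · exact h

theorem Str.lt {u v : ℕ → Fin k} {a b : ℕ} (hu : Str F A u a b) (hv : Str F A v a b)
    (hn : ∀ t, a ≤ t → t < b → ¬ (t ∈ A ∧ u t = F.i t ∧ v t = F.j t)) (h : u a < v a) :
    ∀ t, a ≤ t → t ≤ b → u t < v t :=
  up_ind h fun t x y ih => by rw [hu t x y, hv t x y]; exact sw_lt ih (hn t x y)

theorem Str.mono {u : ℕ → Fin k} {a b a' b' : ℕ} (hu : Str F A u a b) (ha : a ≤ a') (hb : b' ≤ b) :
    Str F A u a' b' := fun t x y => hu t (by omega) (by omega)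

theorem Str.ne {u v : ℕ → Fin k} {a b : ℕ} (hu : Str F A u a b) (hv : Str F A v a b)
    (h : u a ≠ v a) : ∀ t, a ≤ t → t ≤ b → u t ≠ v t :=
  up_ind h fun t x y ih => by
    rw [hu t x y, hv t x y]; exact fun e => ih ((sw F A t).injective e)

theorem Str.lt_iff {u v : ℕ → Fin k} {a b : ℕ} (hu : Str F A u a b) (hv : Str F A v a b)
    (hn : ∀ t, a ≤ t → t < b → ¬ (t ∈ A ∧ u t = F.i t ∧ v t = F.j t))
    (hn' : ∀ t, a ≤ t → t < b → ¬ (t ∈ A ∧ v t = F.i t ∧ u t = F.j t)) (h : u a ≠ v a) :
    ∀ t, a ≤ t → t ≤ b → (u t < v t ↔ u a < v a) := by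
  intro t x y
  refine ⟨fun h1 => ?_, fun h1 => hu.lt hv hn h1 t x y⟩
  rcases lt_or_gt_of_ne h with h2 | h2
  · exact h2
  · exact absurd h1 (not_lt.mpr (hv.lt hu hn' h2 t x y).le)

theorem sw_i {t : ℕ} (ht : t ∈ A) : sw F A t (F.i t) = F.j t := by simp [sw, ht]

theorem sw_j {t : ℕ} (ht : t ∈ A) : sw F A t (F.j t) = F.i t := by simp [sw, ht]

theorem sw_o {t : ℕ} {u : Fin k} (h1 : u ≠ F.i t) (h2 : u ≠ F.j t) : sw F A t u = u := by
  unfold sw; split_ifs
  · exact Equiv.swap_apply_of_ne_of_ne h1 h2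
  · rfl

theorem sw_dead {t : ℕ} (ht : t ∉ A) (u : Fin k) : sw F A t u = u := by simp [sw, ht]

end order

/-- The configuration of three closed strands. -/
theorem config_three {F : Frame k K} {S Sc Sy : St K} {c y x : ℕ} (pc : Pinch F S c Sc)
    (py : Pinch F S y Sy) (hcy : c < y) (hyx : y < x) (hxl : x < F.l) (hxA : x ∈ S.A)
    {u s s' : ℕ → Fin k} (hu : Str F ((S.A.erase c).erase y) u 0 F.l)
    (hs : Str F ((S.A.erase c).erase y) s 0 F.l) (hs' : Str F ((S.A.erase c).erase y) s' 0 F.l)
    (hc : (u c = F.i c ∧ s c = F.j c) ∨ (u c = F.j c ∧ s c = F.i c))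
    (hy : (u y = F.i y ∧ s' y = F.j y) ∨ (u y = F.j y ∧ s' y = F.i y))
    (side : (∀ t, t ≤ F.l → u t < s t ∧ u t < s' t) ∨ (∀ t, t ≤ F.l → s t < u t ∧ s' t < u t))
    (hss : s y ≠ s' y)
    (hx : (s x = F.i x ∧ s' x = F.j x) ∨ (s x = F.j x ∧ s' x = F.i x))
    (hno : ∀ t, y < t → t < x → t ∈ S.A →
      ¬ (s t = F.i t ∧ s' t = F.j t) ∧ ¬ (s' t = F.i t ∧ s t = F.j t))
    (hz : ∀ t, t < F.l → t ∈ S.A → t ≠ c → t ≠ y →
      (u t = F.i t ∨ u t = F.j t ∨ s t = F.i t ∨ s t = F.j t ∨ s' t = F.i t ∨ s' t = F.j t) →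
        Sc.z t = 0 ∧ Sy.z t = 0) : False := by
  obtain ⟨U1, h10, h1⟩ := pc.start
  obtain ⟨U2, h20, h2⟩ := py.start
  have hyA := py.mem
  have hB : ∀ t, t ≠ c → t ≠ y → sw F ((S.A.erase c).erase y) t = sw F S.A t :=
    fun t a b => sw_congr (by simp [a, b])
  have hBc : c ∉ (S.A.erase c).erase y := by simp
  have hBy : y ∉ (S.A.erase c).erase y := by simp
  have dc : ∀ w : ℕ → Fin k, Str F ((S.A.erase c).erase y) w 0 F.l → w (c + 1) = w c :=
    fun w hw => by rw [hw c (by omega) (by omega), sw_dead hBc]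
  have dy : ∀ w : ℕ → Fin k, Str F ((S.A.erase c).erase y) w 0 F.l → w (y + 1) = w y :=
    fun w hw => by rw [hw y (by omega) (by omega), sw_dead hBy]
  have st : ∀ w : ℕ → Fin k, Str F ((S.A.erase c).erase y) w 0 F.l → ∀ t, c < t → t < F.l →
      t ≠ y → w (t + 1) = sw F S.A t (w t) :=
    fun w hw t a b d => by rw [hw t (by omega) b, hB t (by omega) d]
  have nx : ∀ v w : ℕ → Fin k, Str F ((S.A.erase c).erase y) v 0 F.l →
      Str F ((S.A.erase c).erase y) w 0 F.l → (∀ t, t ≤ F.l → v t < w t) →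
      ∀ t, c < t → t < F.l → t ≠ y → t ∈ S.A → ¬ (v t = F.i t ∧ w t = F.j t) := by
    rintro v w hv hw hlt t a b d ht ⟨e1, e2⟩
    have := hlt (t + 1) b
    rw [st v hv t a b d, st w hw t a b d, e1, e2, sw_i ht, sw_j ht] at this
    exact absurd this (not_lt.mpr (F.lt t).le)
  have hzx := hz x hxl hxA (by omega) (by omega)
    (Or.inr (Or.inr (hx.elim (fun h => Or.inl h.1) (fun h => Or.inr (Or.inl h.1)))))
  have hly := F.lt y
  have hlc := F.lt c
  rcases side with side | side
  · have hc' : u c = F.i c ∧ s c = F.j c := by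
      rcases hc with h | h
      · exact h
      · have := (side c (by omega)).1
        rw [h.1, h.2] at this; exact absurd this (not_lt.mpr hlc.le)
    have hy' : u y = F.i y ∧ s' y = F.j y := by
      rcases hy with h | h
      · exact h
      · have := (side y (by omega)).2
        rw [h.1, h.2] at this; exact absurd this (not_lt.mpr hly.le)
    have hsi : s y ≠ F.i y := by rw [← hy'.1]; exact (side y (by omega)).1.ne'
    have hsj : s y ≠ F.j y := by rw [← hy'.2]; exact hss
    obtain ⟨ν, hν, e⟩ := (chain_single (a := c + 1) (b := x) (fun t a b => h1 t a (by omega))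
      (α := fun t => if t ≤ y then u t else s' t) (β := s)
      (by
        intro t a b
        rcases lt_trichotomy t y with h | h | h
        · simp only [if_pos h.le, if_pos (show t + 1 ≤ y from h)]
          exact st u hu t a (by omega) h.ne
        · subst h
          simp only [le_refl, if_true, if_neg (show ¬ t + 1 ≤ t by omega)]
          rw [dy s' hs', hy'.1, hy'.2, sw_i hyA]
        · simp only [if_neg (show ¬ t ≤ y by omega), if_neg (show ¬ t + 1 ≤ y by omega)]
          exact st s' hs' t a (by omega) h.ne')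
      (by
        intro t a b
        by_cases h : t = y
        · subst h; rw [dy s hs, sw_o hsi hsj]
        · exact st s hs t a (by omega) h)
      (by simp only [if_pos (show c + 1 ≤ y from hcy), dc u hu, dc s hs, hc'.1, hc'.2]; exact h10)
      (by
        intro t a b ht
        rcases lt_trichotomy t y with h | h | h
        · simp only [if_pos h.le]
          exact nx u s hu hs (fun t a => (side t a).1) t a (by omega) h.ne ht
        · subst h; exact fun e => hsj e.2
        · simp only [if_neg (show ¬ t ≤ y by omega)]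
          exact (hno t h b ht).2)
      (by
        intro t a b ht
        by_cases h : t = y
        · subst h
          simp only [le_refl, if_true]
          exact Or.inr ⟨by rw [hy'.1]; exact hly.ne, hsi⟩
        · by_contra hcon
          push Not at hcon
          refine hcon.1 (hz t (by omega) ht (by omega) h ?_).1
          by_cases h3 : (if t ≤ y then u t else s' t) = F.j t
          · split_ifs at h3
            · exact Or.inr (Or.inl h3)
            · exact Or.inr (Or.inr (Or.inr (Or.inr (Or.inr h3))))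
          · exact Or.inr (Or.inr (Or.inl (hcon.2 h3))))).1 x (by omega) le_rfl
    simp only [if_neg (show ¬ x ≤ y by omega)] at e
    have a1 := ((h1 x (by omega) hxl).absorb hxA hν e
      (hx.symm.imp And.symm And.symm)).1
    have a2 := (chain_single (a := y + 1) (b := x + 1) (fun t a b => h2 t a (by omega))
      (α := u) (β := s') (fun t a b => st u hu t (by omega) (by omega) (by omega))
      (fun t a b => st s' hs' t (by omega) (by omega) (by omega))
      (by rw [dy u hu, dy s' hs', hy'.1, hy'.2]; exact h20)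
      (fun t a b ht => nx u s' hu hs' (fun t a => (side t a).2) t (by omega) (by omega)
        (by omega) ht)
      (by
        intro t a b ht
        by_contra hcon
        push Not at hcon
        refine hcon.1 (hz t (by omega) ht (by omega) (by omega) ?_).2
        by_cases h3 : u t = F.j t
        · exact Or.inr (Or.inl h3)
        · exact Or.inr (Or.inr (Or.inr (Or.inr (Or.inl (hcon.2 h3))))))).2 x (by omega)
      (by omega) hxA
    exact a1 (by rw [hzx.1, ← a2, hzx.2])
  · have hc' : u c = F.j c ∧ s c = F.i c := by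
      rcases hc with h | h
      · have := (side c (by omega)).1
        rw [h.1, h.2] at this; exact absurd this (not_lt.mpr hlc.le)
      · exact h
    have hy' : u y = F.j y ∧ s' y = F.i y := by
      rcases hy with h | h
      · have := (side y (by omega)).2
        rw [h.1, h.2] at this; exact absurd this (not_lt.mpr hly.le)
      · exact h
    have hsj : s y ≠ F.j y := by rw [← hy'.1]; exact (side y (by omega)).1.ne
    have hsi : s y ≠ F.i y := by rw [← hy'.2]; exact hss
    obtain ⟨ν, hν, e⟩ := (chain_single (a := c + 1) (b := x) (fun t a b => h1 t a (by omega))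
      (α := s) (β := fun t => if t ≤ y then u t else s' t)
      (by
        intro t a b
        by_cases h : t = y
        · subst h; rw [dy s hs, sw_o hsi hsj]
        · exact st s hs t a (by omega) h)
      (by
        intro t a b
        rcases lt_trichotomy t y with h | h | h
        · simp only [if_pos h.le, if_pos (show t + 1 ≤ y from h)]
          exact st u hu t a (by omega) h.ne
        · subst h
          simp only [le_refl, if_true, if_neg (show ¬ t + 1 ≤ t by omega)]
          rw [dy s' hs', hy'.1, hy'.2, sw_j hyA]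
        · simp only [if_neg (show ¬ t ≤ y by omega), if_neg (show ¬ t + 1 ≤ y by omega)]
          exact st s' hs' t a (by omega) h.ne')
      (by simp only [if_pos (show c + 1 ≤ y from hcy), dc u hu, dc s hs, hc'.1, hc'.2]; exact h10)
      (by
        intro t a b ht
        rcases lt_trichotomy t y with h | h | h
        · simp only [if_pos h.le]
          exact nx s u hs hu (fun t a => (side t a).1) t a (by omega) h.ne ht
        · subst h; exact fun e => hsi e.1
        · simp only [if_neg (show ¬ t ≤ y by omega)]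
          exact (hno t h b ht).1)
      (by
        intro t a b ht
        by_cases h : t = y
        · subst h
          simp only [le_refl, if_true]
          exact Or.inr ⟨hsj, by rw [hy'.1]; exact hly.ne'⟩
        · by_contra hcon
          push Not at hcon
          refine hcon.1 (hz t (by omega) ht (by omega) h ?_).1
          by_cases h3 : s t = F.j t
          · exact Or.inr (Or.inr (Or.inr (Or.inl h3)))
          · have := hcon.2 h3
            split_ifs at this
            · exact Or.inl this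
            · exact Or.inr (Or.inr (Or.inr (Or.inr (Or.inl this)))))).1 x (by omega) le_rfl
    simp only [if_neg (show ¬ x ≤ y by omega)] at e
    have a1 := ((h1 x (by omega) hxl).absorb hxA hν e hx).1
    have a2 := (chain_single (a := y + 1) (b := x + 1) (fun t a b => h2 t a (by omega))
      (α := s') (β := u) (fun t a b => st s' hs' t (by omega) (by omega) (by omega))
      (fun t a b => st u hu t (by omega) (by omega) (by omega))
      (by rw [dy u hu, dy s' hs', hy'.1, hy'.2]; exact h20)
      (fun t a b ht => nx s' u hs' hu (fun t a => (side t a).2) t (by omega) (by omega)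
        (by omega) ht)
      (by
        intro t a b ht
        by_contra hcon
        push Not at hcon
        refine hcon.1 (hz t (by omega) ht (by omega) (by omega) ?_).2
        by_cases h3 : s' t = F.j t
        · exact Or.inr (Or.inr (Or.inr (Or.inr (Or.inr h3))))
        · exact Or.inl (hcon.2 h3))).2 x (by omega) (by omega) hxA
    exact a1 (by rw [hzx.1, ← a2, hzx.2])

end Pool.Agent.Lib.MP_53bec5_ag
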