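import Pool.Agent.Lib.MP_53bec5_ag.Grid

/-!
The rectangles seed is described by the word of a torus braid.
-/

namespace Pool.Agent.Lib.MP_53bec5_ag

set_option linter.unusedSectionVars false

section general

variable {ι K : Type} [Fintype ι] [DecidableEq ι] [Field K]

theorem Cm_range (e : ℕ → Tr K × ι) (cur : ℕ → ℕ → Option ι)
    (h : ∀ t, cur (t + 1) = stC (cur t) (e t)) (u v : ι) : ∀ n c,
    Cm (cur c) ((List.range' c n).map e) u v =
      ∑ t ∈ Finset.range n, cC (cur (c + t)) (e (c + t)) u v
  | 0, c => by simp [Cm]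
  | n + 1, c => by
    rw [List.range'_succ, List.map_cons, Cm, ← h, Cm_range e cur h u v n (c + 1),
      Finset.sum_range_succ', add_comm]
    simp only [add_zero, add_assoc, add_comm 1]

theorem Ym_range (e : ℕ → Tr K × ι) (cur : ℕ → ℕ → Option ι) (val : ℕ → ℕ → K) (l : ℕ)
    (h : ∀ t, cur (t + 1) = stC (cur t) (e t)) (h' : ∀ t, t < l → val (t + 1) = stV (val t) (e t).1)
    (v : ι) : ∀ n c, c + n ≤ l →
    Ym (val c) (cur c) ((List.range' c n).map e) v =
      ∏ t ∈ Finset.range n, cY (val (c + t)) (cur (c + t)) (e (c + t)) v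
  | 0, c, _ => by simp [Ym]
  | n + 1, c, hl => by
    rw [List.range'_succ, List.map_cons, Ym, ← h, ← h' c (by omega),
      Ym_range e cur val l h h' v n (c + 1) (by omega), Finset.prod_range_succ', mul_comm]
    simp only [add_zero, add_assoc, add_comm 1]

theorem active_range (e : ℕ → Tr K × ι) (v : ι) : ∀ n c,
    Active ((List.range' c n).map e) v ↔
      ∃ t t', c ≤ t ∧ t < t' ∧ t' < c + n ∧ (e t).2 = v ∧ (e t').1.pos = (e t).1.pos
  | 0, c => by
    simp only [List.range'_zero, List.map_nil, Active, false_iff]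
    rintro ⟨t, t', h1, h2, h3, -⟩
    omega
  | n + 1, c => by
    rw [List.range'_succ, List.map_cons, Active, active_range e v n (c + 1)]
    constructor
    · rintro (⟨h1, e', h2, h3⟩ | ⟨t, t', h1, h2, h3, h4⟩)
      · obtain ⟨t', h4, rfl⟩ := List.mem_map.mp h2
        rw [List.mem_range'_1] at h4
        exact ⟨c, t', le_rfl, by omega, by omega, h1, h3⟩
      · exact ⟨t, t', by omega, h2, by omega, h4⟩
    · rintro ⟨t, t', h1, h2, h3, h4, h5⟩
      rcases h1.lt_or_eq with g | g
      · exact Or.inr ⟨t, t', g, h2, by omega, h4, h5⟩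
      · subst g
        exact Or.inl ⟨h4, e t', List.mem_map_of_mem (List.mem_range'_1.mpr (by omega)), h5⟩

theorem bots_range (pos : ℕ → ℕ) (A : Finset ℕ) (V : ℕ → ℕ → ℕ → K) : ∀ n c,
    (∀ t, t < c + n → t ∈ A) → bots pos A V n c =
      (List.range' c n).map fun t => ⟨false, pos t, V 0 (t + 1) (pos t + 1)⟩
  | 0, _, _ => rfl
  | n + 1, c, h => by
    rw [List.range'_succ, List.map_cons, bots, bots_range pos A V n (c + 1) fun t ht => h t (by omega)]
    simp [lt, h c (by omega)]

theorem yhat_six (s : Seed ι K) (hx : ∀ u, s.x u ≠ 0) {v a b c d e f : ι}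
    (h : ∀ u, s.B u v = ind (some a) u + ind (some b) u + ind (some c) u -
      ind (some d) u - ind (some e) u - ind (some f) u) :
    yhat s v = s.x a * s.x b * s.x c / (s.x d * s.x e * s.x f) := by
  have key : ∀ u, s.x u ^ s.B u v = s.x u ^ ind (some a) u * s.x u ^ ind (some b) u *
      s.x u ^ ind (some c) u / s.x u ^ ind (some d) u / s.x u ^ ind (some e) u /
        s.x u ^ ind (some f) u := by
    intro u
    rw [h u]
    simp only [zpow_sub₀ (hx u), zpow_add₀ (hx u)]
  simp only [yhat, key, Finset.prod_div_distrib, Finset.prod_mul_distrib, prod_ind, xb, div_div]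

end general

theorem succ_dm {m : ℕ} (hm : 0 < m) (t : ℕ) :
    (t % m + 1 < m ∧ (t + 1) / m = t / m ∧ (t + 1) % m = t % m + 1) ∨
      (t % m + 1 = m ∧ (t + 1) / m = t / m + 1 ∧ (t + 1) % m = 0) := by
  have h1 := Nat.mod_add_div t m
  have h2 := Nat.mod_lt t hm
  rcases Nat.lt_or_ge (t % m + 1) m with h | h
  · exact Or.inl ⟨h, (Nat.div_mod_unique hm).mpr ⟨by omega, h⟩⟩
  · exact Or.inr ⟨by omega, (Nat.div_mod_unique hm).mpr ⟨by rw [mul_add]; omega, hm⟩⟩

theorem dm_of {m : ℕ} {b r : ℕ} (h : r < m) : (m * b + r) / m = b ∧ (m * b + r) % m = r :=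
  (Nat.div_mod_unique (by omega)).mpr ⟨by omega, h⟩

/-- Position of the letter `t` in the torus braid word. -/
def tpos (m t : ℕ) : ℕ := m - 1 - t % m

variable {m n : ℕ}

/-- The vertex of the `s × β` rectangle. -/
def wv (m n s β : ℕ) : Vertex (m + 1) n :=
  if h : 1 ≤ s ∧ s ≤ m + 1 ∧ 1 ≤ β ∧ β ≤ n - (m + 1) then
    some (⟨s - 1, by omega⟩, ⟨β - 1, by omega⟩) else none

def vt (m n s β : ℕ) : Option (Vertex (m + 1) n) :=
  if 1 ≤ s ∧ s ≤ m ∧ 1 ≤ β then some (wv m n s β) else none

theorem wv_eq_some {s β : ℕ} {a : Fin (m + 1)} {b : Fin (n - (m + 1))} :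
    wv m n s β = some (a, b) ↔ s = a.val + 1 ∧ β = b.val + 1 := by
  have := a.isLt
  have := b.isLt
  unfold wv
  split_ifs with h
  · simp only [Option.some.injEq, Prod.mk.injEq, Fin.ext_iff]; omega
  · simp only [false_iff]; omega

theorem wv_eq_none {s β : ℕ} :
    wv m n s β = none ↔ ¬ (1 ≤ s ∧ s ≤ m + 1 ∧ 1 ≤ β ∧ β ≤ n - (m + 1)) := by
  unfold wv
  split_ifs with h <;> simp [h]

theorem ind_wv (s β : ℕ) (a : Fin (m + 1)) (b : Fin (n - (m + 1))) :
    ind (some (wv m n s β)) (some (a, b)) = if s = a.val + 1 ∧ β = b.val + 1 then 1 else 0 := by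
  simp only [ind, Option.some.injEq, wv_eq_some]

theorem ind_wv_none (s β : ℕ) : ind (some (wv m n s β)) none =
    if ¬ (1 ≤ s ∧ s ≤ m + 1 ∧ 1 ≤ β ∧ β ≤ n - (m + 1)) then 1 else 0 := by
  simp only [ind, Option.some.injEq, wv_eq_none]

theorem ind_vt (s β : ℕ) {a : Fin (m + 1)} (ha : a.val < m) (b : Fin (n - (m + 1))) :
    ind (vt m n s β) (some (a, b)) = ind (some (wv m n s β)) (some (a, b)) := by
  unfold vt
  split_ifs with h
  · rfl
  · rw [ind_wv, if_neg (by omega)]; simp [ind]

theorem rect_B (hkn : m + 1 < n) {a : Fin (m + 1)} {b : Fin (n - (m + 1))} (ha : a.val < m)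
    (hb : b.val + 1 < n - (m + 1)) (u : Vertex (m + 1) n) :
    (rectSeed hkn).B u (some (a, b)) =
      ind (some (wv m n (a + 1) b)) u + ind (some (wv m n a (b + 1))) u +
        ind (some (wv m n (a + 2) (b + 2))) u - ind (some (wv m n a b)) u -
        ind (some (wv m n (a + 2) (b + 1))) u - ind (some (wv m n (a + 1) (b + 2))) u := by
  rcases u with _ | ⟨a', b'⟩
  · simp only [rectSeed, Arrow, ind_wv_none, if_false]
    split_ifs <;> omega
  · simp only [rectSeed, Arrow, ind_wv]
    split_ifs <;> omega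

def curf (m n t s : ℕ) : Option (Vertex (m + 1) n) :=
  vt m n s (if m < s + t % m then t / m + 1 else t / m)

theorem curf_succ (hm : 0 < m) {K : Type} (x : K) (t : ℕ) : curf m n (t + 1) =
    stC (curf m n t) (⟨false, tpos m t, x⟩, wv m n (tpos m t + 1) (t / m + 1)) := by
  funext s
  have := Nat.mod_lt t hm
  have := Nat.zero_le (t / m)
  by_cases hs : s = tpos m t + 1
  · simp only [stC, hs, Function.update_self, curf, vt]
    unfold tpos
    rcases succ_dm hm t with ⟨h1, h2, h3⟩ | ⟨h1, h2, h3⟩ <;> rw [h2, h3]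
    · rw [if_pos (show m < m - 1 - t % m + 1 + (t % m + 1) by omega), if_pos (by omega)]
    · rw [if_neg (show ¬ m < m - 1 - t % m + 1 + 0 by omega), if_pos (by omega)]
  · simp only [stC, Function.update_of_ne hs, curf, vt]
    unfold tpos at hs
    rcases succ_dm hm t with ⟨h1, h2, h3⟩ | ⟨h1, h2, h3⟩ <;> rw [h2, h3]
    · simp only [show m < s + (t % m + 1) ↔ m < s + t % m by omega]
    · by_cases g : 1 ≤ s ∧ s ≤ m
      · rw [if_neg (show ¬ m < s + 0 by omega), if_pos (show m < s + t % m by omega)]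
      · rw [if_neg (by omega), if_neg (show ¬ (1 ≤ s ∧ s ≤ m ∧ _) by omega)]

theorem curf_zero : curf m n 0 = fun _ => none := by
  funext s
  simp only [curf, vt, Nat.zero_mod, Nat.zero_div]
  split_ifs <;> first | rfl | omega

theorem Grid.block {ι K : Type} [Fintype ι] [DecidableEq ι] [Field K] {X : Ctx ι K}
    {A : Finset ℕ} {V : ℕ → ℕ → ℕ → K} (g : Grid X (tpos m) A V) (b s : ℕ) :
    (∀ r, s + r ≤ m → V 0 (m * b + r) s = V 0 (m * b) s) ∧
      ∀ r, r ≤ m → m < s + r → V 0 (m * b + r) s = V 0 (m * (b + 1)) s := by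
  have st : ∀ r, r < m → s + r ≠ m → V 0 (m * b + (r + 1)) s = V 0 (m * b + r) s := by
    intro r h1 h2
    refine g.v2 0 (m * b + r) s (by omega) fun _ => ?_
    unfold tpos
    rw [(dm_of h1).2]
    omega
  constructor
  · intro r
    induction r with
    | zero => intro _; rfl
    | succ r ih => intro h; rw [st r (by omega) (by omega), ih (by omega)]
  · have : ∀ d, d ≤ m → m < s + (m - d) → V 0 (m * b + (m - d)) s = V 0 (m * (b + 1)) s := by
      intro d
      induction d with
      | zero => intro _ _; rfl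
      | succ d ih =>
        intro h1 h2
        rw [← st _ (by omega) (by omega), show m - (d + 1) + 1 = m - d by omega,
          ih (by omega) (by omega)]
    intro r h1 h2
    have e := this (m - r) (by omega) (by omega)
    rwa [show m - (m - r) = r by omega] at e

theorem sg_init (hm : 0 < m) (hkn : m + 1 < n) (X : Ctx (Vertex (m + 1) n) (RatFn (m + 1) n))
    (h1 : X.isM = IsMutable) (h2 : X.s₀ = rectSeed hkn) {V : ℕ → ℕ → ℕ → RatFn (m + 1) n}
    (g : Grid X (tpos m) (Finset.range (m * (n - (m + 1)))) V) (W : ℕ → RatFn (m + 1) n)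
    (hW : ∀ j, X.G (W j))
    (hD : ∀ s β, s ≤ m + 1 → β ≤ n - (m + 1) → V 0 (m * β) s =
      X.s₀.x (wv m n s β) * W (m + 1 + β) / (W (m + 1 + β - s) * X.s₀.x none))
    (hF : ∀ v, ¬ IsMutable v → X.G (X.s₀.x v)) :
    SG X (tpos m) (Finset.range (m * (n - (m + 1)))) V (m * (n - (m + 1))) 0 := by
  set N := n - (m + 1) with hN
  let e : ℕ → Tr (RatFn (m + 1) n) × Vertex (m + 1) n := fun t =>
    (⟨false, tpos m t, V 0 (t + 1) (tpos m t + 1)⟩, wv m n (tpos m t + 1) (t / m + 1))
  have hdiv : ∀ t, t < m * N → t / m < N := fun t ht => Nat.div_lt_of_lt_mul ht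
  have hpos : ∀ t, tpos m t < m := fun t => by unfold tpos; omega
  have uniq : ∀ t a b, a < m → (tpos m t = a ∧ t / m = b ↔ t = m * b + (m - 1 - a)) := by
    intro t a b ha
    have := Nat.mod_lt t hm
    constructor
    · rintro ⟨g1, g2⟩
      have := Nat.div_add_mod t m
      unfold tpos at g1
      rw [g2] at this
      omega
    · rintro rfl
      have := dm_of (b := b) (show m - 1 - a < m by omega)
      unfold tpos
      omega
  have hact : ∀ v, Active ((List.range' 0 (m * N)).map e) v ↔ IsMutable v := by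
    intro v
    rw [active_range]
    constructor
    · rintro ⟨t, t', -, a2, a3, a4, a5⟩
      have b1 := hdiv t' (by omega)
      have b2 : t / m < t' / m := by
        by_contra hn
        have c1 := (uniq t _ _ (hpos t)).mp ⟨rfl, rfl⟩
        have c2 := (uniq t' _ _ (hpos t)).mp ⟨a5, rfl⟩
        have := Nat.mul_le_mul_left m (not_lt.mp hn)
        omega
      have := hpos t
      have := Nat.zero_le (t / m)
      rcases v with _ | ⟨a, b⟩
      · exact absurd (wv_eq_none.mp a4) (by omega)
      · have := wv_eq_some.mp a4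
        exact ⟨by omega, by omega⟩
    · rcases v with _ | ⟨a, b⟩
      · exact False.elim
      · rintro ⟨b1, b2⟩
        have c1 := (uniq _ a.val b.val (by omega)).mpr rfl
        have c2 := (uniq _ a.val (b.val + 1) (by omega)).mpr rfl
        have := Nat.mul_le_mul_left m (show b.val + 2 ≤ N by omega)
        refine ⟨_, m * (b.val + 1) + (m - 1 - a.val), Nat.zero_le _, ?_, ?_,
          wv_eq_some.mpr ⟨by rw [c1.1], by rw [c1.2]⟩, c2.1.trans c1.1.symm⟩
        · rw [mul_add]; omega
        · rw [mul_add] at this ⊢; omega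
  have hcur : ∀ t, curf m n (t + 1) = stC (curf m n t) (e t) := fun t => curf_succ hm _ t
  have hval : ∀ t, t < m * N → V 0 (t + 1) = stV (V 0 t) (e t).1 := by
    intro t _
    funext s
    by_cases hs : s = tpos m t + 1
    · simp [stV, e, hs]
    · simp [stV, e, hs, g.v2 0 t s (Nat.zero_le _) (fun _ => hs)]
  have hx0 : ∀ u, X.s₀.x u ≠ 0 := fun u => X.P_ne (X.pos₀ u)
  have ib : ∀ t (a : Fin (m + 1)) (b : Fin N), a.val < m →
      ind (some (wv m n (tpos m t + 1) (t / m + 1))) (some (a, b)) =
        if t = m * b.val + (m - 1 - a.val) then 1 else 0 := by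
    intro t a b ha
    simp only [ind_wv, ← uniq t _ _ ha, add_left_inj]
  have ia : ∀ t (a : Fin (m + 1)) (b : Fin N), a.val < m →
      ind (curf m n t (tpos m t + 1)) (some (a, b)) =
        if t = m * (b.val + 1) + (m - 1 - a.val) then 1 else 0 := by
    intro t a b ha
    have := Nat.mod_lt t hm
    rw [curf, ind_vt _ _ ha, if_neg (show ¬ m < tpos m t + 1 + t % m by unfold tpos; omega)]
    simp only [ind_wv, ← uniq t _ _ ha, add_left_inj]
  have cv : ∀ a b s, a < m → curf m n (m * b + (m - 1 - a)) s =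
      vt m n s (if a + 1 < s then b + 1 else b) := by
    intro a b s ha
    have := dm_of (b := b) (show m - 1 - a < m by omega)
    simp only [curf, this.1, this.2, show m < s + (m - 1 - a) ↔ a + 1 < s by omega]
  have vv : ∀ a b s, a < m → V 0 (m * b + (m - 1 - a)) s =
      V 0 (m * (if a + 1 < s then b + 1 else b)) s := by
    intro a b s ha
    split_ifs with h
    · exact (g.block b s).2 _ (by omega) (by omega)
    · exact (g.block b s).1 _ (by omega)
  have ev : ∀ a b, a < m → V 0 (m * b + (m - 1 - a) + 1) (a + 1) = V 0 (m * (b + 1)) (a + 1) :=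
    fun a b ha => (g.block b (a + 1)).2 (m - 1 - a + 1) (by omega) (by omega)
  refine ⟨(List.range' 0 (m * N)).map e, ?_, X.s₀, Relation.ReflTransGen.refl, ?_, ?_, ?_, ?_, ?_,
    g.v4 0, ?_⟩
  · rw [tops_le _ _ _ le_rfl, List.nil_append, Nat.sub_zero,
      bots_range _ _ _ _ _ fun t ht => by simpa using ht, List.map_map]
    rfl
  · rw [List.map_map]
    refine List.Nodup.map_on (fun t ht t' ht' h => ?_) List.nodup_range'
    rw [List.mem_range'_1] at ht ht'
    have b1 := hdiv t (by omega)
    have b2 := hpos t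
    have : wv m n (tpos m t' + 1) (t' / m + 1) =
        some (⟨tpos m t, by omega⟩, ⟨t / m, b1⟩) :=
      Eq.trans (show _ = wv m n (tpos m t + 1) (t / m + 1) from h.symm) (wv_eq_some.mpr ⟨rfl, rfl⟩)
    have c := wv_eq_some.mp this
    simp only [add_left_inj] at c
    exact ((uniq t _ _ b2).mp ⟨rfl, rfl⟩).trans ((uniq t' _ _ b2).mp c).symm
  · intro v hv
    rw [h1]; exact (hact v).mp hv
  · intro u v hu hv
    rw [hact] at hu hv
    rcases u with _ | ⟨a', b'⟩
    · exact hu.elim
    rcases v with _ | ⟨a, b⟩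
    · exact hv.elim
    have ha : a.val < m := by have := hv.1; omega
    have ha' : a'.val < m := by have := hu.1; omega
    have hb := hv.2
    have := Nat.mul_le_mul_left m (show b.val + 2 ≤ N by omega)
    have c1 := (uniq _ a.val b.val ha).mpr rfl
    have c2 := (uniq _ a.val (b.val + 1) ha).mpr rfl
    rw [h2, rect_B hkn ha hb, ← curf_zero, Cm_range e (curf m n) hcur]
    have key : ∀ t, cC (curf m n (0 + t)) (e (0 + t)) (some (a', b')) (some (a, b)) =
        (if t = m * b.val + (m - 1 - a.val) then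
          ind (curf m n t (tpos m t + 1)) (some (a', b')) - nb (curf m n t) (tpos m t) (some (a', b'))
          else 0) +
        (if t = m * (b.val + 1) + (m - 1 - a.val) then
          nb (curf m n t) (tpos m t) (some (a', b')) -
            ind (some (wv m n (tpos m t + 1) (t / m + 1))) (some (a', b')) else 0) := by
      intro t
      simp only [zero_add, cC, e, Bool.false_eq_true, if_false, ib t a b ha, ia t a b ha]
      split_ifs <;> ring
    simp only [key, Finset.sum_add_distrib, Finset.sum_ite_eq', Finset.mem_range]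
    rw [if_pos (by rw [mul_add] at this; omega), if_pos (by rw [mul_add] at this ⊢; omega),
      c1.1, c2.1, c2.2]
    simp only [nb, cv _ _ _ ha, ind_vt _ _ ha', lt_self_iff_false, if_false,
      show ¬ (a.val + 1 < a.val) by omega, show a.val + 1 < a.val + 2 by omega, if_true]
    ring
  · intro v hv
    rw [hact] at hv
    rcases v with _ | ⟨a, b⟩
    · exact hv.elim
    have ha : a.val < m := by have := hv.1; omega
    have hb := hv.2
    have := Nat.mul_le_mul_left m (show b.val + 2 ≤ N by omega)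
    have c1 := (uniq _ a.val b.val ha).mpr rfl
    have c2 := (uniq _ a.val (b.val + 1) ha).mpr rfl
    rw [yhat_six X.s₀ hx0 (by rw [h2]; exact rect_B hkn ha hb), ← curf_zero,
      Ym_range e (curf m n) (V 0) _ hcur hval _ _ _ (by omega)]
    have key : ∀ t, cY (V 0 (0 + t)) (curf m n (0 + t)) (e (0 + t)) (some (a, b)) =
        (if t = m * b.val + (m - 1 - a.val) then
          V 0 t (tpos m t + 1) / (V 0 t (tpos m t) * V 0 t (tpos m t + 2)) else 1) *
        (if t = m * (b.val + 1) + (m - 1 - a.val) then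
          V 0 t (tpos m t) * V 0 t (tpos m t + 2) / V 0 (t + 1) (tpos m t + 1) else 1) := by
      intro t
      simp only [zero_add, cY, e, Bool.false_eq_true, if_false, ib t a b ha, ia t a b ha]
      split_ifs <;> simp
    simp only [key, Finset.prod_mul_distrib, Finset.prod_ite_eq', Finset.mem_range]
    rw [if_pos (by rw [mul_add] at this; omega), if_pos (by rw [mul_add] at this ⊢; omega),
      c1.1, c2.1]
    simp only [ev _ _ ha, vv _ _ _ ha, lt_self_iff_false, if_false,
      show ¬ (a.val + 1 < a.val) by omega, show a.val + 1 < a.val + 2 by omega, if_true]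
    rw [hD _ _ (by omega) (by omega), hD _ _ (by omega) (by omega), hD _ _ (by omega) (by omega),
      hD _ _ (by omega) (by omega), hD _ _ (by omega) (by omega), hD _ _ (by omega) (by omega)]
    obtain ⟨c, hc⟩ : ∃ c, m + 1 + b.val = c + (a.val + 1) := ⟨m + b.val - a.val, by omega⟩
    rw [show m + 1 + b.val - (a.val + 1) = c by omega, show m + 1 + b.val - a.val = c + 1 by omega,
      show m + 1 + (b.val + 1) - (a.val + 2) = c by omega,
      show m + 1 + (b.val + 1) - a.val = c + 2 by omega,
      show m + 1 + (b.val + 1 + 1) - (a.val + 2) = c + 1 by omega,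
      show m + 1 + (b.val + 1 + 1) - (a.val + 1) = c + 2 by omega]
    have w0 := fun j => X.G_ne (hW j)
    field_simp [hx0, w0]
  · intro x hx
    obtain ⟨t, ht, rfl⟩ := List.mem_map.mp hx
    rw [List.mem_range'_1] at ht
    have b1 := hdiv t (by omega)
    have b2 := hpos t
    have c := (uniq t _ _ b2).mp ⟨rfl, rfl⟩
    have e1 := ev _ (t / m) b2
    rw [← c] at e1
    simp only [e]
    rw [e1, hD _ _ (by omega) (by omega), div_div, mul_comm (X.s₀.x _),
      mul_div_mul_right _ _ (hx0 _)]
    exact X.G_div (hW _) (X.G_mul (hW _) (hF none (fun h => h)))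
  · intro v hv
    exact hF v fun h => hv ((hact v).mpr h)

end Pool.Agent.Lib.MP_53bec5_ag
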