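import Pool.Agent.Lib.MP_53bec5_ag.Gauge
import Pool.Agent.Lib.MP_53bec5_ag.Word

/-!
The torus braid word attached to a configuration of vectors.
-/

namespace Pool.Agent.Lib.MP_53bec5_ag

open Matrix

variable {R : Type} [CommRing R]

def tF (m N : ℕ) (hm : 0 < m) (R : Type) [CommRing R] : Frame (m + 1) R where
  l := m * N
  i t := ⟨tpos m t, by unfold tpos; omega⟩
  j t := ⟨tpos m t + 1, by unfold tpos; omega⟩
  hij _ := rfl
  p _ := -1
  q _ := 1

def tS (m N : ℕ) (y : ℕ → Fin (m + 1) → R) : St R where
  A := Finset.range (m * N)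
  z t := y (t / m) ⟨tpos m t, by unfold tpos; omega⟩
  d _ := 1
  e _ := 1

variable {m N : ℕ}

theorem isG_one (hm : 0 < m) (y : ℕ → Fin (m + 1) → R) :
    IsG (tF m N hm R) (tS m N y) (fun _ => 1) := by
  intro t
  funext u
  simp [stepT, tF, tS]

theorem block_prod (hm : 0 < m) (y : ℕ → Fin (m + 1) → R) (E f : Matrix (Fin (m + 1)) (Fin (m + 1)) R)
    {s : ℕ} (hs : s < N) (hy : y s (Fin.last m) = 1)
    (hf : E * prd (tF m N hm R) (tS m N y) 0 (m * s) = f) : ∀ r, r ≤ m → ∀ row c,
    (E * prd (tF m N hm R) (tS m N y) 0 (m * s + r)) row c =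
      if c.val + r < m then f row c
      else if c.val + r = m then ∑ x : Fin (m + 1), if m ≤ x.val + r then y s x * f row x else 0
      else -f row ⟨c.val - 1, by omega⟩ := by
  intro r
  induction r with
  | zero =>
    intro _ row c
    rw [add_zero, hf]
    split_ifs with h1 h2
    · rfl
    · have e : c = Fin.last m := Fin.ext (by simpa using h2)
      rw [Finset.sum_eq_single (Fin.last m)]
      · simp [e, hy]
      · intro b _ hb
        have := Fin.val_lt_last hb
        rw [if_neg (by omega)]
      · simp
    · omega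
  | succ r ih =>
    intro hr row c
    have hd := dm_of (b := s) (show r < m by omega)
    have hA : m * s + r ∈ (tS m N y).A := by
      have := Nat.mul_le_mul_left m (show s + 1 ≤ N by omega)
      simp only [tS, Finset.mem_range]
      rw [mul_add] at this
      omega
    have ei : (tF m N hm R).i (m * s + r) = ⟨m - 1 - r, by omega⟩ := by
      simp [tF, tpos, hd.2]
    have ej : (tF m N hm R).j (m * s + r) = ⟨m - r, by omega⟩ := by
      simp only [tF, tpos, hd.2, Fin.mk.injEq]; omega
    have ez : (tS m N y).z (m * s + r) = y s ⟨m - 1 - r, by omega⟩ := by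
      simp [tS, tpos, hd.1, hd.2]
    rw [← add_assoc, prd_succ _ _ (Nat.zero_le _), ← mul_assoc, mat, if_pos hA,
      mul_blk (Frame.ne _ _), ei, ej, ez]
    simp only [ih (by omega), Fin.ext_iff]
    have p1 : (((tF m N hm R).p (m * s + r) : Rˣ) : R) = -1 := by simp [tF]
    have q1 : (((tF m N hm R).q (m * s + r) : Rˣ) : R) = 1 := by simp [tF]
    rw [p1, q1]
    by_cases h1 : c.val = m - 1 - r
    · rw [if_pos h1, if_pos (by omega), if_neg (by omega), if_pos (by omega), if_neg (by omega),
        if_pos (by omega), mul_one]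
      have : ∀ x : Fin (m + 1), (if m ≤ x.val + (r + 1) then y s x * f row x else 0) =
          (if x = ⟨m - 1 - r, by omega⟩ then y s x * f row x else 0) +
            (if m ≤ x.val + r then y s x * f row x else 0) := by
        intro x
        simp only [Fin.ext_iff]
        split_ifs <;> first | omega | simp
      simp only [this, Finset.sum_add_distrib, Finset.sum_ite_eq', Finset.mem_univ, if_true]
      ring
    · rw [if_neg h1]
      by_cases h2 : c.val = m - r
      · rw [if_pos h2, if_pos (by omega), mul_zero, add_zero, if_neg (by omega), if_neg (by omega)]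
        simp only [mul_neg, mul_one, neg_inj]
        congr 2
        omega
      · rw [if_neg h2]
        split_ifs <;> first | omega | rfl

/-- The maximal minor on the vectors with the given indices. -/
noncomputable def Pl (v : ℕ → Fin (m + 1) → R) (f : Fin (m + 1) → ℕ) : R :=
  (Matrix.of fun row c => v (f c) row).det

theorem det_rev (v : ℕ → Fin (m + 1) → R) (f : Fin (m + 1) → ℕ) (e : Fin (m + 1) → R) :
    (Matrix.of fun row c => e c * v (f c.rev) row).det =
      (∏ c, e c) * (((Equiv.Perm.sign (Fin.revPerm : Equiv.Perm (Fin (m + 1))) : ℤˣ) : ℤ) *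
        Pl v f) := by
  rw [Pl, ← det_permute', ← det_mul_row]
  rfl

theorem isUnit_sign (σ : Equiv.Perm (Fin (m + 1))) : IsUnit ((((Equiv.Perm.sign σ) : ℤˣ) : ℤ) : R) :=
  (Units.isUnit _).map (Int.castRingHom R)

theorem exists_lam {G : Type} [CommMonoid G] (m : ℕ) (c : ℕ → G) :
    ∃ lam : ℕ → G, (∀ j, j ≤ m → lam j = 1) ∧ ∀ s, lam (s + (m + 1)) = lam s * c s := by
  refine ⟨fun j => ∏ q ∈ Finset.range (j / (m + 1)), c ((m + 1) * q + j % (m + 1)), fun j hj => ?_,
    fun s => ?_⟩
  · simp [Nat.div_eq_of_lt (show j < m + 1 by omega)]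
  · simp only [Nat.add_div_right s (show 0 < m + 1 by omega), Nat.add_mod_right,
      Finset.prod_range_succ, Nat.div_add_mod]

theorem exists_torus (hm : 0 < m) (v : ℕ → Fin (m + 1) → R)
    (hv : ∀ s, s ≤ N → IsUnit (Pl v fun c => c.val + s)) :
    ∃ (y : ℕ → Fin (m + 1) → R) (W : ℕ → Rˣ), ∀ i s, i ≤ m + 1 → s ≤ N →
      pm (prd (tF m N hm R) (tS m N y) 0 (m * s)) i * Pl v (fun c => c.val) * W (m + 1 + s - i) =
        Pl v (fun c => if c.val + i < m + 1 then c.val else c.val + s) * W (m + 1 + s) := by
  classical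
  let Gm : ℕ → Matrix (Fin (m + 1)) (Fin (m + 1)) R := fun s =>
    Matrix.of fun row c => v (s + m - c.val) row
  have hG : ∀ s, s ≤ N → IsUnit (Gm s).det := by
    intro s hs
    have := det_rev v (fun c => c.val + s) (fun _ => 1)
    simp only [one_mul, Finset.prod_const_one] at this
    have e : Gm s = Matrix.of fun row c => v (c.rev.val + s) row := by
      ext row c
      simp only [Gm, of_apply, Fin.val_rev]
      congr 1
      omega
    rw [e, this]
    exact (isUnit_sign _).mul (hv s hs)
  let co : ℕ → Fin (m + 1) → R := fun s => (Gm s)⁻¹ *ᵥ v (s + (m + 1))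
  have hco : ∀ s, s ≤ N → ∀ row, ∑ c, co s c * v (s + m - c.val) row = v (s + (m + 1)) row := by
    intro s hs row
    have : Gm s *ᵥ co s = v (s + (m + 1)) := by
      simp only [co, mulVec_mulVec, mul_nonsing_inv _ (hG s hs), one_mulVec]
    rw [← this]
    simp [mulVec, dotProduct, Gm, mul_comm]
  have hlast : ∀ s, ∃ u : Rˣ, s < N → (u : R) = co s (Fin.last m) := by
    intro s
    by_cases hs : s < N
    · have h1 := det_updateCol_sum (Gm s) (Fin.last m) (co s)
      have h2 : (Gm s).updateCol (Fin.last m) (fun k => ∑ i, co s i • Gm s k i) =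
          (Gm (s + 1)).submatrix id (finRotate (m + 1)) := by
        ext row c
        by_cases hc : c = Fin.last m
        · subst hc
          rw [updateCol_self, submatrix_apply, finRotate_last]
          exact (hco s hs.le row).trans (by simp [Gm, add_assoc, add_comm 1])
        · rw [updateCol_ne hc, submatrix_apply]
          simp only [Gm, of_apply, coe_finRotate_of_ne_last hc, id]
          congr 1
          omega
      rw [h2, det_permute', smul_eq_mul] at h1
      have h3 := (isUnit_sign (finRotate (m + 1))).mul (hG (s + 1) hs)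
      rw [h1] at h3
      obtain ⟨u, hu⟩ := isUnit_of_mul_isUnit_left h3
      exact ⟨u, fun _ => hu⟩
    · exact ⟨1, fun h => absurd h hs⟩
  choose cu hcu using hlast
  obtain ⟨lam, l1, l2⟩ := exists_lam m (fun s => (-1) ^ m * (cu s)⁻¹)
  let ep : ℕ → Fin (m + 1) → Rˣ := fun s c => (-1) ^ c.val * lam (s + m - c.val)
  let y : ℕ → Fin (m + 1) → R := fun s c => lam (s + (m + 1)) * co s c * ((ep s c)⁻¹ : Rˣ)
  let E : ℕ → Matrix (Fin (m + 1)) (Fin (m + 1)) R := fun s =>
    Matrix.of fun row c => ep s c * v (s + m - c.val) row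
  have hy : ∀ s, s < N → y s (Fin.last m) = 1 := by
    intro s hs
    simp only [y, ep, ← hcu s hs, l2, ← Units.val_mul, Fin.val_last, Nat.add_sub_cancel,
      Units.val_eq_one]
    rw [mul_assoc (lam s), inv_mul_cancel_right, mul_comm (lam s), mul_inv_cancel]
  have main : ∀ s, s ≤ N → E 0 * prd (tF m N hm R) (tS m N y) 0 (m * s) = E s := by
    intro s
    induction s with
    | zero => intro _; simp [prd]
    | succ s ih =>
      intro hs
      ext row c
      rw [mul_add, mul_one, block_prod hm y (E 0) (E s) hs (hy s hs) (ih (by omega)) m le_rfl,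
        if_neg (by omega)]
      split_ifs with h
      · have e : c = 0 := Fin.ext (by simpa using h)
        simp only [Nat.le_add_left, if_true, e, E, of_apply, y]
        have : ∀ x, (lam (s + (m + 1)) : R) * co s x * ((ep s x)⁻¹ : Rˣ) *
            (ep s x * v (s + m - x.val) row) =
              lam (s + (m + 1)) * (co s x * v (s + m - x.val) row) := by
          intro x
          linear_combination (lam (s + (m + 1)) * co s x * v (s + m - x.val) row) *
            (ep s x).inv_mul
        simp only [this, ← Finset.mul_sum, hco s (by omega)]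
        simp [ep, add_assoc, add_comm 1]
      · obtain ⟨d, hd⟩ : ∃ d, c.val = d + 1 := ⟨c.val - 1, by omega⟩
        simp only [E, ep, of_apply, hd, Nat.add_sub_cancel,
          show s + 1 + m - (d + 1) = s + m - d by omega, pow_succ]
        simp
  refine ⟨y, fun j => ∏ a ∈ Finset.range j, lam a, fun i s hi hs => ?_⟩
  set P := prd (tF m N hm R) (tS m N y) 0 (m * s) with hP
  have h1 : (E 0).det * pm P i = (Matrix.of fun row c =>
      (((-1) ^ c.val * (if c.val < i then lam (s + m - c.val) else 1) : Rˣ) : R) *
        v ((fun c : Fin (m + 1) => if c.val + i < m + 1 then c.val else c.val + s) c.rev) row).det := by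
    rw [← det_mix P i hi, ← det_mul]
    congr 1
    ext row c
    have := c.isLt
    by_cases h : c.val < i
    · have e := congrFun (congrFun (main s hs) row) c
      simp only [Matrix.mul_apply, of_apply, if_pos h] at e ⊢
      rw [e, if_neg (by rw [Fin.val_rev]; omega)]
      simp only [E, ep, of_apply, Fin.val_rev]
      congr 2
      omega
    · have e := congrFun (congrFun (Matrix.mul_one (E 0)) row) c
      simp only [Matrix.mul_apply, of_apply, if_neg h] at e ⊢
      rw [e, if_pos (by rw [Fin.val_rev]; omega)]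
      simp only [E, ep, of_apply, Fin.val_rev, l1 (0 + m - c.val) (by omega)]
      congr 2
      omega
  have h2 : (E 0).det = (Matrix.of fun row c =>
      (((-1) ^ c.val : Rˣ) : R) * v ((fun c : Fin (m + 1) => c.val) c.rev) row).det := by
    congr 1
    ext row c
    simp only [E, ep, of_apply, Fin.val_rev, l1 (0 + m - c.val) (by omega), mul_one]
    congr 2
    omega
  have h3 : ∀ i, i ≤ m + 1 → (∏ a ∈ Finset.range i, lam (s + m - a)) *
      ∏ a ∈ Finset.range (m + 1 + s - i), lam a = ∏ a ∈ Finset.range (m + 1 + s), lam a := by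
    intro i
    induction i with
    | zero => simp
    | succ i ih =>
      intro h
      rw [← ih (by omega), show m + 1 + s - i = (m + 1 + s - (i + 1)) + 1 by omega,
        Finset.prod_range_succ, Finset.prod_range_succ,
        show m + 1 + s - (i + 1) = s + m - i by omega]
      ac_rfl
  have h4 : ∏ c : Fin (m + 1), (if c.val < i then lam (s + m - c.val) else 1) =
      ∏ a ∈ Finset.range i, lam (s + m - a) := by
    rw [Fin.prod_univ_eq_prod_range (fun a => if a < i then lam (s + m - a) else 1),
      ← Finset.prod_filter]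
    congr 1
    ext a
    simp only [Finset.mem_filter, Finset.mem_range]
    omega
  rw [h2, det_rev v (fun c => c.val),
    det_rev v (fun c => if c.val + i < m + 1 then c.val else c.val + s), ← Units.coe_prod,
    ← Units.coe_prod, Finset.prod_mul_distrib, h4] at h1
  simp only []
  rw [← h3 i hi]
  refine (isUnit_sign (R := R) (m := m) Fin.revPerm).mul_left_cancel
    ((Units.isUnit (∏ c : Fin (m + 1), (-1 : Rˣ) ^ c.val)).mul_left_cancel ?_)
  simp only [Units.val_mul] at h1 ⊢
  linear_combination (↑(∏ a ∈ Finset.range (m + 1 + s - i), lam a) : R) * h1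

theorem min_torus (hm : 0 < m) (hc : Nat.Coprime N (m + 1)) {F : Frame (m + 1) R}
    (hl : F.l = m * N) (hi : ∀ t, (F.i t).val = tpos m t) :
    Min F (Finset.range (m * N)) (fun _ _ => True) := by
  refine ⟨⟨fun _ _ _ _ => rfl, rfl⟩, ⟨0, trivial⟩, ?_⟩
  rintro Y ⟨hY, hc2⟩ - ⟨w, hw⟩ u -
  have b1 : ∀ s, s < N → ∀ r (hr : r ≤ m) (u : Fin (m + 1)),
      Y (m * s + r) ⟨if u.val = m then m - r else if m ≤ u.val + r then u.val + 1 else u.val,
        by split_ifs <;> omega⟩ = Y (m * s) u := by
    intro s hs r
    induction r with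
    | zero =>
      intro _ u
      congr 1
      ext
      simp only
      split_ifs <;> omega
    | succ r ih =>
      intro hr u
      have h1 := Nat.mul_le_mul_left m (show s + 1 ≤ N by omega)
      rw [mul_add] at h1
      rw [← ih (by omega) u, ← hY (m * s + r) (Nat.zero_le _) (by omega), ← add_assoc]
      congr 1
      have e1 := hi (m * s + r)
      have e2 := F.hij (m * s + r)
      unfold tpos at e1
      rw [(dm_of (b := s) (show r < m by omega)).2] at e1
      rw [sw, if_pos (Finset.mem_range.mpr (by omega)), Equiv.swap_apply_def]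
      simp only [Fin.ext_iff]
      split_ifs <;> first | omega | simp only []
  have b2 : ∀ s, s ≤ N → ∀ x : ℕ, Y (m * s) ⟨(x + s) % (m + 1), Nat.mod_lt _ (by omega)⟩ =
      Y 0 ⟨x % (m + 1), Nat.mod_lt _ (by omega)⟩ := by
    intro s
    induction s with
    | zero => intro _ _; rfl
    | succ s ih =>
      intro hs x
      rw [← ih (by omega) x, ← b1 s hs m le_rfl, mul_add, mul_one]
      congr 1
      ext
      simp only [← add_assoc]
      rcases succ_dm (show 0 < m + 1 by omega) (x + s) with ⟨h1, -, h3⟩ | ⟨h1, -, h3⟩ <;> rw [h3] <;>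
        split_ifs <;> omega
  have b3 : ∀ (c x : ℕ), Y 0 ⟨(x + N * c) % (m + 1), Nat.mod_lt _ (by omega)⟩ =
      Y 0 ⟨x % (m + 1), Nat.mod_lt _ (by omega)⟩ := by
    intro c
    induction c with
    | zero => intro _; rfl
    | succ c ih =>
      intro x
      rw [← ih x, ← b2 N le_rfl (x + N * c), ← hl, hc2]
      simp only [mul_add, mul_one, add_assoc]
  obtain ⟨c, -, hc1⟩ := Nat.exists_mul_mod_eq_one_of_coprime hc (by omega)
  have b4 : ∀ x : ℕ, Y 0 ⟨x % (m + 1), Nat.mod_lt _ (by omega)⟩ = Y 0 0 := by
    intro x
    induction x with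
    | zero => rfl
    | succ x ih =>
      rw [← ih, ← b3 c x]
      congr 1
      ext
      simp only
      rw [Nat.add_mod x (N * c), hc1, Nat.mod_add_mod]
  have e1 := b4 u.val
  have e2 := b4 w.val
  simp only [Nat.mod_eq_of_lt u.isLt, Nat.mod_eq_of_lt w.isLt, Fin.eta] at e1 e2
  rw [e1, ← e2]
  exact hw

end Pool.Agent.Lib.MP_53bec5_ag
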