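import Pool.Agent.Lib.MP_53bec5_ag.Deep

/-!
A point whose columns split along residue classes lies in no cluster torus: it is fixed by an
automorphism that rescales all cluster variables, not all of them trivially.
-/

namespace Pool.Agent.Lib.MP_53bec5_ag

open Matrix

section general

variable {ι K : Type} [Fintype ι] [DecidableEq ι] [Field K]

/-- The factor by which `σ` rescales `x`. -/
def rat (σ : K →+* K) : K →*₀ K where
  toFun x := σ x / x
  map_zero' := by simp
  map_one' := by simp
  map_mul' x y := by rw [map_mul, mul_div_mul_comm]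

theorem rat_apply (σ : K →+* K) (x : K) : rat σ x = σ x / x := rfl

theorem rat_add (σ : K →+* K) {a b : K} (ha : a ≠ 0) (hb : b ≠ 0) (hab : a + b ≠ 0)
    (h : rat σ a = rat σ b) : rat σ (a + b) = rat σ a := by
  rw [rat_apply, rat_apply, div_eq_div_iff ha hb] at h
  rw [rat_apply, rat_apply, div_eq_div_iff hab ha, map_add]
  linear_combination -h

theorem Ctx.eig (X : Ctx ι K) (σ : K →+* K) (T : Subfield K)
    (h0 : ∀ v, rat σ (X.s₀.x v) ∈ T) (h1 : ∀ v, X.isM v → rat σ (yhat X.s₀ v) = 1)
    {s : Seed ι K} (h : Reach X.isM X.s₀ s) :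
    (∀ v, rat σ (s.x v) ∈ T) ∧ ∀ v, X.isM v → rat σ (yhat s v) = 1 := by
  induction h with
  | refl => exact ⟨h0, h1⟩
  | @tail a _ ha st ih =>
    obtain ⟨m, hm, rfl⟩ := st
    have hx : ∀ u, a.x u ≠ 0 := fun u => X.P_ne ((X.reach_inv ha).1 u)
    have hB : a.B m m = 0 := by have := (X.reach_inv ha).2 m m; omega
    have hp : Mp a m ≠ 0 := Finset.prod_ne_zero_iff.mpr fun u _ => pow_ne_zero _ (hx u)
    have hq : Mm a m ≠ 0 := Finset.prod_ne_zero_iff.mpr fun u _ => pow_ne_zero _ (hx u)
    have e : rat σ (Mp a m) = rat σ (Mm a m) := by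
      have := ih.2 m hm
      rw [yhat_eq a hx, map_div₀] at this
      exact eq_of_div_eq_one this
    have e2 := rat_add σ hp hq (X.sum_ne ha m) e
    refine ⟨fun v => ?_, fun v hv => ?_⟩
    · by_cases g : v = m
      · rw [g, mutate_x_self, map_div₀, e2, Mp, map_prod]
        exact T.div_mem (T.prod_mem fun u _ => by rw [map_pow]; exact T.pow_mem (ih.1 u) _)
          (ih.1 m)
      · rw [mutate_x_ne _ g]; exact ih.1 v
    · by_cases g : v = m
      · rw [g, yhat_mutate_self a hB, map_inv₀, ih.2 m hm, inv_one]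
      · have hr : rat σ (Mp a m) ≠ 0 := (map_ne_zero _).mpr hp
        rw [yhat_mutate_ne a hx hB g]
        simp only [map_mul, map_zpow₀, e2, ← e, ih.2 v hv, one_mul, ← zpow_add₀ hr]
        rw [show max (a.B m v) 0 + -max (-a.B m v) 0 + -a.B m v = 0 by omega, zpow_zero]

theorem Ctx.fix_back (X : Ctx ι K) (σ : K →+* K) {s : Seed ι K} (h : Reach X.isM X.s₀ s)
    (hs : ∀ v, σ (s.x v) = s.x v) : ∀ v, σ (X.s₀.x v) = X.s₀.x v := by
  induction h with
  | refl => exact hs
  | @tail a _ ha st ih =>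
    obtain ⟨m, -, rfl⟩ := st
    have hB : a.B m m = 0 := by have := (X.reach_inv ha).2 m m; omega
    have h1 : ∀ v, v ≠ m → σ (a.x v) = a.x v := fun v g => by
      rw [← mutate_x_ne a g]; exact hs v
    have h2 : ∀ e : ι → ℕ, e m = 0 → σ (∏ v, a.x v ^ e v) = ∏ v, a.x v ^ e v := by
      intro e he
      rw [map_prod]
      refine Finset.prod_congr rfl fun v _ => ?_
      by_cases g : v = m
      · simp [g, he]
      · rw [map_pow, h1 v g]
    refine ih fun v => ?_
    by_cases g : v = m
    · have e := hs m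
      rw [mutate_x_self, map_div₀, map_add, Mp, Mm, h2 _ (by simp [hB]), h2 _ (by simp [hB])] at e
      rw [g]
      exact inv_injective (mul_left_cancel₀ (X.sum_ne ha m) (by simpa only [div_eq_mul_inv, Mp, Mm] using e))
    · exact h1 v g

end general

variable {k n : ℕ}

/-- The substitution `X ↦ G X diag(t)`. -/
noncomputable def subst (G : Matrix (Fin k) (Fin k) ℂ) (t : Fin n → ℂ) : Coord k n →+* Coord k n :=
  MvPolynomial.eval₂Hom MvPolynomial.C fun p =>
    MvPolynomial.C (t p.2) * ∑ r, MvPolynomial.C (G p.1 r) * MvPolynomial.X (r, p.2)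

theorem subst_C (G : Matrix (Fin k) (Fin k) ℂ) (t : Fin n → ℂ) (a : ℂ) :
    subst G t (MvPolynomial.C a) = MvPolynomial.C a := by simp [subst]

theorem subst_X (G : Matrix (Fin k) (Fin k) ℂ) (t : Fin n → ℂ) (r : Fin k) (j : Fin n) :
    subst G t (MvPolynomial.X (r, j)) =
      MvPolynomial.C (t j) * ∑ r', MvPolynomial.C (G r r') * MvPolynomial.X (r', j) := by
  simp [subst]

theorem subst_subst {G : Matrix (Fin k) (Fin k) ℂ} {t : Fin n → ℂ} (hG : G * G = 1)
    (ht : ∀ j, t j * t j = 1) (f : Coord k n) : subst G t (subst G t f) = f := by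
  have : (subst G t).comp (subst G t) = RingHom.id _ := by
    refine MvPolynomial.ringHom_ext (fun a => by simp [subst_C]) fun p => ?_
    obtain ⟨r, j⟩ := p
    simp only [RingHom.comp_apply, RingHom.id_apply, subst_X, map_mul, map_sum, subst_C,
      Finset.mul_sum]
    rw [Finset.sum_comm]
    have e : ∀ b : Fin k, ∑ a : Fin k, (MvPolynomial.C (t j) : Coord k n) *
        (MvPolynomial.C (G r a) * (MvPolynomial.C (t j) *
          (MvPolynomial.C (G a b) * MvPolynomial.X (b, j)))) =
        MvPolynomial.C (t j * t j * (G * G) r b) * MvPolynomial.X (b, j) := by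
      intro b
      simp only [Matrix.mul_apply, map_mul, map_sum, Finset.mul_sum, Finset.sum_mul]
      exact Finset.sum_congr rfl fun a _ => by ring
    simp only [e, hG, ht, one_mul, one_apply]
    rw [Finset.sum_eq_single r] <;> simp +contextual [eq_comm]
  exact DFunLike.congr_fun this f

theorem evM_subst {G : Matrix (Fin k) (Fin k) ℂ} {t : Fin n → ℂ} {M : Matrix (Fin k) (Fin n) ℂ}
    (h : ∀ r j, t j * ∑ r', G r r' * M r' j = M r j) (f : Coord k n) :
    evM M (subst G t f) = evM M f := by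
  have : (evM M).comp (subst G t) = evM M := by
    refine MvPolynomial.ringHom_ext (fun a => by simp [subst_C]) fun p => ?_
    obtain ⟨r, j⟩ := p
    simp only [RingHom.comp_apply, subst_X]
    simp [evM, h]
  exact DFunLike.congr_fun this f

theorem subst_plucker (G : Matrix (Fin k) (Fin k) ℂ) (t : Fin n → ℂ) (c : Fin k → Fin n) :
    subst G t (plucker c) = MvPolynomial.C (G.det * ∏ j, t (c j)) * plucker c := by
  unfold plucker
  have e : (subst G t).mapMatrix (Matrix.of fun r j : Fin k => (MvPolynomial.X (r, c j) : Coord k n))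
      = Matrix.of fun r j => MvPolynomial.C (t (c j)) *
        ((MvPolynomial.C : ℂ →+* Coord k n).mapMatrix G *
          Matrix.of fun r j : Fin k => (MvPolynomial.X (r, c j) : Coord k n)) r j := by
    ext r j : 2
    simp [subst_X, Matrix.mul_apply]
  rw [RingHom.map_det, e, det_mul_row, det_mul, ← RingHom.map_det, map_mul, map_prod]
  ring

theorem prod_wv {m : ℕ} (t : ℕ → ℂ) {i : ℕ} (s : ℕ) (hi : i ≤ m + 1) :
    (∏ c : Fin (m + 1), t (if c.val + i < m + 1 then c.val else c.val + s)) *
        ∏ a ∈ Finset.range (m + 1 + s - i), t a =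
      (∏ a ∈ Finset.range (m + 1 - i), t a) * ∏ a ∈ Finset.range (m + 1 + s), t a := by
  rw [Fin.prod_univ_eq_prod_range (fun c => t (if c + i < m + 1 then c else c + s))]
  obtain ⟨d, hd⟩ : ∃ d, m + 1 = d + i := ⟨m + 1 - i, by omega⟩
  rw [hd, show d + i + s - i = d + s by omega, show d + i - i = d by omega,
    show d + i + s = d + s + i by omega, Finset.prod_range_add, Finset.prod_range_add _ (d + s),
    mul_assoc, mul_comm (∏ a ∈ Finset.range (d + s), t a)]
  congr 1
  · exact Finset.prod_congr rfl fun a ha => by rw [if_pos (by have := Finset.mem_range.mp ha; omega)]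
  · congr 1
    exact Finset.prod_congr rfl fun a _ => by rw [if_neg (by omega)]; congr 1; omega

theorem const_of_torus {m : ℕ} (hkn : m + 1 < n) {M : Matrix (Fin (m + 1)) (Fin n) ℂ}
    {G : Matrix (Fin (m + 1)) (Fin (m + 1)) ℂ} {t : ℕ → ℂ} (hG : G * G = 1)
    (ht : ∀ j, t j * t j = 1) (h : ∀ r (j : Fin n), t j * ∑ r', G r r' * M r' j = M r j)
    {s : Seed (Vertex (m + 1) n) (RatFn (m + 1) n)} (hs : Reach IsMutable (rectSeed hkn) s)
    (hv : ∀ v, NonvanishingAt M (s.x v)) : ∀ j, j < n → t j = t m := by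
  have inj := IsFractionRing.injective (Coord (m + 1) n) (RatFn (m + 1) n)
  have hinj : Function.Injective ((algebraMap (Coord (m + 1) n) (RatFn (m + 1) n)).comp
      (subst G fun j : Fin n => t j)) := by
    intro f g e
    rw [RingHom.comp_apply, RingHom.comp_apply] at e
    rw [← subst_subst (t := fun j : Fin n => t j) hG (fun j => ht j) f, inj e,
      subst_subst hG fun j => ht j]
  obtain ⟨σ, hσ⟩ : ∃ σ : RatFn (m + 1) n →+* RatFn (m + 1) n, ∀ f,
      σ (algebraMap (Coord (m + 1) n) (RatFn (m + 1) n) f) =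
        algebraMap (Coord (m + 1) n) (RatFn (m + 1) n) (subst G (fun j : Fin n => t j) f) :=
    ⟨IsFractionRing.lift hinj, fun f => IsFractionRing.lift_algebraMap hinj f⟩
  obtain ⟨κ, hκ⟩ : ∃ κ : ℂ →+* RatFn (m + 1) n, ∀ c,
      κ c = algebraMap (Coord (m + 1) n) (RatFn (m + 1) n) (MvPolynomial.C c) :=
    ⟨(algebraMap (Coord (m + 1) n) (RatFn (m + 1) n)).comp MvPolynomial.C, fun _ => rfl⟩
  have hx0 : ∀ u, (rectSeed hkn).x u ≠ 0 := fun u => (ctx hkn M).P_ne ((ctx hkn M).pos₀ u)
  have h0 : ∀ u, rat σ ((rectSeed hkn).x u) = κ (G.det * ∏ j, t (columns hkn u j)) := by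
    intro u
    rw [rat_apply, div_eq_iff (hx0 u)]
    simp only [rectSeed]
    rw [hσ, subst_plucker, map_mul, hκ]
  have ht0 : ∀ j, t j ≠ 0 := fun j => left_ne_zero_of_mul_eq_one (ht j)
  have hP : ∀ j, ∏ a ∈ Finset.range j, t a ≠ 0 :=
    fun j => Finset.prod_ne_zero_iff.mpr fun a _ => ht0 a
  have hD : G.det ≠ 0 := left_ne_zero_of_mul_eq_one (by rw [← det_mul, hG, det_one])
  have hw : ∀ i s, i ≤ m + 1 → s ≤ n - (m + 1) → ∏ j, t (columns hkn (wv m n i s) j) =
      (∏ a ∈ Finset.range (m + 1 - i), t a) * (∏ a ∈ Finset.range (m + 1 + s), t a) /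
        ∏ a ∈ Finset.range (m + 1 + s - i), t a := by
    intro i s hi hs
    rw [eq_div_iff (hP _), ← prod_wv t s hi]
    simp only [columns_wv hkn hi hs]
  have eig := ((ctx hkn M).eig σ κ.fieldRange (fun u => ⟨_, (h0 u).symm⟩) (fun u hu => by
    rcases u with _ | ⟨a, b⟩
    · exact hu.elim
    have ha : a.val < m := by have := hu.1; omega
    have hb := hu.2
    change rat σ (yhat (rectSeed hkn) _) = 1
    rw [yhat_six _ hx0 (rect_B hkn ha hb)]
    simp only [map_div₀, map_mul (rat σ), h0]
    simp only [← map_mul κ, ← map_div₀ κ]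
    rw [← map_one κ]
    congr 1
    rw [hw _ _ (by omega) (by omega), hw _ _ (by omega) (by omega), hw _ _ (by omega) (by omega),
      hw _ _ (by omega) (by omega), hw _ _ (by omega) (by omega), hw _ _ (by omega) (by omega)]
    obtain ⟨c, hc⟩ : ∃ c, m + 1 + b.val = c + (a.val + 1) := ⟨m + b.val - a.val, by omega⟩
    rw [show m + 1 + b.val - (a.val + 1) = c by omega, show m + 1 + b.val - a.val = c + 1 by omega,
      show m + 1 + (b.val + 1) - (a.val + 2) = c by omega,
      show m + 1 + (b.val + 1) - a.val = c + 2 by omega,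
      show m + 1 + (b.val + 2) - (a.val + 2) = c + 1 by omega,
      show m + 1 + (b.val + 2) - (a.val + 1) = c + 2 by omega]
    field_simp [hP, hD]) hs).1
  have fix : ∀ u, σ (s.x u) = s.x u := by
    intro u
    obtain ⟨c, hc⟩ := eig u
    obtain ⟨f, g, hf, hg, e⟩ := hv u
    have hf' := alg_ne (M := M) hf
    have hg' := alg_ne (M := M) hg
    have hg2 : evM M (subst G (fun j : Fin n => t j) g) ≠ 0 := by rw [evM_subst h]; exact hg
    have hne : s.x u ≠ 0 := by rw [e]; exact div_ne_zero hf' hg'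
    rw [rat_apply, eq_div_iff hne] at hc
    have e2 := hc
    rw [e, map_div₀, hσ, hσ, ← mul_div_assoc, div_eq_div_iff hg' (alg_ne hg2)] at e2
    have e3 : MvPolynomial.C c * f * subst G (fun j : Fin n => t j) g =
        subst G (fun j : Fin n => t j) f * g := inj (by simpa only [map_mul, hκ] using e2)
    have e4 := congrArg (evM M) e3
    rw [map_mul, map_mul, map_mul, evM_subst h, evM_subst h] at e4
    have e5 : c = 1 := by
      have : evM M (MvPolynomial.C c) = c := by simp [evM]
      rw [this, mul_assoc] at e4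
      exact (mul_eq_right₀ (mul_ne_zero hf hg)).mp e4
    rw [← hc, e5, map_one, one_mul]
  have one : ∀ u, G.det * ∏ j, t (columns hkn u j) = 1 := by
    intro u
    have e : σ ((rectSeed hkn).x u) = (rectSeed hkn).x u := (ctx hkn M).fix_back σ hs fix u
    have e2 := h0 u
    rw [rat_apply, e, div_self (hx0 u)] at e2
    exact κ.injective (e2.symm.trans (map_one κ).symm)
  have key : ∀ i s, i ≤ m + 1 → s ≤ n - (m + 1) →
      (∏ a ∈ Finset.range (m + 1 - i), t a) * (∏ a ∈ Finset.range (m + 1 + s), t a) =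
        (∏ a ∈ Finset.range (m + 1), t a) * ∏ a ∈ Finset.range (m + 1 + s - i), t a := by
    intro i s hi hs
    have e := mul_left_cancel₀ hD ((one (wv m n i s)).trans (one (wv m n 0 0)).symm)
    rw [hw i s hi hs, hw 0 0 (by omega) (by omega), div_eq_iff (hP _)] at e
    rw [e]
    simp [hP]
  have k1 : ∀ s, s ≤ n - (m + 1) → t (m + s) = t m := by
    intro s hs
    have e := key 1 s (by omega) hs
    rw [show m + 1 + s - 1 = m + s by omega, show m + 1 + s = m + s + 1 by omega,
      Nat.add_sub_cancel, Finset.prod_range_succ, Finset.prod_range_succ] at e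
    have e2 : (∏ a ∈ Finset.range m, t a) * (∏ a ∈ Finset.range (m + s), t a) * t (m + s) =
        (∏ a ∈ Finset.range m, t a) * (∏ a ∈ Finset.range (m + s), t a) * t m := by
      linear_combination e
    exact mul_left_cancel₀ (mul_ne_zero (hP m) (hP (m + s))) e2
  have k2 : ∀ j, j ≤ m + 1 → t j = t (m + 1) := by
    intro j hj
    have e := key (m + 1 - j) 1 (by omega) (by omega)
    rw [show m + 1 - (m + 1 - j) = j by omega, show m + 1 + 1 - (m + 1 - j) = j + 1 by omega,
      Finset.prod_range_succ _ (m + 1), Finset.prod_range_succ _ j] at e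
    have e2 : (∏ a ∈ Finset.range j, t a) * (∏ a ∈ Finset.range (m + 1), t a) * t j =
        (∏ a ∈ Finset.range j, t a) * (∏ a ∈ Finset.range (m + 1), t a) * t (m + 1) := by
      linear_combination -e
    exact mul_left_cancel₀ (mul_ne_zero (hP j) (hP (m + 1))) e2
  intro j hj
  rcases Nat.lt_or_ge j m with g | g
  · rw [k2 j (by omega), k2 m (by omega)]
  · rw [← k1 (j - m) (by omega), show m + (j - m) = j by omega]

theorem noSplit_of_torus (hk : 1 ≤ k) (hkn : k < n) (M : Matrix (Fin k) (Fin n) ℂ)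
    {s : Seed (Vertex k n) (RatFn k n)} (hs : Reach IsMutable (rectSeed hkn) s)
    (hv : ∀ v, NonvanishingAt M (s.x v)) : NoSplit M := by
  classical
  obtain ⟨m, rfl⟩ : ∃ m, k = m + 1 := ⟨k - 1, by omega⟩
  intro S hd
  obtain ⟨U, hU, hc⟩ := hd.exists_isCompl
  set V := Submodule.span ℂ (M.col '' {j | (j.val : ZMod (Nat.gcd (m + 1) n)) ∉ S})
  let g := LinearMap.ofIsCompl hc (-U.subtype) V.subtype
  have g1 : ∀ x, x ∈ U → g x = -x := fun x hx => LinearMap.ofIsCompl_apply_left hc ⟨x, hx⟩
  have g2 : ∀ x, x ∈ V → g x = x := fun x hx => LinearMap.ofIsCompl_apply_right hc ⟨x, hx⟩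
  have gg : g ∘ₗ g = LinearMap.id := by
    refine LinearMap.ext fun x => ?_
    obtain ⟨u, hu, v, hv, rfl⟩ := (Submodule.sup_eq_top_iff U V).mp hc.sup_eq_top x
    simp [g1 u hu, g2 v hv]
  let t : ℕ → ℂ := fun j => if (j : ZMod (Nat.gcd (m + 1) n)) ∈ S then -1 else 1
  have key := const_of_torus hkn (M := M) (G := LinearMap.toMatrix' g) (t := t)
    (by rw [← LinearMap.toMatrix'_comp, gg, LinearMap.toMatrix'_id])
    (fun j => by simp only [t]; split_ifs <;> simp) (fun r j => by
      have e := congrFun (LinearMap.toMatrix'_mulVec g (M.col j)) r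
      simp only [mulVec, dotProduct, col_apply] at e
      rw [e]
      simp only [t]
      split_ifs with h
      · rw [g1 _ (hU (Submodule.subset_span ⟨j, h, rfl⟩))]; simp
      · rw [g2 _ (Submodule.subset_span ⟨j, h, rfl⟩)]; simp) hs hv
  have hpos : 0 < Nat.gcd (m + 1) n := Nat.gcd_pos_of_pos_left _ (by omega)
  have hle : Nat.gcd (m + 1) n ≤ m + 1 := Nat.gcd_le_left _ (by omega)
  have : NeZero (Nat.gcd (m + 1) n) := ⟨hpos.ne'⟩
  by_contra hn
  push Not at hn
  obtain ⟨a, ha⟩ := hn.1
  obtain ⟨b, hb⟩ := (Set.ne_univ_iff_exists_notMem S).mp hn.2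
  have e := (key a.val (by have := a.val_lt; omega)).trans
    (key b.val (by have := b.val_lt; omega)).symm
  simp only [t, ZMod.natCast_zmod_val, if_pos ha, if_neg hb] at e
  norm_num at e

end Pool.Agent.Lib.MP_53bec5_ag
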